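import Pool.Agent.StarkRQ.Base

/-!
PACKAGE SRQ6.  Frobenius elements of `Gal(M/F)`.

As `FrobQ.lean`, but over a number field `F` (`IsGaloisGroup Gal(M/F) (𝓞 F) (𝓞 M)` is an instance).
`toG F M ψ • x = ψ • x` is `rfl` (`toG_smul`). `Ideal.absNorm 𝔮 = Nat.card (𝓞 F ⧸ 𝔮)` by definition
(`Ideal.absNorm_apply`, `Submodule.cardQuot_apply`).
-/

open NumberField
open scoped Pointwise

namespace Pool.Agent.StarkRQ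

section overF

variable {F M : Type*} [Field F] [NumberField F] [Field M] [NumberField M] [Algebra F M]
  [IsGalois F M]

theorem exists_over (𝔮 : Ideal (𝓞 F)) [𝔮.IsPrime] :
    ∃ Q : Ideal (𝓞 M), Q.IsPrime ∧ Q.comap (algebraMap (𝓞 F) (𝓞 M)) = 𝔮 := by
  obtain ⟨Q, hQ, h⟩ := Ideal.exists_ideal_over_prime_of_isIntegral_of_isDomain (S := 𝓞 M) 𝔮 (by
    rw [(RingHom.injective_iff_ker_eq_bot _).mp
      (FaithfulSMul.algebraMap_injective (𝓞 F) (𝓞 M))]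
    exact bot_le)
  exact ⟨Q, hQ, h⟩

theorem exists_cong_over {𝔮 : Ideal (𝓞 F)} [𝔮.IsPrime] (h𝔮 : 𝔮 ≠ ⊥) {Q : Ideal (𝓞 M)}
    [Q.IsPrime] (hQ : Q.comap (algebraMap (𝓞 F) (𝓞 M)) = 𝔮) :
    ∃ ψ : Gal(M/F), Cong (toG F M ψ) Q (Ideal.absNorm 𝔮) := by
  have hQ0 : Q ≠ ⊥ := by
    rintro rfl
    apply h𝔮
    rw [← hQ, Ideal.comap_bot_of_injective _ (FaithfulSMul.algebraMap_injective (𝓞 F) (𝓞 M))]
  have hfin : Finite (𝓞 M ⧸ Q) := Ideal.finiteQuotientOfFreeOfNeBot Q hQ0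
  obtain ⟨ψ, hψ⟩ := IsArithFrobAt.exists_of_isInvariant (R := 𝓞 F) (G := Gal(M/F)) (Q := Q)
  refine ⟨ψ, fun x => ?_⟩
  have h1 := hψ x
  have h2 : Nat.card (𝓞 F ⧸ Q.under (𝓞 F)) = Ideal.absNorm 𝔮 := by
    rw [Ideal.absNorm_apply, Submodule.cardQuot_apply]
    have h3 : Q.under (𝓞 F) = 𝔮 := hQ
    rw [h3]
  rw [h2] at h1
  exact h1

theorem exists_smul_eq_over {𝔮 : Ideal (𝓞 F)} [𝔮.IsPrime] {Q Q' : Ideal (𝓞 M)}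
    [Q.IsPrime] [Q'.IsPrime] (hQ : Q.comap (algebraMap (𝓞 F) (𝓞 M)) = 𝔮)
    (hQ' : Q'.comap (algebraMap (𝓞 F) (𝓞 M)) = 𝔮) :
    ∃ ψ : Gal(M/F), toG F M ψ • Q = Q' := by
  have h : Q.under (𝓞 F) = Q'.under (𝓞 F) := hQ.trans hQ'.symm
  obtain ⟨ψ, hψ⟩ := Algebra.IsInvariant.exists_smul_of_under_eq (𝓞 F) (𝓞 M) Gal(M/F) Q Q' h
  exact ⟨ψ, hψ.symm⟩

end overF

end Pool.Agent.StarkRQ
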