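import Pool.Agent.StarkRQ.FrobQ
import Pool.Agent.StarkRQ.FrobF

/-!
PACKAGE SRQ7.  The Artin symbol of an ideal is well defined (abelian, unramified outside `N`).

* `exists_isFrob`: `exists_over` and `exists_cong_over`.
* `IsFrob.unique`: let `ψ, ψ'` be Frobenius at primes `Q, Q'` of `M` over `𝔮` (note
  `x ∈ 𝔮 ↔ algebraMap x ∈ Q`). Choose `ρ : Gal(M/F)` with `toG ρ • Q = Q'` (`exists_smul_eq_over`);
  `ρ ψ ρ⁻¹ = ψ` is a Frobenius at `Q'` (`Cong.conj`), and `Cong.unique` (the rational prime `p ∈ Q'`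
  below does not divide `discr M`, because `p ∣ absNorm 𝔮` and `absNorm 𝔮` is coprime to `N`).
* `art_prime`: by `exists_cong_over` some `ψ` is a Frobenius at `Q`; it is an Artin symbol of `𝔮`
  (list of length one), so it is `art 𝔮` by `art_spec`.
* `art_spec`: choose `fr 𝔮` a Frobenius for each prime. If `l` is a list as in `HasArtinSymbol 𝔞 σ`, then
  the first components form (as a multiset) `normalizedFactors 𝔞`, all have norm prime to `N` (norm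
  divides `absNorm 𝔞`), so `σ = ((normalizedFactors 𝔞).map fr).prod` (commutative group: put a local
  `CommGroup` instance on `Gal(M/F)` or use permutations of lists). Existence: use the list of
  normalized factors.
* `art_mul`: append the lists. `zcoeff_eq_cnt`: unfold both (ideals of norm `n ≠ 0` are nonzero).
-/

open NumberField
open scoped Pointwise

namespace Pool.Agent.StarkRQ

variable {F M : Type*} [Field F] [NumberField F] [Field M] [NumberField M] [Algebra F M]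
  [IsGalois ℚ M] [IsGalois F M]

omit [NumberField F] [Field M] [NumberField M] [Algebra F M] [IsGalois ℚ M] [IsGalois F M] in
private theorem artSpec_exists_prime {R : Type*} [CommRing R] {P : Ideal R} (hP : P.IsPrime) :
    ∀ n : ℕ, n ≠ 0 → (n : R) ∈ P → ∃ p : ℕ, p.Prime ∧ p ∣ n ∧ (p : R) ∈ P := by
  intro n
  induction n using Nat.recOnMul with
  | zero => intro h; exact absurd rfl h
  | one =>
    intro _ h
    rw [Nat.cast_one] at h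
    exact absurd ((Ideal.eq_top_iff_one P).2 h) hP.ne_top
  | prime p hp => intro _ h; exact ⟨p, hp, dvd_rfl, h⟩
  | mul a b ha hb =>
    intro h0 h
    rw [Nat.cast_mul] at h
    rcases hP.mem_or_mem h with h1 | h1
    · obtain ⟨p, hp, hpa, hpP⟩ := ha (left_ne_zero_of_mul h0) h1
      exact ⟨p, hp, hpa.mul_right b, hpP⟩
    · obtain ⟨p, hp, hpa, hpP⟩ := hb (right_ne_zero_of_mul h0) h1
      exact ⟨p, hp, hpa.mul_left a, hpP⟩

theorem IsFrob.unique (hab : ∀ σ τ : Gal(M/F), σ * τ = τ * σ) {N : ℕ}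
    (hram : ∀ p : ℕ, p.Prime → (p : ℤ) ∣ discr M → p ∣ N) {𝔮 : Ideal (𝓞 F)} (h𝔮 : 𝔮.IsPrime)
    (h0 : 𝔮 ≠ ⊥) (hN : (Ideal.absNorm 𝔮).Coprime N) {ψ ψ' : Gal(M/F)} (h : IsFrob 𝔮 ψ)
    (h' : IsFrob 𝔮 ψ') : ψ = ψ' := by
  obtain ⟨Q, hQ, hQ𝔮, hc⟩ := h
  obtain ⟨Q', hQ', hQ'𝔮, hc'⟩ := h'
  have h1 : Cong (toG F M ψ) Q (Ideal.absNorm 𝔮) := hc
  have h2 : Cong (toG F M ψ') Q' (Ideal.absNorm 𝔮) := hc'
  obtain ⟨ρ, hρ⟩ := exists_smul_eq_over hQ𝔮 hQ'𝔮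
  have h3 := h1.conj (toG F M ρ)
  rw [hρ, ← map_inv, ← map_mul, ← map_mul, hab ρ ψ, mul_inv_cancel_right] at h3
  have hne : Ideal.absNorm 𝔮 ≠ 0 := fun h => h0 (Ideal.absNorm_eq_zero_iff.1 h)
  obtain ⟨p, hp, hpd, hpP⟩ := artSpec_exists_prime h𝔮 _ hne (Ideal.absNorm_mem 𝔮)
  have hpN : ¬ (p : ℤ) ∣ discr M := fun h => by
    have h4 : p ∣ Nat.gcd (Ideal.absNorm 𝔮) N := Nat.dvd_gcd hpd (hram p hp h)
    rw [hN] at h4
    exact hp.one_lt.ne' (Nat.dvd_one.1 h4)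
  have hpQ : (p : 𝓞 M) ∈ Q' := by
    rw [← hQ'𝔮, Ideal.mem_comap, map_natCast] at hpP
    exact hpP
  exact toG_injective (Cong.unique hp hpN hpQ h3 h2)

theorem exists_isFrob {𝔮 : Ideal (𝓞 F)} (h𝔮 : 𝔮.IsPrime) (h0 : 𝔮 ≠ ⊥) :
    ∃ ψ : Gal(M/F), IsFrob 𝔮 ψ := by
  obtain ⟨Q, hQ, hQ𝔮⟩ := exists_over (M := M) 𝔮
  obtain ⟨ψ, hψ⟩ := exists_cong_over h0 hQ𝔮
  exact ⟨ψ, Q, hQ, hQ𝔮, hψ⟩

private theorem artSpec_unique (hab : ∀ σ τ : Gal(M/F), σ * τ = τ * σ) {N : ℕ}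
    (hram : ∀ p : ℕ, p.Prime → (p : ℤ) ∣ discr M → p ∣ N) {𝔞 : Ideal (𝓞 F)}
    (hN : (Ideal.absNorm 𝔞).Coprime N) {σ σ' : Gal(M/F)}
    (h : HasArtinSymbol 𝔞 σ) (h' : HasArtinSymbol 𝔞 σ') : σ = σ' := by
  classical
  let fr : Ideal (𝓞 F) → Gal(M/F) := fun 𝔮 =>
    if h : 𝔮.IsPrime ∧ 𝔮 ≠ ⊥ then (exists_isFrob (M := M) h.1 h.2).choose else 1
  have hfr : ∀ 𝔮 : Ideal (𝓞 F), 𝔮.IsPrime → 𝔮 ≠ ⊥ → IsFrob 𝔮 (fr 𝔮) := by
    intro 𝔮 h1 h2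
    have h3 : 𝔮.IsPrime ∧ 𝔮 ≠ ⊥ := ⟨h1, h2⟩
    simp only [fr, dif_pos h3]
    exact (exists_isFrob (M := M) h3.1 h3.2).choose_spec
  have key : ∀ l : List (Ideal (𝓞 F) × Gal(M/F)),
      (∀ x ∈ l, x.1.IsPrime ∧ x.1 ≠ ⊥ ∧ IsFrob x.1 x.2) → (l.map Prod.fst).prod = 𝔞 →
      l.map Prod.snd = (l.map Prod.fst).map fr := by
    intro l hl hp
    rw [List.map_map]
    refine List.map_congr_left fun x hx => ?_
    obtain ⟨h1, h2, h3⟩ := hl x hx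
    refine IsFrob.unique hab hram h1 h2 ?_ h3 (hfr _ h1 h2)
    refine Nat.Coprime.coprime_dvd_left ?_ hN
    apply Ideal.absNorm_dvd_absNorm_of_le
    rw [← Ideal.dvd_iff_le, ← hp]
    exact List.dvd_prod (List.mem_map_of_mem hx)
  obtain ⟨l, hl, hp, rfl⟩ := h
  obtain ⟨l', hl', hp', rfl⟩ := h'
  rw [key l hl hp, key l' hl' hp']
  have hperm : (l.map Prod.fst).Perm (l'.map Prod.fst) := by
    apply perm_of_prod_eq_prod (hp.trans hp'.symm)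
    · intro q hq
      obtain ⟨x, hx, rfl⟩ := List.mem_map.1 hq
      exact Ideal.prime_of_isPrime (hl x hx).2.1 (hl x hx).1
    · intro q hq
      obtain ⟨x, hx, rfl⟩ := List.mem_map.1 hq
      exact Ideal.prime_of_isPrime (hl' x hx).2.1 (hl' x hx).1
  refine (hperm.map fr).prod_eq' ?_
  exact List.pairwise_of_forall (fun a b => hab a b)

private theorem artSpec_exists {𝔞 : Ideal (𝓞 F)} (h0 : 𝔞 ≠ ⊥) :
    ∃ σ : Gal(M/F), HasArtinSymbol 𝔞 σ := by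
  classical
  let fr : Ideal (𝓞 F) → Gal(M/F) := fun 𝔮 =>
    if h : 𝔮.IsPrime ∧ 𝔮 ≠ ⊥ then (exists_isFrob (M := M) h.1 h.2).choose else 1
  have hfr : ∀ 𝔮 : Ideal (𝓞 F), 𝔮.IsPrime → 𝔮 ≠ ⊥ → IsFrob 𝔮 (fr 𝔮) := by
    intro 𝔮 h1 h2
    have h3 : 𝔮.IsPrime ∧ 𝔮 ≠ ⊥ := ⟨h1, h2⟩
    simp only [fr, dif_pos h3]
    exact (exists_isFrob (M := M) h3.1 h3.2).choose_spec
  let l : List (Ideal (𝓞 F)) := (UniqueFactorizationMonoid.normalizedFactors 𝔞).toList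
  refine ⟨_, l.map (fun 𝔮 => (𝔮, fr 𝔮)), ?_, ?_, rfl⟩
  · intro x hx
    obtain ⟨𝔮, hq, rfl⟩ := List.mem_map.1 hx
    have h1 := UniqueFactorizationMonoid.prime_of_normalized_factor 𝔮 (Multiset.mem_toList.1 hq)
    have h2 := Ideal.isPrime_of_prime h1
    exact ⟨h2, h1.ne_zero, hfr 𝔮 h2 h1.ne_zero⟩
  · rw [List.map_map]
    have h1 : (Prod.fst ∘ fun 𝔮 : Ideal (𝓞 F) => (𝔮, fr 𝔮)) = id := rfl
    rw [h1, List.map_id, Multiset.prod_toList]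
    exact (UniqueFactorizationMonoid.prod_normalizedFactors_eq h0).trans (normalize_eq 𝔞)

/-- the Artin symbol is well defined -/
theorem art_spec (hab : ∀ σ τ : Gal(M/F), σ * τ = τ * σ) {N : ℕ}
    (hram : ∀ p : ℕ, p.Prime → (p : ℤ) ∣ discr M → p ∣ N) {𝔞 : Ideal (𝓞 F)} (h0 : 𝔞 ≠ ⊥)
    (hN : (Ideal.absNorm 𝔞).Coprime N) (σ : Gal(M/F)) :
    HasArtinSymbol 𝔞 σ ↔ σ = art 𝔞 := by
  have h1 : ∃ σ : Gal(M/F), HasArtinSymbol 𝔞 σ := artSpec_exists h0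
  have h2 : HasArtinSymbol 𝔞 (art 𝔞 : Gal(M/F)) := by
    rw [art, dif_pos h1]
    exact h1.choose_spec
  constructor
  · intro h
    exact artSpec_unique hab hram hN h h2
  · intro h
    rw [h]
    exact h2

theorem art_mul (hab : ∀ σ τ : Gal(M/F), σ * τ = τ * σ) {N : ℕ}
    (hram : ∀ p : ℕ, p.Prime → (p : ℤ) ∣ discr M → p ∣ N) (𝔞 𝔟 : Ideal (𝓞 F)) (h0 : 𝔞 ≠ ⊥)
    (h0' : 𝔟 ≠ ⊥) (hN : (Ideal.absNorm 𝔞).Coprime N) (hN' : (Ideal.absNorm 𝔟).Coprime N) :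
    art (𝔞 * 𝔟) = (art 𝔞 * art 𝔟 : Gal(M/F)) := by
  obtain ⟨l, hl, hp, hs⟩ := (art_spec hab hram h0 hN (art 𝔞)).2 rfl
  obtain ⟨l', hl', hp', hs'⟩ := (art_spec hab hram h0' hN' (art 𝔟)).2 rfl
  have h1 : 𝔞 * 𝔟 ≠ ⊥ := by
    rw [← Ideal.zero_eq_bot] at h0 h0' ⊢
    exact mul_ne_zero h0 h0'
  have h2 : (Ideal.absNorm (𝔞 * 𝔟)).Coprime N := by
    rw [map_mul]
    exact Nat.Coprime.mul_left hN hN'
  symm
  refine (art_spec hab hram h1 h2 _).1 ⟨l ++ l', ?_, ?_, ?_⟩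
  · intro x hx
    rcases List.mem_append.1 hx with h | h
    · exact hl x h
    · exact hl' x h
  · rw [List.map_append, List.prod_append, hp, hp']
  · rw [List.map_append, List.prod_append, hs, hs']

theorem art_prime (hab : ∀ σ τ : Gal(M/F), σ * τ = τ * σ) {N : ℕ}
    (hram : ∀ p : ℕ, p.Prime → (p : ℤ) ∣ discr M → p ∣ N) {𝔮 : Ideal (𝓞 F)} (h𝔮 : 𝔮.IsPrime)
    (h0 : 𝔮 ≠ ⊥) (hN : (Ideal.absNorm 𝔮).Coprime N) {Q : Ideal (𝓞 M)} [Q.IsPrime]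
    (hQ : Q.comap (algebraMap (𝓞 F) (𝓞 M)) = 𝔮) : 
    Cong (toG F M (art 𝔮)) Q (Ideal.absNorm 𝔮) := by
  obtain ⟨ψ, hψ⟩ := exists_cong_over (M := M) h0 hQ
  have h1 : HasArtinSymbol 𝔮 ψ := by
    refine ⟨[(𝔮, ψ)], ?_, ?_, ?_⟩
    · intro x hx
      rw [List.mem_singleton] at hx
      rw [hx]
      exact ⟨h𝔮, h0, Q, inferInstance, hQ, hψ⟩
    · simp
    · simp
  rw [← (art_spec hab hram h0 hN ψ).1 h1]
  exact hψ

theorem zcoeff_eq_cnt (hab : ∀ σ τ : Gal(M/F), σ * τ = τ * σ) {N : ℕ}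
    (hram : ∀ p : ℕ, p.Prime → (p : ℤ) ∣ discr M → p ∣ N) {n : ℕ} (hn : n ≠ 0)
    (hN : n.Coprime N) (σ : Gal(M/F)) : zcoeff N σ n = cnt F M n (toG F M σ) := by
  rw [zcoeff, if_pos hN, cnt]
  refine Nat.card_congr (Equiv.subtypeEquivRight fun 𝔞 => ?_)
  refine and_congr_right fun h => ?_
  have h0 : 𝔞 ≠ ⊥ := by
    rintro rfl
    rw [Ideal.absNorm_bot] at h
    exact hn h.symm
  rw [art_spec hab hram h0 (by rw [h]; exact hN) σ]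
  constructor
  · intro h1
    rw [h1]
  · intro h1
    exact (toG_injective h1).symm

end Pool.Agent.StarkRQ
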