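import Mathlib

/-!
# Stark units: definitions

Frobenius elements, Artin symbols of ideals, partial zeta functions of a finite extension `L/F` of
number fields and Stark units of an abelian extension of an imaginary quadratic field.
-/

open NumberField

namespace Pool.Agent.StarkRQ

variable {F L : Type*} [Field F] [NumberField F] [Field L] [NumberField L] [Algebra F L]

/-- `φ ∈ Gal(L/F)` is a Frobenius element at the prime `𝔭` of `F`: there is a prime `𝔓` of `L` over
`𝔭` with `φ x ≡ x ^ N(𝔭)` modulo `𝔓` for all integers `x` of `L`. -/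
def IsFrob (𝔭 : Ideal (𝓞 F)) (φ : Gal(L/F)) : Prop :=
  ∃ 𝔓 : Ideal (𝓞 L), 𝔓.IsPrime ∧ 𝔓.comap (algebraMap (𝓞 F) (𝓞 L)) = 𝔭 ∧
    ∀ x : 𝓞 L, φ • x - x ^ Ideal.absNorm 𝔭 ∈ 𝔓

/-- `σ` is the Artin symbol of the integral ideal `𝔞` of `F`: one can write
`𝔞 = 𝔭₁ ⋯ 𝔭ᵣ` with nonzero primes `𝔭ᵢ` and `σ = φ₁ ⋯ φᵣ` with `φᵢ` a Frobenius element at `𝔭ᵢ`. -/
def HasArtinSymbol (𝔞 : Ideal (𝓞 F)) (σ : Gal(L/F)) : Prop :=
  ∃ l : List (Ideal (𝓞 F) × Gal(L/F)),
    (∀ x ∈ l, x.1.IsPrime ∧ x.1 ≠ ⊥ ∧ IsFrob x.1 x.2) ∧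
      (l.map Prod.fst).prod = 𝔞 ∧ (l.map Prod.snd).prod = σ

/-- The number of integral ideals of `F` of norm `n` with Artin symbol `σ`, if `n` is prime to `N`
(and `0` otherwise): the `n`-th coefficient of the partial zeta function. -/
noncomputable def zcoeff (N : ℕ) (σ : Gal(L/F)) (n : ℕ) : ℕ :=
  if n.Coprime N then
    Nat.card {𝔞 : Ideal (𝓞 F) // Ideal.absNorm 𝔞 = n ∧ HasArtinSymbol 𝔞 σ}
  else 0

/-- `Z` is the partial zeta function `ζ(s, σ) = ∑ N(𝔞)^{-s}`, the sum over the integral ideals `𝔞`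
of `F` prime to `N` with Artin symbol `σ`, continued analytically to `ℂ ∖ {1}`. -/
def IsPartialZeta (N : ℕ) (σ : Gal(L/F)) (Z : ℂ → ℂ) : Prop :=
  DifferentiableOn ℂ Z {1}ᶜ ∧
    ∀ s : ℂ, 1 < s.re → Z s = LSeries (fun n => (zcoeff N σ n : ℂ)) s

variable (F) in
/-- `η ∈ L` is a Stark unit of `L/F` for the place of `L` given by the embedding `ι` (complex on
`F`) and the set `S` consisting of the infinite places and the primes dividing `N`:
`ζ'(0, σ) = -(1/w) log |ι (σ η)|²` for all `σ ∈ Gal(L/F)`, where `w` is the number of roots of unity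
of `L`; `L(η^{1/w})` is contained in an abelian extension of `F`; and `g η / η` is integral for all
automorphisms `g` of the field `L`. (In the usual definition `η` is a unit if at least two primes of
`F` divide `N`; if there is only one such prime `𝔭`, then `η` is a unit outside `𝔭` and has the same
valuation at all primes over `𝔭`. In both cases the quotients `g η / η` are units.) -/
structure IsStarkUnit (ι : L →+* ℂ) (N : ℕ) (η : L) : Prop where
  ne_zero : η ≠ 0
  isIntegral : ∀ g : L ≃+* L, IsIntegral ℤ (g η / η)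
  deriv_zeta : ∀ σ : Gal(L/F), ∃ Z : ℂ → ℂ, IsPartialZeta N σ Z ∧
    deriv Z 0 = -(1 / (Units.torsionOrder L : ℂ)) * Real.log (‖ι (σ η)‖ ^ 2)
  abelian : ∃ (E : Type) (_ : Field E) (_ : Algebra F E) (_ : Algebra L E)
    (_ : IsScalarTower F L E), IsAbelianGalois F E ∧
      ∃ y : E, y ^ Units.torsionOrder L = algebraMap L E η

end Pool.Agent.StarkRQ
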