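import Pool.Agent.StarkRQ.Base

/-!
Analytic input: convergence of the zeta functions of the classes, and the identity theorem.
-/

open NumberField Filter Topology

namespace Pool.Agent.StarkRQ

section

variable (F : Type*) [Field F] [NumberField F]

theorem Analytic.card_summable {s : ℂ} (hs : 1 < s.re) :
    LSeriesSummable (fun n => (Nat.card {I : Ideal (𝓞 F) // Ideal.absNorm I = n} : ℂ)) s := by
  have hT : Tendsto (fun n : ℕ => (∑ k ∈ Finset.Icc 1 n,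
      (Nat.card {I : Ideal (𝓞 F) // Ideal.absNorm I = k} : ℝ)) / (n : ℝ)) atTop
      (𝓝 (dedekindZeta_residue F)) := by
    refine ((Ideal.tendsto_norm_le_div_atTop₀ F).comp tendsto_natCast_atTop_atTop).congr
      fun n ↦ ?_
    simp only [Function.comp_apply, Nat.cast_le, ← Nat.cast_sum]
    congr
    rw [← add_left_inj 1, ← Ideal.card_norm_le_eq_card_norm_le_add_one,
      show Finset.Icc 1 n = Finset.Ioc 0 n from Finset.Icc_succ_left_eq_Ioc _ _,
      show 1 = Nat.card {I : Ideal (𝓞 F) // Ideal.absNorm I = 0} by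
        simp [Ideal.absNorm_eq_zero_iff],
      Finset.sum_Ioc_add_eq_sum_Icc (n.zero_le),
      ← Finset.card_preimage_eq_sum_card_image_eq
        (fun k _ ↦ Ideal.finite_setOfPred_absNorm_eq k)]
    simp [Set.coe_eq_subtype]
  have hO : (fun n : ℕ => ∑ k ∈ Finset.Icc 1 n,
      (Nat.card {I : Ideal (𝓞 F) // Ideal.absNorm I = k} : ℝ)) =O[atTop]
      fun n : ℕ => (n : ℝ) ^ (1 : ℝ) := by
    refine Asymptotics.isBigO_of_div_tendsto_nhds ?_ (dedekindZeta_residue F) ?_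
    · filter_upwards [eventually_ne_atTop 0] with n hn h
      exfalso
      rw [Real.rpow_one] at h
      exact hn (by exact_mod_cast h)
    · refine hT.congr fun n => ?_
      simp
  exact_mod_cast LSeriesSummable_of_sum_norm_bigO_and_nonneg hO (fun _ => Nat.cast_nonneg _)
    zero_le_one hs

end

variable {F L : Type*} [Field F] [NumberField F] [Field L] [NumberField L] [Algebra F L]
  {F' L' : Type*} [Field F'] [NumberField F'] [Field L'] [NumberField L'] [Algebra F' L']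

theorem Analytic.zcoeff_le (N : ℕ) (σ : Gal(L/F)) (n : ℕ) :
    zcoeff N σ n ≤ Nat.card {I : Ideal (𝓞 F) // Ideal.absNorm I = n} := by
  unfold zcoeff
  split_ifs
  · have hfin : Finite {I : Ideal (𝓞 F) // Ideal.absNorm I = n} :=
      Ideal.finite_setOfPred_absNorm_eq n
    exact Nat.card_le_card_of_injective
      (fun x : {𝔞 : Ideal (𝓞 F) // Ideal.absNorm 𝔞 = n ∧ HasArtinSymbol 𝔞 σ} =>
        (⟨x.1, x.2.1⟩ : {I : Ideal (𝓞 F) // Ideal.absNorm I = n}))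
      (fun x y h => Subtype.ext (Subtype.mk.inj h))
  · exact Nat.zero_le _

theorem zcoeff_summable (N : ℕ) (σ : Gal(L/F)) {s : ℂ} (hs : 1 < s.re) :
    LSeriesSummable (fun n => (zcoeff N σ n : ℂ)) s := by
  refine Summable.of_norm_bounded (Analytic.card_summable F hs).norm fun n => ?_
  refine LSeries.norm_term_le s ?_
  simp only [Complex.norm_natCast]
  exact_mod_cast Analytic.zcoeff_le N σ n

theorem deriv_sub_eq {N : ℕ} {σ₁ σ₂ : Gal(L/F)} {τ₁ τ₂ : Gal(L'/F')} {Z₁ Z₂ W₁ W₂ : ℂ → ℂ}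
    (h₁ : IsPartialZeta N σ₁ Z₁) (h₂ : IsPartialZeta N σ₂ Z₂)
    (g₁ : IsPartialZeta N τ₁ W₁) (g₂ : IsPartialZeta N τ₂ W₂)
    (hc : ∀ n : ℕ, n ≠ 0 → (zcoeff N σ₁ n : ℤ) - zcoeff N σ₂ n = (zcoeff N τ₁ n : ℤ) - zcoeff N τ₂ n) :
    deriv Z₁ 0 - deriv Z₂ 0 = deriv W₁ 0 - deriv W₂ 0 := by
  have hopen : IsOpen ({1}ᶜ : Set ℂ) := isOpen_compl_singleton
  have hmem : (0 : ℂ) ∈ ({1}ᶜ : Set ℂ) := by simp
  have hZ : AnalyticOnNhd ℂ (fun s => Z₁ s - Z₂ s) {1}ᶜ :=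
    (h₁.1.sub h₂.1).analyticOnNhd hopen
  have hW : AnalyticOnNhd ℂ (fun s => W₁ s - W₂ s) {1}ᶜ :=
    (g₁.1.sub g₂.1).analyticOnNhd hopen
  have hconn : IsPreconnected ({1}ᶜ : Set ℂ) :=
    (isConnected_compl_singleton_of_one_lt_rank (by simp) 1).isPreconnected
  have heq : ∀ s : ℂ, 1 < s.re → Z₁ s - Z₂ s = W₁ s - W₂ s := by
    intro s hs
    rw [h₁.2 s hs, h₂.2 s hs, g₁.2 s hs, g₂.2 s hs,
      ← LSeries_sub (zcoeff_summable N σ₁ hs) (zcoeff_summable N σ₂ hs),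
      ← LSeries_sub (zcoeff_summable N τ₁ hs) (zcoeff_summable N τ₂ hs)]
    refine LSeries_congr (fun {n} hn => ?_) s
    simp only [Pi.sub_apply]
    exact_mod_cast hc n hn
  have hev : (fun s => Z₁ s - Z₂ s) =ᶠ[𝓝 (2 : ℂ)] fun s => W₁ s - W₂ s := by
    have ho : IsOpen {s : ℂ | 1 < s.re} := isOpen_lt continuous_const Complex.continuous_re
    filter_upwards [ho.mem_nhds (show (2 : ℂ) ∈ {s : ℂ | 1 < s.re} by simp)] with s hs
    exact heq s hs
  have hall := hZ.eqOn_of_preconnected_of_eventuallyEq hW hconn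
    (show (2 : ℂ) ∈ ({1}ᶜ : Set ℂ) by simp) hev
  have h0 : (fun s => Z₁ s - Z₂ s) =ᶠ[𝓝 (0 : ℂ)] fun s => W₁ s - W₂ s := by
    filter_upwards [hopen.mem_nhds hmem] with s hs
    exact hall hs
  have hd := h0.deriv_eq
  have hZ₁ : DifferentiableAt ℂ Z₁ 0 := h₁.1.differentiableAt (hopen.mem_nhds hmem)
  have hZ₂ : DifferentiableAt ℂ Z₂ 0 := h₂.1.differentiableAt (hopen.mem_nhds hmem)
  have hW₁ : DifferentiableAt ℂ W₁ 0 := g₁.1.differentiableAt (hopen.mem_nhds hmem)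
  have hW₂ : DifferentiableAt ℂ W₂ 0 := g₂.1.differentiableAt (hopen.mem_nhds hmem)
  have e1 : deriv (fun s => Z₁ s - Z₂ s) 0 = deriv Z₁ 0 - deriv Z₂ 0 :=
    (hZ₁.hasDerivAt.sub hZ₂.hasDerivAt).deriv
  have e2 : deriv (fun s => W₁ s - W₂ s) 0 = deriv W₁ 0 - deriv W₂ 0 :=
    (hW₁.hasDerivAt.sub hW₂.hasDerivAt).deriv
  rw [← e1, ← e2, hd]

end Pool.Agent.StarkRQ
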