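import Pool.Agent.StarkRQ.Lift
import Pool.Agent.StarkRQ.Analytic

/-!
Comparison of the coefficients of the partial zeta functions of `H/K` and `M/k` for an arbitrary
subfield `H` of `M` containing `K`.
-/

open NumberField Module Filter Topology

namespace Pool.Agent.StarkRQ

section

variable {K k H M : Type*} [Field K] [NumberField K] [Field k] [NumberField k] [Field H]
  [NumberField H] [Field M] [NumberField M] [Algebra K M] [Algebra k M] [Algebra K H]
  [Algebra H M] [IsScalarTower K H M] [IsGalois ℚ M] [IsGalois K M] [IsGalois k M] [IsGalois K H]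

theorem zcoeff_sub_sum (hK : finrank ℚ K = 2) (hk : finrank ℚ k = 2)
    (hA : ∀ σ τ : Gal(M/K), σ * τ = τ * σ) (hB : ∀ σ τ : Gal(M/k), σ * τ = τ * σ) {N : ℕ}
    (hN : N ≠ 0) (hram : ∀ p : ℕ, p.Prime → (p : ℤ) ∣ discr M → p ∣ N)
    {z : Gal(M/ℚ)} (hz : ZData (fixG K M) (fixG k M) z)
    {zK : Gal(M/K)} {zk : Gal(M/k)} (hzK : toG K M zK = z) (hzk : toG k M zk = z)
    (σ : Gal(H/K)) (S : Finset Gal(M/k))
    (hS : ∀ t : Gal(M/k), t ∈ S ↔ ∃ s : Gal(M/K), toG K M s = toG k M t ∧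
      AlgEquiv.restrictNormalHom H s = σ) (n : ℕ) (hn : n ≠ 0) :
    (zcoeff N σ n : ℤ) - zcoeff N (AlgEquiv.restrictNormalHom H zK * σ) n =
      ∑ t ∈ S, ((zcoeff N t n : ℤ) - zcoeff N (zk * t) n) := by
  classical
  by_cases hco : n.Coprime N
  swap
  · simp [zcoeff, hco]
  obtain ⟨h1, h2⟩ := dcnt_eq hK hk hA hB hN hram hz n hn hco
  -- the sums over the lifts
  set T : Finset Gal(M/K) := Finset.univ.filter fun s => AlgEquiv.restrictNormalHom H s = σ with hT
  have hsum : ∀ (ρ : Gal(H/K)), (zcoeff N ρ n : ℤ) =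
      ∑ s ∈ Finset.univ.filter (fun s : Gal(M/K) => AlgEquiv.restrictNormalHom H s = ρ),
        (cnt K M n (toG K M s) : ℤ) := by
    intro ρ
    rw [zcoeff_restrict (M := M) hA hram _ n hn, finsum_eq_sum_of_fintype]
    push_cast
    symm
    rw [← Finset.sum_subtype (Finset.univ.filter fun s : Gal(M/K) =>
      AlgEquiv.restrictNormalHom H s = ρ) (by simp) (fun s => (zcoeff N s n : ℤ))]
    refine Finset.sum_congr rfl fun s _ => ?_
    rw [zcoeff_eq_cnt hA hram hn hco]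
  have hz2 : (∑ s ∈ Finset.univ.filter (fun s : Gal(M/K) => AlgEquiv.restrictNormalHom H s =
      AlgEquiv.restrictNormalHom H zK * σ), (cnt K M n (toG K M s) : ℤ)) =
      ∑ s ∈ T, (cnt K M n (z * toG K M s) : ℤ) := by
    symm
    refine Finset.sum_bij (fun s _ => zK * s) ?_ ?_ ?_ ?_
    · intro s hs
      simp only [hT, Finset.mem_filter, Finset.mem_univ, true_and] at hs ⊢
      rw [map_mul, hs]
    · intro s _ t _ h
      exact mul_left_cancel h
    · intro s hs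
      simp only [Finset.mem_filter, Finset.mem_univ, true_and] at hs
      refine ⟨zK⁻¹ * s, ?_, mul_inv_cancel_left _ _⟩
      simp only [hT, Finset.mem_filter, Finset.mem_univ, true_and]
      rw [map_mul, map_inv, hs, inv_mul_cancel_left]
    · intro s _
      rw [map_mul, hzK]
  rw [hsum, hsum, hz2, ← Finset.sum_sub_distrib]
  have h3 : ∀ s ∈ T, (cnt K M n (toG K M s) : ℤ) - cnt K M n (z * toG K M s) =
      dcnt K M z n (toG K M s) := fun s _ => rfl
  rw [Finset.sum_congr rfl h3]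
  rw [← Finset.sum_filter_add_sum_filter_not T (fun s => toG K M s ∈ fixG k M)]
  have h4 : ∑ s ∈ T.filter (fun s => ¬ toG K M s ∈ fixG k M), dcnt K M z n (toG K M s) = 0 := by
    refine Finset.sum_eq_zero fun s hs => ?_
    rw [Finset.mem_filter] at hs
    exact h2 _ fun h => hs.2 h.2
  rw [h4, add_zero]
  symm
  -- bijection
  have hex : ∀ t ∈ S, ∃ s : Gal(M/K), toG K M s = toG k M t ∧
      AlgEquiv.restrictNormalHom H s = σ := fun t ht => (hS t).1 ht
  refine Finset.sum_bij (fun t ht => (hex t ht).choose) ?_ ?_ ?_ ?_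
  · intro t ht
    have h5 := (hex t ht).choose_spec
    rw [Finset.mem_filter]
    refine ⟨?_, ⟨t, h5.1.symm⟩⟩
    simp only [hT, Finset.mem_filter, Finset.mem_univ, true_and]
    exact h5.2
  · intro t ht t' ht' h
    have h5 := (hex t ht).choose_spec.1
    have h6 := (hex t' ht').choose_spec.1
    apply toG_injective
    rw [← h5, ← h6, h]
  · intro s hs
    rw [Finset.mem_filter] at hs
    obtain ⟨t, ht⟩ := hs.2
    have hs1 : AlgEquiv.restrictNormalHom H s = σ := by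
      simpa only [hT, Finset.mem_filter, Finset.mem_univ, true_and] using hs.1
    have htS : t ∈ S := (hS t).2 ⟨s, ht.symm, hs1⟩
    refine ⟨t, htS, ?_⟩
    apply toG_injective
    rw [(hex t htS).choose_spec.1, ht]
  · intro t ht
    have h5 := (hex t ht).choose_spec
    rw [h5.1, h1, zcoeff_eq_cnt hB hram hn hco, zcoeff_eq_cnt hB hram hn hco, map_mul, hzk]
    rfl

end

section analytic

variable {F L : Type*} [Field F] [NumberField F] [Field L] [NumberField L] [Algebra F L]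
  {F' L' : Type*} [Field F'] [NumberField F'] [Field L'] [NumberField L'] [Algebra F' L']

theorem deriv_sum_eq {N : ℕ} {σ₁ σ₂ : Gal(L/F)} {Z₁ Z₂ : ℂ → ℂ} (S : Finset Gal(L'/F'))
    (τ : Gal(L'/F') → Gal(L'/F')) {W : Gal(L'/F') → ℂ → ℂ}
    (h₁ : IsPartialZeta N σ₁ Z₁) (h₂ : IsPartialZeta N σ₂ Z₂)
    (g : ∀ t, IsPartialZeta N t (W t))
    (hc : ∀ n : ℕ, n ≠ 0 → (zcoeff N σ₁ n : ℤ) - zcoeff N σ₂ n =
      ∑ t ∈ S, ((zcoeff N t n : ℤ) - zcoeff N (τ t) n)) :
    deriv Z₁ 0 - deriv Z₂ 0 = ∑ t ∈ S, (deriv (W t) 0 - deriv (W (τ t)) 0) := by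
  have hopen : IsOpen ({1}ᶜ : Set ℂ) := isOpen_compl_singleton
  have hmem : (0 : ℂ) ∈ ({1}ᶜ : Set ℂ) := by simp
  have hZ : AnalyticOnNhd ℂ (fun s => Z₁ s - Z₂ s) {1}ᶜ :=
    (h₁.1.sub h₂.1).analyticOnNhd hopen
  have hWd : DifferentiableOn ℂ (fun s => ∑ t ∈ S, (W t s - W (τ t) s)) {1}ᶜ :=
    DifferentiableOn.fun_sum fun t _ => (g t).1.sub (g (τ t)).1
  have hW : AnalyticOnNhd ℂ (fun s => ∑ t ∈ S, (W t s - W (τ t) s)) {1}ᶜ :=
    hWd.analyticOnNhd hopen
  have hconn : IsPreconnected ({1}ᶜ : Set ℂ) :=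
    (isConnected_compl_singleton_of_one_lt_rank (by simp) 1).isPreconnected
  have heq : ∀ s : ℂ, 1 < s.re → Z₁ s - Z₂ s = ∑ t ∈ S, (W t s - W (τ t) s) := by
    intro s hs
    have e1 : ∀ t ∈ S, W t s - W (τ t) s =
        ∑' n, LSeries.term (fun n => ((zcoeff N t n : ℂ) - (zcoeff N (τ t) n : ℂ))) s n := by
      intro t _
      rw [(g t).2 s hs, (g (τ t)).2 s hs,
        ← LSeries_sub (zcoeff_summable N t hs) (zcoeff_summable N (τ t) hs)]
      rfl
    have e2 : ∀ t ∈ S, Summable fun n =>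
        LSeries.term (fun n => ((zcoeff N t n : ℂ) - (zcoeff N (τ t) n : ℂ))) s n := fun t _ =>
      (zcoeff_summable N t hs).sub (zcoeff_summable N (τ t) hs)
    rw [Finset.sum_congr rfl e1, ← Summable.tsum_finsetSum e2, h₁.2 s hs, h₂.2 s hs,
      ← LSeries_sub (zcoeff_summable N σ₁ hs) (zcoeff_summable N σ₂ hs)]
    refine tsum_congr fun n => ?_
    rcases eq_or_ne n 0 with rfl | hn
    · simp
    · simp only [LSeries.term_of_ne_zero hn, Pi.sub_apply]
      rw [← Finset.sum_div]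
      congr 1
      exact_mod_cast hc n hn
  have hev : (fun s => Z₁ s - Z₂ s) =ᶠ[𝓝 (2 : ℂ)] fun s => ∑ t ∈ S, (W t s - W (τ t) s) := by
    have ho : IsOpen {s : ℂ | 1 < s.re} := isOpen_lt continuous_const Complex.continuous_re
    filter_upwards [ho.mem_nhds (show (2 : ℂ) ∈ {s : ℂ | 1 < s.re} by simp)] with s hs
    exact heq s hs
  have hall := hZ.eqOn_of_preconnected_of_eventuallyEq hW hconn
    (show (2 : ℂ) ∈ ({1}ᶜ : Set ℂ) by simp) hev
  have h0 : (fun s => Z₁ s - Z₂ s) =ᶠ[𝓝 (0 : ℂ)] fun s => ∑ t ∈ S, (W t s - W (τ t) s) := by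
    filter_upwards [hopen.mem_nhds hmem] with s hs
    exact hall hs
  have hd := h0.deriv_eq
  have hZ₁ : DifferentiableAt ℂ Z₁ 0 := h₁.1.differentiableAt (hopen.mem_nhds hmem)
  have hZ₂ : DifferentiableAt ℂ Z₂ 0 := h₂.1.differentiableAt (hopen.mem_nhds hmem)
  have hWt : ∀ t, DifferentiableAt ℂ (W t) 0 := fun t =>
    (g t).1.differentiableAt (hopen.mem_nhds hmem)
  have e1 : deriv (fun s => Z₁ s - Z₂ s) 0 = deriv Z₁ 0 - deriv Z₂ 0 :=
    (hZ₁.hasDerivAt.sub hZ₂.hasDerivAt).deriv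
  have e2 : deriv (fun s => ∑ t ∈ S, (W t s - W (τ t) s)) 0 =
      ∑ t ∈ S, (deriv (W t) 0 - deriv (W (τ t)) 0) := by
    refine (HasDerivAt.fun_sum fun t _ => ?_).deriv
    exact (hWt t).hasDerivAt.sub (hWt (τ t)).hasDerivAt
  rw [← e1, ← e2, hd]

end analytic

end Pool.Agent.StarkRQ
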