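import Pool.Agent.StarkRQ.Final
import Pool.Agent.StarkRQ.Lift2

/-!
Assembly for an arbitrary real intermediate field `H`.
-/

open NumberField Module

namespace Pool.Agent.StarkRQ

section

variable {M : Type} [Field M] [NumberField M] [IsGalois ℚ M]
  {K k H : Type} [Field K] [NumberField K] [Field k] [NumberField k] [Field H] [NumberField H]
  [Algebra K M] [Algebra k M] [Algebra K H] [Algebra H M] [IsScalarTower K H M]

omit [IsGalois ℚ M] in
lemma ee_mul_comm {c : Gal(M/ℚ)} (x : M) (τ g : Gal(M/ℚ)) (h : τ * c = c * τ) :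
    τ (ee c x g) = ee c x (τ * g) := by
  unfold ee
  rw [map_mul]
  have : τ (c (g x)) = c (τ (g x)) := DFunLike.congr_fun h (g x)
  rw [this]
  rfl

/-- a field `k` over which `M` is abelian, the elements of `Gal(M/k)` lying over `σ ∈ Gal(H/K)` -/
noncomputable def liftSet (k H : Type) [Field k] [NumberField k] [Field H] [NumberField H]
    [Algebra k M] [Algebra K H] [Algebra H M] [IsScalarTower K H M] (σ : Gal(H/K)) :
    Finset Gal(M/k) :=
  open Classical in Finset.univ.filter fun t => ∀ y : H, t (algebraMap H M y) =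
    algebraMap H M (σ y)

omit [IsGalois ℚ M] [NumberField K] in
lemma mem_liftSet {σ : Gal(H/K)} {t : Gal(M/k)} :
    t ∈ liftSet k H σ ↔ ∀ y : H, t (algebraMap H M y) = algebraMap H M (σ y) := by
  simp [liftSet]

theorem shintani [IsTotallyReal K] [IsTotallyComplex k] (hK : finrank ℚ K = 2)
    (hk : finrank ℚ k = 2) [IsAbelianGalois K M] [IsAbelianGalois k M] (ι : M →+* ℂ)
    (hH : ∀ y : H, (ι (algebraMap H M y)).im = 0) (N : ℕ) (hN : N ≠ 0)
    (hram : ∀ p : ℕ, p.Prime → (p : ℤ) ∣ discr M → p ∣ N) (η : M) (hη : IsStarkUnit k ι N η)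
    (G : Gal(H/K) → ℂ → ℂ) (hG : ∀ σ, IsPartialZeta N σ (G σ)) :
    ∃ R : Gal(H/K), ∃ ε : Gal(H/K) → (𝓞 H)ˣ,
      (∀ σ, ι (algebraMap H M (ε σ : 𝓞 H)) =
          Complex.exp (-(deriv (G σ) 0 - deriv (G (R * σ)) 0))) ∧
      (∀ ρ σ, ρ ((ε σ : 𝓞 H) : H) = ((ε (ρ * σ) : 𝓞 H) : H)) ∧
      (∃ (E : Type) (_ : Field E) (_ : Algebra K E) (_ : Algebra H E) (_ : IsScalarTower K H E),
        IsAbelianGalois K E ∧ ∀ σ, ∃ y : E, y ^ 2 = algebraMap H E ((ε σ : 𝓞 H) : H)) ∧
      ∀ g : H →+* ℂ, (∃ x : K, g (algebraMap K H x) ≠ ι (algebraMap K M x)) →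
        (∀ y, g (R y) = starRingEnd ℂ (g y)) ∧ ∀ σ, ‖g ((ε σ : 𝓞 H) : H)‖ = 1 := by
  classical
  have : IsAbelianGalois K H := IsAbelianGalois.tower_bot K H M
  have hA : ∀ σ τ : Gal(M/K), σ * τ = τ * σ := fun σ τ => mul_comm' σ τ
  have hB : ∀ σ τ : Gal(M/k), σ * τ = τ * σ := fun σ τ => mul_comm' σ τ
  obtain ⟨c, hc⟩ := exists_cc ι
  have hcc : c * c = 1 := by
    ext x
    apply ι.injective
    change ι (c (c x)) = ι x
    rw [hc, hc, Complex.conj_conj]
  have hcK : c ∈ fixG K M := cc_mem_fixG hc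
  have hck : c ∉ fixG k M := cc_notMem_fixG hc
  obtain ⟨z, hzA, hzB, hzz, hcen, hcA, hcB, hsq, b, hzb⟩ :=
    exists_z (fixG_index (M := M) hK) (fixG_index (M := M) hk) (fixG_comm hA) (fixG_comm hB)
      hcK hck hcc
  have hz : ZData (fixG K M) (fixG k M) z := ⟨hzA, hzB, hzz, hcen, hcA, hcB, hsq⟩
  have hzc := hcen z hzA hzB
  obtain ⟨zK, hzK⟩ := hzA
  obtain ⟨zk, hzk⟩ := hzB
  set w := Units.torsionOrder M with hw
  have : NeZero w := ⟨Units.torsionOrder_ne_zero M⟩
  -- the root
  obtain ⟨E, _, _, _, _, hE, y, hy⟩ := hη.abelian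
  obtain ⟨x, hx⟩ := exists_root (k := k) (fun σ τ => mul_comm' σ τ) zk (fun ζ hζ => by
    have := commutator_fixes (w := w) b c ζ hζ
    rw [← hzb, ← hzk] at this
    exact this) hη.ne_zero hy
  have hη0 := hη.ne_zero
  have hzη0 : z η ≠ 0 := by
    intro h
    exact hη0 (z.injective (by rw [h, map_zero]))
  have hx' : x ^ w = η / z η := by rw [hx, ← hzk]; rfl
  have hx0 : x ≠ 0 := by
    rintro rfl
    rw [zero_pow (NeZero.ne w)] at hx'
    exact (div_ne_zero hη0 hzη0) hx'.symm
  have hzzη : z (z η) = η := by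
    change (z * z) η = η
    rw [hzz]; rfl
  -- integrality
  have hint' : IsIntegral ℤ (z η / η) := by
    exact hη.isIntegral z.toRingEquiv
  have hint : IsIntegral ℤ (η / z η) := by
    have := hint'.map (z : M →ₐ[ℚ] M).toRingHom.toIntAlgHom
    have e1 : (z : M →ₐ[ℚ] M).toRingHom.toIntAlgHom (z η / η) = z (z η / η) := rfl
    rwa [e1, map_div₀, hzzη] at this
  have hxint : IsIntegral ℤ x := IsIntegral.of_pow (NeZero.pos w) (by rw [hx']; exact hint)
  have hxint' : IsIntegral ℤ x⁻¹ := IsIntegral.of_pow (NeZero.pos w) (by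
    rw [inv_pow, hx', inv_div]; exact hint')
  have hmapint : ∀ (g : Gal(M/ℚ)) {u : M}, IsIntegral ℤ u → IsIntegral ℤ (g u) := by
    intro g u hu
    exact hu.map (g : M →ₐ[ℚ] M).toRingHom.toIntAlgHom
  have heeint : ∀ g, IsIntegral ℤ (ee c x g) := fun g =>
    (hmapint g hxint).mul (hmapint c (hmapint g hxint))
  have heeint' : ∀ g, IsIntegral ℤ (ee c x g)⁻¹ := by
    intro g
    have : (ee c x g)⁻¹ = g x⁻¹ * c (g x⁻¹) := by
      unfold ee
      rw [mul_inv, map_inv₀, map_inv₀]
    rw [this]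
    exact (hmapint g hxint').mul (hmapint c (hmapint g hxint'))
  have hee0 : ∀ g, ee c x g ≠ 0 := by
    intro g
    unfold ee
    refine mul_ne_zero ?_ ?_
    · exact fun h => hx0 (g.injective (by rw [h, map_zero]))
    · exact fun h => hx0 (g.injective (c.injective (by rw [h, map_zero, map_zero])))
  -- lifts
  have hsurj := AlgEquiv.restrictNormalHom_surjective (F := K) (K₁ := H) M
  obtain ⟨cK, hcK'⟩ := id hcK
  have hcy : ∀ y : H, c (algebraMap H M y) = algebraMap H M y := by
    intro y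
    apply ι.injective
    rw [hc]
    exact Complex.conj_eq_iff_im.2 (hH y)
  have hcKH : AlgEquiv.restrictNormalHom H cK = 1 := by
    ext y
    apply (algebraMap H M).injective
    rw [restrict_apply]
    have := hcy y
    rw [← hcK'] at this
    exact this
  have hccom : ∀ s : Gal(M/K), toG K M s * c = c * toG K M s := by
    intro s
    rw [← hcK', ← map_mul, ← map_mul, hA]
  have hexlift : ∀ σ : Gal(H/K), ∃ sK : Gal(M/K), AlgEquiv.restrictNormalHom H sK = σ ∧
      toG K M sK ∈ fixG k M := by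
    intro σ
    obtain ⟨s, hs⟩ := hsurj σ
    by_cases h : toG K M s ∈ fixG k M
    · exact ⟨_, hs, h⟩
    · refine ⟨cK * s, by rw [map_mul, hcKH, one_mul, hs], ?_⟩
      rw [map_mul, hcK']
      exact mul_mem_of_index_two (fixG_index (M := M) hk) hck h
  -- the elements of `Gal(M/k)` over `σ`
  have hlmem : ∀ (σ : Gal(H/K)) (t : Gal(M/k)), t ∈ liftSet k H σ ↔
      ∃ s : Gal(M/K), toG K M s = toG k M t ∧ AlgEquiv.restrictNormalHom H s = σ := by
    intro σ t
    rw [mem_liftSet]
    constructor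
    · intro h
      have h1 : toG k M t ∈ fixG K M := by
        rw [mem_fixG]
        intro x
        rw [IsScalarTower.algebraMap_apply K H M, toG_apply, h, AlgEquiv.commutes]
      obtain ⟨s, hs⟩ := h1
      refine ⟨s, hs, ?_⟩
      ext y
      apply (algebraMap H M).injective
      rw [restrict_apply, ← h y]
      exact DFunLike.congr_fun hs (algebraMap H M y)
    · rintro ⟨s, hs, rfl⟩ y
      rw [restrict_apply]
      exact (DFunLike.congr_fun hs (algebraMap H M y)).symm
  set Y : Gal(H/K) → M := fun σ => ∏ t ∈ liftSet k H σ, ee c x (toG k M t) with hY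
  -- equivariance
  have hequiB : ∀ (τ : Gal(M/k)) (τK : Gal(M/K)) (σ : Gal(H/K)), toG K M τK = toG k M τ →
      toG k M τ (Y σ) = Y (AlgEquiv.restrictNormalHom H τK * σ) := by
    intro τ τK σ hτ
    rw [hY]
    simp only
    rw [map_prod]
    refine Finset.prod_bij (fun t _ => τ * t) ?_ ?_ ?_ ?_
    · intro t ht
      rw [hlmem] at ht ⊢
      obtain ⟨s, hs, rfl⟩ := ht
      exact ⟨τK * s, by rw [map_mul, map_mul, hτ, hs], by rw [map_mul]⟩
    · intro t _ t' _ h
      exact mul_left_cancel h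
    · intro t ht
      refine ⟨τ⁻¹ * t, ?_, mul_inv_cancel_left _ _⟩
      rw [hlmem] at ht ⊢
      obtain ⟨s, hs, h⟩ := ht
      refine ⟨τK⁻¹ * s, by rw [map_mul, map_mul, map_inv, map_inv, hτ, hs], ?_⟩
      rw [map_mul, map_inv, h, inv_mul_cancel_left]
    · intro t _
      rw [ee_mul_comm x _ _ (by rw [← hτ]; exact hccom τK), map_mul]
  have hYc : ∀ σ, c (Y σ) = Y σ := by
    intro σ
    rw [hY]
    simp only
    rw [map_prod]
    refine Finset.prod_congr rfl fun t _ => ?_
    rw [ee_mul_comm x _ _ rfl, ee_cc hcc]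
  have hequi : ∀ (τK : Gal(M/K)) (σ : Gal(H/K)),
      τK (Y σ) = Y (AlgEquiv.restrictNormalHom H τK * σ) := by
    intro τK σ
    by_cases h : toG K M τK ∈ fixG k M
    · obtain ⟨τ, hτ⟩ := h
      have := hequiB τ τK σ hτ.symm
      rw [hτ] at this
      exact this
    · have h' : toG K M (cK * τK) ∈ fixG k M := by
        rw [map_mul, hcK']
        exact mul_mem_of_index_two (fixG_index (M := M) hk) hck h
      obtain ⟨τ, hτ⟩ := h'
      have h1 := hequiB τ (cK * τK) σ hτ.symm
      rw [hτ, map_mul (toG K M), map_mul (AlgEquiv.restrictNormalHom H), hcKH, one_mul, hcK'] at h1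
      have h2 : c (τK (Y σ)) = Y (AlgEquiv.restrictNormalHom H τK * σ) := h1
      have h3 := congrArg c h2
      rw [hYc] at h3
      rw [← h3]
      change _ = (c * c) _
      rw [hcc]
      rfl
  have hY0 : ∀ σ, Y σ ≠ 0 := fun σ => Finset.prod_ne_zero_iff.2 fun t _ => hee0 _
  have hYint : ∀ σ, IsIntegral ℤ (Y σ) := fun σ => IsIntegral.prod _ fun t _ => heeint _
  have hYint' : ∀ σ, IsIntegral ℤ (Y σ)⁻¹ := by
    intro σ
    rw [hY]
    simp only
    rw [← Finset.prod_inv_distrib]
    exact IsIntegral.prod _ fun t _ => heeint' _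
  -- descent to `H`
  have hdesc : ∀ σ, ∃ u : (𝓞 H)ˣ, algebraMap H M (u : 𝓞 H) = Y σ := by
    intro σ
    have : IsGalois H M := IsGalois.tower_top_of_isGalois K H M
    have h1 : ∀ ρ : Gal(M/H), ρ (Y σ) = Y σ := by
      intro ρ
      have h2 := hequi (ρ.restrictScalars K) σ
      have h3 : AlgEquiv.restrictNormalHom H (ρ.restrictScalars K) = 1 := by
        ext y
        apply (algebraMap H M).injective
        rw [restrict_apply]
        exact ρ.commutes y
      rw [h3, one_mul] at h2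
      exact h2
    obtain ⟨v, hv'⟩ := (InfiniteGalois.mem_range_algebraMap_iff_fixed (Y σ)).mpr h1
    have hinj : Function.Injective (algebraMap H M) := (algebraMap H M).injective
    have hvint : IsIntegral ℤ v := by
      have := hYint σ
      rw [← hv'] at this
      exact (isIntegral_algebraMap_iff (A := H) (B := M) hinj).1 this
    have hvint' : IsIntegral ℤ v⁻¹ := by
      have := hYint' σ
      rw [← hv', ← map_inv₀] at this
      exact (isIntegral_algebraMap_iff (A := H) (B := M) hinj).1 this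
    have hv0 : v ≠ 0 := by
      rintro rfl
      rw [map_zero] at hv'
      exact hY0 σ hv'.symm
    refine ⟨⟨⟨v, hvint⟩, ⟨v⁻¹, hvint'⟩, ?_, ?_⟩, hv'⟩
    · apply RingOfIntegers.ext
      change v * v⁻¹ = 1
      exact mul_inv_cancel₀ hv0
    · apply RingOfIntegers.ext
      change v⁻¹ * v = 1
      exact inv_mul_cancel₀ hv0
  choose u hu using hdesc
  -- complex conjugation
  have hcη : ∃ v : M, v ^ w = 1 ∧ c η = v * η := by
    have hnor : (fixG k M).Normal := Subgroup.normal_of_index_eq_two (fixG_index (M := M) hk)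
    have hnorm : ∀ σ : Gal(M/k), ‖ι (σ (c η))‖ = ‖ι (σ η)‖ := by
      intro σ
      have hmem : c⁻¹ * toG k M σ * c ∈ fixG k M := by
        have := hnor.conj_mem (toG k M σ) ⟨σ, rfl⟩ c⁻¹
        rwa [inv_inv] at this
      obtain ⟨σ', hσ'⟩ := hmem
      have h1 : ∀ y : M, σ (c y) = c (σ' y) := by
        intro y
        have : toG k M σ * c = c * toG k M σ' := by rw [hσ']; group
        exact DFunLike.congr_fun this y
      obtain ⟨Z₁, hZ₁, hd₁⟩ := hη.deriv_zeta σ
      obtain ⟨Z₂, hZ₂, hd₂⟩ := hη.deriv_zeta σ'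
      have hcoef : ∀ n : ℕ, n ≠ 0 → (zcoeff N σ n : ℤ) - zcoeff N σ' n =
          (zcoeff N σ n : ℤ) - zcoeff N σ n := by
        intro n hn
        by_cases hco : n.Coprime N
        · rw [zcoeff_eq_cnt hB hram hn hco, zcoeff_eq_cnt hB hram hn hco, hσ']
          have := cnt_conj (M := M) hk hB hN hram n hn hco c⁻¹ (toG k M σ)
          rw [inv_inv] at this
          rw [this]
        · simp [zcoeff, hco]
      have h2 := deriv_sub_eq hZ₁ hZ₂ hZ₁ hZ₁ hcoef
      rw [sub_self, sub_eq_zero, hd₁, hd₂] at h2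
      have hwc : (w : ℂ) ≠ 0 := by exact_mod_cast NeZero.ne w
      have h3 := mul_left_cancel₀ (neg_ne_zero.2 (one_div_ne_zero hwc)) h2
      have h4 : Real.log (‖ι (σ η)‖ ^ 2) = Real.log (‖ι (σ' η)‖ ^ 2) := by exact_mod_cast h3
      have hp : ∀ τ : Gal(M/k), 0 < ‖ι (τ η)‖ := by
        intro τ
        rw [norm_pos_iff]
        exact fun h => hη0 (τ.injective (ι.injective (by rw [h, map_zero, map_zero])))
      have h5 := Real.log_injOn_pos (Set.mem_Ioi.2 (pow_pos (hp σ) 2))
        (Set.mem_Ioi.2 (pow_pos (hp σ') 2)) h4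
      have h6 : ‖ι (σ η)‖ = ‖ι (σ' η)‖ :=
        (pow_left_inj₀ (hp σ).le (hp σ').le two_ne_zero).1 h5
      rw [h1, hc, RCLike.norm_conj, h6]
    have hvint : IsIntegral ℤ (c η / η) := hη.isIntegral c.toRingEquiv
    have hcη0 : c η ≠ 0 := fun h => hη0 (c.injective (by rw [h, map_zero]))
    have hvk : ∀ σ : Gal(M/k), ‖ι (σ (c η / η))‖ = 1 := by
      intro σ
      have hp : ‖ι (σ η)‖ ≠ 0 := by
        rw [norm_ne_zero_iff]
        exact fun h => hη0 (σ.injective (ι.injective (by rw [h, map_zero, map_zero])))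
      rw [map_div₀, map_div₀, norm_div, hnorm, div_self hp]
    have hall : ∀ f : M →+* ℂ, ‖f (c η / η)‖ = 1 := by
      intro f
      obtain ⟨γ, hγ⟩ := exists_comp ι f
      rw [hγ]
      by_cases hγk : γ ∈ fixG k M
      · obtain ⟨σ, rfl⟩ := hγk
        exact hvk σ
      · have hmem : c * γ ∈ fixG k M := mul_mem_of_index_two (fixG_index (M := M) hk) hck hγk
        obtain ⟨σ, hσ⟩ := hmem
        have h1 : γ (c η / η) = c (σ (c η / η)) := by
          have : γ = c * toG k M σ := by rw [hσ, ← mul_assoc, hcc, one_mul]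
          rw [this]; rfl
        rw [h1, hc, RCLike.norm_conj, hvk]
    obtain ⟨n, hn0, hn⟩ := Embeddings.pow_eq_one_of_norm_eq_one M ℂ hvint hall
    refine ⟨c η / η, ?_, by rw [div_mul_cancel₀ _ hη0]⟩
    have hfin : IsOfFinOrder (c η / η) := isOfFinOrder_iff_pow_eq_one.2 ⟨n, hn0, hn⟩
    have : NeZero (orderOf (c η / η)) := ⟨(orderOf_pos_iff.2 hfin).ne'⟩
    have hdvd := Units.dvd_torsionOrder_of_isPrimitiveRoot (IsPrimitiveRoot.orderOf (c η / η))
    exact orderOf_dvd_iff_pow_eq_one.1 hdvd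
  obtain ⟨v, hv1, hv2⟩ := hcη
  have hcx : ∃ ξ : M, ξ ^ w = 1 ∧ c x = ξ * x := by
    refine ⟨c x / x, ?_, by rw [div_mul_cancel₀ _ hx0]⟩
    have hzv : z v = v := by
      have := commutator_fixes (w := w) b c v hv1
      rwa [← hzb] at this
    have hv0 : v ≠ 0 := by
      rintro rfl
      rw [zero_pow (NeZero.ne w)] at hv1
      exact zero_ne_one hv1
    have h1 : c (z η) = z (c η) := by
      change (c * z) η = (z * c) η
      rw [hzc]
    have h2 : (c x) ^ w = x ^ w := by
      rw [← map_pow, hx', map_div₀, h1, hv2, map_mul, hzv, mul_div_mul_left _ _ hv0]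
    rw [div_pow, h2, div_self (pow_ne_zero _ hx0)]
  obtain ⟨ξ, hξ1, hξ2⟩ := hcx
  refine ⟨AlgEquiv.restrictNormalHom H zK, u, ?_, ?_, ?_, ?_⟩
  · -- the derivative formula
    intro σ
    change ι (algebraMap H M ((u σ : (𝓞 H)ˣ) : 𝓞 H)) = _
    rw [hu]
    have hexW : ∀ t : Gal(M/k), ∃ Z : ℂ → ℂ, IsPartialZeta N t Z ∧
      deriv Z 0 = -(1 / (Units.torsionOrder M : ℂ)) * Real.log (‖ι (t η)‖ ^ 2) :=
      fun t => hη.deriv_zeta t
    choose W hW hdW using hexW
    have hcoef := zcoeff_sub_sum (H := H) hK hk hA hB hN hram hz hzK hzk σ (liftSet k H σ)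
      (hlmem σ)
    have hder := deriv_sum_eq (liftSet k H σ) (fun t => zk * t) (hG σ)
      (hG (AlgEquiv.restrictNormalHom H zK * σ)) hW hcoef
    rw [hder, hY]
    simp only
    rw [map_prod, ← Finset.sum_neg_distrib, Complex.exp_sum]
    refine Finset.prod_congr rfl fun t _ => ?_
    rw [ι_ee hc, hdW, hdW]
    set s : Gal(M/ℚ) := toG k M t with hs
    have e1 : t η = s η := rfl
    have e2 : (zk * t) η = s (z η) := by
      have : (zk * t) η = (z * s) η := by rw [← hzk]; rfl
      rw [this, hzc s]; rfl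
    rw [e1, e2]
    have hsη : ‖ι (s η)‖ ≠ 0 := by
      rw [norm_ne_zero_iff]
      exact fun h => hη0 (s.injective (ι.injective (by rw [h, map_zero, map_zero])))
    have hszη : ‖ι (s (z η))‖ ≠ 0 := by
      rw [norm_ne_zero_iff]
      exact fun h => hzη0 (s.injective (ι.injective (by rw [h, map_zero, map_zero])))
    have hsx : ‖ι (s x)‖ ≠ 0 := by
      rw [norm_ne_zero_iff]
      exact fun h => hx0 (s.injective (ι.injective (by rw [h, map_zero, map_zero])))
    have hpow : (w : ℝ) * Real.log ‖ι (s x)‖ =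
        Real.log ‖ι (s η)‖ - Real.log ‖ι (s (z η))‖ := by
      rw [← Real.log_pow, ← Real.log_div hsη hszη, ← norm_pow, ← map_pow, ← map_pow, hx',
        map_div₀, map_div₀, norm_div]
    rw [Real.log_pow, Real.log_pow]
    have hwc : (w : ℂ) ≠ 0 := by exact_mod_cast NeZero.ne w
    have hfin : -(-(1 / (w : ℂ)) * (((2 : ℕ) * Real.log ‖ι (s η)‖ : ℝ) : ℂ) -
        -(1 / (w : ℂ)) * (((2 : ℕ) * Real.log ‖ι (s (z η))‖ : ℝ) : ℂ)) =
        ((2 * Real.log ‖ι (s x)‖ : ℝ) : ℂ) := by
      have hc2 := congrArg (fun r : ℝ => (r : ℂ)) hpow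
      push_cast at hc2 ⊢
      field_simp
      linear_combination (-1 : ℂ) * hc2
    rw [hfin, ← Complex.ofReal_exp, mul_comm, Real.exp_mul, Real.exp_log (by positivity)]
    norm_cast
  · -- equivariance
    intro ρ σ
    apply (algebraMap H M).injective
    change algebraMap H M (ρ ((u σ : (𝓞 H)ˣ) : 𝓞 H)) =
      algebraMap H M ((u (ρ * σ) : (𝓞 H)ˣ) : 𝓞 H)
    obtain ⟨s, hs⟩ := hsurj ρ
    have h1 := restrict_apply (M := M) s (((u σ : (𝓞 H)ˣ) : 𝓞 H) : H)
    rw [hs] at h1
    rw [h1, hu, hu, hequi, hs]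
  · -- square roots
    have : NeZero (2 * w) := ⟨mul_ne_zero two_ne_zero (NeZero.ne w)⟩
    obtain ⟨E, _, _, _⟩ : ∃ (E : Type) (_ : Field E) (_ : Algebra M E),
        IsCyclotomicExtension {2 * w} M E :=
      ⟨CyclotomicField (2 * w) M, inferInstance, inferInstance, inferInstance⟩
    let _ : Algebra K E := ((algebraMap M E).comp (algebraMap K M)).toAlgebra
    let _ : Algebra H E := ((algebraMap M E).comp (algebraMap H M)).toAlgebra
    have hst1 : IsScalarTower K M E := IsScalarTower.of_algebraMap_eq' rfl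
    have hst2 : IsScalarTower H M E := IsScalarTower.of_algebraMap_eq' rfl
    have hst3 : IsScalarTower K H E := IsScalarTower.of_algebraMap_eq (fun x => by
      change algebraMap M E (algebraMap K M x) = algebraMap M E (algebraMap H M (algebraMap K H x))
      rw [← IsScalarTower.algebraMap_apply K H M])
    refine ⟨E, inferInstance, inferInstance, inferInstance, hst3,
      isAbelianGalois_cyclotomic K M (2 * w) E, ?_⟩
    intro σ
    obtain ⟨ζ, hζ⟩ := IsCyclotomicExtension.exists_isPrimitiveRoot M E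
      (Set.mem_singleton (2 * w)) (NeZero.ne (2 * w))
    have hone : ∀ t ∈ liftSet k H σ, ∃ y : E, y ^ 2 = algebraMap M E (ee c x (toG k M t)) := by
      intro t ht
      obtain ⟨sK, hsK, -⟩ := (hlmem σ t).1 ht
      set s := toG k M t with hs
      have h1 : (algebraMap M E (s ξ)) ^ w = 1 := by
        rw [← map_pow, ← map_pow, hξ1, map_one, map_one]
      have h2 : IsPrimitiveRoot (ζ ^ 2) w := hζ.pow (Nat.pos_of_ne_zero (NeZero.ne (2 * w))) rfl
      obtain ⟨i, -, hi⟩ := h2.eq_pow_of_pow_eq_one h1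
      refine ⟨ζ ^ i * algebraMap M E (s x), ?_⟩
      have h3 : ee c x s = s ξ * (s x) ^ 2 := by
        unfold ee
        have h4 : c (s x) = s (c x) := by
          have := hccom sK
          rw [hsK] at this
          exact (DFunLike.congr_fun this x).symm
        rw [h4, hξ2, map_mul]
        ring
      rw [h3, map_mul, map_pow, ← hi]
      ring
    choose! yy hyy using hone
    refine ⟨∏ t ∈ liftSet k H σ, yy t, ?_⟩
    change _ = algebraMap M E (algebraMap H M ((u σ : (𝓞 H)ˣ) : 𝓞 H))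
    rw [hu, hY]
    simp only
    rw [map_prod, ← Finset.prod_pow]
    exact Finset.prod_congr rfl hyy
  · -- the other embeddings
    intro g ⟨x₀, hx₀⟩
    obtain ⟨γ, hγ⟩ : ∃ γ : Gal(M/ℚ), ∀ y : H, g y = ι (γ (algebraMap H M y)) := by
      let _ : Algebra H ℂ := g.toAlgebra
      have : Algebra.IsAlgebraic H M := Algebra.IsAlgebraic.of_finite H M
      obtain ⟨γ, hγ⟩ := exists_comp ι (IsAlgClosed.lift : M →ₐ[H] ℂ).toRingHom
      refine ⟨γ, fun y => ?_⟩
      rw [← hγ]
      exact ((IsAlgClosed.lift : M →ₐ[H] ℂ).commutes y).symm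
    have hγK : γ ∉ fixG K M := by
      intro h
      rw [mem_fixG] at h
      apply hx₀
      rw [hγ, ← IsScalarTower.algebraMap_apply, h]
    have hconj : γ * c = z * c * γ := by
      have := hcA c hcK hck γ hγK
      rw [← this, inv_mul_cancel_right]
    constructor
    · intro y
      rw [hγ, hγ, restrict_apply, ← hc]
      congr 1
      have e1 : zK (algebraMap H M y) = z (algebraMap H M y) := by rw [← hzK]; rfl
      rw [e1]
      have e2 : γ (z (algebraMap H M y)) = z (γ (algebraMap H M y)) := by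
        change (γ * z) _ = (z * γ) _
        rw [hzc]
      rw [e2]
      have e3 : γ (c (algebraMap H M y)) = z (c (γ (algebraMap H M y))) := by
        change (γ * c) _ = (z * c * γ) _
        rw [hconj]
      rw [hcy] at e3
      rw [congrArg z e3]
      change (z * z) _ = _
      rw [hzz]; rfl
    · intro σ
      change ‖g ((u σ : (𝓞 H)ˣ) : 𝓞 H)‖ = 1
      rw [hγ, hu, hY]
      simp only
      rw [map_prod, map_prod, norm_prod]
      refine Finset.prod_eq_one fun t _ => ?_
      set s := toG k M t with hs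
      unfold ee
      rw [map_mul, map_mul, norm_mul]
      have e3 : γ (c (s x)) = c (γ (s (z x))) := by
        have : γ * c * s = c * (γ * (s * z)) := by
          rw [hconj, ← hzc s, ← mul_assoc γ z s, ← hzc γ, mul_assoc, mul_assoc, mul_assoc,
            ← mul_assoc c z, ← hzc c, mul_assoc]
        exact DFunLike.congr_fun this x
      rw [e3, hc, RCLike.norm_conj, ← norm_mul, ← map_mul, ← map_mul, ← map_mul]
      have h1 : (ι (γ (s (x * z x)))) ^ w = 1 := by
        rw [← map_pow, ← map_pow, ← map_pow, mul_pow, ← map_pow, hx', map_div₀, hzzη,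
          div_mul_div_comm, mul_comm (z η) η, div_self (mul_ne_zero hη0 hzη0), map_one, map_one,
          map_one]
      exact Complex.norm_eq_one_of_pow_eq_one h1 (NeZero.ne w)

end

end Pool.Agent.StarkRQ
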