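import Pool.Agent.StarkRQ.Base

/-!
# Root extraction

Let `E ⊇ M ⊇ k`, `Gal(E/k)` abelian, `y ∈ E` with `y ^ w = η ∈ M`, `w` the number of roots of unity
of `M`, `z ∈ Gal(M/k)` fixing the roots of unity of `M`. Then `η / z η = x ^ w` with `x ∈ M`.

Proof. Lift `z` to `z' ∈ Gal(E/k)` (`AlgEquiv.liftNormal`) and put `x' = y / z' y`, so
`x' ^ w = η / z η` in `E`. For `ρ ∈ Gal(E/M)` (seen in `Gal(E/k)`): `(ρ y) ^ w = y ^ w`, so
`ρ y = ζ y` with `ζ ^ w = 1`, `ζ ∈ M` because `M` contains a primitive `w`-th root of unity.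
As `Gal(E/k)` is abelian, `ρ (z' y) = z' (ρ y) = z' ζ * z' y = ζ * z' y`. So `ρ x' = x'` for all
`ρ ∈ Gal(E/M)`, and `x'` comes from `M`.
-/

open NumberField

namespace Pool.Agent.StarkRQ

/-- a number field `M` contains a primitive root of unity of order `torsionOrder M` -/
theorem exists_primRoot (M : Type*) [Field M] [NumberField M] :
    ∃ ζ : M, IsPrimitiveRoot ζ (Units.torsionOrder M) := by
  obtain ⟨μ, hμ⟩ : ∃ μ : Units.torsion M, orderOf μ = Units.torsionOrder M :=
    IsCyclic.exists_ofOrder_eq_natCard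
  rw [← IsPrimitiveRoot.iff_orderOf, ← IsPrimitiveRoot.coe_submonoidClass_iff,
    ← IsPrimitiveRoot.coe_units_iff] at hμ
  exact ⟨_, hμ.map_of_injective (FaithfulSMul.algebraMap_injective (𝓞 M) M)⟩

theorem exists_root {k M : Type*} [Field k] [NumberField k] [Field M] [NumberField M]
    [Algebra k M] [IsGalois k M] {E : Type*} [Field E] [Algebra k E] [Algebra M E]
    [IsScalarTower k M E] [IsGalois k E] (hab : ∀ σ τ : Gal(E/k), σ * τ = τ * σ)
    (z : Gal(M/k)) (hz : ∀ ζ : M, ζ ^ Units.torsionOrder M = 1 → z ζ = ζ)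
    {η : M} (hη : η ≠ 0) {y : E} (hy : y ^ Units.torsionOrder M = algebraMap M E η) :
    ∃ x : M, x ^ Units.torsionOrder M = η / z η := by
  set w := Units.torsionOrder M with hw
  have hw0 : w ≠ 0 := Units.torsionOrder_ne_zero M
  have : NeZero w := ⟨hw0⟩
  have : IsGalois M E := IsGalois.tower_top_of_isGalois k M E
  have hinj : Function.Injective (algebraMap M E) := (algebraMap M E).injective
  have hy0 : y ≠ 0 := by
    rintro rfl
    rw [zero_pow hw0] at hy
    exact hη (hinj (by rw [← hy, map_zero]))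
  let z' : Gal(E/k) := z.liftNormal E
  have hz' : ∀ x : M, z' (algebraMap M E x) = algebraMap M E (z x) :=
    fun x => AlgEquiv.liftNormal_commutes z E x
  have hz'y : z' y ≠ 0 := by simpa using hy0
  -- roots of unity of order dividing `w` in `E` come from `M`
  obtain ⟨ξ, hξ⟩ := exists_primRoot M
  have hξE : IsPrimitiveRoot (algebraMap M E ξ) w := hξ.map_of_injective hinj
  have hroots : ∀ t : E, t ^ w = 1 → ∃ ζ : M, ζ ^ w = 1 ∧ algebraMap M E ζ = t := by
    intro t ht
    obtain ⟨i, -, hi⟩ := hξE.eq_pow_of_pow_eq_one ht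
    exact ⟨ξ ^ i, by rw [← pow_mul, mul_comm, pow_mul, hξ.pow_eq_one, one_pow],
      by rw [map_pow, hi]⟩
  have hfix : ∀ ρ : Gal(E/M), ρ (y / z' y) = y / z' y := by
    intro ρ
    have h1 : (ρ y / y) ^ w = 1 := by
      rw [div_pow, ← map_pow, hy, AlgEquiv.commutes, div_self]
      exact (map_ne_zero _).mpr hη
    obtain ⟨ζ, hζ, hζy⟩ := hroots _ h1
    have hρy : ρ y = algebraMap M E ζ * y := by
      rw [hζy, div_mul_cancel₀ _ hy0]
    have hcomm : ρ (z' y) = z' (ρ y) := by
      have := hab (ρ.restrictScalars k) z'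
      exact DFunLike.congr_fun this y
    have hζ0 : algebraMap M E ζ ≠ 0 := by
      rw [hζy]
      exact div_ne_zero (by simpa using hy0) hy0
    rw [map_div₀, hcomm, hρy, map_mul, hz', hz ζ hζ, mul_div_mul_left _ _ hζ0]
  obtain ⟨x, hx⟩ := (InfiniteGalois.mem_range_algebraMap_iff_fixed (y / z' y)).mpr hfix
  refine ⟨x, hinj ?_⟩
  rw [map_pow, hx, div_pow, ← map_pow, hy, hz', map_div₀]

end Pool.Agent.StarkRQ
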