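import Mathlib

/-!
PACKAGE SRQ4.  Group theory: two different abelian subgroups `A`, `B` of index two, `c ∈ A`, `c ∉ B`,
`c² = 1`. `s ∈ A ∩ B` commutes with `A` and `B`, and every `g` is in `A`, in `B`, or a product of an element of
`A` and one of `B` (`g ∉ A`, `g ∉ B`: `g = (g b⁻¹) b` with `b ∈ B`, `b ∉ A`), so `A ∩ B` is central. Choose
`b ∈ B`, `b ∉ A` and put `z = b c b⁻¹ c⁻¹ ∈ A ∩ B` (normality of index two subgroups). For `γ ∉ A`: `γ = a b`,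
`γ c γ⁻¹ = a (b c b⁻¹) a⁻¹ = b c b⁻¹ = z c`. `(z c)² = 1` gives `z² = 1`. `g ∈ A`, `g ∉ B`: `g = c s` with `s ∈ A ∩ B`.
`g ∈ B`, `g ∉ A`: `c g c⁻¹ = c (g c⁻¹ g⁻¹) g = c (z c)⁻¹ g = z g`, and `γ ∉ B` is `γ = b' c` with `b' ∈ B`.
-/

namespace Pool.Agent.StarkRQ

section

variable {G : Type*} [Group G] {A B : Subgroup G}

lemma mul_mem_of_index_two (hA : A.index = 2) {g h : G} (hg : g ∉ A) (hh : h ∉ A) : g * h ∈ A := by
  rw [Subgroup.mul_mem_iff_of_index_two hA]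
  tauto

theorem exists_z (hA : A.index = 2) (hB : B.index = 2)
    (hAc : ∀ a ∈ A, ∀ a' ∈ A, a * a' = a' * a) (hBc : ∀ a ∈ B, ∀ a' ∈ B, a * a' = a' * a)
    {c : G} (hcA : c ∈ A) (hcB : c ∉ B) (hc : c * c = 1) :
    ∃ z : G, z ∈ A ∧ z ∈ B ∧ z * z = 1 ∧
      (∀ s ∈ A, s ∈ B → ∀ g, s * g = g * s) ∧
      (∀ g ∈ A, g ∉ B → ∀ γ, γ ∉ A → γ * g * γ⁻¹ = z * g) ∧
      (∀ g ∈ B, g ∉ A → ∀ γ, γ ∉ B → γ * g * γ⁻¹ = z * g) ∧
      (∀ g, g * g ∈ A ∧ g * g ∈ B) ∧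
      ∃ b, z = b * c * b⁻¹ * c⁻¹ := by
  have hAn : A.Normal := Subgroup.normal_of_index_eq_two hA
  have hBn : B.Normal := Subgroup.normal_of_index_eq_two hB
  -- an element of `B` outside `A`
  obtain ⟨b, hbB, hbA⟩ : ∃ b, b ∈ B ∧ b ∉ A := by
    by_contra h
    push Not at h
    have hle : B ≤ A := fun x hx => h x hx
    have h1 : B.relIndex A * A.index = B.index := Subgroup.relIndex_mul_index hle
    rw [hA, hB] at h1
    have h2 : B.relIndex A = 1 := by omega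
    exact hcB (Subgroup.relIndex_eq_one.1 h2 hcA)
  have hmul : ∀ {C : Subgroup G}, C.index = 2 → ∀ {g h : G}, g ∉ C → h ∉ C → g * h ∈ C :=
    fun {C} hC {g h} hg hh => mul_mem_of_index_two hC hg hh
  have hinv : ∀ {C : Subgroup G} {g : G}, g ∉ C → g⁻¹ ∉ C := fun {C g} hg h =>
    hg ((Subgroup.inv_mem_iff C).1 h)
  have hcen : ∀ s ∈ A, s ∈ B → ∀ g, s * g = g * s := by
    intro s hsA hsB g
    by_cases hgA : g ∈ A
    · exact hAc s hsA g hgA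
    have h1 : g * b⁻¹ ∈ A := hmul hA hgA (hinv hbA)
    have h2 := hAc s hsA _ h1
    have h3 := hBc s hsB b hbB
    calc s * g = (s * (g * b⁻¹)) * b := by group
      _ = (g * b⁻¹) * (s * b) := by rw [h2]; group
      _ = g * s := by rw [h3]; group
  set z := b * c * b⁻¹ * c⁻¹ with hz
  have hzA : z ∈ A := A.mul_mem (hAn.conj_mem c hcA b) (A.inv_mem hcA)
  have hzB : z ∈ B := by
    have h1 : z = b * (c * b⁻¹ * c⁻¹) := by rw [hz]; group
    rw [h1]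
    exact B.mul_mem hbB (hBn.conj_mem _ (B.inv_mem hbB) c)
  have hzc := hcen z hzA hzB
  have hbc : b * c * b⁻¹ = z * c := by rw [hz]; group
  have hzz : z * z = 1 := by
    have h1 : (z * c) * (z * c) = 1 := by
      rw [← hbc]
      calc b * c * b⁻¹ * (b * c * b⁻¹) = b * (c * c) * b⁻¹ := by group
        _ = 1 := by rw [hc]; group
    calc z * z = (z * z) * (c * c) := by rw [hc, mul_one]
      _ = z * (z * c) * c := by group
      _ = z * (c * z) * c := by rw [hzc c]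
      _ = (z * c) * (z * c) := by group
      _ = 1 := h1
  have hzinv : z⁻¹ = z := inv_eq_of_mul_eq_one_left hzz
  have hkey : ∀ γ, γ ∉ A → γ * c * γ⁻¹ = z * c := by
    intro γ hγ
    have ha : γ * b⁻¹ ∈ A := hmul hA hγ (hinv hbA)
    have h1 := hAc _ ha _ (hAn.conj_mem c hcA b)
    calc γ * c * γ⁻¹ = (γ * b⁻¹) * (b * c * b⁻¹) * (γ * b⁻¹)⁻¹ := by group
      _ = (b * c * b⁻¹) * (γ * b⁻¹) * (γ * b⁻¹)⁻¹ := by rw [h1]
      _ = b * c * b⁻¹ := by group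
      _ = z * c := hbc
  refine ⟨z, hzA, hzB, hzz, hcen, ?_, ?_, ?_, b, rfl⟩
  · intro g hgA hgB γ hγ
    have hsA : c⁻¹ * g ∈ A := A.mul_mem (A.inv_mem hcA) hgA
    have hsB : c⁻¹ * g ∈ B := hmul hB (hinv hcB) hgB
    have h1 := hcen _ hsA hsB γ⁻¹
    calc γ * g * γ⁻¹ = γ * c * ((c⁻¹ * g) * γ⁻¹) := by group
      _ = γ * c * (γ⁻¹ * (c⁻¹ * g)) := by rw [h1]
      _ = (γ * c * γ⁻¹) * (c⁻¹ * g) := by group
      _ = z * c * (c⁻¹ * g) := by rw [hkey γ hγ]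
      _ = z * g := by group
  · intro g hgB hgA γ hγ
    have hb' : γ * c⁻¹ ∈ B := hmul hB hγ (hinv hcB)
    have h1 : c * g * c⁻¹ = z * g := by
      calc c * g * c⁻¹ = c * (g * c * g⁻¹)⁻¹ * g := by group
        _ = c * (z * c)⁻¹ * g := by rw [hkey g hgA]
        _ = z⁻¹ * g := by group
        _ = z * g := by rw [hzinv]
    have h2 := hBc _ hb' g hgB
    calc γ * g * γ⁻¹ = (γ * c⁻¹) * (c * g * c⁻¹) * (γ * c⁻¹)⁻¹ := by group
      _ = ((γ * c⁻¹) * z) * g * (γ * c⁻¹)⁻¹ := by rw [h1]; group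
      _ = z * (((γ * c⁻¹) * g) * (γ * c⁻¹)⁻¹) := by rw [← hzc]; group
      _ = z * ((g * (γ * c⁻¹)) * (γ * c⁻¹)⁻¹) := by rw [h2]
      _ = z * g := by group
  · intro g
    exact ⟨Subgroup.mul_self_mem_of_index_two hA g, Subgroup.mul_self_mem_of_index_two hB g⟩

end

end Pool.Agent.StarkRQ
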