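import Pool.Agent.StarkRQ.Coeff
import Pool.Agent.StarkRQ.Comm

/-!
The counting function of a quadratic field is invariant under conjugation.
-/

open NumberField Module

namespace Pool.Agent.StarkRQ

variable {F M : Type*} [Field F] [NumberField F] [Field M] [NumberField M] [Algebra F M]
  [IsGalois ℚ M] [IsGalois F M]

lemma exists_notMem_fixG (hF : finrank ℚ F = 2) : ∃ γ : Gal(M/ℚ), γ ∉ fixG F M := by
  have hidx := fixG_index (M := M) hF
  by_contra hcon
  push Not at hcon
  have : fixG F M = ⊤ := by
    ext x; simp [hcon x]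
  rw [this] at hidx
  simp at hidx

theorem cnt_conj (hF : finrank ℚ F = 2) (hab : ∀ σ τ : Gal(M/F), σ * τ = τ * σ) {N : ℕ}
    (hN : N ≠ 0) (hram : ∀ p : ℕ, p.Prime → (p : ℤ) ∣ discr M → p ∣ N) (n : ℕ) (hn : n ≠ 0)
    (hnN : n.Coprime N) (γ : Gal(M/ℚ)) :
    ∀ g : Gal(M/ℚ), cnt F M n (γ * g * γ⁻¹) = cnt F M n g := by
  classical
  have hidx := fixG_index (M := M) hF
  have hcomm := fixG_comm (M := M) hab
  have hnor : (fixG F M).Normal := Subgroup.normal_of_index_eq_two hidx
  have hpp : ∀ p : ℕ, p.Prime → p.Coprime N → ∀ e : ℕ, ∀ g : Gal(M/ℚ),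
      cnt F M (p ^ e) (γ * g * γ⁻¹) = cnt F M (p ^ e) g := by
    intro p hp hpN e g
    obtain ⟨Q, hQ, hpQ⟩ := exists_prime_over (M := M) hp
    obtain ⟨φ, hφ⟩ := exists_cong hp hpQ
    by_cases hφF : φ ∈ fixG F M
    · by_cases hγ : γ ∈ fixG F M
      · obtain ⟨γ₀, hγ₀⟩ := exists_notMem_fixG (M := M) hF
        rw [cnt_split hF hab hram hp hpN hpQ hφ hφF hγ₀, cnt_split hF hab hram hp hpN hpQ hφ hφF hγ₀]
        congr 1
        refine Finset.filter_congr fun i _ => ?_
        have hmem : φ ^ i * (γ₀ * φ * γ₀⁻¹) ^ (e - i) ∈ fixG F M :=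
          Subgroup.mul_mem _ (Subgroup.pow_mem _ hφF _)
            (Subgroup.pow_mem _ (hnor.conj_mem φ hφF γ₀) _)
        constructor
        · intro h
          have h1 := hcomm γ hγ _ hmem
          rw [h] at h1
          have h2 : γ * (γ * g * γ⁻¹) * γ⁻¹ = γ * g * γ⁻¹ := by
            rw [h1, mul_inv_cancel_right]
          have h3 : γ * g * γ⁻¹ = g := by
            have := mul_right_cancel (b := γ⁻¹) h2
            exact mul_left_cancel (a := γ) this
          rw [h, h3]
        · intro h
          have h1 := hcomm γ hγ _ hmem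
          rw [h] at h1
          rw [h, h1, mul_inv_cancel_right]
      · rw [cnt_split hF hab hram hp hpN hpQ hφ hφF hγ, cnt_split hF hab hram hp hpN hpQ hφ hφF hγ]
        have hP : γ⁻¹ * φ * γ = γ * φ * γ⁻¹ := by
          have h1 : γ * γ ∈ fixG F M := mul_mem_of_index_two hidx hγ hγ
          have h2 := hcomm _ h1 (γ⁻¹ * φ * γ) (by
            have := hnor.conj_mem φ hφF γ⁻¹
            rwa [inv_inv] at this)
          have h3 : γ * γ * (γ⁻¹ * φ * γ) = γ * φ * γ := by group
          rw [h3] at h2
          have h4 : γ⁻¹ * φ * γ = γ * φ * γ * (γ * γ)⁻¹ := by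
            rw [h2, mul_inv_cancel_right]
          rw [h4]; group
        have hPmem : γ * φ * γ⁻¹ ∈ fixG F M := hnor.conj_mem φ hφF γ
        have key : ∀ i ∈ Finset.range (e + 1), (φ ^ i * (γ * φ * γ⁻¹) ^ (e - i) = γ * g * γ⁻¹ ↔
            φ ^ (e - i) * (γ * φ * γ⁻¹) ^ (e - (e - i)) = g) := by
          intro i hi
          have hi' : i ≤ e := by simpa [Nat.lt_succ_iff] using hi
          have h1 : φ ^ i * (γ * φ * γ⁻¹) ^ (e - i) =
              γ * ((γ⁻¹ * φ * γ) ^ i * φ ^ (e - i)) * γ⁻¹ := by
            rw [conj_pow]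
            have : (γ⁻¹ * φ * γ) ^ i = γ⁻¹ * φ ^ i * γ := by
              have := conj_pow (a := γ⁻¹) (b := φ) (i := i)
              rwa [inv_inv] at this
            rw [this]; group
          rw [h1, hP, Nat.sub_sub_self hi',
            hcomm _ (Subgroup.pow_mem _ hPmem _) _ (Subgroup.pow_mem _ hφF _)]
          constructor
          · intro h
            have := mul_right_cancel h
            exact mul_left_cancel this
          · intro h
            rw [h]
        rw [Finset.filter_congr key]
        rw [Finset.card_filter, Finset.card_filter]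
        conv_rhs => rw [← Finset.sum_range_reflect]
        refine Finset.sum_congr rfl fun i hi => ?_
        have e1 : e + 1 - 1 - i = e - i := by omega
        rw [e1]
    · rw [cnt_inert hF hab hram hp hpN hpQ hφ hφF hidx, cnt_inert hF hab hram hp hpN hpQ hφ hφF hidx]
      by_cases he : Even e
      · have hc : γ * φ ^ e * γ⁻¹ = φ ^ e := by
          obtain ⟨j, rfl⟩ := he
          have h2 : φ ^ (j + j) = (φ * φ) ^ j := by rw [← two_mul, pow_mul, pow_two]
          have hφ2 : φ * φ ∈ fixG F M := mul_mem_of_index_two hidx hφF hφF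
          have h3 : γ * (φ * φ) * γ⁻¹ = φ * φ := by
            by_cases hγ : γ ∈ fixG F M
            · rw [hcomm γ hγ _ hφ2, mul_inv_cancel_right]
            · have h4 : φ⁻¹ * γ ∈ fixG F M :=
                mul_mem_of_index_two hidx (fun h => hφF (by simpa using Subgroup.inv_mem _ h)) hγ
              have h5 := hcomm _ h4 _ hφ2
              have h6 : γ * (φ * φ) = φ * φ * γ := by
                have h7 : φ * (φ⁻¹ * γ * (φ * φ)) = φ * (φ * φ * (φ⁻¹ * γ)) := by rw [h5]
                have h8 : φ * (φ⁻¹ * γ * (φ * φ)) = γ * (φ * φ) := by group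
                have h9 : φ * (φ * φ * (φ⁻¹ * γ)) = φ * φ * γ := by group
                rw [← h8, h7, h9]
              rw [h6, mul_inv_cancel_right]
          rw [h2, ← conj_pow, h3]
        have hiff : φ ^ e = γ * g * γ⁻¹ ↔ φ ^ e = g := by
          rw [← hc]
          constructor
          · intro h
            have := mul_left_cancel (mul_right_cancel h)
            rw [hc, this]
          · intro h
            rw [hc] at h
            rw [hc, ← h, hc]
        simp only [hiff]
      · simp [he]
  induction n using Nat.recOnPosPrimePosCoprime with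
  | prime_pow p e hp he =>
      exact hpp p hp (Nat.Coprime.coprime_dvd_left (dvd_pow_self p he.ne') hnN) e
  | zero => exact absurd rfl hn
  | one =>
      obtain ⟨p, hpN, hp⟩ := Nat.exists_infinite_primes (N + 1)
      have hcop : p.Coprime N := by
        rw [hp.coprime_iff_not_dvd]
        intro h
        have := Nat.le_of_dvd (Nat.pos_of_ne_zero hN) h
        omega
      simpa using hpp p hp hcop 0
  | coprime a b ha hb hab' iha ihb =>
      have ha0 : a ≠ 0 := by omega
      have hb0 : b ≠ 0 := by omega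
      have haN : a.Coprime N := Nat.Coprime.coprime_mul_right hnN
      have hbN : b.Coprime N := Nat.Coprime.coprime_mul_left hnN
      intro g
      rw [cnt_mul hab hram ha0 hb0 hab' haN hbN, cnt_mul hab hram ha0 hb0 hab' haN hbN]
      symm
      refine Fintype.sum_equiv (MulAut.conj γ).toEquiv _ _ fun h => ?_
      change cnt F M a h * cnt F M b (h⁻¹ * g) =
        cnt F M a (γ * h * γ⁻¹) * cnt F M b ((γ * h * γ⁻¹)⁻¹ * (γ * g * γ⁻¹))
      have e1 : (γ * h * γ⁻¹)⁻¹ * (γ * g * γ⁻¹) = γ * (h⁻¹ * g) * γ⁻¹ := by group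
      rw [e1, iha ha0 haN, ihb hb0 hbN]

end Pool.Agent.StarkRQ
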