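import Pool.Agent.StarkRQ.Base

/-!
PACKAGE SRQ5.  Frobenius elements of `Gal(M/ℚ)`.

`Cong g Q q` says `g x ≡ x ^ q mod Q`. Mathlib: `Mathlib/RingTheory/Frobenius.lean` (`IsArithFrobAt ℤ g Q`,
`mul_inv_mem_inertia`, `conj`, `exists_of_isInvariant`, `eq_of_isUnramifiedAt`); all instances
(`IsGaloisGroup Gal(M/ℚ) ℤ (𝓞 M)`, `Algebra.IsInvariant ℤ (𝓞 M) Gal(M/ℚ)`) are found by `inferInstance`.
* `Cong.unique`: for `q = p` use `AlgHom.IsArithFrobAt.eq_of_isUnramifiedAt`; in general `g * g'⁻¹` lies in the inertia group of `Q` (as in `IsArithFrobAt.mul_inv_mem_inertia`),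
  which is trivial: `NumberField.not_dvd_discr_iff_isUnramifiedIn` gives `Algebra.IsUnramifiedAt ℤ Q`;
  its order is the ramification index 1 (`Ideal.card_inertia_eq_ramificationIdxIn`,
  `Mathlib/NumberTheory/RamificationInertia/Unramified.lean`).
* `exists_cong`: `Nat.card (ℤ ⧸ Q.under ℤ) = p`.
* `exists_smul_eq`: `Ideal.exists_smul_eq_of_isGaloisGroup` with `p := Ideal.span {(p : ℤ)}`.
-/

open NumberField
open scoped Pointwise

namespace Pool.Agent.StarkRQ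

section overQ

variable {M : Type*} [Field M] [NumberField M] 

lemma Cong.mul {g g' : Gal(M/ℚ)} {Q : Ideal (𝓞 M)} {q q' : ℕ} (h : Cong g Q q)
    (h' : Cong g' Q q') : Cong (g * g') Q (q * q') := by
  intro x
  have h1 : g • (g' • x) - (g' • x) ^ q ∈ Q := h _
  have h2 : (g' • x) ^ q - (x ^ q') ^ q ∈ Q :=
    Ideal.mem_of_dvd _ (sub_dvd_pow_sub_pow _ _ _) (h' x)
  have h3 := Q.add_mem h1 h2
  rw [sub_add_sub_cancel, ← pow_mul, mul_comm q' q] at h3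
  rw [mul_smul]
  exact h3

lemma Cong.one (Q : Ideal (𝓞 M)) : Cong (1 : Gal(M/ℚ)) Q 1 := by
  intro x; simp

lemma Cong.pow {g : Gal(M/ℚ)} {Q : Ideal (𝓞 M)} {q : ℕ} (h : Cong g Q q) (j : ℕ) :
    Cong (g ^ j) Q (q ^ j) := by
  induction j with
  | zero => simpa using Cong.one Q
  | succ j ih =>
    rw [pow_succ, pow_succ]
    exact ih.mul h

lemma Cong.conj {g : Gal(M/ℚ)} {Q : Ideal (𝓞 M)} {q : ℕ} (h : Cong g Q q) (γ : Gal(M/ℚ)) :
    Cong (γ * g * γ⁻¹) (γ • Q) q := by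
  intro x
  rw [Ideal.mem_pointwise_smul_iff_inv_smul_mem, smul_sub, smul_pow', mul_smul, mul_smul,
    inv_smul_smul]
  exact h _

variable [IsGalois ℚ M]

theorem Cong.unique {p : ℕ} (hp : p.Prime) (hpd : ¬ (p : ℤ) ∣ discr M) {Q : Ideal (𝓞 M)}
    [Q.IsPrime] (hpQ : (p : 𝓞 M) ∈ Q) {g g' : Gal(M/ℚ)} {q : ℕ} (h : Cong g Q q)
    (h' : Cong g' Q q) : g = g' := by
  have hpp : Prime (p : ℤ) := Nat.prime_iff_prime_int.mp hp
  have hpQ' : ((p : ℤ) : 𝓞 M) ∈ Q := by exact_mod_cast hpQ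
  have hun : Algebra.IsUnramifiedIn (𝓞 M) (Ideal.span {(p : ℤ)}) :=
    (NumberField.not_dvd_discr_iff_isUnramifiedIn M (𝓞 M) hpp).mp hpd
  have : Q.LiesOver (Ideal.span {(p : ℤ)}) :=
    (Ideal.liesOver_span_iff (Ideal.IsPrime.ne_top inferInstance) hpp).mpr hpQ'
  have hmax : (Ideal.span {(p : ℤ)}).IsMaximal :=
    PrincipalIdealRing.isMaximal_of_irreducible hpp.irreducible
  have hmem : g * g'⁻¹ ∈ Q.inertia Gal(M/ℚ) := by
    intro x
    have h1 := Q.sub_mem (h (g'⁻¹ • x)) (h' (g'⁻¹ • x))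
    rw [sub_sub_sub_cancel_right, ← mul_smul, smul_inv_smul] at h1
    exact h1
  have hcard : Nat.card (Q.inertia Gal(M/ℚ)) = 1 := by
    have hfin : Finite (ℤ ⧸ Ideal.span {(p : ℤ)}) := Ideal.finiteQuotientOfFreeOfNeBot _
      (by simpa using hp.ne_zero)
    have hfin' : Finite (Ideal.span {(p : ℤ)}).ResidueField :=
      Finite.of_surjective _ (Ideal.bijective_algebraMap_quotient_residueField
        (Ideal.span {(p : ℤ)})).2
    rw [Ideal.card_inertia_eq_ramificationIdxIn (Ideal.span {(p : ℤ)}) Q,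
      Ideal.ramificationIdxIn_eq_ramificationIdx (Ideal.span {(p : ℤ)}) Q Gal(M/ℚ)]
    exact hun.ramificationIdx_eq_one inferInstance
  have h1 : g * g'⁻¹ = 1 := by
    have := (Nat.card_eq_one_iff_unique.mp hcard).1
    have h2 : (⟨g * g'⁻¹, hmem⟩ : Q.inertia Gal(M/ℚ)) = 1 := Subsingleton.elim _ _
    exact congrArg Subtype.val h2
  exact mul_inv_eq_one.mp h1

theorem exists_cong {p : ℕ} (hp : p.Prime) {Q : Ideal (𝓞 M)}
    [Q.IsPrime] (hpQ : (p : 𝓞 M) ∈ Q) : ∃ g : Gal(M/ℚ), Cong g Q p := by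
  have hpp : Prime (p : ℤ) := Nat.prime_iff_prime_int.mp hp
  have hpQ' : ((p : ℤ) : 𝓞 M) ∈ Q := by exact_mod_cast hpQ
  have hQ0 : Q ≠ ⊥ := by
    rintro rfl
    have h1 : (p : 𝓞 M) = 0 := by simpa using hpQ
    exact hp.ne_zero (by exact_mod_cast h1)
  have hfin : Finite (𝓞 M ⧸ Q) := Ideal.finiteQuotientOfFreeOfNeBot Q hQ0
  have hover : Q.LiesOver (Ideal.span {(p : ℤ)}) :=
    (Ideal.liesOver_span_iff (Ideal.IsPrime.ne_top inferInstance) hpp).mpr hpQ'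
  obtain ⟨g, hg⟩ := IsArithFrobAt.exists_of_isInvariant (R := ℤ) (G := Gal(M/ℚ)) (Q := Q)
  refine ⟨g, fun x => ?_⟩
  have h1 := hg x
  have h2 : Nat.card (ℤ ⧸ Q.under ℤ) = p := by
    rw [← hover.over, Nat.card_congr (Int.quotientSpanNatEquivZMod p).toEquiv, Nat.card_zmod]
  rw [h2] at h1
  exact h1

omit [IsGalois ℚ M] in
theorem exists_prime_over {p : ℕ} (hp : p.Prime) :
    ∃ Q : Ideal (𝓞 M), Q.IsPrime ∧ (p : 𝓞 M) ∈ Q := by
  have hpp : Prime (p : ℤ) := Nat.prime_iff_prime_int.mp hp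
  have hprime : (Ideal.span {(p : ℤ)}).IsPrime :=
    (Ideal.span_singleton_prime hpp.ne_zero).mpr hpp
  obtain ⟨Q, hQ, h⟩ := Ideal.exists_ideal_over_prime_of_isIntegral_of_isDomain (S := 𝓞 M)
    (Ideal.span {(p : ℤ)}) (by
      rw [(RingHom.injective_iff_ker_eq_bot _).mp (FaithfulSMul.algebraMap_injective ℤ (𝓞 M))]
      exact bot_le)
  refine ⟨Q, hQ, ?_⟩
  have h1 : (p : ℤ) ∈ Q.comap (algebraMap ℤ (𝓞 M)) := by
    rw [h]
    exact Ideal.mem_span_singleton_self _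
  simpa using h1

theorem exists_smul_eq {p : ℕ} (hp : p.Prime) {Q Q' : Ideal (𝓞 M)}
    [Q.IsPrime] [Q'.IsPrime] (hpQ : (p : 𝓞 M) ∈ Q) (hpQ' : (p : 𝓞 M) ∈ Q') :
    ∃ γ : Gal(M/ℚ), γ • Q = Q' := by
  have hpp : Prime (p : ℤ) := Nat.prime_iff_prime_int.mp hp
  have h1 : Q.LiesOver (Ideal.span {(p : ℤ)}) :=
    (Ideal.liesOver_span_iff (Ideal.IsPrime.ne_top inferInstance) hpp).mpr (by exact_mod_cast hpQ)
  have h2 : Q'.LiesOver (Ideal.span {(p : ℤ)}) :=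
    (Ideal.liesOver_span_iff (Ideal.IsPrime.ne_top inferInstance) hpp).mpr
      (by exact_mod_cast hpQ')
  have h : Q.under ℤ = Q'.under ℤ := h1.over.symm.trans h2.over
  obtain ⟨γ, hγ⟩ := Algebra.IsInvariant.exists_smul_of_under_eq ℤ (𝓞 M) Gal(M/ℚ) Q Q' h
  exact ⟨γ, hγ.symm⟩

end overQ

end Pool.Agent.StarkRQ
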