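import Pool.Agent.StarkRQ.CycDefs

/-!
# The cyclotomic character is surjective; quadratic characters
-/

open NumberField Module

namespace Pool.Agent.StarkRQ

theorem chi_surjective {M : Type*} [Field M] [NumberField M] [IsGalois ℚ M] {f : ℕ} [NeZero f]
    {ζ : M} (hζ : IsPrimitiveRoot ζ f) : Function.Surjective (hζ.autToPow ℚ) := by
  intro u
  have hf : 0 < f := NeZero.pos f
  have hcop : ((u : (ZMod f)ˣ) : ZMod f).val.Coprime f := ZMod.val_coe_unit_coprime u
  have hprim : IsPrimitiveRoot (ζ ^ (u : ZMod f).val) f := hζ.pow_of_coprime _ hcop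
  have hconj : IsConjRoot ℚ ζ (ζ ^ (u : ZMod f).val) := by
    rw [IsConjRoot, ← Polynomial.cyclotomic_eq_minpoly_rat hζ hf,
      ← Polynomial.cyclotomic_eq_minpoly_rat hprim hf]
  obtain ⟨σ, hσ⟩ := isConjRoot_iff_exists_algEquiv.1 hconj
  refine ⟨σ⁻¹, ?_⟩
  have h1 := hζ.autToPow_spec ℚ σ⁻¹
  have h2 : σ⁻¹ ζ = ζ ^ (u : ZMod f).val := by
    have h0 : σ⁻¹ (σ (ζ ^ (u : ZMod f).val)) = ζ ^ (u : ZMod f).val := σ.symm_apply_apply _
    rwa [hσ] at h0
  rw [h2] at h1
  apply Units.ext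
  have h3 := hζ.pow_inj (ZMod.val_lt _) (ZMod.val_lt _) h1
  exact ZMod.val_injective f h3

theorem exists_kappa {G : Type*} [Group G] {f : ℕ} [NeZero f] (χ : G →* (ZMod f)ˣ)
    (hχ : Function.Surjective χ) (B : Subgroup G) (hB : B.index = 2) (hker : χ.ker ≤ B) :
    ∃ κ : DirichletCharacter ℤ f, ∀ g : G, κ ((χ g : (ZMod f)ˣ) : ZMod f) = 1 ↔ g ∈ B := by
  classical
  have hB' : (B.map χ).index = 2 := by
    rw [Subgroup.index_map, sup_eq_left.2 hker, hB, (MonoidHom.range_eq_top (f := χ)).2 hχ,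
      Subgroup.index_top]
  have hmem : ∀ g : G, χ g ∈ B.map χ ↔ g ∈ B := by
    intro g
    constructor
    · rintro ⟨b, hb, hbg⟩
      have h1 : b⁻¹ * g ∈ χ.ker := by
        rw [MonoidHom.mem_ker, map_mul, map_inv, hbg, inv_mul_cancel]
      have := B.mul_mem hb (hker h1)
      rwa [mul_inv_cancel_left] at this
    · intro h
      exact Subgroup.mem_map_of_mem χ h
  let ψ : (ZMod f)ˣ →* ℤˣ :=
    { toFun := fun u => if u ∈ B.map χ then 1 else -1
      map_one' := if_pos (Subgroup.one_mem _)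
      map_mul' := by
        intro u v
        have := Subgroup.mul_mem_iff_of_index_two hB' (a := u) (b := v)
        by_cases hu : u ∈ B.map χ <;> by_cases hv : v ∈ B.map χ <;>
          simp [this, hu, hv] }
  refine ⟨MulChar.ofUnitHom ψ, fun g => ?_⟩
  rw [MulChar.ofUnitHom_coe, ← hmem g]
  change (((if χ g ∈ B.map χ then 1 else -1 : ℤˣ)) : ℤ) = 1 ↔ _
  by_cases h : χ g ∈ B.map χ
  · simp [h]
  · simp [h]

/-- `ℚ(ζ)` has degree `φ f`: the automorphisms of `M` fixing `ζ`. -/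
theorem card_fix {M : Type*} [Field M] [NumberField M] [IsGalois ℚ M] {f : ℕ} [NeZero f]
    {ζ : M} (hζ : IsPrimitiveRoot ζ f) {m : ℕ} (hdeg : finrank ℚ M = m * Nat.totient f) :
    Nat.card {g : Gal(M/ℚ) // g ζ = ζ} = m := by
  have hker : ∀ g : Gal(M/ℚ), g ∈ (hζ.autToPow ℚ).ker ↔ g ζ = ζ := by
    intro g
    rw [MonoidHom.mem_ker]
    have h1 := hζ.autToPow_spec ℚ g
    constructor
    · intro h
      rw [h, Units.val_one] at h1
      rw [← h1]
      rcases Nat.lt_or_ge 1 f with h2 | h2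
      · have : Fact (1 < f) := ⟨h2⟩
        rw [ZMod.val_one, pow_one]
      · have h3 : f = 1 := le_antisymm h2 (NeZero.pos f)
        subst h3
        have : ζ = 1 := by simpa using hζ.pow_eq_one
        rw [this, one_pow]
    · intro h
      rw [h] at h1
      rcases Nat.lt_or_ge 1 f with h2 | h2
      · have : Fact (1 < f) := ⟨h2⟩
        have h3 : ζ ^ ((hζ.autToPow ℚ g : (ZMod f)ˣ) : ZMod f).val = ζ ^ 1 := by
          rw [h1, pow_one]
        have h4 := hζ.pow_inj (ZMod.val_lt _) h2 h3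
        apply Units.ext
        rw [Units.val_one]
        apply ZMod.val_injective f
        rw [h4, ZMod.val_one]
      · have h3 : f = 1 := le_antisymm h2 (NeZero.pos f)
        subst h3
        exact Subsingleton.elim _ _
  have h1 : Nat.card {g : Gal(M/ℚ) // g ζ = ζ} = Nat.card (hζ.autToPow ℚ).ker :=
    Nat.card_congr (Equiv.subtypeEquivRight fun g => (hker g).symm)
  have h2 : Nat.card Gal(M/ℚ) = m * Nat.totient f := by
    rw [IsGalois.card_aut_eq_finrank, hdeg]
  have h3 : (hζ.autToPow ℚ).ker.index = Nat.totient f := by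
    rw [Subgroup.index_ker, (MonoidHom.range_eq_top (f := hζ.autToPow ℚ)).2 (chi_surjective hζ),
      Subgroup.card_top, Nat.card_eq_fintype_card, ZMod.card_units_eq_totient]
  have h4 := Subgroup.card_mul_index (hζ.autToPow ℚ).ker
  rw [h3, h2] at h4
  rw [h1]
  exact Nat.eq_of_mul_eq_mul_right (Nat.totient_pos.2 (NeZero.pos f)) h4

end Pool.Agent.StarkRQ
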