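import Pool.Agent.StarkRQ.CycPP

/-!
# Ideals of a quadratic field whose Artin symbol is given on `ℚ(ζ_f)`

`M ⊇ k` abelian, `k` quadratic, `Gal(M/ℚ(ζ)) = {1, z}`. The number of ideals of `k` of norm `n` whose
Artin symbol is `s` or `z s` is `∑_{d ∣ n} κ d` if `n ≡ χ(s)` and `0` otherwise.

Write `χ g = hζ.autToPow ℚ g`. Put `S n u = ∑_{g, χ g = u} cnt k M n g`.
* prime powers: `sum_cnt_primePow` (`CycPP.lean`).
* `S (m n) u = ∑_v S m v * S n (v⁻¹ u)` for coprime `m`, `n` by `cnt_mul`; so for `n` prime to `f`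
  `S n u = if u = n then r n else 0` with `r` multiplicative, `r n = ∑_{d ∣ n} κ d`
  (`Nat.recOnPosPrimePosCoprime` as in `Coeff.lean`; `Nat.Coprime.sum_divisors_mul_of_isMultiplicative`
  or `ArithmeticFunction` for the multiplicativity of `r`).
* `zcoeff_eq_cnt` and `{g | χ g = χ s} = {s, z s}`.
* if `n` is not prime to `f`, both sides are `0`.
-/

open NumberField Module

namespace Pool.Agent.StarkRQ

variable {k M : Type*} [Field k] [NumberField k] [Field M] [NumberField M] [Algebra k M]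
  [IsGalois ℚ M] [IsGalois k M]

private lemma CycCount_sum_mul {f : ℕ} (κ : DirichletCharacter ℤ f) {a b : ℕ} (hab : a.Coprime b) :
    ∑ d ∈ (a * b).divisors, κ (d : ZMod f) =
      (∑ d ∈ a.divisors, κ (d : ZMod f)) * ∑ d ∈ b.divisors, κ (d : ZMod f) := by
  rw [Nat.divisors_mul, Finset.mul_def, Finset.sum_image hab.mul_injOn_divisors,
    Finset.sum_mul_sum, Finset.sum_product]
  simp only [Nat.cast_mul, map_mul]

private lemma CycCount_S (hk : finrank ℚ k = 2) (hB : ∀ σ τ : Gal(M/k), σ * τ = τ * σ) {f : ℕ}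
    [NeZero f] (hram : ∀ p : ℕ, p.Prime → (p : ℤ) ∣ discr M → p ∣ f) {ζ : M}
    (hζ : IsPrimitiveRoot ζ f) (κ : DirichletCharacter ℤ f)
    (hκ : ∀ g : Gal(M/ℚ), κ ((hζ.autToPow ℚ g : (ZMod f)ˣ) : ZMod f) = 1 ↔ g ∈ fixG k M)
    (n : ℕ) (hn : n ≠ 0) (hnf : n.Coprime f) :
    ∀ u : (ZMod f)ˣ,
    (∑ g : Gal(M/ℚ), if hζ.autToPow ℚ g = u then (cnt k M n g : ℤ) else 0) =
      if (u : ZMod f) = (n : ZMod f) then ∑ d ∈ n.divisors, κ (d : ZMod f) else 0 := by
  have hpp : ∀ p : ℕ, p.Prime → p.Coprime f → ∀ e : ℕ, ∀ u : (ZMod f)ˣ,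
      (∑ g : Gal(M/ℚ), if hζ.autToPow ℚ g = u then (cnt k M (p ^ e) g : ℤ) else 0) =
      if (u : ZMod f) = ((p ^ e : ℕ) : ZMod f) then
        ∑ d ∈ (p ^ e).divisors, κ (d : ZMod f) else 0 := by
    intro p hp hpf e u
    rw [sum_cnt_primePow hk hB hram hζ κ hκ hp hpf e u, Nat.sum_divisors_prime_pow hp]
  induction n using Nat.recOnPosPrimePosCoprime with
  | prime_pow p e hp he =>
      exact hpp p hp (Nat.Coprime.coprime_dvd_left (dvd_pow_self p he.ne') hnf) e
  | zero => exact absurd rfl hn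
  | one =>
      obtain ⟨p, hpN, hp⟩ := Nat.exists_infinite_primes (f + 1)
      have hcop : p.Coprime f := by
        rw [hp.coprime_iff_not_dvd]
        intro h
        have := Nat.le_of_dvd (Nat.pos_of_ne_zero (NeZero.ne f)) h
        omega
      simpa using hpp p hp hcop 0
  | coprime a b ha hb hab iha ihb =>
      have ha0 : a ≠ 0 := by omega
      have hb0 : b ≠ 0 := by omega
      have haf : a.Coprime f := Nat.Coprime.coprime_mul_right hnf
      have hbf : b.Coprime f := Nat.Coprime.coprime_mul_left hnf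
      have iha' := iha ha0 haf
      have ihb' := ihb hb0 hbf
      intro u
      set χ := hζ.autToPow ℚ with hχ
      set b' : (ZMod f)ˣ := ZMod.unitOfCoprime b hbf with hb'
      have hbc : (b' : ZMod f) = (b : ZMod f) := ZMod.coe_unitOfCoprime b hbf
      have h1 : (∑ g : Gal(M/ℚ), if χ g = u then (cnt k M (a * b) g : ℤ) else 0) =
          ∑ h : Gal(M/ℚ), (cnt k M a h : ℤ) *
            ∑ g : Gal(M/ℚ), if χ g = u then (cnt k M b (h⁻¹ * g) : ℤ) else 0 := by
        simp only [Finset.mul_sum]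
        rw [Finset.sum_comm]
        refine Finset.sum_congr rfl fun g _ => ?_
        split_ifs with hg
        · rw [cnt_mul hB hram ha0 hb0 hab haf hbf]
          push_cast
          rfl
        · simp
      have h2 : ∀ h : Gal(M/ℚ), (∑ g : Gal(M/ℚ), if χ g = u then (cnt k M b (h⁻¹ * g) : ℤ) else 0) =
          if χ h = u * b'⁻¹ then ∑ d ∈ b.divisors, κ (d : ZMod f) else 0 := by
        intro h
        have h3 : (∑ g : Gal(M/ℚ), if χ g = u then (cnt k M b (h⁻¹ * g) : ℤ) else 0) =
            ∑ g : Gal(M/ℚ), if χ g = (χ h)⁻¹ * u then (cnt k M b g : ℤ) else 0 := by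
          refine Fintype.sum_equiv (Equiv.mulLeft h⁻¹) _ _ fun g => ?_
          simp only [Equiv.coe_mulLeft, map_mul, map_inv, mul_right_inj]
        rw [h3, ihb']
        have h4 : ((((χ h)⁻¹ * u : (ZMod f)ˣ) : ZMod f) = (b : ZMod f)) ↔ χ h = u * b'⁻¹ := by
          rw [← hbc, Units.val_inj]
          constructor
          · intro h5
            rw [← h5]
            simp
          · intro h5
            rw [h5]
            simp [mul_comm]
        simp only [h4]
      rw [h1]
      simp only [h2]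
      have h5 : (∑ h : Gal(M/ℚ), (cnt k M a h : ℤ) *
          if χ h = u * b'⁻¹ then ∑ d ∈ b.divisors, κ (d : ZMod f) else 0) =
          (∑ h : Gal(M/ℚ), if χ h = u * b'⁻¹ then (cnt k M a h : ℤ) else 0) *
            ∑ d ∈ b.divisors, κ (d : ZMod f) := by
        rw [Finset.sum_mul]
        refine Finset.sum_congr rfl fun h _ => ?_
        split_ifs <;> simp
      rw [h5, iha', CycCount_sum_mul κ hab]
      have h6 : (((u * b'⁻¹ : (ZMod f)ˣ) : ZMod f) = (a : ZMod f)) ↔
          (u : ZMod f) = ((a * b : ℕ) : ZMod f) := by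
        rw [Nat.cast_mul, ← hbc]
        constructor
        · intro h7
          rw [← h7, ← Units.val_mul]
          simp
        · intro h7
          rw [Units.val_mul, h7, mul_assoc, ← Units.val_mul]
          simp
      simp only [h6]
      split_ifs <;> simp

theorem zcoeff_add (hk : finrank ℚ k = 2) (hB : ∀ σ τ : Gal(M/k), σ * τ = τ * σ) {f : ℕ} [NeZero f]
    (hram : ∀ p : ℕ, p.Prime → (p : ℤ) ∣ discr M → p ∣ f) {ζ : M} (hζ : IsPrimitiveRoot ζ f)
    {z : Gal(M/ℚ)} (hz1 : z ≠ 1) (hzz : z * z = 1) (hzζ : z ζ = ζ)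
    (hfix : ∀ g : Gal(M/ℚ), g ζ = ζ → g = 1 ∨ g = z) {zk : Gal(M/k)} (hzk : toG k M zk = z)
    (κ : DirichletCharacter ℤ f)
    (hκ : ∀ g : Gal(M/ℚ), κ ((hζ.autToPow ℚ g : (ZMod f)ˣ) : ZMod f) = 1 ↔ g ∈ fixG k M)
    (s : Gal(M/k)) (n : ℕ) (hn : n ≠ 0) :
    (zcoeff f s n : ℤ) + zcoeff f (zk * s) n =
      if (n : ZMod f) = ((hζ.autToPow ℚ (toG k M s) : (ZMod f)ˣ) : ZMod f) then
        ∑ d ∈ n.divisors, κ (d : ZMod f) else 0 := by
  classical
  set χ := hζ.autToPow ℚ with hχ
  by_cases hnf : n.Coprime f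
  · rw [zcoeff_eq_cnt hB hram hn hnf, zcoeff_eq_cnt hB hram hn hnf, map_mul, hzk]
    have h1 := CycCount_S hk hB hram hζ κ hκ n hn hnf (χ (toG k M s))
    have h1' : (if (n : ZMod f) = ((χ (toG k M s) : (ZMod f)ˣ) : ZMod f) then
        ∑ d ∈ n.divisors, κ (d : ZMod f) else 0) =
        if ((χ (toG k M s) : (ZMod f)ˣ) : ZMod f) = (n : ZMod f) then
        ∑ d ∈ n.divisors, κ (d : ZMod f) else 0 := if_congr eq_comm rfl rfl
    rw [h1', ← h1, ← Finset.sum_filter]
    have hne : toG k M s ≠ z * toG k M s := by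
      intro h
      exact hz1 (by simpa using h.symm)
    have h2 : (Finset.univ.filter fun g : Gal(M/ℚ) => χ g = χ (toG k M s)) =
        {toG k M s, z * toG k M s} := by
      ext g
      simp only [Finset.mem_filter, Finset.mem_univ, true_and, Finset.mem_insert,
        Finset.mem_singleton]
      have hone : ∀ h : Gal(M/ℚ), χ h = 1 ↔ h ζ = ζ := by
        intro h
        have hs := hζ.autToPow_spec ℚ h
        constructor
        · intro h3
          rw [← hs, ← hχ, h3]
          rcases eq_or_ne f 1 with rfl | hf1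
          · have : ζ = 1 := by simpa using hζ.pow_eq_one
            rw [this, one_pow]
          · have : Fact (1 < f) := ⟨by have := NeZero.ne f; omega⟩
            rw [Units.val_one, ZMod.val_one, pow_one]
        · intro h3
          rw [h3] at hs
          have h4 : ζ ^ (χ h : ZMod f).val = ζ ^ 1 := by rw [hs, pow_one]
          rcases eq_or_ne f 1 with rfl | hf1
          · exact Subsingleton.elim _ _
          · have : Fact (1 < f) := ⟨by have := NeZero.ne f; omega⟩
            have h5 := hζ.pow_inj (ZMod.val_lt _) this.1 h4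
            refine Units.ext (ZMod.val_injective f ?_)
            rw [h5, Units.val_one, ZMod.val_one]
      have h3 : χ g = χ (toG k M s) ↔ χ (g * (toG k M s)⁻¹) = 1 := by
        rw [map_mul, map_inv, mul_inv_eq_one]
      rw [h3, hone]
      constructor
      · intro h4
        rcases hfix _ h4 with h5 | h5
        · left
          exact mul_inv_eq_one.1 h5
        · right
          rw [← h5, inv_mul_cancel_right]
      · rintro (h4 | h4)
        · rw [h4, mul_inv_cancel]
          rfl
        · rw [h4, mul_inv_cancel_right]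
          exact hzζ
    rw [h2, Finset.sum_pair hne]
  · have h1 : zcoeff f s n = 0 := by rw [zcoeff, if_neg hnf]
    have h2 : zcoeff f (zk * s) n = 0 := by rw [zcoeff, if_neg hnf]
    rw [h1, h2, if_neg]
    · simp
    · intro h3
      apply hnf
      rw [← ZMod.isUnit_iff_coprime, h3]
      exact Units.isUnit _

end Pool.Agent.StarkRQ
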