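import Pool.Agent.StarkRQ.Galois

/-!
Adjoining roots of unity to an abelian extension.
-/

open NumberField Module

namespace Pool.Agent.StarkRQ

theorem isAbelianGalois_cyclotomic (K M : Type*) [Field K] [CharZero K] [Field M] [Algebra K M]
    [FiniteDimensional K M] [IsAbelianGalois K M] (n : ℕ) [NeZero n] (E : Type*) [Field E] [Algebra M E]
    [Algebra K E] [IsScalarTower K M E] [IsCyclotomicExtension {n} M E] : IsAbelianGalois K E := by
  have hcM : CharZero M := charZero_of_injective_algebraMap (algebraMap K M).injective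
  have hcE : CharZero E := charZero_of_injective_algebraMap (algebraMap M E).injective
  obtain ⟨p, hp0, hp⟩ : ∃ p : Polynomial K, p ≠ 0 ∧ Polynomial.IsSplittingField K M p := by
    obtain ⟨p, hp⟩ := Normal.exists_isSplittingField K M
    by_cases h : p = 0
    · refine ⟨1, one_ne_zero, ⟨by simp, ?_⟩⟩
      have := hp.adjoin_rootSet'
      rw [h] at this
      simpa using this
    · exact ⟨p, h, hp⟩
  have hX : (Polynomial.X ^ n - 1 : Polynomial K) ≠ 0 :=
    (Polynomial.monic_X_pow_sub_C (1 : K) (NeZero.ne n)).ne_zero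
  have h1 : Polynomial.IsSplittingField M E ((Polynomial.X ^ n - 1 : Polynomial K).map (algebraMap K M)) := by
    have := IsCyclotomicExtension.isSplittingField_X_pow_sub_one n M E
    simpa using this
  have h2 : Polynomial.IsSplittingField K E (p * (Polynomial.X ^ n - 1)) :=
    Polynomial.IsSplittingField.mul (K := M) (L := E) p _ hp0 hX
  have h3 : Normal K E := Normal.of_isSplittingField (p * (Polynomial.X ^ n - 1))
  have h4 : IsGalois K E := ⟨⟩
  refine { h4, IsMulCommutative.of_comm ?_ with }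
  intro σ τ
  obtain ⟨ζ, hζ⟩ := IsCyclotomicExtension.exists_isPrimitiveRoot M E (Set.mem_singleton n) (NeZero.ne n)
  have hcomm : ∀ x : M, (σ * τ * σ⁻¹ * τ⁻¹) (algebraMap M E x) = algebraMap M E x := by
    intro x
    have h5 : AlgEquiv.restrictNormalHom M (σ * τ * σ⁻¹ * τ⁻¹) = (1 : Gal(M/K)) := by
      simp only [map_mul, map_inv]
      rw [mul_comm' (AlgEquiv.restrictNormalHom M σ) (AlgEquiv.restrictNormalHom M τ)]
      group
    have h6 := AlgEquiv.restrictNormal_commutes (σ * τ * σ⁻¹ * τ⁻¹) M x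
    have h7 : (σ * τ * σ⁻¹ * τ⁻¹).restrictNormal M = 1 := h5
    rw [h7] at h6
    exact h6.symm
  have hroot : ∀ (ζ : E), ζ ^ n = 1 → σ (τ ζ) = τ (σ ζ) := by
    intro ζ hζ
    obtain ⟨g, hg⟩ := IsCyclic.exists_generator (α := rootsOfUnity n E)
    obtain ⟨i, hi⟩ := map_rootsOfUnity_eq_pow_self σ g
    obtain ⟨j, hj⟩ := map_rootsOfUnity_eq_pow_self τ g
    obtain ⟨a, ha⟩ := hg (rootsOfUnity.mkOfPowEq ζ hζ)
    have hζ' : ζ = ((g : Eˣ) : E) ^ a := by
      have := congrArg (fun x : rootsOfUnity n E => ((x : Eˣ) : E)) ha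
      simpa using this.symm
    rw [hζ', map_zpow₀, map_zpow₀, map_zpow₀, map_zpow₀, hi, hj, map_pow, map_pow, hi, hj,
      ← pow_mul, ← pow_mul, mul_comm i j]
  let t : E ≃ₐ[M] E := AlgEquiv.ofRingEquiv (f := (σ * τ * σ⁻¹ * τ⁻¹).toRingEquiv) hcomm
  have ht : t = 1 := by
    have h8 := IsCyclotomicExtension.adjoin_primitive_root_eq_top (A := M) (B := E) hζ
    have h9 : (t : E →ₐ[M] E) = AlgHom.id M E := by
      apply AlgHom.ext_of_adjoin_eq_top h8
      intro x hx
      rw [Set.mem_singleton_iff] at hx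
      rw [hx]
      change (σ * τ * σ⁻¹ * τ⁻¹) ζ = ζ
      have h10 : ((σ⁻¹ * τ⁻¹) ζ) ^ n = 1 := by rw [← map_pow, hζ.pow_eq_one, map_one]
      have h11 := hroot _ h10
      have h12 : (σ * τ * σ⁻¹ * τ⁻¹) ζ = σ (τ ((σ⁻¹ * τ⁻¹) ζ)) := by
        rw [mul_assoc (σ * τ)]; rfl
      rw [h12, h11]
      have h13 : τ (σ ((σ⁻¹ * τ⁻¹) ζ)) = (τ * σ * (σ⁻¹ * τ⁻¹)) ζ := rfl
      rw [h13]
      simp
    ext x
    exact DFunLike.congr_fun h9 x
  have h14 : σ * τ * σ⁻¹ * τ⁻¹ = 1 := by
    ext x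
    exact DFunLike.congr_fun ht x
  have h15 : σ * τ * σ⁻¹ = τ := mul_inv_eq_one.1 h14
  exact mul_inv_eq_iff_eq_mul.1 h15

end Pool.Agent.StarkRQ
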