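import Pool.Agent.StarkRQ.ArtSpec

/-!
PACKAGE SRQ9

Setting: `F` quadratic, `M/ℚ` Galois, `M/F` abelian, `p` prime to `N` (so unramified in `M`),
`Q ∋ p` a prime of `M`, `φ ∈ Gal(M/ℚ)` with `φ x ≡ x ^ p mod Q` (so `φ` is THE Frobenius at `Q`).
`cnt F M n g` = number of ideals `𝔞` of `𝓞 F` with norm `n` and `toG (art 𝔞) = g`.

`cnt_inert`, `φ` does not fix `F`. If a prime `𝔮 ∋ p` of `𝓞 F` had norm `p`, choose `Q' ∋ p` over `𝔮` and
`ψ ∈ Gal(M/F)` with `Cong (toG ψ) Q' p` (`exists_cong_over`); `Q' = γ • Q`, so `toG ψ = γ φ γ⁻¹` by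
`Cong.conj` and `Cong.unique`, so `φ` would be in the normal subgroup `fixG F M` (normal: index 2, `fixG_index`). As
`𝔮 ∣ (p)` and `(p)` has norm `p ^ 2`, every prime containing `p` has norm `p ^ 2` and equals `(p)`. Its Artin
symbol is `φ ^ 2` (`art_prime`, `Cong.pow`, `Cong.unique`). An ideal of norm `p ^ e` is a product of primes
containing `p`, so it is `(p) ^ i`, `2 i = e`, with Artin symbol `φ ^ (2 i)` (`art_mul`, `art (⊤) = 1`).
-/

open NumberField Module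
open scoped Pointwise

namespace Pool.Agent.StarkRQ

variable {F M : Type*} [Field F] [NumberField F] [Field M] [NumberField M] [Algebra F M]
  [IsGalois ℚ M] [IsGalois F M]

/-- The norm of the ideal generated by `p`. -/
private theorem inert_norm (hF : finrank ℚ F = 2) (p : ℕ) :
    Ideal.absNorm (Ideal.span {(p : 𝓞 F)}) = p ^ 2 := by
  rw [Ideal.absNorm_span_natCast, RingOfIntegers.rank, hF]

omit [IsGalois ℚ M] in
private theorem inert_discr {N : ℕ} (hram : ∀ p : ℕ, p.Prime → (p : ℤ) ∣ discr M → p ∣ N) {p : ℕ}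
    (hp : p.Prime) (hpN : p.Coprime N) : ¬ (p : ℤ) ∣ discr M := fun h => by
  have h1 := hram p hp h
  have h2 : p ∣ 1 := by
    rw [← hpN]
    exact Nat.dvd_gcd dvd_rfl h1
  exact hp.one_lt.ne' (Nat.dvd_one.1 h2)

/-- A prime ideal containing `p` does not have norm `p`. -/
private theorem inert_ne {N : ℕ} (hram : ∀ p : ℕ, p.Prime → (p : ℤ) ∣ discr M → p ∣ N) {p : ℕ}
    (hp : p.Prime) (hpN : p.Coprime N) {Q : Ideal (𝓞 M)} [Q.IsPrime] (hpQ : (p : 𝓞 M) ∈ Q)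
    {φ : Gal(M/ℚ)} (hφ : Cong φ Q p) (hφF : φ ∉ fixG F M) (hn : (fixG F M).index = 2)
    {𝔮 : Ideal (𝓞 F)} (h𝔮 : 𝔮.IsPrime) (h0 : 𝔮 ≠ ⊥) (hp𝔮 : (p : 𝓞 F) ∈ 𝔮) :
    Ideal.absNorm 𝔮 ≠ p := by
  intro hnorm
  obtain ⟨Q', hQ', hc⟩ := exists_over (F := F) (M := M) 𝔮
  have hpQ' : (p : 𝓞 M) ∈ Q' := by
    rw [← hc, Ideal.mem_comap, map_natCast] at hp𝔮
    exact hp𝔮
  obtain ⟨ψ, hψ⟩ := exists_cong_over (F := F) (M := M) h0 hc
  rw [hnorm] at hψ
  obtain ⟨γ, hγ⟩ := exists_smul_eq hp hpQ hpQ'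
  have h1 := hφ.conj γ
  rw [hγ] at h1
  have h2 := Cong.unique hp (inert_discr hram hp hpN) hpQ' hψ h1
  have h3 : γ * φ * γ⁻¹ ∈ fixG F M := by
    rw [← h2]
    exact ⟨ψ, rfl⟩
  have hnor : (fixG F M).Normal := Subgroup.normal_of_index_eq_two hn
  have h4 := hnor.conj_mem _ h3 γ⁻¹
  apply hφF
  have h5 : γ⁻¹ * (γ * φ * γ⁻¹) * γ⁻¹⁻¹ = φ := by group
  rwa [h5] at h4

/-- Every nonzero prime ideal containing `p` is `(p)`. -/
private theorem inert_eq (hF : finrank ℚ F = 2) {N : ℕ}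
    (hram : ∀ p : ℕ, p.Prime → (p : ℤ) ∣ discr M → p ∣ N) {p : ℕ}
    (hp : p.Prime) (hpN : p.Coprime N) {Q : Ideal (𝓞 M)} [Q.IsPrime] (hpQ : (p : 𝓞 M) ∈ Q)
    {φ : Gal(M/ℚ)} (hφ : Cong φ Q p) (hφF : φ ∉ fixG F M) (hn : (fixG F M).index = 2)
    {𝔮 : Ideal (𝓞 F)} (h𝔮 : 𝔮.IsPrime) (hp𝔮 : (p : 𝓞 F) ∈ 𝔮) :
    𝔮 = Ideal.span {(p : 𝓞 F)} := by
  have hp0 : (p : 𝓞 F) ≠ 0 := by
    exact_mod_cast hp.ne_zero
  have h0 : 𝔮 ≠ ⊥ := by
    rintro rfl
    exact hp0 (by simpa using hp𝔮)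
  have hle : Ideal.span {(p : 𝓞 F)} ≤ 𝔮 := (Ideal.span_singleton_le_iff_mem _).2 hp𝔮
  have hd := Ideal.absNorm_dvd_absNorm_of_le hle
  rw [inert_norm hF] at hd
  obtain ⟨m, hm, hm'⟩ := (Nat.dvd_prime_pow hp).1 hd
  have hne1 : Ideal.absNorm 𝔮 ≠ 1 := fun h => h𝔮.ne_top (Ideal.absNorm_eq_one_iff.1 h)
  have hnep := inert_ne (M := M) hram hp hpN hpQ hφ hφF hn h𝔮 h0 hp𝔮
  have hm2 : m = 2 := by
    interval_cases m
    · exact (hne1 (by rw [hm', pow_zero])).elim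
    · exact (hnep (by rw [hm', pow_one])).elim
    · rfl
  rw [hm2] at hm'
  obtain ⟨I, hI⟩ := Ideal.dvd_iff_le.2 hle
  have h1 : Ideal.absNorm 𝔮 * Ideal.absNorm I = p ^ 2 := by
    rw [← map_mul, ← hI, inert_norm hF]
  rw [hm'] at h1
  have h2 : Ideal.absNorm I = 1 := by
    have h3 : 0 < p ^ 2 := pow_pos hp.pos 2
    exact Nat.eq_of_mul_eq_mul_left h3 (by rw [h1, mul_one])
  rw [hI, Ideal.absNorm_eq_one_iff.1 h2, ← Ideal.one_eq_top, mul_one]

/-- The ideals of norm a power of `p`. -/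
private theorem inert_pow (hF : finrank ℚ F = 2) {N : ℕ}
    (hram : ∀ p : ℕ, p.Prime → (p : ℤ) ∣ discr M → p ∣ N) {p : ℕ}
    (hp : p.Prime) (hpN : p.Coprime N) {Q : Ideal (𝓞 M)} [Q.IsPrime] (hpQ : (p : 𝓞 M) ∈ Q)
    {φ : Gal(M/ℚ)} (hφ : Cong φ Q p) (hφF : φ ∉ fixG F M) (hn : (fixG F M).index = 2)
    (e : ℕ) (𝔞 : Ideal (𝓞 F)) (h𝔞 : Ideal.absNorm 𝔞 = p ^ e) :
    ∃ i, e = 2 * i ∧ 𝔞 = Ideal.span {(p : 𝓞 F)} ^ i := by
  induction e using Nat.strong_induction_on generalizing 𝔞 with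
  | _ e ih =>
    by_cases he : e = 0
    · subst he
      refine ⟨0, rfl, ?_⟩
      rw [pow_zero] at h𝔞
      rw [Ideal.absNorm_eq_one_iff.1 h𝔞, pow_zero, Ideal.one_eq_top]
    · have htop : 𝔞 ≠ ⊤ := by
        rintro rfl
        rw [Ideal.absNorm_top] at h𝔞
        exact (Nat.one_lt_pow he hp.one_lt).ne h𝔞
      obtain ⟨𝔮, hmax, hle⟩ := Ideal.exists_le_maximal 𝔞 htop
      have hpr := hmax.isPrime
      have hmem : ((p ^ e : ℕ) : 𝓞 F) ∈ 𝔮 := by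
        rw [← h𝔞]
        exact hle (Ideal.absNorm_mem 𝔞)
      rw [Nat.cast_pow] at hmem
      have hp𝔮 := hpr.mem_of_pow_mem e hmem
      have hq := inert_eq (M := M) hF hram hp hpN hpQ hφ hφF hn hpr hp𝔮
      rw [hq] at hle
      obtain ⟨𝔟, hb⟩ := Ideal.dvd_iff_le.2 hle
      have h1 : p ^ 2 * Ideal.absNorm 𝔟 = p ^ e := by
        rw [← inert_norm hF, ← map_mul, ← hb, h𝔞]
      have h2 : 2 ≤ e := by
        by_contra hlt
        have he1 : e = 1 := by omega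
        rw [he1, pow_one, pow_two, mul_assoc] at h1
        have h3 : p ∣ 1 := ⟨Ideal.absNorm 𝔟, by
          have := hp.pos
          exact (Nat.eq_of_mul_eq_mul_left this (by rw [h1, mul_one])).symm⟩
        exact hp.one_lt.ne' (Nat.dvd_one.1 h3)
      have h4 : Ideal.absNorm 𝔟 = p ^ (e - 2) := by
        have h5 : p ^ e = p ^ 2 * p ^ (e - 2) := by
          rw [← pow_add]
          congr 1
          omega
        rw [h5] at h1
        exact Nat.eq_of_mul_eq_mul_left (pow_pos hp.pos 2) h1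
      obtain ⟨i, hi, hbi⟩ := ih (e - 2) (by omega) 𝔟 h4
      refine ⟨i + 1, by omega, ?_⟩
      rw [hb, hbi, pow_succ, mul_comm]

open scoped Classical in
theorem cnt_inert (hF : finrank ℚ F = 2) (hab : ∀ σ τ : Gal(M/F), σ * τ = τ * σ) {N : ℕ}
    (hram : ∀ p : ℕ, p.Prime → (p : ℤ) ∣ discr M → p ∣ N) {p : ℕ} (hp : p.Prime)
    (hpN : p.Coprime N) {Q : Ideal (𝓞 M)} [Q.IsPrime] (hpQ : (p : 𝓞 M) ∈ Q) {φ : Gal(M/ℚ)}
    (hφ : Cong φ Q p) (hφF : φ ∉ fixG F M) (hn : (fixG F M).index = 2) (e : ℕ) (g : Gal(M/ℚ)) :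
    cnt F M (p ^ e) g = if Even e ∧ φ ^ e = g then 1 else 0 := by
  set P : Ideal (𝓞 F) := Ideal.span {(p : 𝓞 F)} with hP
  have hp0 : (p : 𝓞 F) ≠ 0 := by
    exact_mod_cast hp.ne_zero
  have hP0 : P ≠ ⊥ := by
    rw [hP, Ne, Ideal.span_singleton_eq_bot]
    exact hp0
  -- `(p)` is the prime below `Q`
  have hcomap : Q.comap (algebraMap (𝓞 F) (𝓞 M)) = P := by
    refine inert_eq (M := M) hF hram hp hpN hpQ hφ hφF hn (Ideal.comap_isPrime _ _) ?_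
    rw [Ideal.mem_comap, map_natCast]
    exact hpQ
  have hPp : P.IsPrime := by
    rw [← hcomap]
    exact Ideal.comap_isPrime _ _
  have hNp : ∀ i, (Ideal.absNorm (P ^ i)).Coprime N := by
    intro i
    rw [map_pow, hP, inert_norm hF, ← pow_mul]
    exact Nat.Coprime.pow_left _ hpN
  have hartP : toG F M (art P) = φ ^ 2 := by
    have hN1 : (Ideal.absNorm P).Coprime N := by
      have := hNp 1
      rwa [pow_one] at this
    have h1 := art_prime hab hram hPp hP0 hN1 hcomap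
    have h2 := hφ.pow 2
    rw [hP, inert_norm hF] at h1
    exact Cong.unique hp (inert_discr hram hp hpN) hpQ h1 h2
  have hart : ∀ i, toG F M (art (P ^ i)) = φ ^ (2 * i) := by
    intro i
    induction i with
    | zero =>
      have h1 : HasArtinSymbol (P ^ 0) (1 : Gal(M/F)) := by
        refine ⟨[], by simp, ?_, rfl⟩
        rw [pow_zero]
        rfl
      have h2 : P ^ 0 ≠ ⊥ := by
        rw [pow_zero, Ideal.one_eq_top]
        exact top_ne_bot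
      have h3 := (art_spec hab hram h2 (hNp 0) 1).1 h1
      rw [← h3, map_one, mul_zero, pow_zero]
    | succ i ih =>
      have hPi : P ^ i ≠ ⊥ := by
        rw [← Ideal.zero_eq_bot]
        exact pow_ne_zero _ (by rw [Ideal.zero_eq_bot]; exact hP0)
      have hN1 : (Ideal.absNorm P).Coprime N := by
        have := hNp 1
        rwa [pow_one] at this
      rw [pow_succ, art_mul hab hram _ _ hPi hP0 (hNp i) hN1, map_mul, ih, hartP, ← pow_add]
      congr 1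
  have hpow := inert_pow (M := M) hF hram hp hpN hpQ hφ hφF hn e
  rw [cnt]
  split_ifs with h
  · obtain ⟨⟨i, hi⟩, hg⟩ := h
    have hi2 : e = 2 * i := by omega
    rw [Nat.card_eq_one_iff_unique]
    refine ⟨⟨fun a c => Subtype.ext ?_⟩, ⟨⟨P ^ i, ?_, ?_⟩⟩⟩
    · obtain ⟨i1, h1, h2⟩ := hpow a.1 a.2.1
      obtain ⟨i3, h3, h4⟩ := hpow c.1 c.2.1
      have h5 : i1 = i3 := by omega
      rw [h2, h4, h5]
    · rw [map_pow, hP, inert_norm hF, ← pow_mul, hi2]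
    · rw [hart, ← hi2, hg]
  · rw [Nat.card_eq_zero]
    refine Or.inl ⟨fun a => h ?_⟩
    obtain ⟨i1, h1, h2⟩ := hpow a.1 a.2.1
    refine ⟨⟨i1, by omega⟩, ?_⟩
    have h3 := a.2.2
    rw [h2, hart, ← h1] at h3
    exact h3

end Pool.Agent.StarkRQ
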