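import Pool.Agent.StarkRQ.ArtSpec

/-!
PACKAGE SRQ8

Setting: `F` quadratic, `M/ℚ` Galois, `M/F` abelian, `p` prime to `N` (so unramified in `M`),
`Q ∋ p` a prime of `M`, `φ ∈ Gal(M/ℚ)` with `φ x ≡ x ^ p mod Q` (so `φ` is THE Frobenius at `Q`).
`cnt F M n g` = number of ideals `𝔞` of `𝓞 F` with norm `n` and `toG (art 𝔞) = g`.

`cnt_split`, `φ` fixes `F`. Every prime `𝔮 ∋ p` of `𝓞 F` has norm `p`: choose a prime `Q' = γ • Q` of `M` over `𝔮`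
(`exists_over`, `exists_smul_eq`); `γ φ γ⁻¹` also fixes `F` (normal subgroup, index 2), so for `x ∈ 𝓞 F`
`x - x ^ p ∈ 𝔮`, the field `𝓞 F ⧸ 𝔮` has at most `p` elements, and its characteristic is `p`. Since the norm of
`(p)` is `p ^ 2`, `(p) = 𝔮₁ 𝔮₂`. With `𝔮₁ = Q ∩ 𝓞 F` and `𝔮₂ = (γ • Q) ∩ 𝓞 F`, `γ` not fixing `F`:
`art 𝔮₁ = φ`, `art 𝔮₂ = γ φ γ⁻¹` (`art_prime`, `Cong.unique`, `Cong.conj`). `𝔮₁ ≠ 𝔮₂`: otherwise there is `ρ ∈ Gal(M/F)`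
with `ρ γ Q = Q`; the decomposition group of `Q` is generated by `φ` (the inertia group is trivial;
alternatively: for `h • Q = Q`, `h` induces an automorphism of the finite field `𝓞 M ⧸ Q`, which is
`x ↦ x ^ (p ^ j)` for some `j`, so `h = φ ^ j` by `Cong.unique`), so `ρ γ` would fix `F`. (Or use that `p` is
unramified in `F`: `NumberField.discr_dvd_discr`, `NumberField.not_dvd_discr_iff_isUnramifiedIn`,
`Algebra.IsUnramifiedIn.ramificationIdx_eq_one`, and `Ideal.ncard_primesOver_mul_ramificationIdxIn_mul_inertiaDegIn`.) Any prime containing `p` is `𝔮₁` or `𝔮₂`. An ideal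
of norm `p ^ e` is a product of primes containing `p`, so it is `𝔮₁ ^ i * 𝔮₂ ^ (e - i)` for exactly one
`i ≤ e`; its Artin symbol is `φ ^ i (γ φ γ⁻¹) ^ (e - i)` (`art_mul`).
`fixG_index`: `toG` is injective, `Nat.card Gal(M/F) * 2 = Nat.card Gal(M/ℚ)` (`IsGalois.card_aut_eq_finrank`,
`finrank_mul_finrank`), `Subgroup.card_mul_index`.
-/

open NumberField Module
open scoped Pointwise

namespace Pool.Agent.StarkRQ

variable {F M : Type*} [Field F] [NumberField F] [Field M] [NumberField M] [Algebra F M]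
  [IsGalois ℚ M] [IsGalois F M]

theorem fixG_index (hF : finrank ℚ F = 2) : (fixG F M).index = 2 := by
  have h1 := Subgroup.card_mul_index (fixG F M)
  have h2 : Nat.card (fixG F M) = Nat.card Gal(M/F) :=
    Nat.card_congr (MonoidHom.ofInjective (toG_injective (F := F) (M := M))).toEquiv.symm
  have hfin : FiniteDimensional F M := FiniteDimensional.right ℚ F M
  have h3 : Nat.card Gal(M/F) = finrank F M := IsGalois.card_aut_eq_finrank F M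
  have h4 : Nat.card Gal(M/ℚ) = finrank ℚ M := IsGalois.card_aut_eq_finrank ℚ M
  have h5 : finrank ℚ F * finrank F M = finrank ℚ M := finrank_mul_finrank ℚ F M
  rw [h2, h3, h4, ← h5, hF, mul_comm] at h1
  exact Nat.eq_of_mul_eq_mul_right finrank_pos h1

omit [IsGalois ℚ M] [IsGalois F M] in
theorem fixG_comm (hab : ∀ σ τ : Gal(M/F), σ * τ = τ * σ) :
    ∀ a ∈ fixG F M, ∀ b ∈ fixG F M, a * b = b * a := by
  rintro _ ⟨a, rfl⟩ _ ⟨b, rfl⟩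
  rw [← map_mul, ← map_mul, hab]

omit [IsGalois ℚ M] [IsGalois F M] in
theorem split_fix {g : Gal(M/ℚ)} (hg : g ∈ fixG F M) (x : 𝓞 F) :
    g • algebraMap (𝓞 F) (𝓞 M) x = algebraMap (𝓞 F) (𝓞 M) x := by
  apply RingOfIntegers.ext
  exact mem_fixG.1 hg (x : F)

omit [IsGalois ℚ M] [IsGalois F M] in
theorem split_comap {g : Gal(M/ℚ)} (hg : g ∈ fixG F M) (Q : Ideal (𝓞 M)) :
    (g • Q).comap (algebraMap (𝓞 F) (𝓞 M)) = Q.comap (algebraMap (𝓞 F) (𝓞 M)) := by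
  ext x
  rw [Ideal.mem_comap, Ideal.mem_comap, Ideal.mem_pointwise_smul_iff_inv_smul_mem,
    split_fix (inv_mem hg)]

theorem split_norm_dvd (hF : finrank ℚ F = 2) {p : ℕ} {I : Ideal (𝓞 F)}
    (hpI : (p : 𝓞 F) ∈ I) : Ideal.absNorm I ∣ p ^ 2 := by
  have h1 : Ideal.span {(p : 𝓞 F)} ≤ I := by
    rw [Ideal.span_singleton_le_iff_mem]
    exact hpI
  have h2 := Ideal.absNorm_dvd_absNorm_of_le h1
  have h3 : Ideal.absNorm (Ideal.span {(p : 𝓞 F)}) = p ^ 2 := by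
    rw [Ideal.absNorm_span_natCast, RingOfIntegers.rank, hF]
  rwa [h3] at h2

theorem split_card_le {K : Type*} [Field K] [Finite K] {p : ℕ} (hp : 1 < p)
    (h : ∀ x : K, x - x ^ p = 0) : Nat.card K ≤ p := by
  classical
  have := Fintype.ofFinite K
  have h1 : (Finset.univ : Finset K) ⊆
      (Polynomial.X ^ p - Polynomial.X : Polynomial K).roots.toFinset := by
    intro x _
    rw [Multiset.mem_toFinset, Polynomial.mem_roots (FiniteField.X_pow_card_sub_X_ne_zero K hp)]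
    rw [Polynomial.IsRoot.def]
    simp only [Polynomial.eval_sub, Polynomial.eval_pow, Polynomial.eval_X]
    rw [← neg_sub, h x, neg_zero]
  have h2 := Finset.card_le_card h1
  have h3 := (Multiset.toFinset_card_le (Polynomial.X ^ p - Polynomial.X : Polynomial K).roots)
  have h4 := Polynomial.card_roots' (Polynomial.X ^ p - Polynomial.X : Polynomial K)
  rw [FiniteField.X_pow_card_sub_X_natDegree_eq K hp] at h4
  rw [Nat.card_eq_fintype_card, ← Finset.card_univ]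
  omega

omit [NumberField F] [NumberField M] [IsGalois ℚ M] [IsGalois F M] in
theorem split_mem_iff {Q : Ideal (𝓞 M)} {p : ℕ} :
    (p : 𝓞 M) ∈ Q ↔ (p : 𝓞 F) ∈ Q.comap (algebraMap (𝓞 F) (𝓞 M)) := by
  rw [Ideal.mem_comap, map_natCast]

theorem split_ne_bot {p : ℕ} (hp : p.Prime) {𝔮 : Ideal (𝓞 F)} (h : (p : 𝓞 F) ∈ 𝔮) :
    𝔮 ≠ ⊥ := by
  rintro rfl
  rw [Ideal.mem_bot] at h
  exact hp.ne_zero (by exact_mod_cast h)

/-- every prime over `p` has norm `p` -/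
theorem split_norm (hF : finrank ℚ F = 2) {p : ℕ} (hp : p.Prime) {Q : Ideal (𝓞 M)} [Q.IsPrime]
    (hpQ : (p : 𝓞 M) ∈ Q) {φ : Gal(M/ℚ)} (hφ : Cong φ Q p) (hφF : φ ∈ fixG F M)
    {𝔮 : Ideal (𝓞 F)} (h𝔮 : 𝔮.IsPrime) (hp𝔮 : (p : 𝓞 F) ∈ 𝔮) : Ideal.absNorm 𝔮 = p := by
  obtain ⟨Q', hQ', hQ'𝔮⟩ := exists_over (M := M) 𝔮
  have hpQ' : (p : 𝓞 M) ∈ Q' := by
    rw [split_mem_iff (F := F), hQ'𝔮]
    exact hp𝔮
  obtain ⟨δ, hδ⟩ := exists_smul_eq hp hpQ hpQ'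
  have hnorm : (fixG F M).Normal := Subgroup.normal_of_index_eq_two (fixG_index hF)
  have h1 : δ * φ * δ⁻¹ ∈ fixG F M := hnorm.conj_mem _ hφF δ
  have h2 : Cong (δ * φ * δ⁻¹) Q' p := hδ ▸ hφ.conj δ
  have h3 : ∀ x : 𝓞 F, x - x ^ p ∈ 𝔮 := by
    intro x
    have h4 := h2 (algebraMap (𝓞 F) (𝓞 M) x)
    rw [split_fix h1] at h4
    rw [← hQ'𝔮, Ideal.mem_comap, map_sub, map_pow]
    exact h4
  have h0 : 𝔮 ≠ ⊥ := split_ne_bot hp hp𝔮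
  have hmax : 𝔮.IsMaximal := h𝔮.isMaximal h0
  have hle : Ideal.absNorm 𝔮 ≤ p := by
    let _ : Field (𝓞 F ⧸ 𝔮) := Ideal.Quotient.field 𝔮
    have hfin : Finite (𝓞 F ⧸ 𝔮) := Ideal.finiteQuotientOfFreeOfNeBot 𝔮 h0
    rw [Ideal.absNorm_apply, Submodule.cardQuot_apply]
    refine split_card_le (K := 𝓞 F ⧸ 𝔮) hp.one_lt fun x => ?_
    obtain ⟨y, rfl⟩ := Ideal.Quotient.mk_surjective x
    rw [← map_pow, ← map_sub, Ideal.Quotient.eq_zero_iff_mem]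
    exact h3 y
  obtain ⟨j, hj, hj'⟩ := (Nat.dvd_prime_pow hp).1 (split_norm_dvd hF hp𝔮)
  have hj0 : j ≠ 0 := by
    rintro rfl
    rw [pow_zero, Ideal.absNorm_eq_one_iff] at hj'
    exact h𝔮.ne_top hj'
  have hj2 : j ≠ 2 := by
    rintro rfl
    rw [hj'] at hle
    have := hp.one_lt
    nlinarith
  have hj1 : j = 1 := by omega
  rw [hj', hj1, pow_one]

/-- every prime over `p` is one of two -/
theorem split_two (hF : finrank ℚ F = 2) {p : ℕ} (hp : p.Prime) {Q : Ideal (𝓞 M)} [Q.IsPrime]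
    (hpQ : (p : 𝓞 M) ∈ Q) {γ : Gal(M/ℚ)} (hγ : γ ∉ fixG F M)
    {𝔮 : Ideal (𝓞 F)} (h𝔮 : 𝔮.IsPrime) (hp𝔮 : (p : 𝓞 F) ∈ 𝔮) :
    𝔮 = Q.comap (algebraMap (𝓞 F) (𝓞 M)) ∨ 𝔮 = (γ • Q).comap (algebraMap (𝓞 F) (𝓞 M)) := by
  obtain ⟨Q', hQ', hQ'𝔮⟩ := exists_over (M := M) 𝔮
  have hpQ' : (p : 𝓞 M) ∈ Q' := by
    rw [split_mem_iff (F := F), hQ'𝔮]
    exact hp𝔮
  obtain ⟨δ, hδ⟩ := exists_smul_eq hp hpQ hpQ'
  by_cases h : δ ∈ fixG F M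
  · left
    rw [← hQ'𝔮, ← hδ, split_comap h]
  · right
    have h1 : δ * γ⁻¹ ∈ fixG F M := by
      rw [Subgroup.mul_mem_iff_of_index_two (fixG_index hF), inv_mem_iff]
      tauto
    have h2 : (δ * γ⁻¹) • (γ • Q) = δ • Q := by
      rw [smul_smul, inv_mul_cancel_right]
    rw [← hQ'𝔮, ← hδ, ← h2, split_comap h1]

omit [IsGalois ℚ M] [IsGalois F M] in
/-- `p` is unramified in `F` -/
theorem split_unram {N : ℕ} (hram : ∀ p : ℕ, p.Prime → (p : ℤ) ∣ discr M → p ∣ N) {p : ℕ}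
    (hp : p.Prime) (hpN : p.Coprime N) {𝔮 : Ideal (𝓞 F)} (h𝔮 : 𝔮.IsPrime)
    (hp𝔮 : (p : 𝓞 F) ∈ 𝔮) (h2 : 𝔮 * 𝔮 ∣ Ideal.span {(p : 𝓞 F)}) : False := by
  have hd : ¬ (p : ℤ) ∣ discr F := by
    intro h
    have h1 := hram p hp (h.trans (discr_dvd_discr F M))
    exact hp.one_lt.ne' (hpN.eq_one_of_dvd h1)
  have hpI : Prime (p : ℤ) := Nat.prime_iff_prime_int.1 hp
  have h3 := (not_dvd_discr_iff_forall_mem F (𝓞 F) hpI).1 hd 𝔮 h𝔮 (by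
    rw [Int.cast_natCast]; exact hp𝔮)
  rw [← not_dvd_differentIdeal_iff] at h3
  apply h3
  have hmax : (Ideal.span {(p : ℤ)}).IsMaximal :=
    PrincipalIdealRing.isMaximal_of_irreducible hpI.irreducible
  have h4 := pow_sub_one_dvd_differentIdeal ℤ (p := Ideal.span {(p : ℤ)}) 𝔮 2
    (by rw [Ne, Ideal.span_singleton_eq_bot]; exact hpI.ne_zero)
    (by
      rw [Ideal.map_span, Set.image_singleton, pow_two]
      have : algebraMap ℤ (𝓞 F) (p : ℤ) = (p : 𝓞 F) := by simp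
      rw [this]
      exact h2)
  simpa using h4

/-- the two primes over `p` are different -/
theorem split_ne (hF : finrank ℚ F = 2) {N : ℕ}
    (hram : ∀ p : ℕ, p.Prime → (p : ℤ) ∣ discr M → p ∣ N) {p : ℕ}
    (hp : p.Prime) (hpN : p.Coprime N) {Q : Ideal (𝓞 M)} [Q.IsPrime]
    (hpQ : (p : 𝓞 M) ∈ Q) {φ : Gal(M/ℚ)} (hφ : Cong φ Q p) (hφF : φ ∈ fixG F M)
    {γ : Gal(M/ℚ)} (hγ : γ ∉ fixG F M) :
    Q.comap (algebraMap (𝓞 F) (𝓞 M)) ≠ (γ • Q).comap (algebraMap (𝓞 F) (𝓞 M)) := by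
  intro heq
  set 𝔮 := Q.comap (algebraMap (𝓞 F) (𝓞 M)) with h𝔮def
  have hp𝔮 : (p : 𝓞 F) ∈ 𝔮 := split_mem_iff.1 hpQ
  have h𝔮 : 𝔮.IsPrime := Ideal.comap_isPrime _ _
  have hn := split_norm hF hp hpQ hφ hφF h𝔮 hp𝔮
  have hdvd : 𝔮 ∣ Ideal.span {(p : 𝓞 F)} := by
    rw [Ideal.dvd_span_singleton]
    exact hp𝔮
  obtain ⟨J, hJ⟩ := hdvd
  have hJn : Ideal.absNorm J = p := by
    have h1 : Ideal.absNorm (Ideal.span {(p : 𝓞 F)}) = p ^ 2 := by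
      rw [Ideal.absNorm_span_natCast, RingOfIntegers.rank, hF]
    rw [hJ, map_mul, hn, pow_two] at h1
    exact Nat.eq_of_mul_eq_mul_left hp.pos h1
  have hJp : J.IsPrime := Ideal.isPrime_of_irreducible_absNorm (by rw [hJn]; exact hp)
  have hpJ : (p : 𝓞 F) ∈ J := by
    have := Ideal.absNorm_mem J
    rwa [hJn] at this
  have hJ𝔮 : J = 𝔮 := by
    rcases split_two hF hp hpQ hγ hJp hpJ with h | h
    · exact h
    · rw [h, ← heq]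
  refine split_unram (M := M) hram hp hpN h𝔮 hp𝔮 ?_
  rw [hJ, hJ𝔮]

omit [IsGalois ℚ M] [IsGalois F M] in
/-- ideals of norm `p ^ e` when there are two primes of norm `p` -/
theorem split_ideals {p : ℕ} (hp : p.Prime) {𝔮₁ 𝔮₂ : Ideal (𝓞 F)}
    (hn₁ : Ideal.absNorm 𝔮₁ = p) (hn₂ : Ideal.absNorm 𝔮₂ = p)
    (hall : ∀ 𝔮 : Ideal (𝓞 F), 𝔮.IsPrime → (p : 𝓞 F) ∈ 𝔮 → 𝔮 = 𝔮₁ ∨ 𝔮 = 𝔮₂) :
    ∀ (e : ℕ) (𝔞 : Ideal (𝓞 F)), Ideal.absNorm 𝔞 = p ^ e →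
      ∃ i ≤ e, 𝔞 = 𝔮₁ ^ i * 𝔮₂ ^ (e - i) := by
  intro e
  induction e with
  | zero =>
    intro 𝔞 h
    rw [pow_zero, Ideal.absNorm_eq_one_iff] at h
    exact ⟨0, le_rfl, by simp [h]⟩
  | succ e ih =>
    intro 𝔞 h
    have hne : 𝔞 ≠ ⊤ := by
      rintro rfl
      rw [Ideal.absNorm_top] at h
      exact (Nat.one_lt_pow (Nat.succ_ne_zero e) hp.one_lt).ne h
    obtain ⟨𝔮, hmax, hle⟩ := Ideal.exists_le_maximal 𝔞 hne
    have hp𝔮 : (p : 𝓞 F) ∈ 𝔮 := by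
      have h1 := hle (Ideal.absNorm_mem 𝔞)
      rw [h, Nat.cast_pow] at h1
      exact hmax.isPrime.mem_of_pow_mem _ h1
    obtain ⟨𝔟, hb⟩ := Ideal.dvd_iff_le.2 hle
    rcases hall 𝔮 hmax.isPrime hp𝔮 with rfl | rfl
    · have hn : Ideal.absNorm 𝔟 = p ^ e := by
        rw [hb, map_mul, hn₁, pow_succ'] at h
        exact Nat.eq_of_mul_eq_mul_left hp.pos h
      obtain ⟨i, hi, hi'⟩ := ih 𝔟 hn
      refine ⟨i + 1, by omega, ?_⟩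
      rw [hb, hi', Nat.add_sub_add_right, pow_succ', mul_assoc]
    · have hn : Ideal.absNorm 𝔟 = p ^ e := by
        rw [hb, map_mul, hn₂, pow_succ'] at h
        exact Nat.eq_of_mul_eq_mul_left hp.pos h
      obtain ⟨i, hi, hi'⟩ := ih 𝔟 hn
      refine ⟨i, by omega, ?_⟩
      rw [hb, hi', Nat.succ_sub hi, pow_succ']
      ring

omit [IsGalois ℚ M] [IsGalois F M] in
theorem split_inj {𝔮₁ 𝔮₂ : Ideal (𝓞 F)} (h₁ : 𝔮₁.IsPrime) (h₂ : 𝔮₂.IsPrime) (h0 : 𝔮₁ ≠ ⊥)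
    (h0' : 𝔮₂ ≠ ⊥) (hne : 𝔮₁ ≠ 𝔮₂) {e i j : ℕ} (hi : i ≤ e) (hj : j ≤ e)
    (h : 𝔮₁ ^ i * 𝔮₂ ^ (e - i) = 𝔮₁ ^ j * 𝔮₂ ^ (e - j)) : i = j := by
  have key : ∀ {i j : ℕ}, i < j → j ≤ e →
      𝔮₁ ^ i * 𝔮₂ ^ (e - i) = 𝔮₁ ^ j * 𝔮₂ ^ (e - j) → False := by
    intro i j hij hj h
    have e1 : 𝔮₁ ^ i * 𝔮₂ ^ (e - i) = (𝔮₁ ^ i * 𝔮₂ ^ (e - j)) * 𝔮₂ ^ (j - i) := by
      rw [mul_assoc, ← pow_add]
      congr 2
      omega
    have e2 : 𝔮₁ ^ j * 𝔮₂ ^ (e - j) = (𝔮₁ ^ i * 𝔮₂ ^ (e - j)) * 𝔮₁ ^ (j - i) := by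
      have : 𝔮₁ ^ j = 𝔮₁ ^ i * 𝔮₁ ^ (j - i) := by
        rw [← pow_add]
        congr 1
        omega
      rw [this]
      ring
    rw [e1, e2] at h
    have hne0 : 𝔮₁ ^ i * 𝔮₂ ^ (e - j) ≠ 0 := mul_ne_zero (pow_ne_zero _ h0) (pow_ne_zero _ h0')
    have h3 : 𝔮₂ ^ (j - i) = 𝔮₁ ^ (j - i) := mul_left_cancel₀ hne0 h
    have hji : j - i ≠ 0 := by omega
    have h4 : 𝔮₁ ∣ 𝔮₂ ^ (j - i) := by
      rw [h3]
      exact dvd_pow_self _ hji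
    have hP : Prime 𝔮₁ := Ideal.prime_of_isPrime h0 h₁
    have h5 : 𝔮₁ ∣ 𝔮₂ := hP.dvd_of_dvd_pow h4
    have h6 : 𝔮₂ ≤ 𝔮₁ := Ideal.dvd_iff_le.1 h5
    have h7 : 𝔮₂.IsMaximal := h₂.isMaximal h0'
    exact hne (h7.eq_of_le h₁.ne_top h6).symm
  rcases lt_trichotomy i j with h1 | h1 | h1
  · exact (key h1 hj h).elim
  · exact h1
  · exact (key h1 hi h.symm).elim

theorem split_art_pow (hab : ∀ σ τ : Gal(M/F), σ * τ = τ * σ) {N : ℕ}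
    (hram : ∀ p : ℕ, p.Prime → (p : ℤ) ∣ discr M → p ∣ N) {𝔮 : Ideal (𝓞 F)} (h0 : 𝔮 ≠ ⊥)
    (hN : (Ideal.absNorm 𝔮).Coprime N) (i : ℕ) :
    art (𝔮 ^ i) = (art 𝔮 ^ i : Gal(M/F)) := by
  induction i with
  | zero =>
    rw [pow_zero, pow_zero, Ideal.one_eq_top]
    refine ((art_spec hab hram (𝔞 := ⊤) ?_ ?_ 1).1 ?_).symm
    · exact top_ne_bot
    · rw [Ideal.absNorm_top]; exact Nat.coprime_one_left N
    · exact ⟨[], by simp, by simp, by simp⟩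
  | succ i ih =>
    rw [pow_succ, pow_succ, art_mul hab hram _ _ (pow_ne_zero _ h0) h0
      (by rw [map_pow]; exact Nat.Coprime.pow_left _ hN) hN, ih]

open scoped Classical in
theorem cnt_split (hF : finrank ℚ F = 2) (hab : ∀ σ τ : Gal(M/F), σ * τ = τ * σ) {N : ℕ}
    (hram : ∀ p : ℕ, p.Prime → (p : ℤ) ∣ discr M → p ∣ N) {p : ℕ} (hp : p.Prime)
    (hpN : p.Coprime N) {Q : Ideal (𝓞 M)} [Q.IsPrime] (hpQ : (p : 𝓞 M) ∈ Q) {φ : Gal(M/ℚ)}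
    (hφ : Cong φ Q p) (hφF : φ ∈ fixG F M) {γ : Gal(M/ℚ)} (hγ : γ ∉ fixG F M) (e : ℕ)
    (g : Gal(M/ℚ)) :
    cnt F M (p ^ e) g =
      ((Finset.range (e + 1)).filter fun i => φ ^ i * (γ * φ * γ⁻¹) ^ (e - i) = g).card := by
  have hQ2 : (γ • Q).IsPrime := inferInstance
  have hpQ2 : (p : 𝓞 M) ∈ γ • Q := by
    rw [Ideal.mem_pointwise_smul_iff_inv_smul_mem]
    have : γ⁻¹ • (p : 𝓞 M) = (p : 𝓞 M) :=
      map_natCast (MulSemiringAction.toRingHom Gal(M/ℚ) (𝓞 M) γ⁻¹) p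
    rw [this]
    exact hpQ
  have hφ2 : Cong (γ * φ * γ⁻¹) (γ • Q) p := hφ.conj γ
  have hnorm : (fixG F M).Normal := Subgroup.normal_of_index_eq_two (fixG_index hF)
  have hφF2 : γ * φ * γ⁻¹ ∈ fixG F M := hnorm.conj_mem _ hφF γ
  set 𝔮₁ := Q.comap (algebraMap (𝓞 F) (𝓞 M)) with h𝔮₁
  set 𝔮₂ := (γ • Q).comap (algebraMap (𝓞 F) (𝓞 M)) with h𝔮₂
  have hP1 : 𝔮₁.IsPrime := Ideal.comap_isPrime _ _
  have hP2 : 𝔮₂.IsPrime := Ideal.comap_isPrime _ _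
  have hp1 : (p : 𝓞 F) ∈ 𝔮₁ := split_mem_iff.1 hpQ
  have hp2 : (p : 𝓞 F) ∈ 𝔮₂ := split_mem_iff.1 hpQ2
  have hb1 := split_ne_bot hp hp1
  have hb2 := split_ne_bot hp hp2
  have hn1 : Ideal.absNorm 𝔮₁ = p := split_norm hF hp hpQ hφ hφF hP1 hp1
  have hn2 : Ideal.absNorm 𝔮₂ = p := split_norm hF hp hpQ hφ hφF hP2 hp2
  have hne : 𝔮₁ ≠ 𝔮₂ := split_ne hF hram hp hpN hpQ hφ hφF hγ
  have hpd : ¬ (p : ℤ) ∣ discr M := fun h => hp.one_lt.ne' (hpN.eq_one_of_dvd (hram p hp h))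
  have ha1 : toG F M (art 𝔮₁) = φ := by
    have h1 := art_prime hab hram hP1 hb1 (by rw [hn1]; exact hpN) (Q := Q) rfl
    rw [hn1] at h1
    exact h1.unique hp hpd hpQ hφ
  have ha2 : toG F M (art 𝔮₂) = γ * φ * γ⁻¹ := by
    have h1 := art_prime hab hram hP2 hb2 (by rw [hn2]; exact hpN) (Q := γ • Q) rfl
    rw [hn2] at h1
    exact h1.unique hp hpd hpQ2 hφ2
  have hart : ∀ i j : ℕ, toG F M (art (𝔮₁ ^ i * 𝔮₂ ^ j)) = φ ^ i * (γ * φ * γ⁻¹) ^ j := by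
    intro i j
    rw [art_mul hab hram _ _ (pow_ne_zero _ hb1) (pow_ne_zero _ hb2)
      (by rw [map_pow, hn1]; exact Nat.Coprime.pow_left _ hpN)
      (by rw [map_pow, hn2]; exact Nat.Coprime.pow_left _ hpN),
      split_art_pow hab hram hb1 (by rw [hn1]; exact hpN),
      split_art_pow hab hram hb2 (by rw [hn2]; exact hpN), map_mul, map_pow, map_pow, ha1, ha2]
  unfold cnt
  set S := (Finset.range (e + 1)).filter fun i => φ ^ i * (γ * φ * γ⁻¹) ^ (e - i) = g with hS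
  have hmemS : ∀ i, i ∈ S ↔ i ≤ e ∧ φ ^ i * (γ * φ * γ⁻¹) ^ (e - i) = g := by
    intro i
    rw [hS, Finset.mem_filter, Finset.mem_range, Nat.lt_succ_iff]
  let f : {i // i ∈ S} → {𝔞 : Ideal (𝓞 F) // Ideal.absNorm 𝔞 = p ^ e ∧ toG F M (art 𝔞) = g} :=
    fun i => ⟨𝔮₁ ^ i.1 * 𝔮₂ ^ (e - i.1), by
      have h1 := (hmemS i.1).1 i.2
      refine ⟨?_, by rw [hart]; exact h1.2⟩
      rw [map_mul, map_pow, map_pow, hn1, hn2, ← pow_add]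
      congr 1
      omega⟩
  have hf : Function.Bijective f := by
    constructor
    · intro i j hij
      have h1 := (hmemS i.1).1 i.2
      have h2 := (hmemS j.1).1 j.2
      exact Subtype.ext (split_inj hP1 hP2 hb1 hb2 hne h1.1 h2.1 (congrArg Subtype.val hij))
    · rintro ⟨𝔞, ha, hg⟩
      obtain ⟨i, hi, hi'⟩ := split_ideals hp hn1 hn2
        (fun 𝔮 h𝔮 hp𝔮 => split_two hF hp hpQ hγ h𝔮 hp𝔮) e 𝔞 ha
      refine ⟨⟨i, (hmemS i).2 ⟨hi, ?_⟩⟩, Subtype.ext hi'.symm⟩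
      rw [← hart, ← hi']
      exact hg
  rw [← Nat.card_congr (Equiv.ofBijective f hf), Nat.card_eq_fintype_card, Fintype.card_coe]

end Pool.Agent.StarkRQ
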