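import Pool.Agent.StarkRQ.Conv
import Pool.Agent.StarkRQ.Split
import Pool.Agent.StarkRQ.Inert

/-!
The comparison of the counting functions of the two quadratic fields.
-/

open NumberField Module

namespace Pool.Agent.StarkRQ

/-- the difference of the numbers of ideals of norm `n` with Artin symbols `g` and `z g` -/
noncomputable def dcnt (F M : Type*) [Field F] [NumberField F] [Field M] [NumberField M]
    [Algebra F M] (z : Gal(M/ℚ)) (n : ℕ) (g : Gal(M/ℚ)) : ℤ :=
  (cnt F M n g : ℤ) - cnt F M n (z * g)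

/-- the data from `exists_z` used in the comparison -/
structure ZData {G : Type*} [Group G] (A B : Subgroup G) (z : G) : Prop where
  mem_A : z ∈ A
  mem_B : z ∈ B
  sq : z * z = 1
  central : ∀ s ∈ A, s ∈ B → ∀ g, s * g = g * s
  conjA : ∀ g ∈ A, g ∉ B → ∀ γ, γ ∉ A → γ * g * γ⁻¹ = z * g
  conjB : ∀ g ∈ B, g ∉ A → ∀ γ, γ ∉ B → γ * g * γ⁻¹ = z * g
  sq_mem : ∀ g, g * g ∈ A ∧ g * g ∈ B

lemma ZData.symm {G : Type*} [Group G] {A B : Subgroup G} {z : G} (h : ZData A B z) :
    ZData B A z :=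
  ⟨h.mem_B, h.mem_A, h.sq, fun s hs hs' => h.central s hs' hs, h.conjB, h.conjA,
    fun g => (h.sq_mem g).symm⟩

lemma ZData.pow_mem {G : Type*} [Group G] {A B : Subgroup G} {z : G} (h : ZData A B z) (g : G)
    {e : ℕ} (he : Even e) : g ^ e ∈ A ∧ g ^ e ∈ B := by
  obtain ⟨j, rfl⟩ := he
  rw [← two_mul, pow_mul, pow_two]
  exact ⟨A.pow_mem (h.sq_mem g).1 j, B.pow_mem (h.sq_mem g).2 j⟩

section conv

variable {F M : Type*} [Field F] [NumberField F] [Field M] [NumberField M] [Algebra F M]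
  [IsGalois ℚ M] [IsGalois F M]

lemma cnt_mul (hab : ∀ σ τ : Gal(M/F), σ * τ = τ * σ) {N : ℕ}
    (hram : ∀ p : ℕ, p.Prime → (p : ℤ) ∣ discr M → p ∣ N) {m n : ℕ} (hm : m ≠ 0) (hn : n ≠ 0)
    (hmn : m.Coprime n) (hmN : m.Coprime N) (hnN : n.Coprime N) (g : Gal(M/ℚ)) :
    cnt F M (m * n) g = ∑ h : Gal(M/ℚ), cnt F M m h * cnt F M n (h⁻¹ * g) := by
  refine card_norm_mul N (fun 𝔞 : Ideal (𝓞 F) => toG F M (art 𝔞)) ?_ hm hn hmn hmN hnN g
  intro b c hb hc hbN hcN
  change toG F M (art (b * c)) = toG F M (art b) * toG F M (art c)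
  rw [art_mul hab hram b c hb hc hbN hcN, map_mul]

omit [IsGalois ℚ M] [IsGalois F M] in
lemma dcnt_z_mul {z : Gal(M/ℚ)} (hz : z * z = 1) (n : ℕ) (g : Gal(M/ℚ)) :
    dcnt F M z n (z * g) = - dcnt F M z n g := by
  unfold dcnt
  rw [← mul_assoc, hz, one_mul]
  ring

lemma dcnt_mul (hab : ∀ σ τ : Gal(M/F), σ * τ = τ * σ) {N : ℕ}
    (hram : ∀ p : ℕ, p.Prime → (p : ℤ) ∣ discr M → p ∣ N) {m n : ℕ} (hm : m ≠ 0) (hn : n ≠ 0)
    (hmn : m.Coprime n) (hmN : m.Coprime N) (hnN : n.Coprime N) {z : Gal(M/ℚ)} (hz : z * z = 1)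
    (hzc : ∀ g, z * g = g * z) (g : Gal(M/ℚ)) :
    2 * dcnt F M z (m * n) g = ∑ h : Gal(M/ℚ), dcnt F M z m h * dcnt F M z n (h⁻¹ * g) := by
  have h1 : dcnt F M z (m * n) g = ∑ h : Gal(M/ℚ), (cnt F M m h : ℤ) * dcnt F M z n (h⁻¹ * g) := by
    unfold dcnt
    rw [cnt_mul hab hram hm hn hmn hmN hnN, cnt_mul hab hram hm hn hmn hmN hnN]
    push_cast
    rw [← Finset.sum_sub_distrib]
    refine Finset.sum_congr rfl fun h _ => ?_
    rw [mul_sub]
    congr 4
    rw [← mul_assoc, ← mul_assoc, hzc]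
  have h2 : ∑ h : Gal(M/ℚ), (cnt F M m (z * h) : ℤ) * dcnt F M z n (h⁻¹ * g) =
      - ∑ h : Gal(M/ℚ), (cnt F M m h : ℤ) * dcnt F M z n (h⁻¹ * g) := by
    rw [← Finset.sum_neg_distrib]
    refine Fintype.sum_equiv (Equiv.mulLeft z) _ _ fun h => ?_
    simp only [Equiv.coe_mulLeft]
    have hzi : z⁻¹ = z := inv_eq_of_mul_eq_one_left hz
    rw [mul_inv_rev, hzi, ← hzc, mul_assoc, dcnt_z_mul hz]
    ring
  have h3 : ∑ h : Gal(M/ℚ), dcnt F M z m h * dcnt F M z n (h⁻¹ * g) =
      ∑ h : Gal(M/ℚ), (cnt F M m h : ℤ) * dcnt F M z n (h⁻¹ * g) -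
      ∑ h : Gal(M/ℚ), (cnt F M m (z * h) : ℤ) * dcnt F M z n (h⁻¹ * g) := by
    rw [← Finset.sum_sub_distrib]
    refine Finset.sum_congr rfl fun h _ => ?_
    unfold dcnt
    ring
  rw [h3, h2, ← h1]
  ring

end conv

section local_

variable {F M : Type*} [Field F] [NumberField F] [Field M] [NumberField M] [Algebra F M]
  [IsGalois ℚ M] [IsGalois F M]

open scoped Classical in
/-- the local formula: the right side does not depend on `F`, only on whether `φ ∈ A ∩ B` -/
lemma dcnt_primePow (hF : finrank ℚ F = 2) (hab : ∀ σ τ : Gal(M/F), σ * τ = τ * σ) {N : ℕ}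
    (hram : ∀ p : ℕ, p.Prime → (p : ℤ) ∣ discr M → p ∣ N) {p : ℕ} (hp : p.Prime)
    (hpN : p.Coprime N) {Q : Ideal (𝓞 M)} [Q.IsPrime] (hpQ : (p : 𝓞 M) ∈ Q) {φ : Gal(M/ℚ)}
    (hφ : Cong φ Q p) {B : Subgroup Gal(M/ℚ)} {z : Gal(M/ℚ)} (hz : ZData (fixG F M) B z)
    (e : ℕ) (g : Gal(M/ℚ)) :
    dcnt F M z (p ^ e) g =
      (if φ ∈ fixG F M ∧ φ ∈ B then (e + 1 : ℤ) else if Even e then 1 else 0) *
        ((if φ ^ e = g then 1 else 0) - (if φ ^ e = z * g then 1 else 0)) := by
  have hidx := fixG_index (M := M) hF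
  have hzz := hz.sq
  have hzc := hz.central z hz.mem_A hz.mem_B
  unfold dcnt
  by_cases hφF : φ ∈ fixG F M
  · obtain ⟨γ, hγ⟩ : ∃ γ : Gal(M/ℚ), γ ∉ fixG F M := by
      by_contra hcon
      push Not at hcon
      have : fixG F M = ⊤ := by
        ext x; simp [hcon x]
      rw [this] at hidx
      simp at hidx
    rw [cnt_split hF hab hram hp hpN hpQ hφ hφF hγ, cnt_split hF hab hram hp hpN hpQ hφ hφF hγ]
    by_cases hφB : φ ∈ B
    · have hc : γ * φ * γ⁻¹ = φ := by
        rw [← hz.central φ hφF hφB γ, mul_assoc, mul_inv_cancel, mul_one]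
      rw [if_pos ⟨hφF, hφB⟩, hc]
      have key : ∀ x : Gal(M/ℚ), (((Finset.range (e + 1)).filter
          fun i => φ ^ i * φ ^ (e - i) = x).card : ℤ) = (e + 1 : ℤ) * (if φ ^ e = x then 1 else 0) := by
        intro x
        have : ((Finset.range (e + 1)).filter fun i => φ ^ i * φ ^ (e - i) = x) =
            ((Finset.range (e + 1)).filter fun i => φ ^ e = x) := by
          refine Finset.filter_congr fun i hi => ?_
          rw [← pow_add, Nat.add_sub_cancel' (by simpa [Nat.lt_succ_iff] using hi)]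
        rw [this]
        by_cases hx : φ ^ e = x
        · simp [hx]
        · simp [hx]
      rw [key, key]
      ring
    · have hc : γ * φ * γ⁻¹ = z * φ := hz.conjA φ hφF hφB γ hγ
      rw [if_neg (fun h => hφB h.2), hc]
      have key : ∀ x : Gal(M/ℚ), (((Finset.range (e + 1)).filter
          fun i => φ ^ i * (z * φ) ^ (e - i) = x).card : ℤ) =
          ∑ i ∈ Finset.range (e + 1), (if φ ^ e = z ^ i * x then (1 : ℤ) else 0) := by
        intro x
        rw [Finset.card_filter]
        push_cast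
        rw [← Finset.sum_range_reflect]
        refine Finset.sum_congr rfl fun i hi => ?_
        have hi' : i ≤ e := by simpa [Nat.lt_succ_iff] using hi
        have e1 : e + 1 - 1 - i = e - i := by omega
        rw [e1, Nat.sub_sub_self hi']
        have e2 : φ ^ (e - i) * (z * φ) ^ i = z ^ i * φ ^ e := by
          rw [(show Commute z φ from hzc φ).mul_pow, ← mul_assoc,
            ← ((show Commute z φ from hzc φ).pow_pow i (e - i)).eq, mul_assoc, ← pow_add,
            Nat.sub_add_cancel hi']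
        rw [e2]
        have e3 : z ^ i * φ ^ e = x ↔ φ ^ e = z ^ i * x := by
          have hzi : z ^ i * z ^ i = 1 := by
            rw [← (Commute.refl z).mul_pow, hzz, one_pow]
          constructor
          · rintro rfl
            rw [← mul_assoc, hzi, one_mul]
          · intro h
            rw [h, ← mul_assoc, hzi, one_mul]
        simp [e3]
      rw [key, key]
      have hodd : ∀ i x, (if φ ^ e = z ^ i * (z * x) then (1 : ℤ) else 0) =
          (if φ ^ e = z ^ (i + 1) * x then (1 : ℤ) else 0) := by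
        intro i x
        rw [← mul_assoc, pow_succ]
      simp only [hodd]
      have htel : ∑ i ∈ Finset.range (e + 1), (if φ ^ e = z ^ i * g then (1 : ℤ) else 0) -
          ∑ i ∈ Finset.range (e + 1), (if φ ^ e = z ^ (i + 1) * g then (1 : ℤ) else 0) =
          (if φ ^ e = z ^ 0 * g then (1 : ℤ) else 0) -
            (if φ ^ e = z ^ (e + 1) * g then (1 : ℤ) else 0) := by
        rw [← Finset.sum_sub_distrib, Finset.sum_range_sub'
          (fun i => if φ ^ e = z ^ i * g then (1 : ℤ) else 0)]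
      rw [htel]
      rcases Nat.even_or_odd e with he | he
      · have hze : z ^ (e + 1) = z := by
          obtain ⟨j, rfl⟩ := he
          rw [← two_mul, pow_succ, pow_mul, pow_two, hzz, one_pow, one_mul]
        rw [if_pos he, hze, pow_zero, one_mul, one_mul]
      · have hze : z ^ (e + 1) = 1 := by
          obtain ⟨j, rfl⟩ := he
          rw [show 2 * j + 1 + 1 = 2 * (j + 1) by ring, pow_mul, pow_two, hzz, one_pow]
        rw [if_neg (Nat.not_even_iff_odd.2 he), hze, pow_zero, sub_self, zero_mul]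
  · rw [if_neg (fun h => hφF h.1), cnt_inert hF hab hram hp hpN hpQ hφ hφF hidx,
      cnt_inert hF hab hram hp hpN hpQ hφ hφF hidx]
    by_cases he : Even e
    · simp [he]
    · simp [he]

end local_

section main

variable {K k M : Type*} [Field K] [NumberField K] [Field k] [NumberField k] [Field M]
  [NumberField M] [Algebra K M] [Algebra k M] [IsGalois ℚ M] [IsGalois K M] [IsGalois k M]

theorem dcnt_eq (hK : finrank ℚ K = 2) (hk : finrank ℚ k = 2)
    (hA : ∀ σ τ : Gal(M/K), σ * τ = τ * σ) (hB : ∀ σ τ : Gal(M/k), σ * τ = τ * σ) {N : ℕ}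
    (hN : N ≠ 0) (hram : ∀ p : ℕ, p.Prime → (p : ℤ) ∣ discr M → p ∣ N) {z : Gal(M/ℚ)}
    (hz : ZData (fixG K M) (fixG k M) z) (n : ℕ) (hn : n ≠ 0) (hnN : n.Coprime N) :
    (∀ g, dcnt K M z n g = dcnt k M z n g) ∧
      ∀ g, ¬ (g ∈ fixG K M ∧ g ∈ fixG k M) → dcnt K M z n g = 0 := by
  classical
  have hzz := hz.sq
  have hzc := hz.central z hz.mem_A hz.mem_B
  -- prime powers
  have hpp : ∀ p : ℕ, p.Prime → p.Coprime N → ∀ e : ℕ,
      (∀ g, dcnt K M z (p ^ e) g = dcnt k M z (p ^ e) g) ∧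
      ∀ g, ¬ (g ∈ fixG K M ∧ g ∈ fixG k M) → dcnt K M z (p ^ e) g = 0 := by
    intro p hp hpN e
    obtain ⟨Q, hQ, hpQ⟩ := exists_prime_over (M := M) hp
    obtain ⟨φ, hφ⟩ := exists_cong hp hpQ
    constructor
    · intro g
      rw [dcnt_primePow hK hA hram hp hpN hpQ hφ hz, dcnt_primePow hk hB hram hp hpN hpQ hφ hz.symm]
      simp only [and_comm]
    · intro g hg
      rw [dcnt_primePow hK hA hram hp hpN hpQ hφ hz]
      by_cases hφZ : φ ∈ fixG K M ∧ φ ∈ fixG k M
      · have h1 : φ ^ e ≠ g := by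
          rintro rfl
          exact hg ⟨Subgroup.pow_mem _ hφZ.1 _, Subgroup.pow_mem _ hφZ.2 _⟩
        have h2 : φ ^ e ≠ z * g := by
          intro h
          apply hg
          have : g = z * φ ^ e := by rw [h, ← mul_assoc, hzz, one_mul]
          rw [this]
          exact ⟨Subgroup.mul_mem _ hz.mem_A (Subgroup.pow_mem _ hφZ.1 _),
            Subgroup.mul_mem _ hz.mem_B (Subgroup.pow_mem _ hφZ.2 _)⟩
        rw [if_neg h1, if_neg h2]
        simp
      · rw [if_neg hφZ]
        by_cases he : Even e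
        · have hpm := hz.pow_mem φ he
          have h1 : φ ^ e ≠ g := by
            rintro rfl
            exact hg hpm
          have h2 : φ ^ e ≠ z * g := by
            intro h
            apply hg
            have : g = z * φ ^ e := by rw [h, ← mul_assoc, hzz, one_mul]
            rw [this]
            exact ⟨Subgroup.mul_mem _ hz.mem_A hpm.1, Subgroup.mul_mem _ hz.mem_B hpm.2⟩
          rw [if_neg h1, if_neg h2]
          simp
        · rw [if_neg he, zero_mul]
  induction n using Nat.recOnPosPrimePosCoprime with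
  | prime_pow p e hp he =>
      exact hpp p hp (Nat.Coprime.coprime_dvd_left (dvd_pow_self p he.ne') hnN) e
  | zero => exact absurd rfl hn
  | one =>
      obtain ⟨p, hpN, hp⟩ := Nat.exists_infinite_primes (N + 1)
      have hcop : p.Coprime N := by
        rw [hp.coprime_iff_not_dvd]
        intro h
        have := Nat.le_of_dvd (Nat.pos_of_ne_zero hN) h
        omega
      simpa using hpp p hp hcop 0
  | coprime a b ha hb hab iha ihb =>
      have ha0 : a ≠ 0 := by omega
      have hb0 : b ≠ 0 := by omega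
      have haN : a.Coprime N := Nat.Coprime.coprime_mul_right hnN
      have hbN : b.Coprime N := Nat.Coprime.coprime_mul_left hnN
      obtain ⟨a1, a2⟩ := iha ha0 haN
      obtain ⟨b1, b2⟩ := ihb hb0 hbN
      constructor
      · intro g
        have h1 := dcnt_mul hA hram ha0 hb0 hab haN hbN hzz hzc g
        have h2 := dcnt_mul hB hram ha0 hb0 hab haN hbN hzz hzc g
        have h3 : ∑ h : Gal(M/ℚ), dcnt K M z a h * dcnt K M z b (h⁻¹ * g) =
            ∑ h : Gal(M/ℚ), dcnt k M z a h * dcnt k M z b (h⁻¹ * g) :=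
          Finset.sum_congr rfl fun h _ => by rw [a1, b1]
        have : (2 : ℤ) * dcnt K M z (a * b) g = 2 * dcnt k M z (a * b) g := by rw [h1, h2, h3]
        exact mul_left_cancel₀ two_ne_zero this
      · intro g hg
        have h1 := dcnt_mul hA hram ha0 hb0 hab haN hbN hzz hzc g
        have h3 : ∑ h : Gal(M/ℚ), dcnt K M z a h * dcnt K M z b (h⁻¹ * g) = 0 := by
          refine Finset.sum_eq_zero fun h _ => ?_
          by_cases hh : h ∈ fixG K M ∧ h ∈ fixG k M
          · rw [b2, mul_zero]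
            intro hcon
            apply hg
            constructor
            · simpa using Subgroup.mul_mem _ hh.1 hcon.1
            · simpa using Subgroup.mul_mem _ hh.2 hcon.2
          · rw [a2 h hh, zero_mul]
        rw [h3] at h1
        exact (mul_eq_zero.1 h1).resolve_left two_ne_zero

end main

end Pool.Agent.StarkRQ
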