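import Pool.Agent.StarkRQ.ArtSpec

/-!
# Artin symbols of `H/K` are the restrictions of those of `M/K`
-/

set_option linter.unusedSectionVars false

open NumberField Module
open scoped Pointwise

namespace Pool.Agent.StarkRQ

section aux

variable {K H M : Type*} [Field K] [NumberField K] [Field H] [NumberField H]
    [Field M] [NumberField M] [Algebra K M] [Algebra K H] [Algebra H M] [IsScalarTower K H M]

/-- The restriction of the action to `H`. -/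
private theorem restrict_smul [Normal K H] (ψ : Gal(M/K)) (x : 𝓞 H) :
    algebraMap (𝓞 H) (𝓞 M) (AlgEquiv.restrictNormalHom H ψ • x) = ψ • algebraMap (𝓞 H) (𝓞 M) x := by
  apply NumberField.RingOfIntegers.ext
  change algebraMap H M ((AlgEquiv.restrictNormalHom H ψ) (x : H)) = ψ (algebraMap H M (x : H))
  exact AlgEquiv.restrictNormal_commutes ψ H (x : H)

private theorem restrict_algebraMap :
    algebraMap (𝓞 K) (𝓞 M) = (algebraMap (𝓞 H) (𝓞 M)).comp (algebraMap (𝓞 K) (𝓞 H)) := by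
  ext x
  change algebraMap K M (x : K) = algebraMap H M (algebraMap K H (x : K))
  rw [← IsScalarTower.algebraMap_apply K H M]

/-- A Frobenius element restricts to a Frobenius element. -/
private theorem restrict_isFrob_at [Normal K H] {𝔮 : Ideal (𝓞 K)} {ψ : Gal(M/K)}
    {Q : Ideal (𝓞 M)} (h : ∀ x : 𝓞 M, ψ • x - x ^ Ideal.absNorm 𝔮 ∈ Q) (x : 𝓞 H) :
    (AlgEquiv.restrictNormalHom H ψ) • x - x ^ Ideal.absNorm 𝔮 ∈
      Q.comap (algebraMap (𝓞 H) (𝓞 M)) := by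
  rw [Ideal.mem_comap, map_sub, map_pow, restrict_smul]
  exact h _

private theorem restrict_isFrob [Normal K H] {𝔮 : Ideal (𝓞 K)} {ψ : Gal(M/K)}
    (h : IsFrob 𝔮 ψ) : IsFrob 𝔮 (AlgEquiv.restrictNormalHom H ψ) := by
  obtain ⟨Q, hQ, hQ𝔮, hx⟩ := h
  refine ⟨Q.comap (algebraMap (𝓞 H) (𝓞 M)), Ideal.comap_isPrime _ _, ?_,
    restrict_isFrob_at hx⟩
  rw [Ideal.comap_comap, ← restrict_algebraMap, hQ𝔮]

variable [IsGalois K H]

/-- Uniqueness of the Frobenius element at an unramified prime. -/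
private theorem restrict_unique {𝔮 : Ideal (𝓞 K)} {P : Ideal (𝓞 H)} [P.IsPrime]
    [Algebra.IsUnramifiedAt ℤ P] (hP : P.comap (algebraMap (𝓞 K) (𝓞 H)) = 𝔮) {σ σ' : Gal(H/K)}
    (h : ∀ x : 𝓞 H, σ • x - x ^ Ideal.absNorm 𝔮 ∈ P)
    (h' : ∀ x : 𝓞 H, σ' • x - x ^ Ideal.absNorm 𝔮 ∈ P) : σ = σ' := by
  have hu : Algebra.IsUnramifiedAt (𝓞 K) P := Algebra.IsUnramifiedAt.of_restrictScalars ℤ P
  have hcard : Nat.card (𝓞 K ⧸ P.under (𝓞 K)) = Ideal.absNorm 𝔮 := by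
    rw [Ideal.under_def, hP]
    rfl
  have hcomm : SMulCommClass Gal(H/K) (𝓞 K) (𝓞 H) := IsGaloisGroup.commutes
  have hfaith : FaithfulSMul Gal(H/K) (𝓞 H) := IsGaloisGroup.faithful (𝓞 K)
  have h1 : IsArithFrobAt (𝓞 K) σ P := by
    intro x
    rw [hcard]
    exact h x
  have h2 : IsArithFrobAt (𝓞 K) σ' P := by
    intro x
    rw [hcard]
    exact h' x
  have h3 := AlgHom.IsArithFrobAt.eq_of_isUnramifiedAt h1 h2 P.primeCompl_le_nonZeroDivisors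
  have h4 : ∀ x : 𝓞 H, σ • x = σ' • x := fun x => congrArg (fun f => f x) h3
  exact FaithfulSMul.eq_of_smul_eq_smul (α := 𝓞 H) h4

variable [IsGalois ℚ M] [IsGalois K M]

/-- Every Frobenius element of `H/K` is the restriction of the ones of `M/K`. -/
private theorem restrict_frob_eq (hab : ∀ σ τ : Gal(M/K), σ * τ = τ * σ) {N : ℕ}
    (hram : ∀ p : ℕ, p.Prime → (p : ℤ) ∣ discr M → p ∣ N) {𝔮 : Ideal (𝓞 K)} (h𝔮 : 𝔮.IsPrime)
    (h0 : 𝔮 ≠ ⊥) (hN : (Ideal.absNorm 𝔮).Coprime N) {φ : Gal(H/K)} (hφ : IsFrob 𝔮 φ)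
    {ψ : Gal(M/K)} (hψ : IsFrob 𝔮 ψ) : φ = AlgEquiv.restrictNormalHom H ψ := by
  have hHM : IsGalois H M := IsGalois.tower_top_of_isGalois K H M
  obtain ⟨P, hP, hP𝔮, hx⟩ := hφ
  obtain ⟨Q, hQ, hQP⟩ := exists_over (F := H) (M := M) P
  have hQ𝔮 : Q.comap (algebraMap (𝓞 K) (𝓞 M)) = 𝔮 := by
    rw [restrict_algebraMap (H := H), ← Ideal.comap_comap, hQP, hP𝔮]
  obtain ⟨ψ', hψ'⟩ := exists_cong_over (F := K) (M := M) h0 hQ𝔮
  have hF : IsFrob 𝔮 ψ' := ⟨Q, hQ, hQ𝔮, hψ'⟩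
  have hψψ : ψ' = ψ := IsFrob.unique hab hram h𝔮 h0 hN hF hψ
  -- a prime number in `𝔮`
  obtain ⟨p, hp, hp𝔮⟩ : ∃ p ∈ (Ideal.absNorm 𝔮).primeFactorsList, (p : 𝓞 K) ∈ 𝔮 := by
    have h1 : ((Ideal.absNorm 𝔮 : ℕ) : 𝓞 K) ∈ 𝔮 := Ideal.absNorm_mem 𝔮
    have hne : Ideal.absNorm 𝔮 ≠ 0 := by
      rw [Ne, Ideal.absNorm_eq_zero_iff]
      exact h0
    rw [← Nat.prod_primeFactorsList hne, Nat.cast_list_prod, ← Multiset.prod_coe,
      h𝔮.multiset_prod_mem_iff_exists_mem] at h1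
    obtain ⟨a, ha, ha𝔮⟩ := h1
    rw [Multiset.mem_coe, List.mem_map] at ha
    obtain ⟨p, hp, rfl⟩ := ha
    exact ⟨p, hp, ha𝔮⟩
  have hpp : p.Prime := Nat.prime_of_mem_primeFactorsList hp
  have hpn : p ∣ Ideal.absNorm 𝔮 := Nat.dvd_of_mem_primeFactorsList hp
  have hpH : ¬ (p : ℤ) ∣ discr H := by
    intro h
    have h1 := hram p hpp (h.trans (discr_dvd_discr H M))
    exact hpp.one_lt.ne' (Nat.eq_one_of_dvd_coprimes hN hpn h1)
  have hun : Algebra.IsUnramifiedAt ℤ P := by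
    refine (not_dvd_discr_iff_forall_mem H (𝓞 H) (Nat.prime_iff_prime_int.1 hpp)).1 hpH P hP ?_
    rw [← hP𝔮, Ideal.mem_comap, map_natCast] at hp𝔮
    rw [Int.cast_natCast]
    exact hp𝔮
  rw [← hψψ]
  refine restrict_unique hP𝔮 hx fun x => ?_
  have := restrict_isFrob_at (H := H) (𝔮 := 𝔮) hψ' x
  rwa [hQP] at this

/-- Artin symbols for `H/K` are the restrictions of those of `M/K`. -/
private theorem restrict_artin (hab : ∀ σ τ : Gal(M/K), σ * τ = τ * σ) {N : ℕ}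
    (hram : ∀ p : ℕ, p.Prime → (p : ℤ) ∣ discr M → p ∣ N) {𝔞 : Ideal (𝓞 K)} (h0 : 𝔞 ≠ ⊥)
    (hN : (Ideal.absNorm 𝔞).Coprime N) (σ : Gal(H/K)) :
    HasArtinSymbol 𝔞 σ ↔ σ = AlgEquiv.restrictNormalHom H (art 𝔞 : Gal(M/K)) := by
  constructor
  · rintro ⟨l, hl, h1, rfl⟩
    have hlN : ∀ x ∈ l, (Ideal.absNorm x.1).Coprime N := by
      intro x hx
      have h2 : x.1 ∣ 𝔞 := by
        rw [← h1]
        exact List.dvd_prod (List.mem_map_of_mem hx)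
      exact Nat.Coprime.coprime_dvd_left (map_dvd Ideal.absNorm h2) hN
    have hex : ∀ x ∈ l, ∃ ψ : Gal(M/K), IsFrob x.1 ψ ∧ x.2 = AlgEquiv.restrictNormalHom H ψ := by
      intro x hx
      obtain ⟨h2, h3, h4⟩ := hl x hx
      obtain ⟨ψ, hψ⟩ := exists_isFrob (M := M) h2 h3
      exact ⟨ψ, hψ, restrict_frob_eq hab hram h2 h3 (hlN x hx) h4 hψ⟩
    choose! f hf hf' using hex
    have h5 : HasArtinSymbol 𝔞 (l.map f).prod := by
      refine ⟨l.map fun x => (x.1, f x), ?_, ?_, ?_⟩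
      · intro x hx
        rw [List.mem_map] at hx
        obtain ⟨y, hy, rfl⟩ := hx
        exact ⟨(hl y hy).1, (hl y hy).2.1, hf y hy⟩
      · rw [List.map_map]
        exact h1
      · rw [List.map_map]
        rfl
    rw [art_spec hab hram h0 hN] at h5
    rw [← h5, map_list_prod, List.map_map]
    congr 1
    exact List.map_congr_left hf'
  · rintro rfl
    obtain ⟨l, hl, h1, h2⟩ := (art_spec hab hram h0 hN (art 𝔞 : Gal(M/K))).2 rfl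
    refine ⟨l.map fun x => (x.1, AlgEquiv.restrictNormalHom H x.2), ?_, ?_, ?_⟩
    · intro x hx
      rw [List.mem_map] at hx
      obtain ⟨y, hy, rfl⟩ := hx
      exact ⟨(hl y hy).1, (hl y hy).2.1, restrict_isFrob (hl y hy).2.2⟩
    · rw [List.map_map]
      exact h1
    · rw [← h2, map_list_prod, List.map_map, List.map_map]
      rfl

end aux

theorem zcoeff_restrict {K H M : Type*} [Field K] [NumberField K] [Field H] [NumberField H]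
    [Field M] [NumberField M] [Algebra K M] [Algebra K H] [Algebra H M] [IsScalarTower K H M]
    [IsGalois ℚ M] [IsGalois K M] [IsGalois K H] (hab : ∀ σ τ : Gal(M/K), σ * τ = τ * σ) {N : ℕ}
    (hram : ∀ p : ℕ, p.Prime → (p : ℤ) ∣ discr M → p ∣ N) (σ : Gal(H/K)) (n : ℕ) (hn : n ≠ 0) :
    zcoeff N σ n = ∑ᶠ s : {s : Gal(M/K) // AlgEquiv.restrictNormalHom H s = σ},
      zcoeff N (s : Gal(M/K)) n := by
  classical
  unfold zcoeff
  by_cases hN : n.Coprime N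
  · simp only [if_pos hN]
    have hne : ∀ 𝔞 : Ideal (𝓞 K), Ideal.absNorm 𝔞 = n → 𝔞 ≠ ⊥ := by
      rintro 𝔞 h rfl
      rw [Ideal.absNorm_bot] at h
      exact hn h.symm
    have hfin : Finite {𝔞 : Ideal (𝓞 K) // Ideal.absNorm 𝔞 = n} :=
      (Ideal.finite_setOfPred_absNorm_eq n).to_subtype
    have hfib : ∀ s : {s : Gal(M/K) // AlgEquiv.restrictNormalHom H s = σ},
        Finite {𝔞 : Ideal (𝓞 K) // Ideal.absNorm 𝔞 = n ∧ HasArtinSymbol 𝔞 (s : Gal(M/K))} :=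
      fun s => Finite.of_injective
        (fun 𝔞 => (⟨𝔞.1, 𝔞.2.1⟩ : {𝔞 : Ideal (𝓞 K) // Ideal.absNorm 𝔞 = n}))
        fun a b h => Subtype.ext (congrArg (fun z : {𝔞 : Ideal (𝓞 K) // Ideal.absNorm 𝔞 = n} => z.1) h)
    let _ := Fintype.ofFinite {s : Gal(M/K) // AlgEquiv.restrictNormalHom H s = σ}
    rw [finsum_eq_sum_of_fintype, ← Nat.card_sigma]
    have hart : ∀ 𝔞 : Ideal (𝓞 K), Ideal.absNorm 𝔞 = n → ∀ s : Gal(M/K),
        HasArtinSymbol 𝔞 s ↔ s = art 𝔞 := fun 𝔞 h s =>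
      art_spec hab hram (hne 𝔞 h) (by rw [h]; exact hN) s
    have hart' : ∀ 𝔞 : Ideal (𝓞 K), Ideal.absNorm 𝔞 = n →
        (HasArtinSymbol 𝔞 σ ↔ σ = AlgEquiv.restrictNormalHom H (art 𝔞 : Gal(M/K))) := fun 𝔞 h =>
      restrict_artin hab hram (hne 𝔞 h) (by rw [h]; exact hN) σ
    refine Nat.card_congr ⟨fun 𝔞 => ⟨⟨art 𝔞.1, ((hart' 𝔞.1 𝔞.2.1).1 𝔞.2.2).symm⟩, 𝔞.1, 𝔞.2.1,
      (hart 𝔞.1 𝔞.2.1 _).2 rfl⟩, fun x => ⟨x.2.1, x.2.2.1, ?_⟩, ?_, ?_⟩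
    · rw [hart' x.2.1 x.2.2.1, ← (hart x.2.1 x.2.2.1 _).1 x.2.2.2, x.1.2]
    · intro 𝔞
      rfl
    · rintro ⟨⟨s, hs⟩, ⟨𝔞, h1, h2⟩⟩
      obtain rfl := (hart 𝔞 h1 s).1 h2
      rfl
  · simp only [if_neg hN, finsum_zero]

end Pool.Agent.StarkRQ
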