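import Pool.Agent.StarkRQ.Galois
import Pool.Agent.StarkRQ.Comm
import Pool.Agent.StarkRQ.Coeff
import Pool.Agent.StarkRQ.Restrict

/-!
Comparison of the coefficients of the partial zeta functions of `H/K` and `M/k`.
-/

open NumberField Module

namespace Pool.Agent.StarkRQ

section fixH

variable {H M : Type*} [Field M] [NumberField M] [IsGalois ℚ M] [Field H] [Algebra H M]

lemma eq_one_or_eq_cc {ι : M →+* ℂ} {c : Gal(M/ℚ)} (hc : ∀ x, ι (c x) = starRingEnd ℂ (ι x))
    (hH : ∀ y : M, (ι y).im = 0 ↔ y ∈ (algebraMap H M).range) (g : Gal(M/ℚ))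
    (hg : ∀ y : H, g (algebraMap H M y) = algebraMap H M y) : g = 1 ∨ g = c := by
  have hcc : c * c = 1 := by
    ext x
    apply ι.injective
    change ι (c (c x)) = ι x
    rw [hc, hc, Complex.conj_conj]
  have h1 : g ∈ IntermediateField.fixingSubgroup
      (IntermediateField.fixedField (Subgroup.zpowers c)) := by
    rw [IntermediateField.mem_fixingSubgroup_iff]
    intro y hy
    have h2 : c y = y := hy ⟨c, Subgroup.mem_zpowers c⟩
    have h3 : (ι y).im = 0 := by
      have := hc y
      rw [h2] at this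
      exact Complex.conj_eq_iff_im.1 this.symm
    obtain ⟨y', rfl⟩ := (hH y).1 h3
    exact hg y'
  rw [IntermediateField.fixingSubgroup_fixedField, Subgroup.mem_zpowers_iff] at h1
  obtain ⟨j, rfl⟩ := h1
  rcases Int.even_or_odd' j with ⟨i, rfl | rfl⟩
  · left
    rw [zpow_mul, zpow_two, hcc, one_zpow]
  · right
    rw [zpow_add, zpow_mul, zpow_two, hcc, one_zpow, one_mul, zpow_one]

end fixH

section

variable {K k H M : Type*} [Field K] [NumberField K] [Field k] [NumberField k] [Field H]
  [NumberField H] [Field M] [NumberField M] [Algebra K M] [Algebra k M] [Algebra K H]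
  [Algebra H M] [IsScalarTower K H M] [IsGalois ℚ M] [IsGalois K M] [IsGalois k M] [IsGalois K H]

lemma restrict_apply (s : Gal(M/K)) (y : H) :
    algebraMap H M (AlgEquiv.restrictNormalHom H s y) = s (algebraMap H M y) :=
  AlgEquiv.restrictNormal_commutes s H y

theorem zcoeff_sub {ι : M →+* ℂ} {c : Gal(M/ℚ)} (hc : ∀ x, ι (c x) = starRingEnd ℂ (ι x))
    (hH : ∀ y : M, (ι y).im = 0 ↔ y ∈ (algebraMap H M).range)
    (hK : finrank ℚ K = 2) (hk : finrank ℚ k = 2)
    (hA : ∀ σ τ : Gal(M/K), σ * τ = τ * σ) (hB : ∀ σ τ : Gal(M/k), σ * τ = τ * σ) {N : ℕ}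
    (hN : N ≠ 0) (hram : ∀ p : ℕ, p.Prime → (p : ℤ) ∣ discr M → p ∣ N)
    (hcK : c ∈ fixG K M) (hck : c ∉ fixG k M)
    {z : Gal(M/ℚ)} (hz : ZData (fixG K M) (fixG k M) z)
    {sK zK : Gal(M/K)} {sk zk : Gal(M/k)} (hs : toG K M sK = toG k M sk)
    (hzK : toG K M zK = z) (hzk : toG k M zk = z) (n : ℕ) (hn : n ≠ 0) :
    (zcoeff N (AlgEquiv.restrictNormalHom H sK) n : ℤ) -
      zcoeff N (AlgEquiv.restrictNormalHom H zK * AlgEquiv.restrictNormalHom H sK) n =
    (zcoeff N sk n : ℤ) - zcoeff N (zk * sk) n := by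
  classical
  by_cases hco : n.Coprime N
  swap
  · simp [zcoeff, hco]
  obtain ⟨cK, hcK'⟩ := hcK
  have hcc : c * c = 1 := by
    ext x
    apply ι.injective
    change ι (c (c x)) = ι x
    rw [hc, hc, Complex.conj_conj]
  have hc1 : c ≠ 1 := by
    rintro rfl
    exact hck (Subgroup.one_mem _)
  have hcKH : AlgEquiv.restrictNormalHom H cK = 1 := by
    ext y
    apply (algebraMap H M).injective
    rw [restrict_apply]
    have h1 : (ι (algebraMap H M y)).im = 0 := (hH _).2 ⟨y, rfl⟩
    have h2 : c (algebraMap H M y) = algebraMap H M y := by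
      apply ι.injective
      rw [hc]
      exact Complex.conj_eq_iff_im.2 h1
    rw [← hcK'] at h2
    exact h2
  -- the sum over the lifts
  have hsum : ∀ s : Gal(M/K), (zcoeff N (AlgEquiv.restrictNormalHom H s) n : ℕ) =
      cnt K M n (toG K M s) + cnt K M n (c * toG K M s) := by
    intro s
    rw [zcoeff_restrict (M := M) hA hram _ n hn]
    have hne : cK * s ≠ s := by
      intro h
      have : cK = 1 := by simpa using h
      rw [this, map_one] at hcK'
      exact hc1 hcK'.symm
    have hset : ∀ t : Gal(M/K), AlgEquiv.restrictNormalHom H t = AlgEquiv.restrictNormalHom H s ↔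
        t ∈ ({s, cK * s} : Finset Gal(M/K)) := by
      intro t
      simp only [Finset.mem_insert, Finset.mem_singleton]
      constructor
      · intro h
        have h1 : ∀ y : H, toG K M (t * s⁻¹) (algebraMap H M y) = algebraMap H M y := by
          intro y
          rw [toG_apply, ← restrict_apply, map_mul, map_inv, h, mul_inv_cancel]
          rfl
        rcases eq_one_or_eq_cc hc hH _ h1 with h2 | h2
        · left
          have : t * s⁻¹ = 1 := toG_injective (by rw [h2, map_one])
          exact mul_inv_eq_one.1 this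
        · right
          have : t * s⁻¹ = cK := toG_injective (by rw [h2, hcK'])
          rw [← this, inv_mul_cancel_right]
      · rintro (rfl | rfl)
        · rfl
        · rw [map_mul, hcKH, one_mul]
    have e1 : (∑ᶠ t : {t : Gal(M/K) // AlgEquiv.restrictNormalHom H t =
        AlgEquiv.restrictNormalHom H s}, zcoeff N (t : Gal(M/K)) n) =
        ∑ t ∈ ({s, cK * s} : Finset Gal(M/K)), zcoeff N t n := by
      rw [finsum_eq_sum_of_fintype]
      symm
      refine Finset.sum_subtype _ (fun t => (hset t).symm) _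
    rw [e1, Finset.sum_pair hne.symm, zcoeff_eq_cnt hA hram hn hco, zcoeff_eq_cnt hA hram hn hco,
      map_mul, hcK']
  have hmul : AlgEquiv.restrictNormalHom H zK * AlgEquiv.restrictNormalHom H sK =
      AlgEquiv.restrictNormalHom H (zK * sK) := (map_mul _ _ _).symm
  obtain ⟨h1, h2⟩ := dcnt_eq hK hk hA hB hN hram hz n hn hco
  rw [hmul, hsum, hsum, zcoeff_eq_cnt hB hram hn hco, zcoeff_eq_cnt hB hram hn hco, map_mul,
    map_mul, hzK, hzk]
  have h3 := h1 (toG K M sK)
  have h4 := h2 (c * toG K M sK) (by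
    rintro ⟨-, h⟩
    apply hck
    have h5 : toG K M sK ∈ fixG k M := ⟨sk, hs.symm⟩
    simpa using (fixG k M).mul_mem h ((fixG k M).inv_mem h5))
  unfold dcnt at h3 h4
  have h6 : c * (z * toG K M sK) = z * (c * toG K M sK) := by
    rw [← mul_assoc, ← mul_assoc, hz.central z hz.mem_A hz.mem_B c]
  rw [h6]
  rw [← hs]
  push_cast
  linarith

end

end Pool.Agent.StarkRQ
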