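import Pool.Agent.StarkRQ.Analytic
import Pool.Agent.StarkRQ.Root
import Pool.Agent.StarkRQ.Lift
import Pool.Agent.StarkRQ.Sym
import Pool.Agent.StarkRQ.Cyclo

/-!
Assembly.
-/

open NumberField Module

namespace Pool.Agent.StarkRQ

section

variable {M : Type} [Field M] [NumberField M] [IsGalois ℚ M]
  {K k H : Type} [Field K] [NumberField K] [Field k] [NumberField k] [Field H] [NumberField H]
  [Algebra K M] [Algebra k M] [Algebra K H] [Algebra H M] [IsScalarTower K H M]

omit [IsGalois ℚ M] in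
lemma cc_mem_fixG [IsTotallyReal K] {ι : M →+* ℂ} {c : Gal(M/ℚ)}
    (hc : ∀ x, ι (c x) = starRingEnd ℂ (ι x)) : c ∈ fixG K M := by
  rw [mem_fixG]
  intro x
  apply ι.injective
  rw [hc]
  have h := IsTotallyReal.complexEmbedding_isReal (ι.comp (algebraMap K M))
  rw [ComplexEmbedding.isReal_iff] at h
  have := congrArg (fun f : K →+* ℂ => f x) h
  simpa using this

omit [IsGalois ℚ M] in
lemma cc_notMem_fixG [IsTotallyComplex k] {ι : M →+* ℂ} {c : Gal(M/ℚ)}
    (hc : ∀ x, ι (c x) = starRingEnd ℂ (ι x)) : c ∉ fixG k M := by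
  rw [mem_fixG]
  intro h
  apply IsTotallyComplex.complexEmbedding_not_isReal (ι.comp (algebraMap k M))
  rw [ComplexEmbedding.isReal_iff]
  ext x
  simp only [ComplexEmbedding.conjugate_coe_eq, RingHom.comp_apply]
  rw [← hc, h]

/-- `g x * c (g x)` -/
def ee (c : Gal(M/ℚ)) (x : M) (g : Gal(M/ℚ)) : M := g x * c (g x)

omit [IsGalois ℚ M] in
lemma ee_cc {c : Gal(M/ℚ)} (hcc : c * c = 1) (x : M) (g : Gal(M/ℚ)) :
    ee c x (c * g) = ee c x g := by
  unfold ee
  have h1 : (c * g) x = c (g x) := rfl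
  have h2 : c (c (g x)) = g x := by
    change (c * c) (g x) = g x
    rw [hcc]; rfl
  rw [h1, h2, mul_comm]

omit [IsGalois ℚ M] in
lemma ι_ee {ι : M →+* ℂ} {c : Gal(M/ℚ)} (hc : ∀ x, ι (c x) = starRingEnd ℂ (ι x)) (x : M)
    (g : Gal(M/ℚ)) : ι (ee c x g) = ((‖ι (g x)‖ ^ 2 : ℝ) : ℂ) := by
  unfold ee
  rw [map_mul, hc, Complex.mul_conj, Complex.normSq_eq_norm_sq]

theorem main [IsTotallyReal K] [IsTotallyComplex k] (hK : finrank ℚ K = 2)
    (hk : finrank ℚ k = 2) [IsAbelianGalois K M] [IsAbelianGalois k M] (ι : M →+* ℂ)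
    (hH : ∀ y : M, (ι y).im = 0 ↔ y ∈ (algebraMap H M).range) (N : ℕ) (hN : N ≠ 0)
    (hram : ∀ p : ℕ, p.Prime → (p : ℤ) ∣ discr M → p ∣ N) (η : M) (hη : IsStarkUnit k ι N η)
    (G : Gal(H/K) → ℂ → ℂ) (hG : ∀ σ, IsPartialZeta N σ (G σ)) :
    ∃ R : Gal(H/K), ∃ ε : Gal(H/K) → (𝓞 H)ˣ,
      (∀ σ, ι (algebraMap H M (ε σ : 𝓞 H)) =
          Complex.exp (-(deriv (G σ) 0 - deriv (G (R * σ)) 0))) ∧
      (∀ ρ σ, ρ ((ε σ : 𝓞 H) : H) = ((ε (ρ * σ) : 𝓞 H) : H)) ∧
      (∃ (E : Type) (_ : Field E) (_ : Algebra K E) (_ : Algebra H E) (_ : IsScalarTower K H E),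
        IsAbelianGalois K E ∧ ∀ σ, ∃ y : E, y ^ 2 = algebraMap H E ((ε σ : 𝓞 H) : H)) ∧
      ∀ g : H →+* ℂ, (∃ x : K, g (algebraMap K H x) ≠ ι (algebraMap K M x)) →
        (∀ y, g (R y) = starRingEnd ℂ (g y)) ∧ ∀ σ, ‖g ((ε σ : 𝓞 H) : H)‖ = 1 := by
  classical
  have : IsAbelianGalois K H := IsAbelianGalois.tower_bot K H M
  have hA : ∀ σ τ : Gal(M/K), σ * τ = τ * σ := fun σ τ => mul_comm' σ τ
  have hB : ∀ σ τ : Gal(M/k), σ * τ = τ * σ := fun σ τ => mul_comm' σ τ
  obtain ⟨c, hc⟩ := exists_cc ι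
  have hcc : c * c = 1 := by
    ext x
    apply ι.injective
    change ι (c (c x)) = ι x
    rw [hc, hc, Complex.conj_conj]
  have hcK : c ∈ fixG K M := cc_mem_fixG hc
  have hck : c ∉ fixG k M := cc_notMem_fixG hc
  obtain ⟨z, hzA, hzB, hzz, hcen, hcA, hcB, hsq, b, hzb⟩ :=
    exists_z (fixG_index (M := M) hK) (fixG_index (M := M) hk) (fixG_comm hA) (fixG_comm hB)
      hcK hck hcc
  have hz : ZData (fixG K M) (fixG k M) z := ⟨hzA, hzB, hzz, hcen, hcA, hcB, hsq⟩
  have hzc := hcen z hzA hzB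
  obtain ⟨zK, hzK⟩ := hzA
  obtain ⟨zk, hzk⟩ := hzB
  set w := Units.torsionOrder M with hw
  have : NeZero w := ⟨Units.torsionOrder_ne_zero M⟩
  -- the root
  obtain ⟨E, _, _, _, _, hE, y, hy⟩ := hη.abelian
  obtain ⟨x, hx⟩ := exists_root (k := k) (fun σ τ => mul_comm' σ τ) zk (fun ζ hζ => by
    have := commutator_fixes (w := w) b c ζ hζ
    rw [← hzb, ← hzk] at this
    exact this) hη.ne_zero hy
  have hη0 := hη.ne_zero
  have hzη0 : z η ≠ 0 := by
    intro h
    exact hη0 (z.injective (by rw [h, map_zero]))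
  have hx' : x ^ w = η / z η := by rw [hx, ← hzk]; rfl
  have hx0 : x ≠ 0 := by
    rintro rfl
    rw [zero_pow (NeZero.ne w)] at hx'
    exact (div_ne_zero hη0 hzη0) hx'.symm
  have hzzη : z (z η) = η := by
    change (z * z) η = η
    rw [hzz]; rfl
  -- integrality
  have hint' : IsIntegral ℤ (z η / η) := by
    exact hη.isIntegral z.toRingEquiv
  have hint : IsIntegral ℤ (η / z η) := by
    have := hint'.map (z : M →ₐ[ℚ] M).toRingHom.toIntAlgHom
    have e1 : (z : M →ₐ[ℚ] M).toRingHom.toIntAlgHom (z η / η) = z (z η / η) := rfl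
    rwa [e1, map_div₀, hzzη] at this
  have hxint : IsIntegral ℤ x := IsIntegral.of_pow (NeZero.pos w) (by rw [hx']; exact hint)
  have hxint' : IsIntegral ℤ x⁻¹ := IsIntegral.of_pow (NeZero.pos w) (by
    rw [inv_pow, hx', inv_div]; exact hint')
  have hmapint : ∀ (g : Gal(M/ℚ)) {u : M}, IsIntegral ℤ u → IsIntegral ℤ (g u) := by
    intro g u hu
    exact hu.map (g : M →ₐ[ℚ] M).toRingHom.toIntAlgHom
  have heeint : ∀ g, IsIntegral ℤ (ee c x g) := fun g =>
    (hmapint g hxint).mul (hmapint c (hmapint g hxint))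
  have heeint' : ∀ g, IsIntegral ℤ (ee c x g)⁻¹ := by
    intro g
    have : (ee c x g)⁻¹ = g x⁻¹ * c (g x⁻¹) := by
      unfold ee
      rw [mul_inv, map_inv₀, map_inv₀]
    rw [this]
    exact (hmapint g hxint').mul (hmapint c (hmapint g hxint'))
  have hee0 : ∀ g, ee c x g ≠ 0 := by
    intro g
    unfold ee
    refine mul_ne_zero ?_ ?_
    · exact fun h => hx0 (g.injective (by rw [h, map_zero]))
    · exact fun h => hx0 (g.injective (c.injective (by rw [h, map_zero, map_zero])))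
  -- descent to `H`
  have hdesc : ∀ g, ∃ u : (𝓞 H)ˣ, algebraMap H M (u : 𝓞 H) = ee c x g := by
    intro g
    have h1 : (ι (ee c x g)).im = 0 := by rw [ι_ee hc]; exact Complex.ofReal_im _
    obtain ⟨v, hv⟩ := (hH _).1 h1
    have hv' : algebraMap H M v = ee c x g := hv
    have hinj : Function.Injective (algebraMap H M) := (algebraMap H M).injective
    have hvint : IsIntegral ℤ v := by
      have := heeint g
      rw [← hv'] at this
      exact (isIntegral_algebraMap_iff (A := H) (B := M) hinj).1 this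
    have hvint' : IsIntegral ℤ v⁻¹ := by
      have := heeint' g
      rw [← hv', ← map_inv₀] at this
      exact (isIntegral_algebraMap_iff (A := H) (B := M) hinj).1 this
    have hv0 : v ≠ 0 := by
      rintro rfl
      rw [map_zero] at hv'
      exact hee0 g hv'.symm
    refine ⟨⟨⟨v, hvint⟩, ⟨v⁻¹, hvint'⟩, ?_, ?_⟩, hv'⟩
    · apply RingOfIntegers.ext
      change v * v⁻¹ = 1
      exact mul_inv_cancel₀ hv0
    · apply RingOfIntegers.ext
      change v⁻¹ * v = 1
      exact inv_mul_cancel₀ hv0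
  choose u hu using hdesc
  -- lifts
  have hsurj := AlgEquiv.restrictNormalHom_surjective (F := K) (K₁ := H) M
  choose lift hlift using hsurj
  obtain ⟨cK, hcK'⟩ := id hcK
  have hcy : ∀ y : H, c (algebraMap H M y) = algebraMap H M y := by
    intro y
    apply ι.injective
    rw [hc]
    exact Complex.conj_eq_iff_im.2 ((hH _).2 ⟨y, rfl⟩)
  have hcKH : AlgEquiv.restrictNormalHom H cK = 1 := by
    ext y
    apply (algebraMap H M).injective
    rw [restrict_apply]
    have := hcy y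
    rw [← hcK'] at this
    exact this
  -- two lifts give the same `ee`
  have hsame : ∀ s t : Gal(M/K), AlgEquiv.restrictNormalHom H s = AlgEquiv.restrictNormalHom H t →
      ee c x (toG K M s) = ee c x (toG K M t) := by
    intro s t hst
    have h1 : ∀ y : H, toG K M (s * t⁻¹) (algebraMap H M y) = algebraMap H M y := by
      intro y
      rw [toG_apply, ← restrict_apply, map_mul, map_inv, hst, mul_inv_cancel]
      rfl
    rcases eq_one_or_eq_cc hc hH _ h1 with h2 | h2
    · have : s * t⁻¹ = 1 := toG_injective (by rw [h2, map_one])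
      rw [mul_inv_eq_one.1 this]
    · have : toG K M s = c * toG K M t := by
        rw [← h2, ← map_mul, inv_mul_cancel_right]
      rw [this, ee_cc hcc]
  -- complex conjugation
  have hcη : ∃ v : M, v ^ w = 1 ∧ c η = v * η := by
    have hnor : (fixG k M).Normal := Subgroup.normal_of_index_eq_two (fixG_index (M := M) hk)
    have hnorm : ∀ σ : Gal(M/k), ‖ι (σ (c η))‖ = ‖ι (σ η)‖ := by
      intro σ
      have hmem : c⁻¹ * toG k M σ * c ∈ fixG k M := by
        have := hnor.conj_mem (toG k M σ) ⟨σ, rfl⟩ c⁻¹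
        rwa [inv_inv] at this
      obtain ⟨σ', hσ'⟩ := hmem
      have h1 : ∀ y : M, σ (c y) = c (σ' y) := by
        intro y
        have : toG k M σ * c = c * toG k M σ' := by rw [hσ']; group
        exact DFunLike.congr_fun this y
      obtain ⟨Z₁, hZ₁, hd₁⟩ := hη.deriv_zeta σ
      obtain ⟨Z₂, hZ₂, hd₂⟩ := hη.deriv_zeta σ'
      have hcoef : ∀ n : ℕ, n ≠ 0 → (zcoeff N σ n : ℤ) - zcoeff N σ' n =
          (zcoeff N σ n : ℤ) - zcoeff N σ n := by
        intro n hn
        by_cases hco : n.Coprime N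
        · rw [zcoeff_eq_cnt hB hram hn hco, zcoeff_eq_cnt hB hram hn hco, hσ']
          have := cnt_conj (M := M) hk hB hN hram n hn hco c⁻¹ (toG k M σ)
          rw [inv_inv] at this
          rw [this]
        · simp [zcoeff, hco]
      have h2 := deriv_sub_eq hZ₁ hZ₂ hZ₁ hZ₁ hcoef
      rw [sub_self, sub_eq_zero, hd₁, hd₂] at h2
      have hwc : (w : ℂ) ≠ 0 := by exact_mod_cast NeZero.ne w
      have h3 := mul_left_cancel₀ (neg_ne_zero.2 (one_div_ne_zero hwc)) h2
      have h4 : Real.log (‖ι (σ η)‖ ^ 2) = Real.log (‖ι (σ' η)‖ ^ 2) := by exact_mod_cast h3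
      have hp : ∀ τ : Gal(M/k), 0 < ‖ι (τ η)‖ := by
        intro τ
        rw [norm_pos_iff]
        exact fun h => hη0 (τ.injective (ι.injective (by rw [h, map_zero, map_zero])))
      have h5 := Real.log_injOn_pos (Set.mem_Ioi.2 (pow_pos (hp σ) 2))
        (Set.mem_Ioi.2 (pow_pos (hp σ') 2)) h4
      have h6 : ‖ι (σ η)‖ = ‖ι (σ' η)‖ :=
        (pow_left_inj₀ (hp σ).le (hp σ').le two_ne_zero).1 h5
      rw [h1, hc, RCLike.norm_conj, h6]
    have hvint : IsIntegral ℤ (c η / η) := hη.isIntegral c.toRingEquiv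
    have hcη0 : c η ≠ 0 := fun h => hη0 (c.injective (by rw [h, map_zero]))
    have hvk : ∀ σ : Gal(M/k), ‖ι (σ (c η / η))‖ = 1 := by
      intro σ
      have hp : ‖ι (σ η)‖ ≠ 0 := by
        rw [norm_ne_zero_iff]
        exact fun h => hη0 (σ.injective (ι.injective (by rw [h, map_zero, map_zero])))
      rw [map_div₀, map_div₀, norm_div, hnorm, div_self hp]
    have hall : ∀ f : M →+* ℂ, ‖f (c η / η)‖ = 1 := by
      intro f
      obtain ⟨γ, hγ⟩ := exists_comp ι f
      rw [hγ]
      by_cases hγk : γ ∈ fixG k M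
      · obtain ⟨σ, rfl⟩ := hγk
        exact hvk σ
      · have hmem : c * γ ∈ fixG k M := mul_mem_of_index_two (fixG_index (M := M) hk) hck hγk
        obtain ⟨σ, hσ⟩ := hmem
        have h1 : γ (c η / η) = c (σ (c η / η)) := by
          have : γ = c * toG k M σ := by rw [hσ, ← mul_assoc, hcc, one_mul]
          rw [this]; rfl
        rw [h1, hc, RCLike.norm_conj, hvk]
    obtain ⟨n, hn0, hn⟩ := Embeddings.pow_eq_one_of_norm_eq_one M ℂ hvint hall
    refine ⟨c η / η, ?_, by rw [div_mul_cancel₀ _ hη0]⟩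
    have hfin : IsOfFinOrder (c η / η) := isOfFinOrder_iff_pow_eq_one.2 ⟨n, hn0, hn⟩
    have : NeZero (orderOf (c η / η)) := ⟨(orderOf_pos_iff.2 hfin).ne'⟩
    have hdvd := Units.dvd_torsionOrder_of_isPrimitiveRoot (IsPrimitiveRoot.orderOf (c η / η))
    exact orderOf_dvd_iff_pow_eq_one.1 hdvd
  obtain ⟨v, hv1, hv2⟩ := hcη
  have hcx : ∃ ξ : M, ξ ^ w = 1 ∧ c x = ξ * x := by
    refine ⟨c x / x, ?_, by rw [div_mul_cancel₀ _ hx0]⟩
    have hzv : z v = v := by
      have := commutator_fixes (w := w) b c v hv1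
      rwa [← hzb] at this
    have hv0 : v ≠ 0 := by
      rintro rfl
      rw [zero_pow (NeZero.ne w)] at hv1
      exact zero_ne_one hv1
    have h1 : c (z η) = z (c η) := by
      change (c * z) η = (z * c) η
      rw [hzc]
    have h2 : (c x) ^ w = x ^ w := by
      rw [← map_pow, hx', map_div₀, h1, hv2, map_mul, hzv, mul_div_mul_left _ _ hv0]
    rw [div_pow, h2, div_self (pow_ne_zero _ hx0)]
  obtain ⟨ξ, hξ1, hξ2⟩ := hcx
  refine ⟨AlgEquiv.restrictNormalHom H zK, fun σ => u (toG K M (lift σ)), ?_, ?_, ?_, ?_⟩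
  · -- the derivative formula
    intro σ
    -- a lift in `A ∩ B`
    obtain ⟨sK, hsK, hsB⟩ : ∃ sK : Gal(M/K), AlgEquiv.restrictNormalHom H sK = σ ∧
        toG K M sK ∈ fixG k M := by
      by_cases h : toG K M (lift σ) ∈ fixG k M
      · exact ⟨_, hlift σ, h⟩
      · refine ⟨cK * lift σ, by rw [map_mul, hcKH, one_mul, hlift], ?_⟩
        rw [map_mul, hcK']
        exact mul_mem_of_index_two (fixG_index (M := M) hk) hck h
    obtain ⟨sk, hsk⟩ := id hsB
    have h1 : ee c x (toG K M (lift σ)) = ee c x (toG K M sK) := hsame _ _ (by rw [hlift, hsK])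
    change ι (algebraMap H M ((u (toG K M (lift σ)) : (𝓞 H)ˣ) : 𝓞 H)) = _
    rw [hu, h1, ι_ee hc]
    obtain ⟨Z₁, hZ₁, hd₁⟩ := hη.deriv_zeta sk
    obtain ⟨Z₂, hZ₂, hd₂⟩ := hη.deriv_zeta (zk * sk)
    have hcoef := zcoeff_sub (H := H) hc hH hK hk hA hB hN hram hcK hck hz hsk.symm hzK hzk
    rw [hsK] at hcoef
    have hder := deriv_sub_eq (hG σ) (hG (AlgEquiv.restrictNormalHom H zK * σ)) hZ₁ hZ₂
      (fun n hn => hcoef n hn)
    rw [hder, hd₁, hd₂]
    -- logs
    set s : Gal(M/ℚ) := toG K M sK with hs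
    have e1 : sk η = s η := by rw [← hsk]; rfl
    have e2 : (zk * sk) η = s (z η) := by
      have : (zk * sk) η = (z * s) η := by rw [← hzk, ← hsk]; rfl
      rw [this, hzc s]; rfl
    rw [e1, e2]
    have hsη : ‖ι (s η)‖ ≠ 0 := by
      rw [norm_ne_zero_iff]
      exact fun h => hη0 (s.injective (ι.injective (by rw [h, map_zero, map_zero])))
    have hszη : ‖ι (s (z η))‖ ≠ 0 := by
      rw [norm_ne_zero_iff]
      exact fun h => hzη0 (s.injective (ι.injective (by rw [h, map_zero, map_zero])))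
    have hsx : ‖ι (s x)‖ ≠ 0 := by
      rw [norm_ne_zero_iff]
      exact fun h => hx0 (s.injective (ι.injective (by rw [h, map_zero, map_zero])))
    have hpow : (w : ℝ) * Real.log ‖ι (s x)‖ =
        Real.log ‖ι (s η)‖ - Real.log ‖ι (s (z η))‖ := by
      rw [← Real.log_pow, ← Real.log_div hsη hszη, ← norm_pow, ← map_pow, ← map_pow, hx',
        map_div₀, map_div₀, norm_div]
    rw [Real.log_pow, Real.log_pow]
    have hwc : (w : ℂ) ≠ 0 := by exact_mod_cast NeZero.ne w
    have hfin : -(-(1 / (w : ℂ)) * (((2 : ℕ) * Real.log ‖ι (s η)‖ : ℝ) : ℂ) -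
        -(1 / (w : ℂ)) * (((2 : ℕ) * Real.log ‖ι (s (z η))‖ : ℝ) : ℂ)) =
        ((2 * Real.log ‖ι (s x)‖ : ℝ) : ℂ) := by
      have hc2 := congrArg (fun r : ℝ => (r : ℂ)) hpow
      push_cast at hc2 ⊢
      field_simp
      linear_combination (-1 : ℂ) * hc2
    rw [hfin, ← Complex.ofReal_exp, mul_comm, Real.exp_mul, Real.exp_log (by positivity)]
    norm_cast
  · -- equivariance
    intro ρ σ
    apply (algebraMap H M).injective
    change algebraMap H M (ρ ((u (toG K M (lift σ)) : (𝓞 H)ˣ) : 𝓞 H)) =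
      algebraMap H M ((u (toG K M (lift (ρ * σ))) : (𝓞 H)ˣ) : 𝓞 H)
    have h1 := restrict_apply (M := M) (lift ρ) (((u (toG K M (lift σ)) : (𝓞 H)ˣ) : 𝓞 H) : H)
    rw [hlift] at h1
    rw [h1, hu, hu, hsame (lift (ρ * σ)) (lift ρ * lift σ) (by rw [map_mul, hlift, hlift, hlift])]
    have h2 : ∀ v : M, lift ρ (c v) = c (lift ρ v) := by
      intro v
      have := DFunLike.congr_fun (hA (lift ρ) cK) v
      rw [← hcK']
      exact this
    unfold ee
    rw [map_mul, h2, map_mul]
    rfl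
  · -- square roots
    have : NeZero (2 * w) := ⟨mul_ne_zero two_ne_zero (NeZero.ne w)⟩
    obtain ⟨E, _, _, _⟩ : ∃ (E : Type) (_ : Field E) (_ : Algebra M E),
        IsCyclotomicExtension {2 * w} M E :=
      ⟨CyclotomicField (2 * w) M, inferInstance, inferInstance, inferInstance⟩
    let _ : Algebra K E := ((algebraMap M E).comp (algebraMap K M)).toAlgebra
    let _ : Algebra H E := ((algebraMap M E).comp (algebraMap H M)).toAlgebra
    have hst1 : IsScalarTower K M E := IsScalarTower.of_algebraMap_eq' rfl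
    have hst2 : IsScalarTower H M E := IsScalarTower.of_algebraMap_eq' rfl
    have hst3 : IsScalarTower K H E := IsScalarTower.of_algebraMap_eq (fun x => by
      change algebraMap M E (algebraMap K M x) = algebraMap M E (algebraMap H M (algebraMap K H x))
      rw [← IsScalarTower.algebraMap_apply K H M])
    refine ⟨E, inferInstance, inferInstance, inferInstance, hst3,
      isAbelianGalois_cyclotomic K M (2 * w) E, ?_⟩
    intro σ
    obtain ⟨ζ, hζ⟩ := IsCyclotomicExtension.exists_isPrimitiveRoot M E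
      (Set.mem_singleton (2 * w)) (NeZero.ne (2 * w))
    set s := toG K M (lift σ) with hs
    have h1 : (algebraMap M E (s ξ)) ^ w = 1 := by
      rw [← map_pow, ← map_pow, hξ1, map_one, map_one]
    have h2 : IsPrimitiveRoot (ζ ^ 2) w := hζ.pow (Nat.pos_of_ne_zero (NeZero.ne (2 * w))) rfl
    obtain ⟨i, -, hi⟩ := h2.eq_pow_of_pow_eq_one h1
    refine ⟨ζ ^ i * algebraMap M E (s x), ?_⟩
    have h3 : ee c x s = s ξ * (s x) ^ 2 := by
      unfold ee
      have h4 : c (s x) = s (c x) := by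
        have := DFunLike.congr_fun (hA cK (lift σ)) x
        rw [← hcK']
        exact this
      rw [h4, hξ2, map_mul]
      ring
    change _ = algebraMap M E (algebraMap H M ((u s : (𝓞 H)ˣ) : 𝓞 H))
    rw [hu, h3, map_mul, map_pow, ← hi]
    ring
  · -- the other embeddings
    intro g ⟨x₀, hx₀⟩
    obtain ⟨γ, hγ⟩ : ∃ γ : Gal(M/ℚ), ∀ y : H, g y = ι (γ (algebraMap H M y)) := by
      let _ : Algebra H ℂ := g.toAlgebra
      have : Algebra.IsAlgebraic H M := Algebra.IsAlgebraic.of_finite H M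
      obtain ⟨γ, hγ⟩ := exists_comp ι (IsAlgClosed.lift : M →ₐ[H] ℂ).toRingHom
      refine ⟨γ, fun y => ?_⟩
      rw [← hγ]
      exact ((IsAlgClosed.lift : M →ₐ[H] ℂ).commutes y).symm
    have hγK : γ ∉ fixG K M := by
      intro h
      rw [mem_fixG] at h
      apply hx₀
      rw [hγ, ← IsScalarTower.algebraMap_apply, h]
    have hcB' : c ∉ fixG k M := hck
    have hconj : γ * c = z * c * γ := by
      have := hcA c hcK hck γ hγK
      rw [← this, inv_mul_cancel_right]
    constructor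
    · intro y
      rw [hγ, hγ, restrict_apply, ← hc]
      congr 1
      have e1 : zK (algebraMap H M y) = z (algebraMap H M y) := by rw [← hzK]; rfl
      rw [e1]
      have e2 : γ (z (algebraMap H M y)) = z (γ (algebraMap H M y)) := by
        change (γ * z) _ = (z * γ) _
        rw [hzc]
      rw [e2]
      have e3 : γ (c (algebraMap H M y)) = z (c (γ (algebraMap H M y))) := by
        change (γ * c) _ = (z * c * γ) _
        rw [hconj]
      rw [hcy] at e3
      rw [congrArg z e3]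
      change (z * z) _ = _
      rw [hzz]; rfl
    · intro σ
      change ‖g ((u (toG K M (lift σ)) : (𝓞 H)ˣ) : 𝓞 H)‖ = 1
      rw [hγ, hu]
      set s := toG K M (lift σ) with hs
      unfold ee
      rw [map_mul, map_mul, norm_mul]
      have e3 : γ (c (s x)) = c (γ (s (z x))) := by
        have : γ * c * s = c * (γ * (s * z)) := by
          rw [hconj, ← hzc s, ← mul_assoc γ z s, ← hzc γ, mul_assoc, mul_assoc, mul_assoc,
            ← mul_assoc c z, ← hzc c, mul_assoc]
        exact DFunLike.congr_fun this x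
      rw [e3, hc, RCLike.norm_conj, ← norm_mul, ← map_mul, ← map_mul, ← map_mul]
      have h1 : (ι (γ (s (x * z x)))) ^ w = 1 := by
        rw [← map_pow, ← map_pow, ← map_pow, mul_pow, ← map_pow, hx', map_div₀, hzzη,
          div_mul_div_comm, mul_comm (z η) η, div_self (mul_ne_zero hη0 hzη0), map_one, map_one,
          map_one]
      exact Complex.norm_eq_one_of_pow_eq_one h1 (NeZero.ne w)

end

end Pool.Agent.StarkRQ
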