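import Pool.Agent.StarkRQ.AnHurwitz

/-!
# The derivative at `0` of `∑_{n ≡ ρ} (∑_{d ∣ n} κ d) n^{-s}` for an odd quadratic character `κ`

Put `F a = ZMod.LFunction (Pi.single a 1)`, differentiable away from `1`
(`ZMod.differentiableAt_LFunction`), `F a s = ∑_{m ≡ a} m^{-s}` for `Re s > 1`
(`ZMod.LFunction_eq_LSeries`). For `Re s > 1`
`W s = ∑_{a ∈ (ℤ/f)ˣ} κ a * F a s * F (ρ a⁻¹) s`
(a product `n = d e` with `n ≡ ρ` a unit has `d ≡ a`, `e ≡ ρ a⁻¹` for a unique unit `a`;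
`LSeries_convolution`), and by the identity theorem this holds for all `s ≠ 1`. Differentiate at
`0`: `W'(0) = ∑ κ a (F a)'(0) F (ρ a⁻¹)(0) + ∑ κ a F a (0) (F (ρ a⁻¹))'(0)`. The substitution
`a ↦ ρ a⁻¹` (`κ (ρ a⁻¹) = κ a`) shows that both sums are equal. By `LFunction_single_zero`
`W'(0) = 2 ∑ κ a hh a (F (ρ a⁻¹))'(0)`, and as `κ a * hh a` is even in `a`, this is
`∑ κ a hh a ((F (ρ a⁻¹))'(0) + (F (-ρ a⁻¹))'(0)) = - ∑ κ a hh a ell (ρ a⁻¹)`.
-/

open Complex Filter Topology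

namespace Pool.Agent.StarkRQ

/-- the partial zeta function -/
private noncomputable def AnConv.F {f : ℕ} [NeZero f] (a : ZMod f) : ℂ → ℂ :=
  ZMod.LFunction (Pi.single a 1 : ZMod f → ℂ)

private lemma AnConv.differentiableOn_F {f : ℕ} [NeZero f] (a : ZMod f) :
    DifferentiableOn ℂ (AnConv.F a) {1}ᶜ := fun s hs =>
  (ZMod.differentiableAt_LFunction _ s (Or.inl hs)).differentiableWithinAt

private lemma AnConv.char_sq {f : ℕ} (κ : DirichletCharacter ℤ f) (a : (ZMod f)ˣ) :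
    κ ((a⁻¹ : (ZMod f)ˣ) : ZMod f) = κ (a : ZMod f) := by
  have h : IsUnit (κ (a : ZMod f)) := a.isUnit.map κ
  have h1 : κ (a : ZMod f) * κ ((a⁻¹ : (ZMod f)ˣ) : ZMod f) = 1 := by
    rw [← map_mul, Units.mul_inv, map_one]
  rcases Int.isUnit_iff.1 h with h2 | h2
  · rw [h2, one_mul] at h1
    rw [h1, h2]
  · rw [h2] at h1 ⊢
    linarith

/-- the coefficients of the product -/
private lemma AnConv.coeff {f : ℕ} [NeZero f] (κ : DirichletCharacter ℤ f) (ρ : (ZMod f)ˣ)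
    {n : ℕ} :
    (∑ a : (ZMod f)ˣ, (κ (a : ZMod f) : ℂ) •
      LSeries.convolution (fun m : ℕ => (Pi.single (a : ZMod f) 1 : ZMod f → ℂ) m)
        (fun m : ℕ => (Pi.single ((ρ * a⁻¹ : (ZMod f)ˣ) : ZMod f) 1 : ZMod f → ℂ) m)) n =
      ((if (n : ZMod f) = (ρ : ZMod f) then ∑ d ∈ n.divisors, κ (d : ZMod f) else 0 : ℤ) : ℂ) := by
  classical
  rw [Finset.sum_apply]
  simp only [Pi.smul_apply, LSeries.convolution_def, smul_eq_mul, Finset.mul_sum]
  rw [Finset.sum_comm]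
  have hterm : ∀ p ∈ n.divisorsAntidiagonal, (∑ a : (ZMod f)ˣ, (κ (a : ZMod f) : ℂ) *
      ((Pi.single (a : ZMod f) 1 : ZMod f → ℂ) (p.1 : ZMod f) *
        (Pi.single ((ρ * a⁻¹ : (ZMod f)ˣ) : ZMod f) 1 : ZMod f → ℂ) (p.2 : ZMod f))) =
      if (n : ZMod f) = (ρ : ZMod f) then (κ (p.1 : ZMod f) : ℂ) else 0 := by
    intro p hp
    have hp1 := (Nat.mem_divisorsAntidiagonal.1 hp).1
    have hp2 : (p.1 : ZMod f) * (p.2 : ZMod f) = (n : ZMod f) := by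
      rw [← hp1, Nat.cast_mul]
    split_ifs with h
    · have hu : IsUnit (p.1 : ZMod f) := by
        apply isUnit_of_mul_isUnit_left (y := (p.2 : ZMod f))
        rw [hp2, h]
        exact ρ.isUnit
      obtain ⟨u, hu⟩ := hu
      rw [Finset.sum_eq_single u]
      · have h2 : (p.2 : ZMod f) = ((ρ * u⁻¹ : (ZMod f)ˣ) : ZMod f) := by
          rw [Units.val_mul, ← h, ← hp2, ← hu, mul_comm (u : ZMod f), mul_assoc, Units.mul_inv,
            mul_one]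
        rw [h2, ← hu, Pi.single_eq_same, Pi.single_eq_same, mul_one, mul_one]
      · intro b _ hb
        have : (p.1 : ZMod f) ≠ (b : ZMod f) := by
          rw [← hu]
          exact fun h => hb (Units.ext h.symm)
        rw [Pi.single_eq_of_ne this, zero_mul, mul_zero]
      · intro h
        exact absurd (Finset.mem_univ _) h
    · refine Finset.sum_eq_zero fun a _ => ?_
      by_cases h1 : (p.1 : ZMod f) = (a : ZMod f)
      · have h2 : (p.2 : ZMod f) ≠ ((ρ * a⁻¹ : (ZMod f)ˣ) : ZMod f) := by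
          intro h2
          apply h
          rw [← hp2, h1, h2, Units.val_mul, mul_comm, mul_assoc, Units.inv_mul, mul_one]
        rw [Pi.single_eq_of_ne h2, mul_zero, mul_zero]
      · rw [Pi.single_eq_of_ne h1, zero_mul, mul_zero]
  rw [Finset.sum_congr rfl hterm]
  split_ifs with h
  · rw [Nat.sum_divisorsAntidiagonal (fun d _ => (κ (d : ZMod f) : ℂ))]
    push_cast
    rfl
  · simp

private lemma AnConv.eq_of_one_lt {f : ℕ} [NeZero f] (κ : DirichletCharacter ℤ f) (ρ : (ZMod f)ˣ)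
    {s : ℂ} (hs : 1 < s.re) :
    LSeries (fun n => ((if (n : ZMod f) = (ρ : ZMod f) then
      ∑ d ∈ n.divisors, κ (d : ZMod f) else 0 : ℤ) : ℂ)) s =
    ∑ a : (ZMod f)ˣ, (κ (a : ZMod f) : ℂ) *
      (AnConv.F (a : ZMod f) s * AnConv.F ((ρ * a⁻¹ : (ZMod f)ˣ) : ZMod f) s) := by
  have hsum : ∀ b : ZMod f, LSeriesSummable
      (fun m : ℕ => (Pi.single b 1 : ZMod f → ℂ) m) s := fun b =>
    ZMod.LSeriesSummable_of_one_lt_re _ hs
  have h1 : (fun n : ℕ => ((if (n : ZMod f) = (ρ : ZMod f) then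
      ∑ d ∈ n.divisors, κ (d : ZMod f) else 0 : ℤ) : ℂ)) =
      ∑ a : (ZMod f)ˣ, (κ (a : ZMod f) : ℂ) •
      LSeries.convolution (fun m : ℕ => (Pi.single (a : ZMod f) 1 : ZMod f → ℂ) m)
        (fun m : ℕ => (Pi.single ((ρ * a⁻¹ : (ZMod f)ˣ) : ZMod f) 1 : ZMod f → ℂ) m) :=
    funext fun n => (AnConv.coeff κ ρ).symm
  rw [h1, LSeries_sum]
  · refine Finset.sum_congr rfl fun a _ => ?_
    rw [LSeries_smul, LSeries_convolution' (hsum _) (hsum _)]
    unfold AnConv.F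
    rw [ZMod.LFunction_eq_LSeries _ hs, ZMod.LFunction_eq_LSeries _ hs]
  · intro a _
    exact ((hsum _).convolution (hsum _)).smul _

theorem deriv_conv {f : ℕ} [NeZero f] (hf : 2 < f) (κ : DirichletCharacter ℤ f)
    (hodd : κ (-1) = -1) (ρ : (ZMod f)ˣ) (hρ : κ (ρ : ZMod f) = 1) {W : ℂ → ℂ}
    (hW : DifferentiableOn ℂ W {1}ᶜ)
    (hs : ∀ s : ℂ, 1 < s.re → W s = LSeries (fun n => ((if (n : ZMod f) = (ρ : ZMod f) then
      ∑ d ∈ n.divisors, κ (d : ZMod f) else 0 : ℤ) : ℂ)) s) :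
    deriv W 0 = -((∑ a : (ZMod f)ˣ, (κ (a : ZMod f) : ℝ) * hh f (a : ZMod f) *
      ell f ((ρ * a⁻¹ : (ZMod f)ˣ) : ZMod f) : ℝ) : ℂ) := by
  have hnt : Nontrivial (ZMod f) := ZMod.nontrivial_iff.2 (by omega)
  have hopen : IsOpen ({1}ᶜ : Set ℂ) := isOpen_compl_singleton
  have hmem : (0 : ℂ) ∈ ({1}ᶜ : Set ℂ) := by simp
  set V : ℂ → ℂ := fun s => ∑ a : (ZMod f)ˣ, (κ (a : ZMod f) : ℂ) *
      (AnConv.F (a : ZMod f) s * AnConv.F ((ρ * a⁻¹ : (ZMod f)ˣ) : ZMod f) s) with hV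
  have hVd : DifferentiableOn ℂ V {1}ᶜ := by
    refine DifferentiableOn.fun_sum fun a _ => ?_
    exact (((AnConv.differentiableOn_F _).mul (AnConv.differentiableOn_F _))).const_mul _
  have hconn : IsPreconnected ({1}ᶜ : Set ℂ) :=
    (isConnected_compl_singleton_of_one_lt_rank (by simp) 1).isPreconnected
  have hev : W =ᶠ[𝓝 (2 : ℂ)] V := by
    have ho : IsOpen {s : ℂ | 1 < s.re} := isOpen_lt continuous_const Complex.continuous_re
    filter_upwards [ho.mem_nhds (show (2 : ℂ) ∈ {s : ℂ | 1 < s.re} by simp)] with s hs'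
    rw [hs s hs', AnConv.eq_of_one_lt κ ρ hs']
  have hall := (hW.analyticOnNhd hopen).eqOn_of_preconnected_of_eventuallyEq
    (hVd.analyticOnNhd hopen) hconn (show (2 : ℂ) ∈ ({1}ᶜ : Set ℂ) by simp) hev
  have h0 : W =ᶠ[𝓝 (0 : ℂ)] V := by
    filter_upwards [hopen.mem_nhds hmem] with s hs'
    exact hall hs'
  rw [h0.deriv_eq]
  have hF : ∀ b : ZMod f, HasDerivAt (AnConv.F b) (deriv (AnConv.F b) 0) 0 := fun b =>
    ((AnConv.differentiableOn_F b).differentiableAt (hopen.mem_nhds hmem)).hasDerivAt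
  have hVder : HasDerivAt V (∑ a : (ZMod f)ˣ, (κ (a : ZMod f) : ℂ) *
      (deriv (AnConv.F (a : ZMod f)) 0 * AnConv.F ((ρ * a⁻¹ : (ZMod f)ˣ) : ZMod f) 0 +
        AnConv.F (a : ZMod f) 0 * deriv (AnConv.F ((ρ * a⁻¹ : (ZMod f)ˣ) : ZMod f)) 0)) 0 := by
    rw [hV]
    refine HasDerivAt.fun_sum fun a _ => ?_
    exact ((hF _).mul (hF _)).const_mul _
  rw [hVder.deriv]
  have hF0 : ∀ a : (ZMod f)ˣ, AnConv.F (a : ZMod f) 0 = (hh f (a : ZMod f) : ℂ) := fun a =>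
    LFunction_single_zero a.ne_zero
  have hFd : ∀ a : (ZMod f)ˣ, deriv (AnConv.F (a : ZMod f)) 0 +
      deriv (AnConv.F (-(a : ZMod f))) 0 = ((-ell f (a : ZMod f) : ℝ) : ℂ) := fun a =>
    deriv_LFunction_single a.ne_zero
  simp only [mul_add, Finset.sum_add_distrib]
  -- both sums are equal
  have hA : (∑ a : (ZMod f)ˣ, (κ (a : ZMod f) : ℂ) *
      (deriv (AnConv.F (a : ZMod f)) 0 * AnConv.F ((ρ * a⁻¹ : (ZMod f)ˣ) : ZMod f) 0)) =
      ∑ a : (ZMod f)ˣ, (κ (a : ZMod f) : ℂ) *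
        (AnConv.F (a : ZMod f) 0 * deriv (AnConv.F ((ρ * a⁻¹ : (ZMod f)ˣ) : ZMod f)) 0) := by
    let e : (ZMod f)ˣ ≃ (ZMod f)ˣ :=
      { toFun := fun a => ρ * a⁻¹
        invFun := fun a => ρ * a⁻¹
        left_inv := fun a => by simp
        right_inv := fun a => by simp }
    rw [← Equiv.sum_comp e]
    refine Finset.sum_congr rfl fun a _ => ?_
    have h1 : (ρ * (e a)⁻¹ : (ZMod f)ˣ) = a := by simp [e]
    have h2 : κ ((e a : (ZMod f)ˣ) : ZMod f) = κ (a : ZMod f) := by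
      change κ ((ρ * a⁻¹ : (ZMod f)ˣ) : ZMod f) = κ (a : ZMod f)
      rw [Units.val_mul, map_mul, hρ, one_mul, AnConv.char_sq]
    rw [h1, h2]
    change (κ (a : ZMod f) : ℂ) * (deriv (AnConv.F ((ρ * a⁻¹ : (ZMod f)ˣ) : ZMod f)) 0 *
      AnConv.F (a : ZMod f) 0) = _
    ring
  -- the second sum is even
  have hB : (∑ a : (ZMod f)ˣ, (κ (a : ZMod f) : ℂ) *
        (AnConv.F (a : ZMod f) 0 * deriv (AnConv.F ((ρ * a⁻¹ : (ZMod f)ˣ) : ZMod f)) 0)) =
      ∑ a : (ZMod f)ˣ, (κ (a : ZMod f) : ℂ) *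
        (AnConv.F (a : ZMod f) 0 *
          deriv (AnConv.F (-((ρ * a⁻¹ : (ZMod f)ˣ) : ZMod f))) 0) := by
    rw [← Equiv.sum_comp (Equiv.neg (ZMod f)ˣ)]
    refine Finset.sum_congr rfl fun a _ => ?_
    rw [Equiv.neg_apply, hF0, hF0, inv_neg, mul_neg, Units.val_neg, Units.val_neg,
      hh_neg a.ne_zero, ← neg_one_mul (a : ZMod f), map_mul, hodd]
    push_cast
    ring
  rw [hA]
  nth_rewrite 2 [hB]
  rw [← Finset.sum_add_distrib, Complex.ofReal_sum, ← Finset.sum_neg_distrib]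
  refine Finset.sum_congr rfl fun a _ => ?_
  rw [← mul_add, ← mul_add, hFd, hF0]
  push_cast
  ring

end Pool.Agent.StarkRQ
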