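import Pool.Agent.StarkRQ.Analytic

/-!
# Dirichlet series with a continuation to `ℂ ∖ {1}`
-/

open Filter Topology

namespace Pool.Agent.StarkRQ

/-- `Z` is a continuation to `ℂ ∖ {1}` of the Dirichlet series with coefficients `a`, absolutely
convergent for `Re s > 1`. -/
structure IsCont (a : ℕ → ℂ) (Z : ℂ → ℂ) : Prop where
  diff : DifferentiableOn ℂ Z {1}ᶜ
  summable : ∀ s : ℂ, 1 < s.re → LSeriesSummable a s
  eq : ∀ s : ℂ, 1 < s.re → Z s = LSeries a s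

namespace IsCont

variable {a a' : ℕ → ℂ} {Z Z' : ℂ → ℂ}

lemma differentiableAt (h : IsCont a Z) : DifferentiableAt ℂ Z 0 :=
  h.diff.differentiableAt (isOpen_compl_singleton.mem_nhds (by simp))

lemma add (h : IsCont a Z) (h' : IsCont a' Z') : IsCont (a + a') (fun s => Z s + Z' s) where
  diff := h.diff.add h'.diff
  summable := fun s hs => (h.summable s hs).add (h'.summable s hs)
  eq := fun s hs => by
    rw [h.eq s hs, h'.eq s hs, LSeries_add (h.summable s hs) (h'.summable s hs)]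

lemma sub (h : IsCont a Z) (h' : IsCont a' Z') : IsCont (a - a') (fun s => Z s - Z' s) where
  diff := h.diff.sub h'.diff
  summable := fun s hs => (h.summable s hs).sub (h'.summable s hs)
  eq := fun s hs => by
    rw [h.eq s hs, h'.eq s hs, LSeries_sub (h.summable s hs) (h'.summable s hs)]

lemma zero : IsCont 0 (fun _ => 0) where
  diff := differentiableOn_const _
  summable := fun s _ => by simp
  eq := fun s _ => by simp

lemma sum {J : Type*} (S : Finset J) {a : J → ℕ → ℂ} {Z : J → ℂ → ℂ}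
    (h : ∀ j ∈ S, IsCont (a j) (Z j)) : IsCont (∑ j ∈ S, a j) (fun s => ∑ j ∈ S, Z j s) := by
  classical
  induction S using Finset.induction_on with
  | empty => simpa using zero
  | insert j S hj ih =>
      rw [Finset.sum_insert hj]
      have e : (fun s => ∑ i ∈ insert j S, Z i s) = fun s => Z j s + ∑ i ∈ S, Z i s := by
        ext s
        rw [Finset.sum_insert hj]
      rw [e]
      exact (h j (Finset.mem_insert_self _ _)).add (ih fun i hi => h i (Finset.mem_insert_of_mem hi))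

lemma deriv_eq (h : IsCont a Z) (h' : IsCont a' Z') (haa : ∀ n, n ≠ 0 → a n = a' n) :
    deriv Z 0 = deriv Z' 0 := by
  have hopen : IsOpen ({1}ᶜ : Set ℂ) := isOpen_compl_singleton
  have hmem : (0 : ℂ) ∈ ({1}ᶜ : Set ℂ) := by simp
  have hZ : AnalyticOnNhd ℂ Z {1}ᶜ := h.diff.analyticOnNhd hopen
  have hW : AnalyticOnNhd ℂ Z' {1}ᶜ := h'.diff.analyticOnNhd hopen
  have hconn : IsPreconnected ({1}ᶜ : Set ℂ) :=
    (isConnected_compl_singleton_of_one_lt_rank (by simp) 1).isPreconnected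
  have heq : ∀ s : ℂ, 1 < s.re → Z s = Z' s := by
    intro s hs
    rw [h.eq s hs, h'.eq s hs]
    exact LSeries_congr (fun {n} hn => haa n hn) s
  have hev : Z =ᶠ[𝓝 (2 : ℂ)] Z' := by
    have ho : IsOpen {s : ℂ | 1 < s.re} := isOpen_lt continuous_const Complex.continuous_re
    filter_upwards [ho.mem_nhds (show (2 : ℂ) ∈ {s : ℂ | 1 < s.re} by simp)] with s hs
    exact heq s hs
  have hall := hZ.eqOn_of_preconnected_of_eventuallyEq hW hconn
    (show (2 : ℂ) ∈ ({1}ᶜ : Set ℂ) by simp) hev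
  have h0 : Z =ᶠ[𝓝 (0 : ℂ)] Z' := by
    filter_upwards [hopen.mem_nhds hmem] with s hs
    exact hall hs
  exact h0.deriv_eq

lemma deriv_add (h : IsCont a Z) (h' : IsCont a' Z') :
    deriv (fun s => Z s + Z' s) 0 = deriv Z 0 + deriv Z' 0 :=
  (h.differentiableAt.hasDerivAt.add h'.differentiableAt.hasDerivAt).deriv

lemma deriv_sub (h : IsCont a Z) (h' : IsCont a' Z') :
    deriv (fun s => Z s - Z' s) 0 = deriv Z 0 - deriv Z' 0 :=
  (h.differentiableAt.hasDerivAt.sub h'.differentiableAt.hasDerivAt).deriv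

lemma deriv_sum {J : Type*} (S : Finset J) {a : J → ℕ → ℂ} {Z : J → ℂ → ℂ}
    (h : ∀ j ∈ S, IsCont (a j) (Z j)) :
    deriv (fun s => ∑ j ∈ S, Z j s) 0 = ∑ j ∈ S, deriv (Z j) 0 :=
  (HasDerivAt.fun_sum fun j hj => (h j hj).differentiableAt.hasDerivAt).deriv

end IsCont

lemma IsPartialZeta.isCont {F L : Type*} [Field F] [NumberField F] [Field L] [NumberField L]
    [Algebra F L] {N : ℕ} {σ : Gal(L/F)} {Z : ℂ → ℂ} (h : IsPartialZeta N σ Z) :
    IsCont (fun n => (zcoeff N σ n : ℂ)) Z where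
  diff := h.1
  summable := fun _ hs => zcoeff_summable N σ hs
  eq := h.2

/-- The relation between the derivatives used in the Klein four case. -/
theorem deriv_two_sums {F L : Type*} [Field F] [NumberField F] [Field L] [NumberField L]
    [Algebra F L] {F₁ L₁ : Type*} [Field F₁] [NumberField F₁] [Field L₁] [NumberField L₁]
    [Algebra F₁ L₁] {F₂ L₂ : Type*} [Field F₂] [NumberField F₂] [Field L₂] [NumberField L₂]
    [Algebra F₂ L₂] {N : ℕ} {σ₁ σ₂ : Gal(L/F)} {Z₁ Z₂ : ℂ → ℂ} (h₁ : IsPartialZeta N σ₁ Z₁)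
    (h₂ : IsPartialZeta N σ₂ Z₂) {I : Type*} (T₁ T₂ : Finset I) (u₁ v₁ : I → Gal(L₁/F₁))
    (u₂ v₂ : I → Gal(L₂/F₂)) {W₁ : Gal(L₁/F₁) → ℂ → ℂ} {W₂ : Gal(L₂/F₂) → ℂ → ℂ}
    (g₁ : ∀ t, IsPartialZeta N t (W₁ t)) (g₂ : ∀ t, IsPartialZeta N t (W₂ t))
    (hc : ∀ n : ℕ, n ≠ 0 → 2 * ((zcoeff N σ₁ n : ℤ) - zcoeff N σ₂ n) =
      ∑ a ∈ T₁, ((zcoeff N (u₁ a) n : ℤ) - zcoeff N (v₁ a) n) +
      ∑ a ∈ T₂, ((zcoeff N (u₂ a) n : ℤ) - zcoeff N (v₂ a) n)) :
    2 * (deriv Z₁ 0 - deriv Z₂ 0) =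
      ∑ a ∈ T₁, (deriv (W₁ (u₁ a)) 0 - deriv (W₁ (v₁ a)) 0) +
      ∑ a ∈ T₂, (deriv (W₂ (u₂ a)) 0 - deriv (W₂ (v₂ a)) 0) := by
  have hL := (h₁.isCont.sub h₂.isCont)
  have hL2 := hL.add hL
  have hR₁ := IsCont.sum T₁ (a := fun a n => (zcoeff N (u₁ a) n : ℂ) - (zcoeff N (v₁ a) n : ℂ))
    (Z := fun a s => W₁ (u₁ a) s - W₁ (v₁ a) s)
    (fun a _ => ((g₁ (u₁ a)).isCont.sub (g₁ (v₁ a)).isCont))
  have hR₂ := IsCont.sum T₂ (a := fun a n => (zcoeff N (u₂ a) n : ℂ) - (zcoeff N (v₂ a) n : ℂ))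
    (Z := fun a s => W₂ (u₂ a) s - W₂ (v₂ a) s)
    (fun a _ => ((g₂ (u₂ a)).isCont.sub (g₂ (v₂ a)).isCont))
  have hR := hR₁.add hR₂
  have key := hL2.deriv_eq hR (fun n hn => by
    have := hc n hn
    have h3 := congrArg (fun m : ℤ => (m : ℂ)) this
    push_cast at h3
    simp only [Pi.add_apply, Pi.sub_apply, Finset.sum_apply]
    rw [← h3]
    ring)
  rw [hL.deriv_add hL, h₁.isCont.deriv_sub h₂.isCont, hR₁.deriv_add hR₂] at key
  rw [IsCont.deriv_sum T₁ (a := fun a n => (zcoeff N (u₁ a) n : ℂ) - (zcoeff N (v₁ a) n : ℂ))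
    (Z := fun a s => W₁ (u₁ a) s - W₁ (v₁ a) s)
    (fun a _ => ((g₁ (u₁ a)).isCont.sub (g₁ (v₁ a)).isCont)),
    IsCont.deriv_sum T₂ (a := fun a n => (zcoeff N (u₂ a) n : ℂ) - (zcoeff N (v₂ a) n : ℂ))
    (Z := fun a s => W₂ (u₂ a) s - W₂ (v₂ a) s)
    (fun a _ => ((g₂ (u₂ a)).isCont.sub (g₂ (v₂ a)).isCont))] at key
  rw [two_mul, key]
  congr 1
  · exact Finset.sum_congr rfl fun a _ => (g₁ (u₁ a)).isCont.deriv_sub (g₁ (v₁ a)).isCont
  · exact Finset.sum_congr rfl fun a _ => (g₂ (u₂ a)).isCont.deriv_sub (g₂ (v₂ a)).isCont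

end Pool.Agent.StarkRQ
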