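import Pool.Agent.StarkRQ.Base

/-!
# Definitions and basic lemmas for the cyclotomic part (proof only)
-/

open NumberField

namespace Pool.Agent.StarkRQ

/-- `1/2 - a/f` -/
noncomputable def hh (f : ℕ) (a : ZMod f) : ℝ := 1 / 2 - (a.val : ℝ) / f

/-- `log |1 - exp(2πi a/f)|` -/
noncomputable def ell (f : ℕ) (a : ZMod f) : ℝ :=
  Real.log ‖1 - Complex.exp (2 * Real.pi * Complex.I * ((a.val : ℂ) / f))‖

lemma hh_neg {f : ℕ} [NeZero f] {a : ZMod f} (ha : a ≠ 0) : hh f (-a) = - hh f a := by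
  have hf : (f : ℝ) ≠ 0 := by exact_mod_cast NeZero.ne f
  unfold hh
  have : NeZero a := ⟨ha⟩
  rw [ZMod.val_neg_of_ne_zero, Nat.cast_sub (ZMod.val_lt a).le]
  field_simp
  ring

lemma ell_neg {f : ℕ} [NeZero f] (a : ZMod f) : ell f (-a) = ell f a := by
  have hf : (f : ℂ) ≠ 0 := by exact_mod_cast NeZero.ne f
  rcases eq_or_ne a 0 with rfl | ha
  · simp
  have : NeZero a := ⟨ha⟩
  unfold ell
  have h1 : Complex.exp (2 * Real.pi * Complex.I * (((-a).val : ℂ) / f)) =
      starRingEnd ℂ (Complex.exp (2 * Real.pi * Complex.I * ((a.val : ℂ) / f))) := by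
    rw [← Complex.exp_conj, ZMod.val_neg_of_ne_zero, Nat.cast_sub (ZMod.val_lt a).le]
    have h2 : 2 * Real.pi * Complex.I * (((f : ℂ) - (a.val : ℂ)) / f) =
        -(2 * Real.pi * Complex.I * ((a.val : ℂ) / f)) + 2 * Real.pi * Complex.I := by
      field_simp
      ring
    rw [h2, Complex.exp_add, Complex.exp_two_pi_mul_I, mul_one]
    congr 1
    simp only [map_mul, map_div₀, Complex.conj_I, Complex.conj_ofReal, map_ofNat, map_natCast]
    ring
  rw [h1]
  have h3 : (1 : ℂ) - starRingEnd ℂ (Complex.exp (2 * Real.pi * Complex.I * ((a.val : ℂ) / f))) =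
      starRingEnd ℂ (1 - Complex.exp (2 * Real.pi * Complex.I * ((a.val : ℂ) / f))) := by
    rw [map_sub, map_one]
  rw [h3, RCLike.norm_conj]

end Pool.Agent.StarkRQ
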