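import Pool.Agent.StarkRQ.Coeff
import Pool.Agent.StarkRQ.CycDefs

/-!
# Frobenius elements act on roots of unity as the `p`-th power

`φ ζ = ζ ^ a` with `a = (hζ.autToPow ℚ φ).val` (`IsPrimitiveRoot.autToPow_spec`), and
`φ ζ ≡ ζ ^ p` modulo `Q` by `Cong`. So `ζ ^ a - ζ ^ p ∈ Q`. The image of `ζ` in the domain
`𝓞 M ⧸ Q` is a primitive root of unity of order `f`, hence `a ≡ p` modulo `f`.
-/

open NumberField Module

namespace Pool.Agent.StarkRQ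

theorem chi_frob {M : Type*} [Field M] [NumberField M] {f : ℕ} [NeZero f] {ζ : M}
    (hζ : IsPrimitiveRoot ζ f) {p : ℕ} (hp : p.Prime)
    (hpf : p.Coprime f) {Q : Ideal (𝓞 M)} [Q.IsPrime] (hpQ : (p : 𝓞 M) ∈ Q) {φ : Gal(M/ℚ)}
    (hφ : Cong φ Q p) : ((hζ.autToPow ℚ φ : (ZMod f)ˣ) : ZMod f) = p := by
  have hfQ : ((f : ℕ) : 𝓞 M ⧸ Q) ≠ 0 := by
    intro h
    rw [← map_natCast (Ideal.Quotient.mk Q), Ideal.Quotient.eq_zero_iff_mem] at h
    obtain ⟨u, v, huv⟩ := Nat.isCoprime_iff_coprime.2 hpf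
    apply (inferInstance : Q.IsPrime).ne_top
    rw [Ideal.eq_top_iff_one]
    have h2 : (1 : 𝓞 M) = (u : 𝓞 M) * (p : 𝓞 M) + (v : 𝓞 M) * (f : 𝓞 M) := by
      have := congrArg (fun z : ℤ => (z : 𝓞 M)) huv
      push_cast at this
      exact this.symm
    rw [h2]
    exact Q.add_mem (Q.mul_mem_left _ hpQ) (Q.mul_mem_left _ h)
  have hprim : IsPrimitiveRoot (Ideal.Quotient.mk Q hζ.toInteger) f := by
    have : NeZero ((f : ℕ) : 𝓞 M ⧸ Q) := ⟨hfQ⟩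
    rw [← Polynomial.isRoot_cyclotomic_iff]
    have h1 : (Polynomial.cyclotomic f (𝓞 M)).IsRoot hζ.toInteger :=
      hζ.toInteger_isPrimitiveRoot.isRoot_cyclotomic (NeZero.pos f)
    have h2 := h1.map (f := Ideal.Quotient.mk Q)
    rwa [Polynomial.map_cyclotomic] at h2
  have h1 : φ • hζ.toInteger = hζ.toInteger ^ (hζ.autToPow ℚ φ : ZMod f).val := by
    apply RingOfIntegers.ext
    have h2 := hζ.autToPow_spec ℚ φ
    exact h2.symm
  have h2 := hφ hζ.toInteger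
  rw [h1, ← Ideal.Quotient.eq_zero_iff_mem, map_sub, map_pow, map_pow, sub_eq_zero] at h2
  have h3 : IsOfFinOrder (Ideal.Quotient.mk Q hζ.toInteger) :=
    isOfFinOrder_iff_pow_eq_one.2 ⟨f, NeZero.pos f, hprim.pow_eq_one⟩
  rw [h3.pow_eq_pow_iff_modEq, ← hprim.eq_orderOf, ← ZMod.natCast_eq_natCast_iff,
    ZMod.natCast_zmod_val] at h2
  exact h2

end Pool.Agent.StarkRQ
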