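import Pool.Agent.StarkRQ.Base

/-!
Galois theory used in the assembly.
-/

open NumberField Module

namespace Pool.Agent.StarkRQ

section cc

variable {M : Type*} [Field M] [NumberField M] [IsGalois ℚ M]

/-- complex conjugation -/
lemma exists_cc (ι : M →+* ℂ) : ∃ c : Gal(M/ℚ), ∀ x, ι (c x) = starRingEnd ℂ (ι x) := by
  obtain ⟨σ, hσ⟩ := NumberField.ComplexEmbedding.exists_comp_symm_eq_of_comp_eq (k := ℚ) ι
    ((starRingEnd ℂ).comp ι) (RingHom.ext fun x => by simp)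
  refine ⟨σ.symm, fun x => ?_⟩
  have := congrArg (fun f : M →+* ℂ => f x) hσ
  simpa using this

/-- every embedding is conjugate to `ι` -/
lemma exists_comp (ι : M →+* ℂ) (g : M →+* ℂ) : ∃ γ : Gal(M/ℚ), ∀ x, g x = ι (γ x) := by
  obtain ⟨σ, hσ⟩ := NumberField.ComplexEmbedding.exists_comp_symm_eq_of_comp_eq (k := ℚ) ι
    g (RingHom.ext fun x => by simp)
  refine ⟨σ.symm, fun x => ?_⟩
  have := congrArg (fun f : M →+* ℂ => f x) hσ
  simpa using this.symm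

end cc

section roots

variable {M : Type*} [Field M] [NumberField M]

lemma commute_on_roots (b c : Gal(M/ℚ)) {w : ℕ} [NeZero w] (ζ : M) (hζ : ζ ^ w = 1) :
    b (c ζ) = c (b ζ) := by
  obtain ⟨g, hg⟩ := IsCyclic.exists_generator (α := rootsOfUnity w M)
  obtain ⟨i, hi⟩ := map_rootsOfUnity_eq_pow_self b g
  obtain ⟨j, hj⟩ := map_rootsOfUnity_eq_pow_self c g
  obtain ⟨a, ha⟩ := hg (rootsOfUnity.mkOfPowEq ζ hζ)
  have hζ' : ζ = ((g : Mˣ) : M) ^ a := by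
    have := congrArg (fun x : rootsOfUnity w M => ((x : Mˣ) : M)) ha
    simpa using this.symm
  rw [hζ', map_zpow₀, map_zpow₀, map_zpow₀, map_zpow₀, hi, hj, map_pow, map_pow, hi, hj, ← pow_mul,
    ← pow_mul, mul_comm i j]

lemma commutator_fixes (b c : Gal(M/ℚ)) {w : ℕ} [NeZero w]
    (ζ : M) (hζ : ζ ^ w = 1) : (b * c * b⁻¹ * c⁻¹) ζ = ζ := by
  have h1 : ((b⁻¹ * c⁻¹) ζ) ^ w = 1 := by rw [← map_pow, hζ, map_one]
  have h2 := commute_on_roots b c ((b⁻¹ * c⁻¹) ζ) h1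
  have h3 : (b * c * b⁻¹ * c⁻¹) ζ = b (c ((b⁻¹ * c⁻¹) ζ)) := by
    rw [mul_assoc (b * c)]; rfl
  rw [h3, h2]
  have h4 : c (b ((b⁻¹ * c⁻¹) ζ)) = (c * b * (b⁻¹ * c⁻¹)) ζ := rfl
  rw [h4]
  simp

end roots

end Pool.Agent.StarkRQ
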