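import Pool.Agent.StarkRQ.Defs

/-!
# Definitions used in the proof only
-/

open NumberField

namespace Pool.Agent.StarkRQ

/-- `g x ≡ x ^ q` modulo `Q` -/
def Cong {M : Type*} [Field M] [NumberField M] (g : Gal(M/ℚ)) (Q : Ideal (𝓞 M)) (q : ℕ) : Prop :=
  ∀ x : 𝓞 M, g • x - x ^ q ∈ Q

/-- the embedding of `Gal(M/F)` into `Gal(M/ℚ)` -/
noncomputable def toG (F M : Type*) [Field F] [NumberField F] [Field M] [NumberField M]
    [Algebra F M] : Gal(M/F) →* Gal(M/ℚ) :=
  AlgEquiv.restrictScalarsHom ℚ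

/-- the subgroup of `Gal(M/ℚ)` fixing `F` -/
noncomputable def fixG (F M : Type*) [Field F] [NumberField F] [Field M] [NumberField M]
    [Algebra F M] : Subgroup Gal(M/ℚ) := (toG F M).range

/-- the Artin symbol of an ideal (a choice) -/
noncomputable def art {F M : Type*} [Field F] [NumberField F] [Field M] [NumberField M]
    [Algebra F M] (𝔞 : Ideal (𝓞 F)) : Gal(M/F) :=
  open Classical in if h : ∃ σ : Gal(M/F), HasArtinSymbol 𝔞 σ then h.choose else 1

/-- the number of ideals of norm `n` with Artin symbol `g` -/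
noncomputable def cnt (F M : Type*) [Field F] [NumberField F] [Field M] [NumberField M]
    [Algebra F M] (n : ℕ) (g : Gal(M/ℚ)) : ℕ :=
  Nat.card {𝔞 : Ideal (𝓞 F) // Ideal.absNorm 𝔞 = n ∧ toG F M (art 𝔞) = g}

section basic

variable {F M : Type*} [Field F] [NumberField F] [Field M] [NumberField M] [Algebra F M]

@[simp] lemma toG_apply (σ : Gal(M/F)) (x : M) : toG F M σ x = σ x := rfl

lemma toG_injective : Function.Injective (toG F M) := AlgEquiv.restrictScalarsHom_injective ℚ

lemma toG_smul (σ : Gal(M/F)) (x : 𝓞 M) : toG F M σ • x = σ • x := rfl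

lemma mem_fixG {g : Gal(M/ℚ)} :
    g ∈ fixG F M ↔ ∀ x : F, g (algebraMap F M x) = algebraMap F M x := by
  constructor
  · rintro ⟨σ, rfl⟩ x
    simp
  · intro h
    exact ⟨AlgEquiv.ofRingEquiv (f := g.toRingEquiv) h, by ext; rfl⟩

end basic

end Pool.Agent.StarkRQ
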