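import Mathlib

/-!
# The value at `s = 1` of the periodic zeta function

`expZeta x s = ∑ e^{2πi n x} n^{-s}` (entire for `x ∉ ℤ`) has the value
`∑ zⁿ/n = -log (1 - z)` at `s = 1`, `z = e^{2πi x} ≠ 1`.
-/

open Complex

namespace Pool.Agent.StarkRQ

open Filter Topology

/-- partial sums of the geometric series -/
private noncomputable def anS (z : ℂ) (N : ℕ) : ℂ := ∑ n ∈ Finset.range N, z ^ (n + 1)

/-- the coefficients `(n+1)^(-s)` -/
private noncomputable def anC (s : ℝ) (n : ℕ) : ℝ := ((n : ℝ) + 1) ^ (-s)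

private theorem anParts (z : ℂ) (c : ℕ → ℝ) (N : ℕ) :
    ∑ n ∈ Finset.range N, z ^ (n + 1) * (c n : ℂ) =
      anS z N * (c N : ℂ) + ∑ n ∈ Finset.range N, anS z (n + 1) * ((c n - c (n + 1) : ℝ) : ℂ) := by
  induction N with
  | zero => simp [anS]
  | succ N ih =>
    rw [Finset.sum_range_succ, ih, Finset.sum_range_succ]
    have h : anS z (N + 1) = anS z N + z ^ (N + 1) := Finset.sum_range_succ _ _
    rw [h]
    push_cast
    ring

private theorem anS_mul (z : ℂ) (N : ℕ) : (1 - z) * anS z N = z * (1 - z ^ N) := by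
  induction N with
  | zero => simp [anS]
  | succ N ih =>
    have h : anS z (N + 1) = anS z N + z ^ (N + 1) := Finset.sum_range_succ _ _
    rw [h, mul_add, ih]
    ring

private theorem anS_le {z : ℂ} (hz : ‖z‖ = 1) (hz1 : z ≠ 1) (N : ℕ) :
    ‖anS z N‖ ≤ 2 / ‖1 - z‖ := by
  have h0 : 0 < ‖1 - z‖ := norm_pos_iff.2 (sub_ne_zero.2 hz1.symm)
  rw [le_div_iff₀ h0, mul_comm, ← norm_mul, anS_mul, norm_mul, hz, one_mul]
  calc ‖1 - z ^ N‖ ≤ ‖(1 : ℂ)‖ + ‖z ^ N‖ := norm_sub_le _ _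
    _ = 2 := by rw [norm_one, norm_pow, hz, one_pow]; norm_num

private theorem anC_diff {s : ℝ} (hs : 1 ≤ s) (hs2 : s ≤ 2) (n : ℕ) :
    ‖((anC s n - anC s (n + 1) : ℝ) : ℂ)‖ ≤ 2 / ((n : ℝ) + 1) ^ 2 := by
  unfold anC
  have ha : (0 : ℝ) < (n : ℝ) + 1 := by positivity
  have ha1 : (1 : ℝ) ≤ (n : ℝ) + 1 := by linarith [Nat.cast_nonneg (α := ℝ) n]
  push_cast
  set a : ℝ := (n : ℝ) + 1 with hadef
  set b : ℝ := a + 1 with hb
  have hb0 : 0 < b := by linarith
  have hquot : a / b = 1 + (-1 / b) := by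
    rw [hb]
    field_simp
    ring
  have hbern : 1 + s * (-1 / b) ≤ (a / b) ^ s := by
    rw [hquot]
    apply one_add_mul_self_le_rpow_one_add _ hs
    rw [neg_div, neg_le_neg_iff, div_le_one hb0]
    linarith
  have hle1 : (a / b) ^ s ≤ 1 := by
    apply Real.rpow_le_one (by positivity) _ (by linarith)
    rw [div_le_one hb0]
    linarith
  have hbs : b ^ (-s) = a ^ (-s) * (a / b) ^ s := by
    rw [Real.div_rpow ha.le hb0.le, Real.rpow_neg ha.le, Real.rpow_neg hb0.le]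
    field_simp
  have hpos : 0 < a ^ (-s) := Real.rpow_pos_of_pos ha _
  have h1 : a ^ (-s) - b ^ (-s) = a ^ (-s) * (1 - (a / b) ^ s) := by
    rw [hbs]
    ring
  have h2 : a ^ (-s) ≤ a⁻¹ := by
    rw [← Real.rpow_neg_one]
    exact Real.rpow_le_rpow_of_exponent_le ha1 (by linarith)
  have h3 : 1 - (a / b) ^ s ≤ 2 / a := by
    have h4 : s / b ≤ 2 / a := by
      apply div_le_div₀ (by norm_num) hs2 ha (by linarith)
    have h5 : 1 + s * (-1 / b) = 1 - s / b := by ring
    linarith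
  have h6 : 0 ≤ 1 - (a / b) ^ s := by linarith
  have h7 : ‖((a ^ (-s) - b ^ (-s) : ℝ) : ℂ)‖ ≤ 2 / a ^ 2 := by
    rw [Complex.norm_real, Real.norm_eq_abs, h1, abs_of_nonneg (mul_nonneg hpos.le h6)]
    calc a ^ (-s) * (1 - (a / b) ^ s) ≤ a⁻¹ * (2 / a) := by
          apply mul_le_mul h2 h3 h6 (by positivity)
      _ = 2 / a ^ 2 := by
          field_simp
  have h8 : ((a ^ (-s) - b ^ (-s) : ℝ) : ℂ) = ((a ^ (-s) : ℝ) : ℂ) - ((b ^ (-s) : ℝ) : ℂ) := by
    push_cast
    rfl
  rw [h8] at h7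
  exact h7

private noncomputable def anT (z : ℂ) (s : ℝ) : ℂ :=
  ∑' n, anS z (n + 1) * ((anC s n - anC s (n + 1) : ℝ) : ℂ)

private theorem anBound_summable (C : ℝ) :
    Summable (fun n : ℕ => C * (2 / ((n : ℝ) + 1) ^ 2)) := by
  have h := (summable_nat_add_iff 1).2 (Real.summable_one_div_nat_pow.2 one_lt_two)
  have h2 := (h.mul_left 2).mul_left C
  refine h2.congr fun n => ?_
  push_cast
  ring

private theorem anTerm_le {z : ℂ} (hz : ‖z‖ = 1) (hz1 : z ≠ 1) {s : ℝ} (hs : 1 ≤ s) (hs2 : s ≤ 2)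
    (n : ℕ) : ‖anS z (n + 1) * ((anC s n - anC s (n + 1) : ℝ) : ℂ)‖ ≤
      2 / ‖1 - z‖ * (2 / ((n : ℝ) + 1) ^ 2) := by
  rw [norm_mul]
  exact mul_le_mul (anS_le hz hz1 _) (anC_diff hs hs2 n) (norm_nonneg _) (by positivity)

private theorem anSum_tendsto {z : ℂ} (hz : ‖z‖ = 1) (hz1 : z ≠ 1) {s : ℝ} (hs : 1 ≤ s)
    (hs2 : s ≤ 2) : Tendsto (fun N : ℕ => ∑ n ∈ Finset.range N, z ^ (n + 1) * (anC s n : ℂ)) atTop
      (𝓝 (anT z s)) := by
  have h1 : Summable fun n => anS z (n + 1) * ((anC s n - anC s (n + 1) : ℝ) : ℂ) :=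
    Summable.of_norm_bounded (anBound_summable _) (anTerm_le hz hz1 hs hs2)
  have h2 := h1.hasSum.tendsto_sum_nat
  have h3 : Tendsto (fun N : ℕ => anS z N * (anC s N : ℂ)) atTop (𝓝 0) := by
    apply squeeze_zero_norm (a := fun N : ℕ => 2 / ‖1 - z‖ * anC s N)
    · intro N
      rw [norm_mul]
      apply mul_le_mul (anS_le hz hz1 _) _ (norm_nonneg _) (by positivity)
      rw [Complex.norm_real, Real.norm_eq_abs, abs_of_nonneg]
      unfold anC
      positivity
    · rw [← mul_zero (2 / ‖1 - z‖)]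
      apply Tendsto.const_mul
      unfold anC
      have h4 := tendsto_rpow_neg_atTop (y := s) (by linarith)
      have h5 : Tendsto (fun N : ℕ => (N : ℝ) + 1) atTop atTop :=
        tendsto_atTop_add_const_right _ _ tendsto_natCast_atTop_atTop
      exact h4.comp h5
  have h6 := h3.add h2
  rw [zero_add] at h6
  refine h6.congr fun N => ?_
  exact (anParts z (anC s) N).symm

private theorem anT_continuous {z : ℂ} (hz : ‖z‖ = 1) (hz1 : z ≠ 1) :
    Tendsto (anT z) (𝓝[>] 1) (𝓝 (anT z 1)) := by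
  unfold anT
  apply tendsto_tsum_of_dominated_convergence (anBound_summable (2 / ‖1 - z‖))
  · intro n
    apply Tendsto.const_mul
    have hc : ∀ m : ℕ, Continuous fun s : ℝ => anC s m := by
      intro m
      unfold anC
      exact continuous_const.rpow continuous_neg fun _ => Or.inl (by positivity)
    have h1 : Continuous fun s : ℝ => ((anC s n - anC s (n + 1) : ℝ) : ℂ) :=
      continuous_ofReal.comp ((hc n).sub (hc (n + 1)))
    exact h1.continuousAt.tendsto.mono_left nhdsWithin_le_nhds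
  · have h1 : ∀ᶠ s : ℝ in 𝓝[>] 1, s ∈ Set.Ioo (1 : ℝ) 2 := Ioo_mem_nhdsGT one_lt_two
    filter_upwards [h1] with s hs n
    exact anTerm_le hz hz1 hs.1.le hs.2.le n

theorem expZeta_one {x : ℝ} (hx : x ∈ Set.Ioo (0 : ℝ) 1) :
    HurwitzZeta.expZeta (x : UnitAddCircle) 1 = -log (1 - exp (2 * Real.pi * I * x)) := by
  set z : ℂ := exp (2 * Real.pi * I * x) with hzdef
  have hz : ‖z‖ = 1 := by
    have h : (2 * Real.pi * I * x : ℂ) = ((2 * Real.pi * x : ℝ) : ℂ) * I := by
      push_cast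
      ring
    rw [hzdef, h, Complex.norm_exp_ofReal_mul_I]
  have hz1 : z ≠ 1 := by
    intro h
    rw [hzdef, Complex.exp_eq_one_iff] at h
    obtain ⟨n, hn⟩ := h
    have hpi : (2 * Real.pi * I : ℂ) ≠ 0 := by
      simp [Real.pi_ne_zero]
    have h1 : (2 * Real.pi * I : ℂ) * x = (2 * Real.pi * I : ℂ) * n := by
      rw [hn]
      ring
    have h2 : (x : ℂ) = (n : ℂ) := mul_left_cancel₀ hpi h1
    have h3 : x = (n : ℝ) := by exact_mod_cast h2
    have h4 : (0 : ℝ) < (n : ℝ) := by rw [← h3]; exact hx.1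
    have h5 : (n : ℝ) < 1 := by rw [← h3]; exact hx.2
    have h6 : (0 : ℤ) < n := by exact_mod_cast h4
    have h7 : n < 1 := by exact_mod_cast h5
    omega
  have hpow : ∀ n : ℕ, exp (2 * Real.pi * I * x * (n : ℂ)) = z ^ n := by
    intro n
    rw [hzdef, ← Complex.exp_nat_mul]
    congr 1
    ring
  have hx0 : (x : UnitAddCircle) ≠ 0 := by
    intro h
    rw [AddCircle.coe_eq_zero_iff] at h
    obtain ⟨n, hn⟩ := h
    rw [zsmul_eq_mul, mul_one] at hn
    have h4 : (0 : ℝ) < (n : ℝ) := by rw [hn]; exact hx.1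
    have h5 : (n : ℝ) < 1 := by rw [hn]; exact hx.2
    have h6 : (0 : ℤ) < n := by exact_mod_cast h4
    have h7 : n < 1 := by exact_mod_cast h5
    omega
  -- the value for `s > 1`
  have hB : ∀ s : ℝ, 1 < s → s ≤ 2 → HurwitzZeta.expZeta (x : UnitAddCircle) (s : ℂ) = anT z s := by
    intro s hs hs2
    have h1 := (HurwitzZeta.hasSum_expZeta_of_one_lt_re x (s := (s : ℂ))
      (by rw [Complex.ofReal_re]; exact hs)).tendsto_sum_nat
    have h2 := (tendsto_add_atTop_iff_nat 1).2 h1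
    refine tendsto_nhds_unique h2 ((anSum_tendsto hz hz1 hs.le hs2).congr fun N => ?_)
    rw [Finset.sum_range_succ']
    have h0 : exp (2 * Real.pi * I * x * ((0 : ℕ) : ℂ)) / ((0 : ℕ) : ℂ) ^ (s : ℂ) = 0 := by
      rw [Nat.cast_zero, Complex.zero_cpow, div_zero]
      exact_mod_cast (by linarith : s ≠ 0)
    rw [h0, add_zero]
    refine Finset.sum_congr rfl fun n _ => ?_
    rw [hpow]
    unfold anC
    have h3 : (((n + 1 : ℕ) : ℂ)) ^ (s : ℂ) = ((((n : ℝ) + 1) ^ s : ℝ) : ℂ) := by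
      rw [Complex.ofReal_cpow (by positivity)]
      push_cast
      rfl
    rw [h3, Real.rpow_neg (by positivity), Complex.ofReal_inv, div_eq_mul_inv]
  -- the value at `s = 1`
  have hD : HurwitzZeta.expZeta (x : UnitAddCircle) 1 = anT z 1 := by
    have h1 : Tendsto (fun s : ℝ => HurwitzZeta.expZeta (x : UnitAddCircle) (s : ℂ)) (𝓝[>] 1)
        (𝓝 (HurwitzZeta.expZeta (x : UnitAddCircle) 1)) := by
      have h2 : Continuous fun s : ℝ => HurwitzZeta.expZeta (x : UnitAddCircle) (s : ℂ) :=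
        (HurwitzZeta.differentiable_expZeta_of_ne_zero hx0).continuous.comp continuous_ofReal
      have h3 := h2.continuousAt (x := 1) |>.tendsto
      rw [Complex.ofReal_one] at h3
      exact h3.mono_left nhdsWithin_le_nhds
    refine tendsto_nhds_unique h1 ((anT_continuous hz hz1).congr' ?_)
    have h4 : ∀ᶠ s : ℝ in 𝓝[>] 1, s ∈ Set.Ioo (1 : ℝ) 2 := Ioo_mem_nhdsGT one_lt_two
    filter_upwards [h4] with s hs
    exact (hB s hs.1 hs.2.le).symm
  rw [hD]
  -- Abel's theorem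
  have hE : Tendsto (fun N : ℕ => ∑ n ∈ Finset.range N, z ^ n / (n : ℂ)) atTop
      (𝓝 (anT z 1)) := by
    rw [← tendsto_add_atTop_iff_nat 1]
    refine (anSum_tendsto hz hz1 le_rfl one_le_two).congr fun N => ?_
    rw [Finset.sum_range_succ', Nat.cast_zero, div_zero, add_zero]
    refine Finset.sum_congr rfl fun n _ => ?_
    unfold anC
    rw [Real.rpow_neg_one, div_eq_mul_inv]
    push_cast
    rfl
  have hF := Complex.tendsto_tsum_powerSeries_nhdsWithin_lt hE
  rw [tendsto_map'_iff] at hF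
  refine tendsto_nhds_unique hF ?_
  have hslit : 1 - z ∈ slitPlane := by
    left
    rw [sub_re, one_re, sub_pos]
    rcases (Complex.re_le_norm z).lt_or_eq with h | h
    · rwa [hz] at h
    · exfalso
      rw [hz] at h
      apply hz1
      have h2 : z.re ^ 2 + z.im ^ 2 = 1 := by
        have h3 := Complex.sq_norm z
        rw [hz, Complex.normSq_apply] at h3
        nlinarith
      rw [h] at h2
      have h4 : z.im = 0 := by nlinarith [sq_nonneg z.im]
      exact Complex.ext (by rw [h, one_re]) (by rw [h4, one_im])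
  have hG : Tendsto (fun r : ℝ => -log (1 - z * (r : ℂ))) (𝓝[<] 1) (𝓝 (-log (1 - z))) := by
    have h1 : ContinuousAt (fun r : ℝ => -log (1 - z * (r : ℂ))) 1 := by
      apply ContinuousAt.neg
      apply ContinuousAt.clog
      · fun_prop
      · rw [ofReal_one, mul_one]
        exact hslit
    have h2 := h1.tendsto
    rw [ofReal_one, mul_one] at h2
    exact h2.mono_left nhdsWithin_le_nhds
  refine hG.congr' ?_
  have h5 : ∀ᶠ r : ℝ in 𝓝[<] 1, r ∈ Set.Ioo (0 : ℝ) 1 := Ioo_mem_nhdsLT one_pos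
  filter_upwards [h5] with r hr
  have h6 : ‖z * (r : ℂ)‖ < 1 := by
    rw [norm_mul, hz, one_mul, Complex.norm_real, Real.norm_eq_abs, abs_of_pos hr.1]
    exact hr.2
  have h7 := (Complex.hasSum_taylorSeries_neg_log h6).tsum_eq
  rw [← h7]
  simp only [Function.comp_apply]
  refine tsum_congr fun n => ?_
  rw [mul_pow]
  ring

end Pool.Agent.StarkRQ
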