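import Pool.Agent.StarkRQ.AnExp
import Pool.Agent.StarkRQ.CycDefs

/-!
# Values and derivatives at `0` of the partial zeta functions `∑_{m ≡ a mod f} m^{-s}`

Notation: `ZMod.LFunction (Pi.single a 1) s` is the continuation of `∑_{m ≡ a mod f} m^{-s}`.
By definition `ZMod.LFunction Φ s = f ^ (-s) * ∑ j, Φ j * hurwitzZeta (ZMod.toAddCircle j) s`.
* `hurwitzZeta = hurwitzZetaEven + hurwitzZetaOdd`, `hurwitzZetaEven x 0 = 0` for `x ≠ 0`
  (`hurwitzZetaEven_apply_zero`), and `hurwitzZetaOdd x 0 = sinZeta x 1 / π = 1/2 - x` by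
  `hurwitzZetaOdd_one_sub` at `s = 1` and `expZeta = cosZeta + I sinZeta`, `expZeta_one`:
  the imaginary part of `-log (1 - e^{2πix})` is `π (1/2 - x)`. (`cosZeta x 1` and `sinZeta x 1`
  are real: take limits from `s > 1` real, or use that `cosZeta` is even and `sinZeta` odd in `x`
  and compare `expZeta_one` for `x` and `1 - x`.)
* the derivative at `0` of `hurwitzZetaEven x` is `cosZeta x 1 / 2 = -log |1 - e^{2πix}| / 2`:
  `hurwitzZetaEven_one_sub` says
  `hurwitzZetaEven a (1 - s) = 2 (2π)^{-s} Γ(s) cos(π s / 2) cosZeta a s`; the right-hand side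
  vanishes at `s = 1` and has the derivative `- cosZeta a 1 / 2` there.
* `hurwitzZeta x + hurwitzZeta (-x) = 2 hurwitzZetaEven x`.
-/

open Complex

namespace Pool.Agent.StarkRQ

/-- `1 - e^{2πix} = 2 sin(πx) e^{iπ(x - 1/2)}`, and its logarithm -/
private theorem anLog {x : ℝ} (hx : x ∈ Set.Ioo (0 : ℝ) 1) :
    log (1 - exp (2 * Real.pi * I * x)) =
      (Real.log ‖1 - exp (2 * Real.pi * I * x)‖ : ℝ) + (Real.pi * (x - 1 / 2) : ℝ) * I := by
  have hs : 0 < Real.sin (Real.pi * x) :=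
    Real.sin_pos_of_pos_of_lt_pi (mul_pos Real.pi_pos hx.1)
      (by nlinarith [Real.pi_pos, hx.2])
  have key : 1 - exp (2 * Real.pi * I * x) =
      ((2 * Real.sin (Real.pi * x) : ℝ) : ℂ) * exp ((Real.pi * (x - 1 / 2) : ℝ) * I) := by
    have e1 : exp ((Real.pi * (x - 1 / 2) : ℝ) * I) = exp (Real.pi * x * I) * (-I) := by
      have : ((Real.pi * (x - 1 / 2) : ℝ) : ℂ) * I =
          Real.pi * x * I + -(Real.pi / 2 * I) := by
        push_cast; ring
      rw [this, exp_add, exp_neg, exp_pi_div_two_mul_I, inv_I]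
    have e2 : exp (2 * Real.pi * I * x) = exp (Real.pi * x * I) * exp (Real.pi * x * I) := by
      rw [← exp_add]; congr 1; ring
    have e3 : exp (Real.pi * x * I) * exp (-(Real.pi * x * I)) = 1 := by
      rw [← exp_add]; simp
    have e4 : ((Real.sin (Real.pi * x) : ℝ) : ℂ) =
        (exp (-(Real.pi * x * I)) - exp (Real.pi * x * I)) * I / 2 := by
      rw [ofReal_sin, Complex.sin]
      push_cast
      congr 3
      congr 1
      ring
    rw [e1, e2, ofReal_mul, e4]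
    have : ((2 : ℝ) : ℂ) * ((exp (-(Real.pi * x * I)) - exp (Real.pi * x * I)) * I / 2) *
        (exp (Real.pi * x * I) * (-I)) = -(I * I) *
        (exp (Real.pi * x * I) * exp (-(Real.pi * x * I)) -
          exp (Real.pi * x * I) * exp (Real.pi * x * I)) := by
      push_cast; ring
    rw [this, I_mul_I, e3]
    ring
  have hn : ‖1 - exp (2 * Real.pi * I * x)‖ = 2 * Real.sin (Real.pi * x) := by
    rw [key, norm_mul, norm_exp_ofReal_mul_I, mul_one, norm_real, Real.norm_eq_abs,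
      abs_of_pos (by positivity)]
  have harg : arg (1 - exp (2 * Real.pi * I * x)) = Real.pi * (x - 1 / 2) := by
    rw [key, arg_real_mul _ (by positivity), arg_exp_mul_I]
    exact (toIocMod_eq_self _).2 ⟨by nlinarith [Real.pi_pos, hx.1, hx.2],
      by nlinarith [Real.pi_pos, hx.1, hx.2]⟩
  rw [Complex.log, harg]

private theorem anExpNeg {x : ℝ} (hx : x ∈ Set.Ioo (0 : ℝ) 1) :
    HurwitzZeta.expZeta (-(x : UnitAddCircle)) 1 =
      -((Real.log ‖1 - exp (2 * Real.pi * I * x)‖ : ℝ) - (Real.pi * (x - 1 / 2) : ℝ) * I) := by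
  have h1 : -(x : UnitAddCircle) = ((1 - x : ℝ) : UnitAddCircle) := by
    rw [AddCircle.coe_sub]
    have : ((1 : ℝ) : UnitAddCircle) = 0 := AddCircle.coe_period 1
    rw [this, zero_sub]
  have hx' : 1 - x ∈ Set.Ioo (0 : ℝ) 1 := ⟨by linarith [hx.2], by linarith [hx.1]⟩
  rw [h1, expZeta_one hx', anLog hx']
  have h2 : ‖1 - exp (2 * Real.pi * I * ((1 - x : ℝ) : ℂ))‖ = ‖1 - exp (2 * Real.pi * I * x)‖ := by
    have h3 : 1 - exp (2 * Real.pi * I * ((1 - x : ℝ) : ℂ)) =
        starRingEnd ℂ (1 - exp (2 * Real.pi * I * x)) := by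
      rw [map_sub, map_one, ← exp_conj]
      have : 2 * Real.pi * I * ((1 - x : ℝ) : ℂ) =
          starRingEnd ℂ (2 * Real.pi * I * x) + 2 * Real.pi * I := by
        simp only [map_mul, conj_I, conj_ofReal, map_ofNat]
        push_cast
        ring
      rw [this, exp_add, exp_two_pi_mul_I, mul_one]
    rw [h3, RCLike.norm_conj]
  rw [h2]
  push_cast
  ring

private theorem anSin {x : ℝ} (hx : x ∈ Set.Ioo (0 : ℝ) 1) :
    HurwitzZeta.sinZeta (x : UnitAddCircle) 1 = (Real.pi * (1 / 2 - x) : ℝ) := by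
  rw [HurwitzZeta.sinZeta_eq, anExpNeg hx, expZeta_one hx, anLog hx]
  have : (2 : ℂ) * I ≠ 0 := mul_ne_zero two_ne_zero I_ne_zero
  rw [div_eq_iff this]
  push_cast
  ring

private theorem anCos {x : ℝ} (hx : x ∈ Set.Ioo (0 : ℝ) 1) :
    HurwitzZeta.cosZeta (x : UnitAddCircle) 1 =
      -(Real.log ‖1 - exp (2 * Real.pi * I * x)‖ : ℝ) := by
  rw [HurwitzZeta.cosZeta_eq, anExpNeg hx, expZeta_one hx, anLog hx]
  ring

private theorem anNe {n : ℕ} : (1 : ℂ) ≠ -n := by
  intro h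
  have h2 : ((1 + n : ℕ) : ℂ) = 0 := by
    push_cast
    rw [h]
    ring
  have : 1 + n = 0 := by exact_mod_cast h2
  omega

private theorem anOdd {x : ℝ} (hx : x ∈ Set.Ioo (0 : ℝ) 1) :
    HurwitzZeta.hurwitzZetaOdd (x : UnitAddCircle) 0 = ((1 / 2 - x : ℝ) : ℂ) := by
  have h := HurwitzZeta.hurwitzZetaOdd_one_sub (x : UnitAddCircle) (s := 1) (fun n => anNe)
  rw [sub_self, anSin hx, mul_one, sin_pi_div_two, Complex.Gamma_one, cpow_neg_one] at h
  rw [h]
  have hpi : (Real.pi : ℂ) ≠ 0 := by exact_mod_cast Real.pi_ne_zero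
  push_cast
  field_simp

private theorem anNeZero {x : ℝ} (hx : x ∈ Set.Ioo (0 : ℝ) 1) : (x : UnitAddCircle) ≠ 0 := by
  intro h
  rw [AddCircle.coe_eq_zero_iff] at h
  obtain ⟨n, hn⟩ := h
  rw [zsmul_eq_mul, mul_one] at hn
  have h1 : (0 : ℝ) < n := by rw [hn]; exact hx.1
  have h2 : (n : ℝ) < 1 := by rw [hn]; exact hx.2
  have h3 : 0 < n := by exact_mod_cast h1
  have h4 : n < 1 := by exact_mod_cast h2
  omega

private theorem anEvenDeriv {x : ℝ} (hx : x ∈ Set.Ioo (0 : ℝ) 1) :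
    HasDerivAt (HurwitzZeta.hurwitzZetaEven (x : UnitAddCircle))
      (-(Real.log ‖1 - exp (2 * Real.pi * I * x)‖ : ℝ) / 2) 0 := by
  set Z := HurwitzZeta.hurwitzZetaEven (x : UnitAddCircle) with hZ
  have hd : DifferentiableAt ℂ Z 0 := HurwitzZeta.differentiableAt_hurwitzZetaEven _ zero_ne_one
  have hcos : DifferentiableAt ℂ (HurwitzZeta.cosZeta (x : UnitAddCircle)) 1 :=
    HurwitzZeta.differentiable_cosZeta_of_ne_zero (anNeZero hx) 1
  have hpi : (Real.pi : ℂ) ≠ 0 := by exact_mod_cast Real.pi_ne_zero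
  set G : ℂ → ℂ := fun s => 2 * (2 * Real.pi) ^ (-s) * Gamma s with hG
  have hGd : DifferentiableAt ℂ G 1 := by
    have h1 : DifferentiableAt ℂ (fun s : ℂ => (2 * Real.pi : ℂ) ^ (-s)) 1 :=
      DifferentiableAt.const_cpow (by fun_prop) (Or.inl (mul_ne_zero two_ne_zero hpi))
    have h2 : DifferentiableAt ℂ Gamma 1 := differentiableAt_Gamma _ (fun n => anNe)
    exact (h1.const_mul 2).mul h2
  have hcosd : HasDerivAt (fun s : ℂ => cos (Real.pi * s / 2)) (-(Real.pi / 2)) 1 := by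
    have h1 : HasDerivAt (fun s : ℂ => (Real.pi : ℂ) * s / 2) (Real.pi / 2) 1 := by
      simpa using ((hasDerivAt_id (1 : ℂ)).const_mul (Real.pi : ℂ)).div_const 2
    have h2 := h1.ccos
    rw [mul_one, sin_pi_div_two] at h2
    simpa using h2
  have hprod := (hGd.hasDerivAt.mul hcosd).mul hcos.hasDerivAt
  have hev : (fun s => Z (1 - s)) =ᶠ[nhds 1]
      (G * (fun s : ℂ => cos (Real.pi * s / 2))) * HurwitzZeta.cosZeta (x : UnitAddCircle) := by
    have hre : {s : ℂ | 0 < s.re} ∈ nhds (1 : ℂ) :=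
      (isOpen_lt continuous_const continuous_re).mem_nhds (by simp)
    filter_upwards [hre] with s hs
    rw [hZ, HurwitzZeta.hurwitzZetaEven_one_sub _ ?_ (Or.inl (anNeZero hx))]
    · rfl
    · intro n h
      have hs' : 0 < s.re := hs
      rw [h, neg_re, natCast_re] at hs'
      linarith [hs', (Nat.cast_nonneg n : (0 : ℝ) ≤ n)]
  have h1 := hprod.congr_of_eventuallyEq hev
  have h2 : HasDerivAt (fun s => Z (1 - s)) (-(deriv Z 0)) 1 := by
    have h3 : HasDerivAt Z (deriv Z 0) (1 - (1 : ℂ)) := by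
      rw [sub_self]; exact hd.hasDerivAt
    have h4 : HasDerivAt (fun s : ℂ => 1 - s) (-1) 1 := by
      simpa using (hasDerivAt_id (1 : ℂ)).const_sub 1
    have := h3.comp (1 : ℂ) h4
    simpa using! this
  have h5 := h2.unique h1
  have h6 : deriv Z 0 = -(Real.log ‖1 - exp (2 * Real.pi * I * x)‖ : ℝ) / 2 := by
    have hG1 : G 1 = 1 / Real.pi := by
      simp only [hG]
      rw [cpow_neg_one, Complex.Gamma_one]
      field_simp
    have hc : (fun s : ℂ => cos (Real.pi * s / 2)) 1 = 0 := by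
      simp only [mul_one]
      exact cos_pi_div_two
    have hc' : cos ((Real.pi : ℂ) * 1 / 2) = 0 := hc
    have h7 : (G * fun s : ℂ => cos (Real.pi * s / 2)) 1 = 0 := by
      rw [Pi.mul_apply, hc', mul_zero]
    rw [hG1, hc', h7, anCos hx] at h5
    rw [← neg_neg (deriv Z 0), h5]
    field_simp
    ring
  rw [← h6]
  exact hd.hasDerivAt

private theorem anVal {f : ℕ} [NeZero f] {a : ZMod f} (ha : a ≠ 0) :
    ((a.val : ℝ) / f) ∈ Set.Ioo (0 : ℝ) 1 := by
  have hf : (0 : ℝ) < f := by exact_mod_cast NeZero.pos f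
  have h1 : 0 < a.val := ZMod.val_pos.2 ha
  exact ⟨div_pos (by exact_mod_cast h1) hf, (div_lt_one hf).2 (by exact_mod_cast ZMod.val_lt a)⟩

private theorem anL {f : ℕ} [NeZero f] (a : ZMod f) (s : ℂ) :
    ZMod.LFunction (Pi.single a 1 : ZMod f → ℂ) s =
      (f : ℂ) ^ (-s) * HurwitzZeta.hurwitzZeta (ZMod.toAddCircle a) s := by
  rw [ZMod.LFunction, Finset.sum_eq_single a]
  · simp
  · intro b _ hb
    rw [Pi.single_eq_of_ne hb, zero_mul]
  · intro h
    exact absurd (Finset.mem_univ a) h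

theorem LFunction_single_zero {f : ℕ} [NeZero f] {a : ZMod f} (ha : a ≠ 0) :
    ZMod.LFunction (Pi.single a 1 : ZMod f → ℂ) 0 = (hh f a : ℂ) := by
  rw [anL, neg_zero, cpow_zero, one_mul, ZMod.toAddCircle_apply, HurwitzZeta.hurwitzZeta,
    HurwitzZeta.hurwitzZetaEven_apply_zero, if_neg (anNeZero (anVal ha)), zero_add,
    anOdd (anVal ha)]
  rfl

theorem deriv_LFunction_single {f : ℕ} [NeZero f] {a : ZMod f} (ha : a ≠ 0) :
    deriv (ZMod.LFunction (Pi.single a 1 : ZMod f → ℂ)) 0 +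
      deriv (ZMod.LFunction (Pi.single (-a) 1 : ZMod f → ℂ)) 0 = ((-ell f a : ℝ) : ℂ) := by
  have hf : (f : ℂ) ≠ 0 := by exact_mod_cast NeZero.ne f
  have hx := anVal ha
  have hd : ∀ b : ZMod f, DifferentiableAt ℂ (ZMod.LFunction (Pi.single b 1 : ZMod f → ℂ)) 0 :=
    fun b => ZMod.differentiableAt_LFunction _ _ (Or.inl zero_ne_one)
  have hsum : (fun s => ZMod.LFunction (Pi.single a 1 : ZMod f → ℂ) s +
      ZMod.LFunction (Pi.single (-a) 1 : ZMod f → ℂ) s) =
      fun s => (f : ℂ) ^ (-s) *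
        (2 * HurwitzZeta.hurwitzZetaEven ((((a.val : ℝ) / f : ℝ)) : UnitAddCircle) s) := by
    funext s
    rw [anL, anL, map_neg, ZMod.toAddCircle_apply, HurwitzZeta.hurwitzZetaEven_eq]
    ring
  have h1 := (hd a).hasDerivAt.add (hd (-a)).hasDerivAt
  have h2 : HasDerivAt (fun s : ℂ => (f : ℂ) ^ (-s)) (deriv (fun s : ℂ => (f : ℂ) ^ (-s)) 0) 0 :=
    (DifferentiableAt.const_cpow (by fun_prop) (Or.inl hf)).hasDerivAt
  have h3 := h2.mul ((anEvenDeriv hx).const_mul 2)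
  have h4 : HasDerivAt (fun s => ZMod.LFunction (Pi.single a 1 : ZMod f → ℂ) s +
      ZMod.LFunction (Pi.single (-a) 1 : ZMod f → ℂ) s) _ 0 := h1
  rw [hsum] at h4
  rw [h4.unique h3, HurwitzZeta.hurwitzZetaEven_apply_zero, if_neg (anNeZero hx), ell]
  simp only [neg_zero, cpow_zero, mul_zero, one_mul, zero_add]
  push_cast
  ring

end Pool.Agent.StarkRQ
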