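import Pool.Agent.StarkRQ.Root

/-!
# The number of roots of unity of `M`

Let `ω ∈ M` be a primitive root of unity of order `w = torsionOrder M` (`exists_primRoot` in
`Root.lean`). `z ω = ω`, and every `g ∈ Gal(M/ℚ)` fixing `ζ` is `1` or `z`, so `g ω = ω`, and
`ω ∈ ℚ(ζ)` by Galois theory. So `φ w = [ℚ(ω) : ℚ] ≤ [ℚ(ζ) : ℚ] = φ f` and `f ∣ w`
(`Units.dvd_torsionOrder_of_isPrimitiveRoot`), hence `φ w = φ f`, and `w = f` or `w = 2 f`
(`Nat.eq_or_eq_of_totient_eq_totient` or similar); `w` is even (`-1 ∈ M`).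
-/

open NumberField Module

namespace Pool.Agent.StarkRQ

private theorem Torsion_finrank {M : Type} [Field M] [NumberField M] {n : ℕ} (hn : 0 < n) {ζ : M}
    (hζ : IsPrimitiveRoot ζ n) :
    Module.finrank ℚ (IntermediateField.adjoin ℚ {ζ}) = Nat.totient n := by
  rw [IntermediateField.adjoin.finrank (Algebra.IsIntegral.isIntegral ζ),
    ← Polynomial.cyclotomic_eq_minpoly_rat hζ hn, Polynomial.natDegree_cyclotomic]

theorem torsionOrder_eq {M : Type} [Field M] [NumberField M] [IsGalois ℚ M] {f : ℕ} [NeZero f]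
    (hf : 2 < f) (hf4 : f % 4 ≠ 2) {ζ : M} (hζ : IsPrimitiveRoot ζ f)
    {z : Gal(M/ℚ)} (hfix : ∀ g : Gal(M/ℚ), g ζ = ζ → g = 1 ∨ g = z)
    (hzroot : ∀ ξ : M, ∀ m : ℕ, 0 < m → ξ ^ m = 1 → z ξ = ξ) :
    (4 ∣ f ∧ Units.torsionOrder M = f) ∨ (Odd f ∧ Units.torsionOrder M = 2 * f) := by
  have hf0 : 0 < f := by omega
  obtain ⟨ω, hω⟩ := exists_primRoot M
  have hw0 : 0 < Units.torsionOrder M := Units.torsionOrder_pos M
  have hdvd : f ∣ Units.torsionOrder M := Units.dvd_torsionOrder_of_isPrimitiveRoot hζ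
  -- `ω` lies in `ℚ(ζ)`
  have hmem : ω ∈ IntermediateField.adjoin ℚ {ζ} := by
    rw [← IsGalois.fixedField_fixingSubgroup (IntermediateField.adjoin ℚ {ζ})]
    rintro ⟨g, hg⟩
    have hgζ : g ζ = ζ :=
      (IntermediateField.mem_fixingSubgroup_iff _ g).1 hg ζ
        (IntermediateField.mem_adjoin_simple_self ℚ ζ)
    show g ω = ω
    rcases hfix g hgζ with h | h
    · rw [h]
      rfl
    · rw [h]
      exact hzroot ω _ hw0 hω.pow_eq_one
  have hle : IntermediateField.adjoin ℚ {ω} ≤ IntermediateField.adjoin ℚ {ζ} :=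
    IntermediateField.adjoin_simple_le_iff.2 hmem
  have hfr : Nat.totient (Units.torsionOrder M) ≤ Nat.totient f := by
    rw [← Torsion_finrank hw0 hω, ← Torsion_finrank hf0 hζ]
    exact IntermediateField.finrank_le_of_le_right hle
  have hfr' : Nat.totient f ≤ Nat.totient (Units.torsionOrder M) :=
    Nat.le_of_dvd (Nat.totient_pos.2 hw0) (Nat.totient_dvd_of_dvd hdvd)
  have heq : Nat.totient f = Nat.totient (Units.torsionOrder M) := le_antisymm hfr' hfr
  have heven : Even (Units.torsionOrder M) := Units.even_torsionOrder M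
  rcases Nat.eq_or_eq_of_totient_eq_totient hdvd heq with h | h
  · left
    refine ⟨?_, h.symm⟩
    rw [← h] at heven
    obtain ⟨k, hk⟩ := heven
    omega
  · right
    refine ⟨?_, h.symm⟩
    by_contra hodd
    rw [Nat.not_odd_iff_even] at hodd
    have h1 := Nat.totient_two_mul_of_even hodd
    rw [h, ← heq] at h1
    have h2 : 0 < Nat.totient f := Nat.totient_pos.2 hf0
    omega

end Pool.Agent.StarkRQ
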