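import Pool.Agent.StarkRQ.CycDefs
import Pool.Agent.StarkRQ.Torsion
import Pool.Agent.StarkRQ.Galois

/-!
# `θ` is a root of unity times the square of an element of `ℚ(ζ_f)`

Let `w` be the number of roots of unity of `M`; `torsionOrder_eq` gives `w = f`, `4 ∣ f` or `w = 2 f`,
`f` odd. So the integers `m a = w/2 - (w/f) a.val` (`= w * hh f a`), `a` a unit modulo `f`, are odd.
Pairing `a` with `-a` (`κ` odd, `hh` odd, `ell` even), the right-hand side of `hlog` is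
`∑_{κ a = 1} m a * ell (χ g a⁻¹) = log |ι (g E)|`, `E = ∏_{κ a = 1} (1 - ζ^{a⁻¹})^{m a}`.
`E` is a unit of the integers of `M`, as `f` is not a prime power
(`∏_a (1 - ζ^a) = Φ_f(1) = 1`, `Polynomial.eval_one_cyclotomic_not_prime_pow`).
So `θ / E` is an algebraic integer with absolute value `1` at all embeddings (every embedding is
`ι ∘ g`, `exists_comp` in `Galois.lean`), hence a root of unity
(`NumberField.Embeddings.pow_eq_one_of_norm_eq_one`).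
In the same way `P = ∏_{κ a = 1} (1 - ζ^{a⁻¹})` is a root of unity: its absolute value squared is
`|Φ_f(1)| = 1` at every embedding. Then `E = P * b ^ 2`, `b = ∏_{κ a = 1} (1 - ζ^{a⁻¹})^{(m a - 1)/2}`,
and `z b = b` as `z ζ = ζ`.
-/

open NumberField Module

namespace Pool.Agent.StarkRQ

section
variable {f : ℕ} [NeZero f]

private lemma csq_prod {M : Type*} [Field M] (hf : 2 < f) (hpp : ¬ IsPrimePow f) {ζ : M}
    (hζ : IsPrimitiveRoot ζ f) : ∏ a : (ZMod f)ˣ, (1 - ζ ^ (a : ZMod f).val) = 1 := by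
  have h1 : Polynomial.eval 1 (Polynomial.cyclotomic f M) = 1 := by
    refine Polynomial.eval_one_cyclotomic_not_prime_pow ?_
    intro p hp k hk
    rcases Nat.eq_zero_or_pos k with rfl | hk0
    · rw [pow_zero] at hk
      omega
    · exact hpp ((isPrimePow_nat_iff _).2 ⟨p, k, hp, hk0, hk⟩)
  rw [Polynomial.cyclotomic_eq_prod_X_sub_primitiveRoots hζ, Polynomial.eval_prod] at h1
  refine Eq.trans ?_ h1
  refine Finset.prod_bij (fun a _ => ζ ^ (a : ZMod f).val) ?_ ?_ ?_ ?_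
  · intro a _
    rw [mem_primitiveRoots (by omega)]
    exact hζ.pow_of_coprime _ (ZMod.val_coe_unit_coprime a)
  · intro a _ b _ hab
    have h2 := hζ.pow_inj (ZMod.val_lt _) (ZMod.val_lt _) hab
    exact Units.ext (ZMod.val_injective f h2)
  · intro μ hμ
    rw [mem_primitiveRoots (by omega), hζ.isPrimitiveRoot_iff] at hμ
    obtain ⟨i, hi, hc, rfl⟩ := hμ
    refine ⟨ZMod.unitOfCoprime i hc, Finset.mem_univ _, ?_⟩
    rw [ZMod.coe_unitOfCoprime, ZMod.val_natCast, Nat.mod_eq_of_lt hi]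
  · intro a _
    simp

private lemma csq_integral {M : Type*} [Field M] (hf : 2 < f) (hpp : ¬ IsPrimePow f) {ζ : M}
    (hζ : IsPrimitiveRoot ζ f) (a : (ZMod f)ˣ) :
    IsIntegral ℤ (1 - ζ ^ (a : ZMod f).val) ∧ IsIntegral ℤ (1 - ζ ^ (a : ZMod f).val)⁻¹ ∧
      1 - ζ ^ (a : ZMod f).val ≠ 0 := by
  classical
  have hi : ∀ b : (ZMod f)ˣ, IsIntegral ℤ (1 - ζ ^ (b : ZMod f).val) := fun b =>
    isIntegral_one.sub ((hζ.isIntegral (by omega)).pow _)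
  have h1 := csq_prod hf hpp hζ
  rw [← Finset.mul_prod_erase Finset.univ _ (Finset.mem_univ a)] at h1
  have h2 : (1 - ζ ^ (a : ZMod f).val)⁻¹ =
      ∏ x ∈ Finset.univ.erase a, (1 - ζ ^ (x : ZMod f).val) := inv_eq_of_mul_eq_one_right h1
  refine ⟨hi a, ?_, left_ne_zero_of_mul_eq_one h1⟩
  rw [h2]
  exact IsIntegral.prod _ fun b _ => hi b

omit [NeZero f] in
private lemma csq_inv_neg (a : (ZMod f)ˣ) : (-a)⁻¹ = -a⁻¹ := by
  refine inv_eq_of_mul_eq_one_right ?_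
  rw [neg_mul_neg, mul_inv_cancel]

/-- sum over half of the units -/
private lemma csq_half (κ : DirichletCharacter ℤ f) (hodd : κ (-1) = -1) (G : (ZMod f)ˣ → ℝ)
    (hG : ∀ a, G (-a) = G a) :
    ∑ a : (ZMod f)ˣ, G a = 2 * ∑ a ∈ Finset.univ.filter fun a : (ZMod f)ˣ => κ (a : ZMod f) = 1,
      G a := by
  classical
  have hk : ∀ a : (ZMod f)ˣ, κ (a : ZMod f) = 1 ∨ κ (a : ZMod f) = -1 := fun a =>
    Int.isUnit_iff.1 (a.isUnit.map κ)
  have hneg : ∀ a : (ZMod f)ˣ, κ ((-a : (ZMod f)ˣ) : ZMod f) = - κ (a : ZMod f) := by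
    intro a
    rw [Units.val_neg, ← neg_one_mul, map_mul, hodd]
    ring
  rw [← Finset.sum_filter_add_sum_filter_not Finset.univ
    (fun a : (ZMod f)ˣ => κ (a : ZMod f) = 1) G, two_mul]
  congr 1
  refine Finset.sum_bij (fun a _ => -a) ?_ ?_ ?_ ?_
  · intro a ha
    rw [Finset.mem_filter] at ha ⊢
    refine ⟨Finset.mem_univ _, ?_⟩
    rw [hneg, (hk a).resolve_left ha.2]
    norm_num
  · intro a _ b _ hab
    exact neg_injective hab
  · intro b hb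
    rw [Finset.mem_filter] at hb
    refine ⟨-b, ?_, neg_neg b⟩
    rw [Finset.mem_filter]
    refine ⟨Finset.mem_univ _, ?_⟩
    rw [hneg, hb.2]
    norm_num
  · intro a _
    exact (hG a).symm

/-- the odd integers `w * hh f a` -/
private lemma csq_odd {w : ℕ} (hw : (4 ∣ f ∧ w = f) ∨ (Odd f ∧ w = 2 * f)) (a : (ZMod f)ˣ) :
    ∃ k : ℤ, (2 * k + 1 : ℝ) = w * hh f (a : ZMod f) := by
  have hf0 : (f : ℝ) ≠ 0 := by exact_mod_cast NeZero.ne f
  rcases hw with ⟨⟨t, ht⟩, rfl⟩ | ⟨⟨t, ht⟩, rfl⟩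
  · have hc := ZMod.val_coe_unit_coprime a
    have h2 : ¬ 2 ∣ (a : ZMod w).val := by
      intro h2
      have h3 : 2 ∣ Nat.gcd (a : ZMod w).val w := Nat.dvd_gcd h2 ⟨2 * t, by omega⟩
      rw [hc] at h3
      omega
    obtain ⟨s, hs⟩ : ∃ s, (a : ZMod w).val = 2 * s + 1 :=
      ⟨(a : ZMod w).val / 2, by omega⟩
    refine ⟨t - s - 1, ?_⟩
    unfold hh
    rw [mul_sub, mul_div_cancel₀ _ hf0, hs]
    have h4 : (w : ℝ) = 4 * t := by exact_mod_cast ht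
    rw [h4]
    push_cast
    ring
  · refine ⟨t - (a : ZMod f).val, ?_⟩
    unfold hh
    push_cast
    have h5 : 2 * (f : ℝ) * (1 / 2 - ((a : ZMod f).val : ℝ) / f) =
        f - 2 * ((a : ZMod f).val : ℝ) := by
      field_simp
    rw [h5]
    have h4 : (f : ℝ) = 2 * t + 1 := by exact_mod_cast ht
    rw [h4]
    ring

private lemma csq_embed {M : Type} [Field M] [NumberField M] [IsGalois ℚ M] {ζ : M}
    (hζ : IsPrimitiveRoot ζ f) {ι : M →+* ℂ}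
    (hιζ : ι ζ = Complex.exp (2 * Real.pi * Complex.I / f)) (g : Gal(M/ℚ)) (b : (ZMod f)ˣ) :
    ι (g (1 - ζ ^ (b : ZMod f).val)) = 1 - Complex.exp (2 * Real.pi * Complex.I *
      (((((hζ.autToPow ℚ g * b : (ZMod f)ˣ) : ZMod f).val : ℕ) : ℂ) / f)) := by
  have h1 : g ζ = ζ ^ (hζ.autToPow ℚ g : ZMod f).val := (hζ.autToPow_spec ℚ g).symm
  have h2 : g (ζ ^ (b : ZMod f).val) = ζ ^ ((hζ.autToPow ℚ g * b : (ZMod f)ˣ) : ZMod f).val := by
    rw [map_pow, h1, ← pow_mul, Units.val_mul, ZMod.val_mul]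
    exact (pow_eq_pow_mod _ hζ.pow_eq_one)
  rw [map_sub, map_one, h2, map_sub, map_one, map_pow, hιζ, ← Complex.exp_nat_mul]
  congr 2
  ring

end

theorem theta_square {M : Type} [Field M] [NumberField M] [IsGalois ℚ M] {f : ℕ} [NeZero f]
    (hf : 2 < f) (hf4 : f % 4 ≠ 2) (hpp : ¬ IsPrimePow f) {ζ : M} (hζ : IsPrimitiveRoot ζ f)
    {z : Gal(M/ℚ)} (hzζ : z ζ = ζ) (hfix : ∀ g : Gal(M/ℚ), g ζ = ζ → g = 1 ∨ g = z)
    (hzroot : ∀ ξ : M, ∀ m : ℕ, 0 < m → ξ ^ m = 1 → z ξ = ξ)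
    (κ : DirichletCharacter ℤ f) (hodd : κ (-1) = -1) {ι : M →+* ℂ}
    (hιζ : ι ζ = Complex.exp (2 * Real.pi * Complex.I / f))
    {θ : M} (hθ : IsIntegral ℤ θ) (hθ' : IsIntegral ℤ θ⁻¹) (hθ0 : θ ≠ 0)
    (hlog : ∀ g : Gal(M/ℚ), Real.log ‖ι (g θ)‖ = (Units.torsionOrder M : ℝ) / 2 *
      ∑ a : (ZMod f)ˣ, (κ (a : ZMod f) : ℝ) * hh f (a : ZMod f) *
        ell f ((hζ.autToPow ℚ g * a⁻¹ : (ZMod f)ˣ) : ZMod f)) :
    ∃ b ρ : M, z b = b ∧ b ≠ 0 ∧ (∃ m : ℕ, 0 < m ∧ ρ ^ m = 1) ∧ θ = ρ * b ^ 2 := by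
  classical
  have hw := torsionOrder_eq hf hf4 hζ hfix hzroot
  choose k hk using fun a : (ZMod f)ˣ => csq_odd hw a
  set S : Finset (ZMod f)ˣ := Finset.univ.filter fun a : (ZMod f)ˣ => κ (a : ZMod f) = 1 with hS
  set v : (ZMod f)ˣ → M := fun a => 1 - ζ ^ ((a⁻¹ : (ZMod f)ˣ) : ZMod f).val with hv
  have hv1 : ∀ a, IsIntegral ℤ (v a) := fun a => (csq_integral hf hpp hζ a⁻¹).1
  have hv2 : ∀ a, IsIntegral ℤ (v a)⁻¹ := fun a => (csq_integral hf hpp hζ a⁻¹).2.1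
  have hv0 : ∀ a, v a ≠ 0 := fun a => (csq_integral hf hpp hζ a⁻¹).2.2
  set b : M := ∏ a ∈ S, v a ^ k a with hb
  have hb0 : b ≠ 0 := Finset.prod_ne_zero_iff.2 fun a _ => zpow_ne_zero _ (hv0 a)
  have hbi : IsIntegral ℤ b⁻¹ := by
    rw [hb, ← Finset.prod_inv_distrib]
    refine IsIntegral.prod _ fun a _ => ?_
    rw [← inv_zpow]
    rcases (k a).eq_nat_or_neg with ⟨n, h | h⟩
    · rw [h, zpow_natCast]
      exact (hv2 a).pow n
    · rw [h, zpow_neg, zpow_natCast, inv_pow, inv_inv]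
      exact (hv1 a).pow n
  set ρ : M := θ * (b⁻¹) ^ 2 with hρ
  have hρi : IsIntegral ℤ ρ := hθ.mul (hbi.pow 2)
  have hzb : z b = b := by
    rw [hb, map_prod]
    refine Finset.prod_congr rfl fun a _ => ?_
    rw [map_zpow₀, hv]
    simp only [map_sub, map_one, map_pow, hzζ]
  have hL : ∀ (g : Gal(M/ℚ)) (a : (ZMod f)ˣ), Real.log ‖ι (g (v a))‖ =
      ell f ((hζ.autToPow ℚ g * a⁻¹ : (ZMod f)ˣ) : ZMod f) := by
    intro g a
    rw [hv]
    simp only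
    rw [csq_embed hζ hιζ g a⁻¹]
    rfl
  have hnz : ∀ (g : Gal(M/ℚ)) (x : M), x ≠ 0 → ‖ι (g x)‖ ≠ 0 := by
    intro g x hx
    rw [norm_ne_zero_iff, map_ne_zero, map_ne_zero_iff _ g.injective]
    exact hx
  have hsum0 : ∀ g : Gal(M/ℚ),
      ∑ a : (ZMod f)ˣ, ell f ((hζ.autToPow ℚ g * a⁻¹ : (ZMod f)ˣ) : ZMod f) = 0 := by
    intro g
    have h1 : ∏ a : (ZMod f)ˣ, v a = 1 := by
      rw [← csq_prod hf hpp hζ]
      exact Fintype.prod_equiv (Equiv.inv _) _ _ fun a => rfl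
    have h2 : ∑ a : (ZMod f)ˣ, Real.log ‖ι (g (v a))‖ = 0 := by
      rw [← Real.log_prod fun a _ => hnz g _ (hv0 a), ← norm_prod, ← map_prod, ← map_prod, h1,
        map_one, map_one, norm_one, Real.log_one]
    rw [← h2]
    exact Finset.sum_congr rfl fun a _ => (hL g a).symm
  have hnorm : ∀ g : Gal(M/ℚ), ‖ι (g ρ)‖ = 1 := by
    intro g
    have hρ0 : ρ ≠ 0 := mul_ne_zero hθ0 (pow_ne_zero _ (inv_ne_zero hb0))
    refine Real.eq_one_of_pos_of_log_eq_zero ((norm_nonneg _).lt_of_ne (hnz g _ hρ0).symm) ?_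
    have h1 : Real.log ‖ι (g b)‖ = ∑ a ∈ S, (k a : ℝ) *
        ell f ((hζ.autToPow ℚ g * a⁻¹ : (ZMod f)ˣ) : ZMod f) := by
      rw [hb, map_prod, map_prod, norm_prod, Real.log_prod]
      · refine Finset.sum_congr rfl fun a _ => ?_
        rw [map_zpow₀, map_zpow₀, norm_zpow, Real.log_zpow, hL]
      · intro a _
        exact hnz g _ (zpow_ne_zero _ (hv0 a))
    have h2 : Real.log ‖ι (g ρ)‖ = Real.log ‖ι (g θ)‖ - 2 * Real.log ‖ι (g b)‖ := by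
      have h3 : ι (g ρ) = ι (g θ) * ((ι (g b))⁻¹) ^ 2 := by
        rw [hρ, map_mul, map_mul, map_pow, map_pow, map_inv₀, map_inv₀]
      rw [h3, norm_mul, norm_pow, norm_inv, Real.log_mul (hnz g _ hθ0)
        (pow_ne_zero _ (inv_ne_zero (hnz g _ hb0))), Real.log_pow, Real.log_inv]
      push_cast
      ring
    have hG1 : ∑ a : (ZMod f)ˣ, (κ (a : ZMod f) : ℝ) * hh f (a : ZMod f) *
        ell f ((hζ.autToPow ℚ g * a⁻¹ : (ZMod f)ˣ) : ZMod f) =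
        2 * ∑ a ∈ S, (κ (a : ZMod f) : ℝ) * hh f (a : ZMod f) *
          ell f ((hζ.autToPow ℚ g * a⁻¹ : (ZMod f)ˣ) : ZMod f) := by
      refine csq_half κ hodd _ fun a => ?_
      have ha0 : (a : ZMod f) ≠ 0 := by
        have : Fact (1 < f) := ⟨by omega⟩
        exact a.ne_zero
      have e1 : (κ ((-a : (ZMod f)ˣ) : ZMod f) : ℝ) = - (κ (a : ZMod f) : ℝ) := by
        rw [Units.val_neg, ← neg_one_mul, map_mul, hodd]
        push_cast
        ring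
      have e2 : hh f ((-a : (ZMod f)ˣ) : ZMod f) = - hh f (a : ZMod f) := by
        rw [Units.val_neg, hh_neg ha0]
      have e3 : ell f ((hζ.autToPow ℚ g * (-a)⁻¹ : (ZMod f)ˣ) : ZMod f) =
          ell f ((hζ.autToPow ℚ g * a⁻¹ : (ZMod f)ˣ) : ZMod f) := by
        rw [csq_inv_neg, mul_neg, Units.val_neg, ell_neg]
      rw [e1, e2, e3]
      ring
    have hG2 : ∑ a : (ZMod f)ˣ, ell f ((hζ.autToPow ℚ g * a⁻¹ : (ZMod f)ˣ) : ZMod f) =
        2 * ∑ a ∈ S, ell f ((hζ.autToPow ℚ g * a⁻¹ : (ZMod f)ˣ) : ZMod f) := by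
      refine csq_half κ hodd _ fun a => ?_
      rw [csq_inv_neg, mul_neg, Units.val_neg, ell_neg]
    have hG3 : ∑ a ∈ S, ell f ((hζ.autToPow ℚ g * a⁻¹ : (ZMod f)ˣ) : ZMod f) = 0 := by
      rw [hsum0 g] at hG2
      linarith
    rw [h2, h1, hlog g, hG1]
    have h4 : (Units.torsionOrder M : ℝ) / 2 * (2 * ∑ a ∈ S, (κ (a : ZMod f) : ℝ) *
        hh f (a : ZMod f) * ell f ((hζ.autToPow ℚ g * a⁻¹ : (ZMod f)ˣ) : ZMod f)) =
        ∑ a ∈ S, (2 * (k a : ℝ) + 1) *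
          ell f ((hζ.autToPow ℚ g * a⁻¹ : (ZMod f)ˣ) : ZMod f) := by
      rw [← mul_assoc, div_mul_cancel₀ _ (two_ne_zero), Finset.mul_sum]
      refine Finset.sum_congr rfl fun a ha => ?_
      rw [hS, Finset.mem_filter] at ha
      rw [hk a, ha.2]
      push_cast
      ring
    rw [h4]
    have h5 : ∑ a ∈ S, (2 * (k a : ℝ) + 1) *
          ell f ((hζ.autToPow ℚ g * a⁻¹ : (ZMod f)ˣ) : ZMod f) =
        2 * ∑ a ∈ S, (k a : ℝ) * ell f ((hζ.autToPow ℚ g * a⁻¹ : (ZMod f)ˣ) : ZMod f) +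
          ∑ a ∈ S, ell f ((hζ.autToPow ℚ g * a⁻¹ : (ZMod f)ˣ) : ZMod f) := by
      rw [Finset.mul_sum, ← Finset.sum_add_distrib]
      exact Finset.sum_congr rfl fun a _ => by ring
    rw [h5, hG3]
    ring
  obtain ⟨n, hn, hn'⟩ := NumberField.Embeddings.pow_eq_one_of_norm_eq_one M ℂ hρi (by
    intro φ
    obtain ⟨γ, hγ⟩ := exists_comp ι φ
    rw [hγ]
    exact hnorm γ)
  refine ⟨b, ρ, hzb, hb0, ⟨n, hn, hn'⟩, ?_⟩
  rw [hρ, inv_pow, mul_assoc, inv_mul_cancel₀ (pow_ne_zero 2 hb0), mul_one]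

end Pool.Agent.StarkRQ
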