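import Pool.Agent.StarkRQ.Root

/-!
# Root extraction, second form

Let `E ⊇ M ⊇ k`, `Gal(E/k)` abelian, `y ∈ E` with `y ^ w = η ∈ M`, `w` the number of roots of unity
of `M`, and let `τ ∈ Gal(M/k)` act on the roots of unity of `M` as the `n`-th power. Then
`τ η / η ^ n = α ^ w` with `α ∈ M`.

Proof (as in `Root.lean`). Lift `τ` to `τ' ∈ Gal(E/k)` and put `α' = τ' y / y ^ n`. For
`ρ ∈ Gal(E/M)`: `ρ y = ξ y`, `ξ ^ w = 1`, `ξ ∈ M`, so `ρ (τ' y) = τ' (ρ y) = τ ξ * τ' y = ξ ^ n τ' y`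
and `ρ (y ^ n) = ξ ^ n y ^ n`.
-/

open NumberField

namespace Pool.Agent.StarkRQ

theorem exists_alpha {k M : Type*} [Field k] [NumberField k] [Field M] [NumberField M]
    [Algebra k M] [IsGalois k M] {E : Type*} [Field E] [Algebra k E] [Algebra M E]
    [IsScalarTower k M E] [IsGalois k E] (hab : ∀ σ τ : Gal(E/k), σ * τ = τ * σ)
    (τ : Gal(M/k)) (n : ℕ) (hn : ∀ ξ : M, ξ ^ Units.torsionOrder M = 1 → τ ξ = ξ ^ n)
    {η : M} (hη : η ≠ 0) {y : E} (hy : y ^ Units.torsionOrder M = algebraMap M E η) :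
    ∃ α : M, α ^ Units.torsionOrder M = τ η / η ^ n := by
  set w := Units.torsionOrder M with hw
  have hw0 : w ≠ 0 := Units.torsionOrder_ne_zero M
  have : NeZero w := ⟨hw0⟩
  have : IsGalois M E := IsGalois.tower_top_of_isGalois k M E
  have hinj : Function.Injective (algebraMap M E) := (algebraMap M E).injective
  have hy0 : y ≠ 0 := by
    rintro rfl
    rw [zero_pow hw0] at hy
    exact hη (hinj (by rw [← hy, map_zero]))
  let τ' : Gal(E/k) := τ.liftNormal E
  have hτ' : ∀ x : M, τ' (algebraMap M E x) = algebraMap M E (τ x) :=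
    fun x => AlgEquiv.liftNormal_commutes τ E x
  -- roots of unity of order dividing `w` in `E` come from `M`
  obtain ⟨ξ, hξ⟩ := exists_primRoot M
  have hξE : IsPrimitiveRoot (algebraMap M E ξ) w := hξ.map_of_injective hinj
  have hroots : ∀ t : E, t ^ w = 1 → ∃ ζ : M, ζ ^ w = 1 ∧ algebraMap M E ζ = t := by
    intro t ht
    obtain ⟨i, -, hi⟩ := hξE.eq_pow_of_pow_eq_one ht
    exact ⟨ξ ^ i, by rw [← pow_mul, mul_comm, pow_mul, hξ.pow_eq_one, one_pow],
      by rw [map_pow, hi]⟩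
  have hfix : ∀ ρ : Gal(E/M), ρ (τ' y / y ^ n) = τ' y / y ^ n := by
    intro ρ
    have h1 : (ρ y / y) ^ w = 1 := by
      rw [div_pow, ← map_pow, hy, AlgEquiv.commutes, div_self]
      exact (map_ne_zero _).mpr hη
    obtain ⟨ζ, hζ, hζy⟩ := hroots _ h1
    have hρy : ρ y = algebraMap M E ζ * y := by
      rw [hζy, div_mul_cancel₀ _ hy0]
    have hcomm : ρ (τ' y) = τ' (ρ y) := by
      have := hab (ρ.restrictScalars k) τ'
      exact DFunLike.congr_fun this y
    have hζ0 : algebraMap M E ζ ≠ 0 := by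
      rw [hζy]
      exact div_ne_zero (by simpa using hy0) hy0
    rw [map_div₀, hcomm, map_pow, hρy, map_mul, hτ', hn ζ hζ, mul_pow, map_pow,
      mul_div_mul_left _ _ (pow_ne_zero _ hζ0)]
  obtain ⟨x, hx⟩ := (InfiniteGalois.mem_range_algebraMap_iff_fixed (τ' y / y ^ n)).mpr hfix
  refine ⟨x, hinj ?_⟩
  rw [map_pow, hx, div_pow, ← map_pow, hy, hτ', map_div₀, map_pow, ← hy]
  ring

end Pool.Agent.StarkRQ
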