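import Pool.Agent.StarkRQ.CycCount
import Pool.Agent.StarkRQ.AnConv
import Pool.Agent.StarkRQ.Analytic

/-!
# The absolute values of `θ = η · z η ∈ ℚ(ζ_f)`

For `g = toG k M s`, `s ∈ Gal(M/k)`: let `Z₁, Z₂` be the zeta functions of `s`, `zk * s`
(`hη.deriv_zeta`); `zcoeff_add` and `deriv_conv` for `W = Z₁ + Z₂`, `ρ = χ g` (`κ ρ = 1` by `hκ`) give
`-(2/w) log |ι (g θ)| = W'(0) = -∑ κ a hh a ell (χ g a⁻¹)`. For `g ∉ fixG k M`, `c * g ∈ fixG k M`
(`mul_mem_of_index_two (fixG_index hk)`), `|ι (c g θ)| = |ι (g θ)|`, `χ (c g) = - χ g` and `ell` is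
even. (`χ c = -1`: `ι (c ζ) = conj (ι ζ) = (ι ζ)⁻¹`.)
-/

open NumberField Module

namespace Pool.Agent.StarkRQ

/-- complex conjugation inverts roots of unity -/
theorem chi_cc {M : Type*} [Field M] [NumberField M] {f : ℕ} [NeZero f] {ζ : M}
    (hζ : IsPrimitiveRoot ζ f) {ι : M →+* ℂ} {c : Gal(M/ℚ)}
    (hc : ∀ x, ι (c x) = starRingEnd ℂ (ι x)) :
    ((hζ.autToPow ℚ c : (ZMod f)ˣ) : ZMod f) = -1 := by
  have hζ0 : ζ ≠ 0 := hζ.ne_zero (NeZero.ne f)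
  have hnorm : ‖ι ζ‖ = 1 := by
    have h1 : (ι ζ) ^ f = 1 := by rw [← map_pow, hζ.pow_eq_one, map_one]
    exact Complex.norm_eq_one_of_pow_eq_one h1 (NeZero.ne f)
  have h2 : c ζ * ζ = 1 := by
    apply ι.injective
    rw [map_mul, hc, map_one, mul_comm, Complex.mul_conj, Complex.normSq_eq_norm_sq, hnorm]
    norm_num
  have h3 : ζ ^ (((hζ.autToPow ℚ c : (ZMod f)ˣ) : ZMod f).val + 1) = 1 := by
    rw [pow_succ, hζ.autToPow_spec ℚ c, h2]
  have h4 := (hζ.pow_eq_one_iff_dvd _).1 h3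
  rw [← ZMod.natCast_eq_zero_iff, Nat.cast_add, ZMod.natCast_zmod_val, Nat.cast_one] at h4
  exact eq_neg_of_add_eq_zero_left h4

theorem log_theta {k M : Type} [Field k] [NumberField k] [Field M] [NumberField M] [Algebra k M]
    [IsGalois ℚ M] [IsGalois k M] (hk : finrank ℚ k = 2)
    (hB : ∀ σ τ : Gal(M/k), σ * τ = τ * σ) {f : ℕ} [NeZero f] (hf : 2 < f)
    (hram : ∀ p : ℕ, p.Prime → (p : ℤ) ∣ discr M → p ∣ f) {ζ : M} (hζ : IsPrimitiveRoot ζ f)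
    {z : Gal(M/ℚ)} (hz1 : z ≠ 1) (hzz : z * z = 1) (hzc : ∀ g, z * g = g * z) (hzζ : z ζ = ζ)
    (hfix : ∀ g : Gal(M/ℚ), g ζ = ζ → g = 1 ∨ g = z) {zk : Gal(M/k)} (hzk : toG k M zk = z)
    (κ : DirichletCharacter ℤ f)
    (hκ : ∀ g : Gal(M/ℚ), κ ((hζ.autToPow ℚ g : (ZMod f)ˣ) : ZMod f) = 1 ↔ g ∈ fixG k M)
    {ι : M →+* ℂ} {c : Gal(M/ℚ)} (hc : ∀ x, ι (c x) = starRingEnd ℂ (ι x)) (hck : c ∉ fixG k M)
    {η : M} (hη : IsStarkUnit k ι f η) (g : Gal(M/ℚ)) :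
    Real.log ‖ι (g (η * z η))‖ = (Units.torsionOrder M : ℝ) / 2 *
      ∑ a : (ZMod f)ˣ, (κ (a : ZMod f) : ℝ) * hh f (a : ZMod f) *
        ell f ((hζ.autToPow ℚ g * a⁻¹ : (ZMod f)ˣ) : ZMod f) := by
  have hχc := chi_cc hζ hc
  have hw : (Units.torsionOrder M : ℝ) ≠ 0 := by
    exact_mod_cast (Units.torsionOrder_pos M).ne'
  have hodd : κ (-1) = -1 := by
    have h1 : κ (-1) ≠ 1 := by
      rw [← hχc]
      exact fun h => hck ((hκ c).1 h)
    have h2 : IsUnit (κ (-1)) := (isUnit_neg_one (α := ZMod f)).map κ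
    rcases Int.isUnit_iff.1 h2 with h | h
    · exact absurd h h1
    · exact h
  -- the case of an element of the subgroup
  have main : ∀ s : Gal(M/k), Real.log ‖ι (toG k M s (η * z η))‖ =
      (Units.torsionOrder M : ℝ) / 2 *
      ∑ a : (ZMod f)ˣ, (κ (a : ZMod f) : ℝ) * hh f (a : ZMod f) *
        ell f ((hζ.autToPow ℚ (toG k M s) * a⁻¹ : (ZMod f)ˣ) : ZMod f) := by
    intro s
    obtain ⟨Z₁, hZ₁, hd₁⟩ := hη.deriv_zeta s
    obtain ⟨Z₂, hZ₂, hd₂⟩ := hη.deriv_zeta (zk * s)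
    have hopen : IsOpen ({1}ᶜ : Set ℂ) := isOpen_compl_singleton
    have hmem : (0 : ℂ) ∈ ({1}ᶜ : Set ℂ) := by simp
    have hρ : κ ((hζ.autToPow ℚ (toG k M s) : (ZMod f)ˣ) : ZMod f) = 1 := (hκ _).2 ⟨s, rfl⟩
    have hconv := deriv_conv hf κ hodd (hζ.autToPow ℚ (toG k M s)) hρ
      (W := fun x => Z₁ x + Z₂ x) (hZ₁.1.add hZ₂.1) (fun x hx => by
        rw [hZ₁.2 x hx, hZ₂.2 x hx, ← LSeries_add (zcoeff_summable f s hx)
          (zcoeff_summable f (zk * s) hx)]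
        refine LSeries_congr (fun {n} hn => ?_) x
        simp only [Pi.add_apply]
        have := zcoeff_add hk hB hram hζ hz1 hzz hzζ hfix hzk κ hκ s n hn
        rw [← this]
        push_cast
        rfl)
    have hA₁ : DifferentiableAt ℂ Z₁ 0 := hZ₁.1.differentiableAt (hopen.mem_nhds hmem)
    have hA₂ : DifferentiableAt ℂ Z₂ 0 := hZ₂.1.differentiableAt (hopen.mem_nhds hmem)
    have e1 : deriv (fun x => Z₁ x + Z₂ x) 0 = deriv Z₁ 0 + deriv Z₂ 0 :=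
      (hA₁.hasDerivAt.add hA₂.hasDerivAt).deriv
    rw [e1, hd₁, hd₂] at hconv
    have hz2 : (zk * s) η = s (z η) := by
      have h1 : toG k M (zk * s) η = toG k M s (z η) := by
        rw [map_mul, hzk, hzc]
        rfl
      exact h1
    rw [hz2] at hconv
    have hη0 : η ≠ 0 := hη.ne_zero
    have hn1 : ‖ι (s η)‖ ≠ 0 := by
      rw [norm_ne_zero_iff]
      exact (map_ne_zero ι).2 ((map_ne_zero_iff s s.injective).2 hη0)
    have hn2 : ‖ι (s (z η))‖ ≠ 0 := by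
      rw [norm_ne_zero_iff]
      exact (map_ne_zero ι).2 ((map_ne_zero_iff s s.injective).2
        ((map_ne_zero_iff z z.injective).2 hη0))
    have hcast : -(1 / (Units.torsionOrder M : ℝ)) * Real.log (‖ι (s η)‖ ^ 2) +
        -(1 / (Units.torsionOrder M : ℝ)) * Real.log (‖ι (s (z η))‖ ^ 2) =
        -(∑ a : (ZMod f)ˣ, (κ (a : ZMod f) : ℝ) * hh f (a : ZMod f) *
      ell f ((hζ.autToPow ℚ (toG k M s) * a⁻¹ : (ZMod f)ˣ) : ZMod f)) := by
      apply Complex.ofReal_injective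
      rw [Complex.ofReal_neg, ← hconv]
      push_cast
      rfl
    rw [map_mul, map_mul, norm_mul, toG_apply, toG_apply, Real.log_mul hn1 hn2]
    rw [Real.log_pow, Real.log_pow] at hcast
    generalize (∑ a : (ZMod f)ˣ, (κ (a : ZMod f) : ℝ) * hh f (a : ZMod f) *
      ell f ((hζ.autToPow ℚ (toG k M s) * a⁻¹ : (ZMod f)ˣ) : ZMod f)) = T at hcast ⊢
    push_cast at hcast
    field_simp at hcast ⊢
    linarith
  by_cases hg : g ∈ fixG k M
  · obtain ⟨s, rfl⟩ := hg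
    exact main s
  · have hcg : c * g ∈ fixG k M := mul_mem_of_index_two (fixG_index (M := M) hk) hck hg
    obtain ⟨s, hs⟩ := hcg
    have h1 := main s
    rw [hs] at h1
    have h2 : ‖ι ((c * g) (η * z η))‖ = ‖ι (g (η * z η))‖ := by
      rw [AlgEquiv.mul_apply, hc, RCLike.norm_conj]
    rw [h2] at h1
    rw [h1]
    congr 1
    refine Finset.sum_congr rfl fun a _ => ?_
    congr 1
    rw [map_mul, mul_assoc, Units.val_mul, hχc, neg_one_mul, ell_neg]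

end Pool.Agent.StarkRQ
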