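import Pool.Agent.StarkRQ.CcEta
import Pool.Agent.StarkRQ.ThetaAbs
import Pool.Agent.StarkRQ.CycSquare
import Pool.Agent.StarkRQ.RootB

/-!
# One Shintani extension: the real unit `x` and its signs
-/

open NumberField Module

namespace Pool.Agent.StarkRQ

section

variable {M : Type} [Field M] [NumberField M] [IsGalois ℚ M]
  {K k : Type} [Field K] [NumberField K] [Field k] [NumberField k]
  [Algebra K M] [Algebra k M]

/-- The unit `x` of one Shintani extension `M`. -/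
theorem branch [IsTotallyReal K] [IsTotallyComplex k] (hK : finrank ℚ K = 2)
    (hk : finrank ℚ k = 2) [IsAbelianGalois K M] [IsAbelianGalois k M] {ι : M →+* ℂ}
    {c : Gal(M/ℚ)} (hc : ∀ x, ι (c x) = starRingEnd ℂ (ι x)) {f : ℕ} [NeZero f] (hf : 2 < f)
    (hf4 : f % 4 ≠ 2) (hpp : ¬ IsPrimePow f)
    (hram : ∀ p : ℕ, p.Prime → (p : ℤ) ∣ discr M → p ∣ f) {ζ : M} (hζ : IsPrimitiveRoot ζ f)
    (hιζ : ι ζ = Complex.exp (2 * Real.pi * Complex.I / f))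
    {z : Gal(M/ℚ)} (hz : ZData (fixG K M) (fixG k M) z) (hz1 : z ≠ 1)
    (hfix : ∀ g : Gal(M/ℚ), g ζ = ζ → g = 1 ∨ g = z)
    {b : Gal(M/ℚ)} (hbk : b ∈ fixG k M) (hbK : b ∉ fixG K M)
    {n : ℕ} (hn : Odd n) (hbn : ∀ ξ : M, ξ ^ Units.torsionOrder M = 1 → b ξ = ξ ^ n)
    (κ : DirichletCharacter ℤ f)
    (hκ : ∀ g : Gal(M/ℚ), κ ((hζ.autToPow ℚ g : (ZMod f)ˣ) : ZMod f) = 1 ↔ g ∈ fixG k M)
    {η : M} (hη : IsStarkUnit k ι f η) (hηi : IsIntegral ℤ η) (hηi' : IsIntegral ℤ η⁻¹) :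
    ∃ x : M, x ^ Units.torsionOrder M = η / z η ∧ c x = x ∧ x * z x = 1 ∧ x ≠ 0 ∧
      IsIntegral ℤ x ∧ IsIntegral ℤ x⁻¹ ∧
      ∃ a : M, a ≠ 0 ∧ (∀ g ∈ fixG K M, ∃ r : ℝ, 0 < r ∧ ι (g a) = r * ι (g x)) ∧
        Real.log ‖ι a‖ = 1 / 2 * ∑ u : (ZMod f)ˣ, (κ (u : ZMod f) : ℝ) *
          (hh f (n * (u : ZMod f)) - n * hh f (u : ZMod f)) *
          ell f ((u⁻¹ : (ZMod f)ˣ) : ZMod f) := by
  classical
  have hA : ∀ σ τ : Gal(M/K), σ * τ = τ * σ := fun σ τ => mul_comm' σ τ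
  have hB : ∀ σ τ : Gal(M/k), σ * τ = τ * σ := fun σ τ => mul_comm' σ τ
  have hcc : c * c = 1 := by
    ext x
    apply ι.injective
    change ι (c (c x)) = ι x
    rw [hc, hc, Complex.conj_conj]
  have hccx : ∀ x, c (c x) = x := by
    intro x
    change (c * c) x = x
    rw [hcc]; rfl
  have hcK : c ∈ fixG K M := cc_mem_fixG hc
  have hck : c ∉ fixG k M := cc_notMem_fixG hc
  have hzz := hz.sq
  have hzc : ∀ g, z * g = g * z := hz.central z hz.mem_A hz.mem_B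
  have hzg : ∀ (g : Gal(M/ℚ)) (x : M), z (g x) = g (z x) := by
    intro g x
    change (z * g) x = (g * z) x
    rw [hzc]
  have hzzx : ∀ x : M, z (z x) = x := by
    intro x
    change (z * z) x = x
    rw [hzz]; rfl
  set w := Units.torsionOrder M with hw
  have hw0 : w ≠ 0 := Units.torsionOrder_ne_zero M
  have : NeZero w := ⟨hw0⟩
  have hbc : b * c * b⁻¹ = z * c := hz.conjA c hcK hck b hbK
  have hcb : ∀ x : M, c (b x) = z (b (c x)) := by
    intro x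
    have h1 : b * c = z * c * b := by rw [← hbc, inv_mul_cancel_right]
    have h2 : z * (b * c) = c * b := by
      rw [h1, ← mul_assoc, ← mul_assoc, hzz, one_mul]
    change (c * b) x = (z * (b * c)) x
    rw [h2]
  have hzb : z = b * c * b⁻¹ * c⁻¹ := by rw [hbc, mul_inv_cancel_right]
  have hzroot : ∀ ξ : M, ∀ m : ℕ, 0 < m → ξ ^ m = 1 → z ξ = ξ := by
    intro ξ m hm hξ
    have : NeZero m := ⟨hm.ne'⟩
    have := commutator_fixes (w := m) b c ξ hξ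
    rwa [← hzb] at this
  have hzroot' : ∀ ξ : M, ξ ^ w = 1 → z ξ = ξ := fun ξ h => hzroot ξ w (Nat.pos_of_ne_zero hw0) h
  have hzζ : z ζ = ζ := hzroot ζ f (Nat.pos_of_ne_zero (NeZero.ne f)) hζ.pow_eq_one
  have hcabel : ∀ g ∈ fixG K M, ∀ x : M, c (g x) = g (c x) := by
    rintro g ⟨s, rfl⟩ x
    obtain ⟨cK, rfl⟩ := hcK
    change (toG K M cK * toG K M s) x = (toG K M s * toG K M cK) x
    rw [← map_mul, ← map_mul, hA]
  obtain ⟨zk, hzk⟩ := id hz.mem_B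
  obtain ⟨bk, hbk'⟩ := id hbk
  have hη0 := hη.ne_zero
  -- roots
  obtain ⟨E, _, _, _, _, hE, y, hy⟩ := hη.abelian
  obtain ⟨x₀, hx₀⟩ := exists_root (k := k) (fun σ τ => mul_comm' σ τ) zk (fun ζ hζ => by
    have := hzroot' ζ hζ
    rw [← hzk] at this
    exact this) hη.ne_zero hy
  have hx₀' : x₀ ^ w = η / z η := by rw [hx₀, ← hzk]; rfl
  obtain ⟨α, hα⟩ := exists_alpha (k := k) (fun σ τ => mul_comm' σ τ) bk n (fun ξ hξ => by
    have := hbn ξ hξ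
    rw [← hbk'] at this
    exact this) hη.ne_zero hy
  have hα' : α ^ w = b η / η ^ n := by rw [hα, ← hbk']; rfl
  obtain ⟨v, hv1, hv2⟩ := cc_eta (K := K) hK hk (NeZero.ne f) hram hη hc
  have hne : ∀ (g : Gal(M/ℚ)) {u : M}, u ≠ 0 → g u ≠ 0 := fun g u hu h =>
    hu (g.injective (by rw [h, map_zero]))
  have hzη0 : z η ≠ 0 := hne z hη0
  have hbη0 : b η ≠ 0 := hne b hη0
  have hx₀0 : x₀ ≠ 0 := by
    rintro rfl
    rw [zero_pow hw0] at hx₀'
    exact (div_ne_zero hη0 hzη0) hx₀'.symm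
  have hα0 : α ≠ 0 := by
    rintro rfl
    rw [zero_pow hw0] at hα'
    exact (div_ne_zero hbη0 (pow_ne_zero n hη0)) hα'.symm
  -- the character is odd
  have hκ1 : κ (-1) = -1 := by
    have h1 : κ (-1) ≠ 1 := by
      intro h
      apply hck
      rw [← hκ, chi_cc hζ hc, h]
    have h2 : κ (-1) * κ (-1) = 1 := by
      rw [← map_mul, neg_one_mul, neg_neg, map_one]
    rcases Int.mul_eq_one_iff_eq_one_or_neg_one.1 h2 with ⟨h3, -⟩ | ⟨h3, -⟩
    · exact absurd h3 h1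
    · exact h3
  -- theta
  set θ := η * z η with hθ
  have hlog : ∀ g : Gal(M/ℚ), Real.log ‖ι (g θ)‖ = (Units.torsionOrder M : ℝ) / 2 *
      ∑ a : (ZMod f)ˣ, (κ (a : ZMod f) : ℝ) * hh f (a : ZMod f) *
        ell f ((hζ.autToPow ℚ g * a⁻¹ : (ZMod f)ˣ) : ZMod f) := fun g =>
    log_theta hk hB hf hram hζ hz1 hzz hzc hzζ hfix hzk κ hκ hc hck hη g
  have hmapint : ∀ (g : Gal(M/ℚ)) {u : M}, IsIntegral ℤ u → IsIntegral ℤ (g u) := by
    intro g u hu
    exact hu.map (g : M →ₐ[ℚ] M).toRingHom.toIntAlgHom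
  have hzηi' : IsIntegral ℤ (z η)⁻¹ := by
    rw [← map_inv₀]; exact hmapint z hηi'
  have hθi : IsIntegral ℤ θ := hηi.mul (hmapint z hηi)
  have hθi' : IsIntegral ℤ θ⁻¹ := by
    rw [hθ, mul_inv]
    exact hηi'.mul hzηi'
  have hθ0 : θ ≠ 0 := mul_ne_zero hη0 hzη0
  obtain ⟨b', ρ, hzb', hb'0, ⟨m, hm0, hρm⟩, hθρ⟩ :=
    theta_square hf hf4 hpp hζ hzζ hfix hzroot κ hκ1 hιζ hθi hθi' hθ0 hlog
  -- parity of `w`
  have hweven : Even w := by
    rcases torsionOrder_eq hf hf4 hζ hfix hzroot with ⟨h1, h2⟩ | ⟨-, h2⟩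
    · rw [hw, h2]
      obtain ⟨j, hj⟩ := h1
      exact ⟨2 * j, by omega⟩
    · rw [hw, h2]
      exact ⟨f, by omega⟩
  obtain ⟨w', hw'⟩ := hweven
  have hw'2 : w = 2 * w' := by omega
  have hw'0 : w' ≠ 0 := by
    rintro rfl
    exact hw0 (by omega)
  -- normalisation of `x₀`
  have hzx₀0 := hne z hx₀0
  have hxz : (x₀ * z x₀) ^ w' = 1 := by
    set β := η / x₀ ^ w' with hβ
    have hβ2 : β ^ 2 = θ := by
      rw [hβ, div_pow, ← pow_mul, mul_comm w' 2, ← hw'2, hx₀', hθ]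
      field_simp
    have hβ3 : (β / b') ^ (2 * m) = 1 := by
      rw [pow_mul, div_pow, hβ2, hθρ, mul_div_assoc, div_self (pow_ne_zero 2 hb'0), mul_one, hρm]
    have hβ4 := hzroot _ (2 * m) (by omega) hβ3
    rw [map_div₀, hzb'] at hβ4
    have hβ5 : z β = β := (div_left_inj' hb'0).1 hβ4
    rw [hβ, map_div₀, map_pow] at hβ5
    have hη' : η = x₀ ^ w * z η := by rw [hx₀', div_mul_cancel₀ _ hzη0]
    rw [div_eq_div_iff (pow_ne_zero _ hzx₀0) (pow_ne_zero _ hx₀0)] at hβ5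
    have h1 : z η * x₀ ^ w' = z η * (x₀ ^ w' * (x₀ ^ w' * z x₀ ^ w')) := by
      rw [hβ5]
      nth_rewrite 1 [hη']
      rw [hw'2, two_mul, pow_add]
      ring
    have h2 := mul_left_cancel₀ hzη0 h1
    have h3 : x₀ ^ w' * 1 = x₀ ^ w' * (x₀ ^ w' * z x₀ ^ w') := by rw [mul_one]; exact h2
    have h4 := mul_left_cancel₀ (pow_ne_zero w' hx₀0) h3
    rw [mul_pow, ← h4]
  obtain ⟨ω, hω⟩ := exists_primRoot M
  have hω2 : IsPrimitiveRoot (ω ^ 2) w' := hω.pow (Nat.pos_of_ne_zero hw0) hw'2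
  have : NeZero w' := ⟨hw'0⟩
  obtain ⟨i, -, hi⟩ := hω2.eq_pow_of_pow_eq_one hxz
  have hωw : ω ^ w = 1 := hω.pow_eq_one
  have hω0 : ω ≠ 0 := hω.ne_zero hw0
  have hzω : z ω = ω := hzroot' ω hωw
  obtain ⟨x, hxw, hxz1, hx0⟩ : ∃ x : M, x ^ w = η / z η ∧ x * z x = 1 ∧ x ≠ 0 := by
    refine ⟨(ω ^ i)⁻¹ * x₀, ?_, ?_, mul_ne_zero (inv_ne_zero (pow_ne_zero _ hω0)) hx₀0⟩
    · rw [mul_pow, hx₀', inv_pow, ← pow_mul, mul_comm i w, pow_mul, hωw, one_pow, inv_one, one_mul]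
    · rw [map_mul, map_inv₀, map_pow, hzω]
      have : (ω ^ i)⁻¹ * x₀ * ((ω ^ i)⁻¹ * z x₀) = (ω ^ i)⁻¹ * (ω ^ i)⁻¹ * (x₀ * z x₀) := by ring
      rw [this, ← hi, ← mul_inv, ← pow_two, ← pow_mul, ← pow_mul, mul_comm i 2,
        inv_mul_cancel₀ (pow_ne_zero _ hω0)]
  -- `x` is real
  have hzx : z x = x⁻¹ := eq_inv_of_mul_eq_one_right hxz1
  have hzv : z v = v := hzroot' v hv1
  have hv0 : v ≠ 0 := by
    rintro rfl
    rw [zero_pow hw0] at hv1
    exact zero_ne_one hv1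
  have hczη : c (z η) = v * z η := by
    rw [← hzg, hv2, map_mul, hzv]
  obtain ⟨ξ, hξw, hξx⟩ : ∃ ξ : M, ξ ^ w = 1 ∧ c x = ξ * x := by
    refine ⟨c x / x, ?_, by rw [div_mul_cancel₀ _ hx0]⟩
    rw [div_pow, ← map_pow, hxw, map_div₀, hczη, hv2, mul_div_mul_left _ _ hv0, ]
    exact div_self (div_ne_zero hη0 hzη0)
  have hbx0 : b x ≠ 0 := hne b hx0
  have hbxc : b x * c (b x) = b ξ := by
    rw [hcb, hξx, map_mul, map_mul, hzg, hzg, hzroot' ξ hξw, hzx, map_inv₀]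
    field_simp
  have hnormsq : ∀ u : M, ι (u * c u) = ((‖ι u‖ ^ 2 : ℝ) : ℂ) := by
    intro u
    rw [map_mul, hc, Complex.mul_conj, Complex.normSq_eq_norm_sq]
  have hξ1 : ξ = 1 := by
    have h1 : ι (b ξ) = ((‖ι (b x)‖ ^ 2 : ℝ) : ℂ) := by rw [← hbxc, hnormsq]
    have h2 : ‖ι (b ξ)‖ = 1 := by
      apply Complex.norm_eq_one_of_pow_eq_one _ hw0
      rw [← map_pow, ← map_pow, hξw, map_one, map_one]
    rw [h1, Complex.norm_real, Real.norm_of_nonneg (by positivity)] at h2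
    rw [h2, Complex.ofReal_one] at h1
    apply b.injective
    apply ι.injective
    rw [h1, map_one, map_one]
  have hcx : c x = x := by rw [hξx, hξ1, one_mul]
  have hbxn : ‖ι (b x)‖ = 1 := by
    have h1 : ι (b ξ) = ((‖ι (b x)‖ ^ 2 : ℝ) : ℂ) := by rw [← hbxc, hnormsq]
    rw [hξ1, map_one, map_one] at h1
    have h2 : ‖ι (b x)‖ ^ 2 = 1 := by exact_mod_cast h1.symm
    exact (pow_eq_one_iff_of_nonneg (norm_nonneg _) two_ne_zero).1 h2
  -- integrality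
  have hxi : IsIntegral ℤ x := IsIntegral.of_pow (Nat.pos_of_ne_zero hw0) (by
    rw [hxw, div_eq_mul_inv]; exact hηi.mul hzηi')
  have hxi' : IsIntegral ℤ x⁻¹ := IsIntegral.of_pow (Nat.pos_of_ne_zero hw0) (by
    rw [inv_pow, hxw, inv_div, div_eq_mul_inv]; exact (hmapint z hηi).mul hηi')
  refine ⟨x, hxw, hcx, hxz1, hx0, hxi, hxi', α * c α * x ^ n, ?_, ?_, ?_⟩
  · exact mul_ne_zero (mul_ne_zero hα0 (hne c hα0)) (pow_ne_zero n hx0)
  · -- signs
    intro g hg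
    obtain ⟨j, hj⟩ := hn
    have hre : ι (g x) = ((ι (g x)).re : ℂ) := by
      have h1 : c (g x) = g x := by rw [hcabel g hg, hcx]
      have h2 := hc (g x)
      rw [h1] at h2
      exact (Complex.conj_eq_iff_re.1 h2.symm).symm
    have hre0 : (ι (g x)).re ≠ 0 := by
      intro h
      rw [h, Complex.ofReal_zero, map_eq_zero] at hre
      exact hne g hx0 hre
    have hgα : ‖ι (g α)‖ ≠ 0 := by
      rw [norm_ne_zero_iff]
      exact fun h => hne g hα0 (ι.injective (by rw [h, map_zero]))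
    refine ⟨‖ι (g α)‖ ^ 2 * ((ι (g x)).re ^ 2) ^ j, by positivity, ?_⟩
    have e1 : ι (g (α * c α * x ^ n)) = ι (g α * c (g α)) * ι (g x) ^ n := by
      rw [map_mul, map_mul, map_mul, map_mul, map_mul ι (g α), ← hcabel g hg, map_pow, map_pow]
    have e2 : ι (g x) ^ n = (((ι (g x)).re : ℂ) ^ 2) ^ j * ι (g x) := by
      rw [← hre, hj]
      ring
    rw [e1, hnormsq, e2]
    push_cast
    ring
  · -- the logarithm
    have hnp : ∀ u : M, u ≠ 0 → ‖ι u‖ ≠ 0 := by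
      intro u hu
      rw [norm_ne_zero_iff]
      exact fun h => hu (ι.injective (by rw [h, map_zero]))
    have hzα0 := hne z hα0
    -- `|z α| = |x| ^ n |α|`
    have h1 : (b x * z α) ^ w = (x ^ n * α) ^ w := by
      rw [mul_pow, mul_pow, ← map_pow, ← map_pow, hxw, hα', ← pow_mul, mul_comm n w, pow_mul, hxw,
        map_div₀, map_div₀, map_pow, div_pow, ← hzg b η]
      have : z (b η) ≠ 0 := hne z hbη0
      field_simp
    have h2 : ‖ι (z α)‖ = ‖ι x‖ ^ n * ‖ι α‖ := by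
      have h3 := congrArg (fun u => ‖ι u‖) h1
      simp only [map_pow, map_mul, norm_pow, norm_mul] at h3
      rw [hbxn, one_mul] at h3
      exact (pow_left_inj₀ (norm_nonneg _) (by positivity) hw0).1 h3
    have h4 : ‖ι (α * c α * x ^ n)‖ = ‖ι (α * z α)‖ := by
      rw [map_mul, map_mul, map_mul, hc, norm_mul, norm_mul, norm_mul, RCLike.norm_conj, h2,
        map_pow, norm_pow]
      ring
    have h5 : (α * z α) ^ w = b θ / θ ^ n := by
      rw [mul_pow, ← map_pow, hα', map_div₀, hθ, map_mul, hzg, map_pow]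
      field_simp
      rw [mul_pow]
      ring
    have h6 : (w : ℝ) * Real.log ‖ι (α * z α)‖ = Real.log ‖ι (b θ)‖ - n * Real.log ‖ι θ‖ := by
      rw [← Real.log_pow, ← norm_pow, ← map_pow, h5, map_div₀, norm_div,
        Real.log_div (hnp _ (hne b hθ0)) (hnp _ (pow_ne_zero n hθ0)), map_pow, norm_pow,
        Real.log_pow]
    -- the character of `b`
    have hfw : f ∣ w := Units.dvd_torsionOrder_of_isPrimitiveRoot hζ
    have hζw : ζ ^ w = 1 := hζ.pow_eq_one_iff_dvd w |>.2 hfw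
    have hχb : ((hζ.autToPow ℚ b : (ZMod f)ˣ) : ZMod f) = n := by
      have h7 := hζ.autToPow_spec ℚ b
      rw [hbn ζ hζw] at h7
      have h8 : ζ ^ (n % f) = ζ ^ n := by
        nth_rewrite 1 [hζ.eq_orderOf]
        rw [pow_mod_orderOf]
      rw [← h8] at h7
      have h9 := hζ.pow_inj (ZMod.val_lt _) (Nat.mod_lt _ (Nat.pos_of_ne_zero (NeZero.ne f))) h7
      have h10 : (((hζ.autToPow ℚ b : (ZMod f)ˣ) : ZMod f).val : ZMod f) = (n : ZMod f) := by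
        rw [h9, ZMod.natCast_mod]
      rwa [ZMod.natCast_val, ZMod.cast_id', id] at h10
    have hκb : κ ((hζ.autToPow ℚ b : (ZMod f)ˣ) : ZMod f) = 1 := (hκ b).2 hbk
    have hb1 := hlog b
    have h11 := hlog 1
    rw [map_one, AlgEquiv.one_apply] at h11
    simp only [one_mul] at h11
    set χb : (ZMod f)ˣ := hζ.autToPow ℚ b with hχbd
    -- reindex
    have h12 : ∑ a : (ZMod f)ˣ, (κ (a : ZMod f) : ℝ) * hh f (a : ZMod f) *
        ell f ((χb * a⁻¹ : (ZMod f)ˣ) : ZMod f) =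
        ∑ a : (ZMod f)ˣ, (κ (a : ZMod f) : ℝ) * hh f (n * (a : ZMod f)) *
        ell f ((a⁻¹ : (ZMod f)ˣ) : ZMod f) := by
      symm
      refine Fintype.sum_equiv (Equiv.mulLeft χb) _ _ fun a => ?_
      have e1 : (κ (((Equiv.mulLeft χb) a : (ZMod f)ˣ) : ZMod f)) = κ (a : ZMod f) := by
        rw [Equiv.coe_mulLeft, Units.val_mul, map_mul, hκb, one_mul]
      have e2 : (((Equiv.mulLeft χb) a : (ZMod f)ˣ) : ZMod f) = n * (a : ZMod f) := by
        rw [Equiv.coe_mulLeft, Units.val_mul, hχb]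
      have e3 : χb * ((Equiv.mulLeft χb) a)⁻¹ = a⁻¹ := by
        rw [Equiv.coe_mulLeft, mul_inv, mul_inv_cancel_left]
      rw [e1, e2, e3]
    rw [h12] at hb1
    rw [h4]
    have hwr : (w : ℝ) ≠ 0 := by exact_mod_cast hw0
    have h13 : (w : ℝ) * Real.log ‖ι (α * z α)‖ = (w : ℝ) * (1 / 2 * ∑ u : (ZMod f)ˣ,
        (κ (u : ZMod f) : ℝ) * (hh f (n * (u : ZMod f)) - n * hh f (u : ZMod f)) *
          ell f ((u⁻¹ : (ZMod f)ˣ) : ZMod f)) := by
      rw [h6, hb1, h11, ← hw]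
      have h14 : ∑ u : (ZMod f)ˣ,
          (κ (u : ZMod f) : ℝ) * (hh f (n * (u : ZMod f)) - n * hh f (u : ZMod f)) *
          ell f ((u⁻¹ : (ZMod f)ˣ) : ZMod f) =
          ∑ a : (ZMod f)ˣ, (κ (a : ZMod f) : ℝ) * hh f (n * (a : ZMod f)) *
            ell f ((a⁻¹ : (ZMod f)ˣ) : ZMod f) -
          n * ∑ a : (ZMod f)ˣ, (κ (a : ZMod f) : ℝ) * hh f (a : ZMod f) *
            ell f ((a⁻¹ : (ZMod f)ˣ) : ZMod f) := by
        rw [Finset.mul_sum, ← Finset.sum_sub_distrib]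
        refine Finset.sum_congr rfl fun u _ => ?_
        ring
      rw [h14]
      ring
    exact mul_left_cancel₀ hwr h13

end

end Pool.Agent.StarkRQ
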