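import Pool.Agent.StarkRQ.Coeff
import Pool.Agent.StarkRQ.Restrict

/-!
# The coefficients in the Klein four case

`cnt_restrict`: `zcoeff_restrict` for `H = M₁`, and `zcoeff_eq_cnt` for `M/K` and `M₁/K`
(the automorphisms of `M/K` with the same restriction to `M₁` as `a` are `a` and `n₁ a`).

`zcoeff_klein`: if `n` is not prime to `f` everything is `0`. Otherwise, for `a ∈ Gal(M/K)` write
`Δ a = cnt K M n a - cnt K M n (z a)`. By `cnt_restrict`,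
`dcnt K Mᵢ (Pᵢ z) n (Pᵢ a) = Δ a + Δ (nᵢ a)`, and `Δ (n₂ a) = -Δ (n₁ a)` as `n₂ = z n₁`. So
`2 Δ a = ∑ᵢ dcnt K Mᵢ (Pᵢ z) n (Pᵢ a)`, and by `dcnt_eq` for `Mᵢ`, `K`, `kᵢ` the `i`-th term is
`dcnt kᵢ Mᵢ (Pᵢ z) n (Pᵢ a)` if `Pᵢ a ∈ fixG kᵢ Mᵢ` and `0` otherwise. Sum over the `a` with
restriction `σ` to `H`, using `zcoeff_restrict` for `H` as in `zcoeff_sub_sum` (`Lift2.lean`).
-/

open NumberField Module

namespace Pool.Agent.StarkRQ

/-- restriction of automorphisms to a Galois subfield -/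
noncomputable abbrev res (M₁ M : Type*) [Field M₁] [NumberField M₁] [Field M] [NumberField M]
    [Algebra M₁ M] [IsGalois ℚ M₁] : Gal(M/ℚ) →* Gal(M₁/ℚ) :=
  AlgEquiv.restrictNormalHom M₁

private lemma KleinCoeff_res_apply {M₁ M : Type*} [Field M₁] [NumberField M₁] [Field M]
    [NumberField M] [Algebra M₁ M] [IsGalois ℚ M₁] (s : Gal(M/ℚ)) (y : M₁) :
    algebraMap M₁ M (res M₁ M s y) = s (algebraMap M₁ M y) :=
  AlgEquiv.restrictNormal_commutes s M₁ y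

private lemma KleinCoeff_toG_restrict {K M₁ M : Type*} [Field K] [NumberField K] [Field M₁]
    [NumberField M₁] [Field M] [NumberField M] [Algebra K M] [Algebra K M₁] [Algebra M₁ M]
    [IsScalarTower K M₁ M] [IsGalois ℚ M₁] [IsGalois K M₁] (s : Gal(M/K)) :
    toG K M₁ (AlgEquiv.restrictNormalHom M₁ s) = res M₁ M (toG K M s) := by
  ext y
  apply (algebraMap M₁ M).injective
  rw [KleinCoeff_res_apply, toG_apply, toG_apply]
  exact AlgEquiv.restrictNormal_commutes s M₁ y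

private lemma KleinCoeff_comm {K M₁ M : Type*} [Field K] [NumberField K] [Field M₁]
    [NumberField M₁] [Field M] [NumberField M] [Algebra K M] [Algebra K M₁] [Algebra M₁ M]
    [IsScalarTower K M₁ M] [IsGalois K M] [IsGalois K M₁]
    (hA : ∀ σ τ : Gal(M/K), σ * τ = τ * σ) (σ τ : Gal(M₁/K)) : σ * τ = τ * σ := by
  obtain ⟨s, rfl⟩ := AlgEquiv.restrictNormalHom_surjective (F := K) (K₁ := M₁) M σ
  obtain ⟨t, rfl⟩ := AlgEquiv.restrictNormalHom_surjective (F := K) (K₁ := M₁) M τ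
  rw [← map_mul, hA, map_mul]

theorem cnt_restrict {K M₁ M : Type*} [Field K] [NumberField K] [Field M₁]
    [NumberField M₁] [Field M] [NumberField M] [Algebra K M] [Algebra K M₁] [Algebra M₁ M]
    [IsScalarTower K M₁ M] [IsGalois ℚ M] [IsGalois ℚ M₁] [IsGalois K M] [IsGalois K M₁]
    (hA : ∀ σ τ : Gal(M/K), σ * τ = τ * σ) {N : ℕ}
    (hram : ∀ p : ℕ, p.Prime → (p : ℤ) ∣ discr M → p ∣ N) {n₁ : Gal(M/ℚ)} (hn₁ : n₁ ≠ 1)
    (hker : ∀ g, res M₁ M g = 1 ↔ g = 1 ∨ g = n₁) (a : Gal(M/K)) (n : ℕ) (hn : n ≠ 0)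
    (hnN : n.Coprime N) :
    cnt K M₁ n (res M₁ M (toG K M a)) =
      cnt K M n (toG K M a) + cnt K M n (n₁ * toG K M a) := by
  classical
  have hram₁ : ∀ p : ℕ, p.Prime → (p : ℤ) ∣ discr M₁ → p ∣ N := fun p hp h =>
    hram p hp (h.trans (discr_dvd_discr M₁ M))
  have hA₁ : ∀ σ τ : Gal(M₁/K), σ * τ = τ * σ := KleinCoeff_comm (M := M) hA
  have hn₁K : n₁ ∈ fixG K M := by
    rw [mem_fixG]
    intro x
    have h1 : res M₁ M n₁ = 1 := (hker n₁).2 (Or.inr rfl)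
    rw [IsScalarTower.algebraMap_apply K M₁ M, ← KleinCoeff_res_apply, h1]
    rfl
  obtain ⟨nK, hnK⟩ := hn₁K
  have hres : ∀ t : Gal(M/K), AlgEquiv.restrictNormalHom M₁ t = AlgEquiv.restrictNormalHom M₁ a ↔
      t ∈ ({a, nK * a} : Finset Gal(M/K)) := by
    intro t
    simp only [Finset.mem_insert, Finset.mem_singleton]
    rw [← toG_injective.eq_iff, KleinCoeff_toG_restrict, KleinCoeff_toG_restrict,
      ← mul_inv_eq_one, ← map_inv, ← map_inv, ← map_mul, ← map_mul, hker]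
    constructor
    · rintro (h | h)
      · left
        have : t * a⁻¹ = 1 := toG_injective (by rw [h, map_one])
        exact mul_inv_eq_one.1 this
      · right
        have : t * a⁻¹ = nK := toG_injective (by rw [h, hnK])
        rw [← this, inv_mul_cancel_right]
    · rintro (rfl | rfl)
      · left
        rw [mul_inv_cancel, map_one]
      · right
        rw [mul_inv_cancel_right, hnK]
  have hne : nK * a ≠ a := by
    intro h
    have h1 : nK = 1 := by simpa using h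
    rw [h1, map_one] at hnK
    exact hn₁ hnK.symm
  rw [← KleinCoeff_toG_restrict, ← zcoeff_eq_cnt hA₁ hram₁ hn hnN,
    zcoeff_restrict (M := M) hA hram _ n hn]
  have e1 : (∑ᶠ t : {t : Gal(M/K) // AlgEquiv.restrictNormalHom M₁ t =
      AlgEquiv.restrictNormalHom M₁ a}, zcoeff N (t : Gal(M/K)) n) =
      ∑ t ∈ ({a, nK * a} : Finset Gal(M/K)), zcoeff N t n := by
    rw [finsum_eq_sum_of_fintype]
    symm
    exact Finset.sum_subtype _ (fun t => (hres t).symm) _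
  rw [e1, Finset.sum_pair hne.symm, zcoeff_eq_cnt hA hram hn hnN, zcoeff_eq_cnt hA hram hn hnN,
    map_mul, hnK]

/-- the `i`-th term -/
private lemma KleinCoeff_term {K k₁ M₁ M : Type*} [Field K] [NumberField K] [Field k₁]
    [NumberField k₁] [Field M₁] [NumberField M₁] [Field M] [NumberField M] [Algebra K M]
    [Algebra K M₁] [Algebra M₁ M] [Algebra k₁ M₁] [IsScalarTower K M₁ M] [IsGalois ℚ M]
    [IsGalois ℚ M₁] [IsGalois K M] [IsGalois K M₁] [IsGalois k₁ M₁]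
    (hK : finrank ℚ K = 2) (hk₁ : finrank ℚ k₁ = 2)
    (hA : ∀ σ τ : Gal(M/K), σ * τ = τ * σ) (hB₁ : ∀ σ τ : Gal(M₁/k₁), σ * τ = τ * σ) {f : ℕ}
    (hf : f ≠ 0) (hram : ∀ p : ℕ, p.Prime → (p : ℤ) ∣ discr M → p ∣ f)
    {z n₁ : Gal(M/ℚ)} (hzc : ∀ g, z * g = g * z) (hn₁ : n₁ ≠ 1)
    (hker₁ : ∀ g, res M₁ M g = 1 ↔ g = 1 ∨ g = n₁)
    (hz₁ : ZData (fixG K M₁) (fixG k₁ M₁) (res M₁ M z))
    {zK : Gal(M/K)} (hzK : toG K M zK = z)
    {z₁ : Gal(M₁/k₁)} (hzk₁ : toG k₁ M₁ z₁ = res M₁ M z)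
    (s₁ : Gal(M/K) → Gal(M₁/k₁)) (hs₁ : ∀ a, res M₁ M (toG K M a) ∈ fixG k₁ M₁ →
      toG k₁ M₁ (s₁ a) = res M₁ M (toG K M a)) (n : ℕ) (hn0 : n ≠ 0) (hco : n.Coprime f)
    [DecidablePred fun a : Gal(M/K) => res M₁ M (toG K M a) ∈ fixG k₁ M₁] (a : Gal(M/K)) :
    dcnt K M z n (toG K M a) + dcnt K M z n (n₁ * toG K M a) =
      if res M₁ M (toG K M a) ∈ fixG k₁ M₁ then
        ((zcoeff f (s₁ a) n : ℤ) - zcoeff f (z₁ * s₁ a) n) else 0 := by
  have hram₁ : ∀ p : ℕ, p.Prime → (p : ℤ) ∣ discr M₁ → p ∣ f := fun p hp h =>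
    hram p hp (h.trans (discr_dvd_discr M₁ M))
  have hA₁ : ∀ σ τ : Gal(M₁/K), σ * τ = τ * σ := KleinCoeff_comm (M := M) hA
  obtain ⟨h1, h2⟩ := dcnt_eq hK hk₁ hA₁ hB₁ hf hram₁ hz₁ n hn0 hco
  have h3 : dcnt K M₁ (res M₁ M z) n (res M₁ M (toG K M a)) =
      dcnt K M z n (toG K M a) + dcnt K M z n (n₁ * toG K M a) := by
    unfold dcnt
    rw [cnt_restrict hA hram hn₁ hker₁ a n hn0 hco]
    have h4 : res M₁ M z * res M₁ M (toG K M a) = res M₁ M (toG K M (zK * a)) := by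
      rw [map_mul, map_mul, hzK]
    rw [h4, cnt_restrict hA hram hn₁ hker₁ (zK * a) n hn0 hco, map_mul, hzK]
    have h5 : n₁ * (z * toG K M a) = z * (n₁ * toG K M a) := by
      rw [← mul_assoc, ← hzc, mul_assoc]
    rw [h5]
    push_cast
    ring
  rw [← h3]
  split_ifs with h
  · rw [h1, zcoeff_eq_cnt hB₁ hram₁ hn0 hco, zcoeff_eq_cnt hB₁ hram₁ hn0 hco, map_mul, hzk₁,
      hs₁ a h]
    rfl
  · exact h2 _ fun hh => h hh.2

theorem zcoeff_klein {K k₁ k₂ M₁ M₂ H M : Type*} [Field K] [NumberField K] [Field k₁]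
    [NumberField k₁] [Field k₂] [NumberField k₂] [Field M₁] [NumberField M₁] [Field M₂]
    [NumberField M₂] [Field H] [NumberField H] [Field M] [NumberField M] [Algebra K M]
    [Algebra K M₁] [Algebra K M₂] [Algebra M₁ M] [Algebra M₂ M] [Algebra k₁ M₁] [Algebra k₂ M₂]
    [Algebra K H] [Algebra H M] [IsScalarTower K M₁ M] [IsScalarTower K M₂ M]
    [IsScalarTower K H M] [IsGalois ℚ M] [IsGalois ℚ M₁] [IsGalois ℚ M₂] [IsGalois K M]
    [IsGalois K M₁] [IsGalois K M₂] [IsGalois k₁ M₁] [IsGalois k₂ M₂] [IsGalois K H]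
    (hK : finrank ℚ K = 2) (hk₁ : finrank ℚ k₁ = 2) (hk₂ : finrank ℚ k₂ = 2)
    (hA : ∀ σ τ : Gal(M/K), σ * τ = τ * σ) (hB₁ : ∀ σ τ : Gal(M₁/k₁), σ * τ = τ * σ)
    (hB₂ : ∀ σ τ : Gal(M₂/k₂), σ * τ = τ * σ) {f : ℕ} (hf : f ≠ 0)
    (hram : ∀ p : ℕ, p.Prime → (p : ℤ) ∣ discr M → p ∣ f)
    {z n₁ n₂ : Gal(M/ℚ)} (hzz : z * z = 1) (hzc : ∀ g, z * g = g * z)
    (hn₁ : n₁ ≠ 1) (hn₂ : n₂ ≠ 1) (hn : n₁ * n₂ = z)
    (hker₁ : ∀ g, res M₁ M g = 1 ↔ g = 1 ∨ g = n₁)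
    (hker₂ : ∀ g, res M₂ M g = 1 ↔ g = 1 ∨ g = n₂)
    (hz₁ : ZData (fixG K M₁) (fixG k₁ M₁) (res M₁ M z))
    (hz₂ : ZData (fixG K M₂) (fixG k₂ M₂) (res M₂ M z))
    {zK : Gal(M/K)} (hzK : toG K M zK = z)
    {z₁ : Gal(M₁/k₁)} (hzk₁ : toG k₁ M₁ z₁ = res M₁ M z)
    {z₂ : Gal(M₂/k₂)} (hzk₂ : toG k₂ M₂ z₂ = res M₂ M z)
    (s₁ : Gal(M/K) → Gal(M₁/k₁)) (hs₁ : ∀ a, res M₁ M (toG K M a) ∈ fixG k₁ M₁ →
      toG k₁ M₁ (s₁ a) = res M₁ M (toG K M a))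
    (s₂ : Gal(M/K) → Gal(M₂/k₂)) (hs₂ : ∀ a, res M₂ M (toG K M a) ∈ fixG k₂ M₂ →
      toG k₂ M₂ (s₂ a) = res M₂ M (toG K M a))
    (σ : Gal(H/K)) (T₁ T₂ : Finset Gal(M/K))
    (hT₁ : ∀ a, a ∈ T₁ ↔ AlgEquiv.restrictNormalHom H a = σ ∧
      res M₁ M (toG K M a) ∈ fixG k₁ M₁)
    (hT₂ : ∀ a, a ∈ T₂ ↔ AlgEquiv.restrictNormalHom H a = σ ∧
      res M₂ M (toG K M a) ∈ fixG k₂ M₂) (n : ℕ) (hn0 : n ≠ 0) :
    2 * ((zcoeff f σ n : ℤ) - zcoeff f (AlgEquiv.restrictNormalHom H zK * σ) n) =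
      ∑ a ∈ T₁, ((zcoeff f (s₁ a) n : ℤ) - zcoeff f (z₁ * s₁ a) n) +
      ∑ a ∈ T₂, ((zcoeff f (s₂ a) n : ℤ) - zcoeff f (z₂ * s₂ a) n) := by
  classical
  by_cases hco : n.Coprime f
  swap
  · simp [zcoeff, hco]
  -- the sums over the lifts
  set T : Finset Gal(M/K) := Finset.univ.filter fun s => AlgEquiv.restrictNormalHom H s = σ with hT
  have hsum : ∀ (ρ : Gal(H/K)), (zcoeff f ρ n : ℤ) =
      ∑ s ∈ Finset.univ.filter (fun s : Gal(M/K) => AlgEquiv.restrictNormalHom H s = ρ),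
        (cnt K M n (toG K M s) : ℤ) := by
    intro ρ
    rw [zcoeff_restrict (M := M) hA hram _ n hn0, finsum_eq_sum_of_fintype]
    push_cast
    symm
    rw [← Finset.sum_subtype (Finset.univ.filter fun s : Gal(M/K) =>
      AlgEquiv.restrictNormalHom H s = ρ) (by simp) (fun s => (zcoeff f s n : ℤ))]
    refine Finset.sum_congr rfl fun s _ => ?_
    rw [zcoeff_eq_cnt hA hram hn0 hco]
  have hz2 : (∑ s ∈ Finset.univ.filter (fun s : Gal(M/K) => AlgEquiv.restrictNormalHom H s =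
      AlgEquiv.restrictNormalHom H zK * σ), (cnt K M n (toG K M s) : ℤ)) =
      ∑ s ∈ T, (cnt K M n (z * toG K M s) : ℤ) := by
    symm
    refine Finset.sum_bij (fun s _ => zK * s) ?_ ?_ ?_ ?_
    · intro s hs
      simp only [hT, Finset.mem_filter, Finset.mem_univ, true_and] at hs ⊢
      rw [map_mul, hs]
    · intro s _ t _ h
      exact mul_left_cancel h
    · intro s hs
      simp only [Finset.mem_filter, Finset.mem_univ, true_and] at hs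
      refine ⟨zK⁻¹ * s, ?_, mul_inv_cancel_left _ _⟩
      simp only [hT, Finset.mem_filter, Finset.mem_univ, true_and]
      rw [map_mul, map_inv, hs, inv_mul_cancel_left]
    · intro s _
      rw [map_mul, hzK]
  rw [hsum, hsum, hz2, ← Finset.sum_sub_distrib, Finset.mul_sum]
  have hn₂' : ∀ g, dcnt K M z n (n₂ * g) = - dcnt K M z n (n₁ * g) := by
    intro g
    have h1 : n₁ * n₁ = 1 := by
      have h2 : res M₁ M (n₁ * n₁) = 1 := by
        rw [map_mul, (hker₁ n₁).2 (Or.inr rfl), one_mul]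
      rcases (hker₁ _).1 h2 with h | h
      · exact h
      · exact absurd (by simpa using h) hn₁
    have h2 : n₂ = z * n₁ := by
      have h3 : n₂ = n₁ * z := by rw [← hn, ← mul_assoc, h1, one_mul]
      rw [h3, hzc]
    rw [h2, mul_assoc, dcnt_z_mul hzz]
  have hterm : ∀ s : Gal(M/K), 2 * ((cnt K M n (toG K M s) : ℤ) - cnt K M n (z * toG K M s)) =
      (if res M₁ M (toG K M s) ∈ fixG k₁ M₁ then
        ((zcoeff f (s₁ s) n : ℤ) - zcoeff f (z₁ * s₁ s) n) else 0) +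
      (if res M₂ M (toG K M s) ∈ fixG k₂ M₂ then
        ((zcoeff f (s₂ s) n : ℤ) - zcoeff f (z₂ * s₂ s) n) else 0) := by
    intro s
    rw [← KleinCoeff_term hK hk₁ hA hB₁ hf hram hzc hn₁ hker₁ hz₁ hzK hzk₁ s₁ hs₁ n hn0 hco s,
      ← KleinCoeff_term hK hk₂ hA hB₂ hf hram hzc hn₂ hker₂ hz₂ hzK hzk₂ s₂ hs₂ n hn0 hco s,
      hn₂']
    change 2 * dcnt K M z n (toG K M s) = _
    ring
  rw [Finset.sum_congr rfl fun s _ => hterm s, Finset.sum_add_distrib, ← Finset.sum_filter,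
    ← Finset.sum_filter]
  have hT₁' : T.filter (fun s => res M₁ M (toG K M s) ∈ fixG k₁ M₁) = T₁ := by
    ext a
    rw [hT₁, Finset.mem_filter, hT, Finset.mem_filter]
    simp
  have hT₂' : T.filter (fun s => res M₂ M (toG K M s) ∈ fixG k₂ M₂) = T₂ := by
    ext a
    rw [hT₂, Finset.mem_filter, hT, Finset.mem_filter]
    simp
  rw [hT₁', hT₂']

end Pool.Agent.StarkRQ
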