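import Pool.Agent.StarkRQ.Branch
import Pool.Agent.StarkRQ.Chars
import Pool.Agent.StarkRQ.KleinCoeff

/-!
# One Shintani extension inside a larger field
-/

open NumberField Module

namespace Pool.Agent.StarkRQ

lemma res_apply {M₁ M : Type*} [Field M₁] [NumberField M₁] [Field M] [NumberField M]
    [Algebra M₁ M] [IsGalois ℚ M₁] (g : Gal(M/ℚ)) (x : M₁) :
    algebraMap M₁ M (res M₁ M g x) = g (algebraMap M₁ M x) :=
  AlgEquiv.restrictNormal_commutes g M₁ x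

lemma mem_fixG_iff_res {K M₁ M : Type*} [Field K] [NumberField K] [Field M₁] [NumberField M₁]
    [Field M] [NumberField M] [Algebra K M] [Algebra K M₁] [Algebra M₁ M] [IsScalarTower K M₁ M]
    [IsGalois ℚ M₁] (g : Gal(M/ℚ)) : g ∈ fixG K M ↔ res M₁ M g ∈ fixG K M₁ := by
  rw [mem_fixG, mem_fixG]
  constructor
  · intro h x
    apply (algebraMap M₁ M).injective
    rw [res_apply, ← IsScalarTower.algebraMap_apply, h]
  · intro h x
    rw [IsScalarTower.algebraMap_apply K M₁ M, ← res_apply, h]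

/-- a primitive root of unity with prescribed image in `ℂ` -/
lemma exists_zeta {M : Type*} [Field M] {f : ℕ} [NeZero f] {ζ : M} (hζ : IsPrimitiveRoot ζ f)
    (ι : M →+* ℂ) : ∃ j j' : ℕ, IsPrimitiveRoot (ζ ^ j) f ∧
      ι (ζ ^ j) = Complex.exp (2 * Real.pi * Complex.I / f) ∧ (ζ ^ j) ^ j' = ζ := by
  have h1 := Complex.isPrimitiveRoot_exp f (NeZero.ne f)
  have h2 : IsPrimitiveRoot (ι ζ) f := hζ.map_of_injective ι.injective
  obtain ⟨j, -, hj⟩ := h2.eq_pow_of_pow_eq_one h1.pow_eq_one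
  obtain ⟨j', -, hj'⟩ := h1.eq_pow_of_pow_eq_one h2.pow_eq_one
  refine ⟨j, j', ?_, by rw [map_pow, hj], ι.injective (by rw [map_pow, map_pow, hj, hj'])⟩
  refine IsPrimitiveRoot.of_map_of_injective (f := ι) ?_ ι.injective
  rw [map_pow, hj]
  exact h1

/-- the action of an automorphism on the roots of unity -/
lemma exists_pow_action {M : Type*} [Field M] [NumberField M] (b : Gal(M/ℚ)) :
    ∃ n : ℕ, Odd n ∧ n.Coprime (Units.torsionOrder M) ∧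
      ∀ ξ : M, ∀ m : ℕ, 0 < m → ξ ^ m = 1 → b ξ = ξ ^ n := by
  have hw0 : Units.torsionOrder M ≠ 0 := Units.torsionOrder_ne_zero M
  have : NeZero (Units.torsionOrder M) := ⟨hw0⟩
  obtain ⟨ω, hω⟩ := exists_primRoot M
  have h1 := hω.autToPow_spec ℚ b
  set n := ((hω.autToPow ℚ b : (ZMod (Units.torsionOrder M))ˣ) :
    ZMod (Units.torsionOrder M)).val with hn
  have hcop : n.Coprime (Units.torsionOrder M) := ZMod.val_coe_unit_coprime _
  have heven : 2 ∣ Units.torsionOrder M := by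
    have h3 : IsPrimitiveRoot (-1 : M) 2 := IsPrimitiveRoot.neg_one 0 (by norm_num)
    exact Units.dvd_torsionOrder_of_isPrimitiveRoot h3
  refine ⟨n, ?_, hcop, ?_⟩
  · rw [← Nat.coprime_two_right]
    exact Nat.Coprime.coprime_dvd_right heven hcop
  · intro ξ m hm hξ
    have h4 : IsOfFinOrder ξ := isOfFinOrder_iff_pow_eq_one.2 ⟨m, hm, hξ⟩
    have : NeZero (orderOf ξ) := ⟨(orderOf_pos_iff.2 h4).ne'⟩
    have h5 : orderOf ξ ∣ Units.torsionOrder M :=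
      Units.dvd_torsionOrder_of_isPrimitiveRoot (IsPrimitiveRoot.orderOf ξ)
    obtain ⟨i, -, rfl⟩ := hω.eq_pow_of_pow_eq_one (orderOf_dvd_iff_pow_eq_one.1 h5)
    rw [map_pow, ← h1, ← pow_mul, ← pow_mul, mul_comm]

/-- sums over two halves of a set with an involution -/
lemma sum_filter_half {I : Type*} (T : Finset I) (φ : I → I) (hφ : ∀ a, φ (φ a) = a)
    (hT : ∀ a ∈ T, φ a ∈ T) (p₁ p₂ : I → Prop) [DecidablePred p₁] [DecidablePred p₂]
    (h₁ : ∀ a, p₁ (φ a) ↔ ¬ p₁ a) (h₂ : ∀ a, p₂ (φ a) ↔ ¬ p₂ a) (g : I → ℝ)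
    (hg : ∀ a, g (φ a) = g a) : ∑ a ∈ T.filter p₁, g a = ∑ a ∈ T.filter p₂, g a := by
  have key : ∀ (p : I → Prop) [DecidablePred p], (∀ a, p (φ a) ↔ ¬ p a) →
      2 * ∑ a ∈ T.filter p, g a = ∑ a ∈ T, g a := by
    intro p _ hp
    rw [← Finset.sum_filter_add_sum_filter_not T p, two_mul]
    congr 1
    refine Finset.sum_bij (fun a _ => φ a) ?_ ?_ ?_ ?_
    · intro a ha
      rw [Finset.mem_filter] at ha ⊢
      exact ⟨hT a ha.1, fun h => (hp a).1 h ha.2⟩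
    · intro a _ a' _ h
      rw [← hφ a, ← hφ a', h]
    · intro a ha
      rw [Finset.mem_filter] at ha
      exact ⟨φ a, by rw [Finset.mem_filter]; exact ⟨hT a ha.1, (hp a).2 ha.2⟩, hφ a⟩
    · intro a _
      rw [hg]
  have e1 := key p₁ h₁
  have e2 := key p₂ h₂
  linarith

section

variable {M M₁ K k₁ : Type} [Field M] [NumberField M] [IsGalois ℚ M] [Field M₁] [NumberField M₁]
  [IsGalois ℚ M₁] [Field K] [NumberField K] [Field k₁] [NumberField k₁] [Algebra K M]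
  [Algebra K M₁] [Algebra M₁ M] [IsScalarTower K M₁ M] [Algebra k₁ M₁]

theorem branch_in [IsTotallyReal K] [IsTotallyComplex k₁] (hK : finrank ℚ K = 2)
    (hk₁ : finrank ℚ k₁ = 2) [IsAbelianGalois K M₁] [IsAbelianGalois k₁ M₁] {ι : M →+* ℂ}
    {c : Gal(M/ℚ)} (hc : ∀ x, ι (c x) = starRingEnd ℂ (ι x)) {f : ℕ} [NeZero f] (hf : 2 < f)
    (hf4 : f % 4 ≠ 2) (hpp : ¬ IsPrimePow f)
    (hram : ∀ p : ℕ, p.Prime → (p : ℤ) ∣ discr M → p ∣ f) {ζ : M} (hζ : IsPrimitiveRoot ζ f)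
    (hιζ : ι ζ = Complex.exp (2 * Real.pi * Complex.I / f))
    (hζ₁ : ζ ∈ (algebraMap M₁ M).range) (hdeg₁ : finrank ℚ M₁ = 2 * f.totient)
    {z b : Gal(M/ℚ)} (hz : ZData (fixG K M₁) (fixG k₁ M₁) (res M₁ M z)) (hz1 : res M₁ M z ≠ 1)
    (hzζ : z ζ = ζ) (hbk : res M₁ M b ∈ fixG k₁ M₁) (hbK : b ∉ fixG K M)
    {n : ℕ} (hn : Odd n) (hbn : ∀ ξ : M, ∀ m : ℕ, 0 < m → ξ ^ m = 1 → b ξ = ξ ^ n)
    {η : (𝓞 M₁)ˣ}
    (hη : IsStarkUnit k₁ (ι.comp (algebraMap M₁ M)) f (algebraMap (𝓞 M₁) M₁ η)) :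
    ∃ κ : DirichletCharacter ℤ f, κ (-1) = -1 ∧ ∃ x : M₁,
      x ^ Units.torsionOrder M₁ = algebraMap (𝓞 M₁) M₁ η / res M₁ M z (algebraMap (𝓞 M₁) M₁ η) ∧
      c (algebraMap M₁ M x) = algebraMap M₁ M x ∧
      algebraMap M₁ M x * z (algebraMap M₁ M x) = 1 ∧ x ≠ 0 ∧
      IsIntegral ℤ x ∧ IsIntegral ℤ x⁻¹ ∧
      ∃ a : M, a ≠ 0 ∧
        (∀ g ∈ fixG K M, ∃ r : ℝ, 0 < r ∧ ι (g a) = r * ι (g (algebraMap M₁ M x))) ∧
        Real.log ‖ι a‖ = 1 / 2 * ∑ u : (ZMod f)ˣ, (κ (u : ZMod f) : ℝ) *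
          (hh f (n * (u : ZMod f)) - n * hh f (u : ZMod f)) *
          ell f ((u⁻¹ : (ZMod f)ˣ) : ZMod f) := by
  obtain ⟨ζ₁, hζ₁'⟩ := hζ₁
  have hinj := (algebraMap M₁ M).injective
  have hζp : IsPrimitiveRoot ζ₁ f := by
    refine IsPrimitiveRoot.of_map_of_injective (f := algebraMap M₁ M) ?_ hinj
    rw [hζ₁']
    exact hζ
  have hc' : ∀ x : M₁, (ι.comp (algebraMap M₁ M)) (res M₁ M c x) =
      starRingEnd ℂ ((ι.comp (algebraMap M₁ M)) x) := by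
    intro x
    rw [RingHom.comp_apply, res_apply, hc, RingHom.comp_apply]
  have hram' : ∀ p : ℕ, p.Prime → (p : ℤ) ∣ discr M₁ → p ∣ f := fun p hp h =>
    hram p hp (h.trans (discr_dvd_discr M₁ M))
  have hzζ₁ : res M₁ M z ζ₁ = ζ₁ := hinj (by rw [res_apply, hζ₁', hzζ])
  have hfix : ∀ g : Gal(M₁/ℚ), g ζ₁ = ζ₁ → g = 1 ∨ g = res M₁ M z := by
    intro g hg
    have h2 := card_fix hζp hdeg₁
    obtain ⟨y, -, hy2⟩ := (Nat.card_eq_two_iff' (⟨1, rfl⟩ : {g : Gal(M₁/ℚ) // g ζ₁ = ζ₁})).1 h2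
    by_cases h1 : g = 1
    · exact Or.inl h1
    · right
      have e1 := hy2 ⟨g, hg⟩ (fun h => h1 (congrArg Subtype.val h))
      have e2 := hy2 ⟨res M₁ M z, hzζ₁⟩ (fun h => hz1 (congrArg Subtype.val h))
      exact congrArg Subtype.val (e1.trans e2.symm)
  obtain ⟨κ, hκ⟩ := exists_kappa (hζp.autToPow ℚ) (chi_surjective hζp) (fixG k₁ M₁)
    (fixG_index hk₁) (by
      intro g hg
      rw [MonoidHom.mem_ker] at hg
      have h1 := hζp.autToPow_spec ℚ g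
      rw [hg] at h1
      have : Fact (1 < f) := ⟨by omega⟩
      rw [Units.val_one, ZMod.val_one, pow_one] at h1
      rcases hfix g h1.symm with rfl | rfl
      · exact Subgroup.one_mem _
      · exact hz.mem_B)
  have hbK' : res M₁ M b ∉ fixG K M₁ := fun h => hbK ((mem_fixG_iff_res b).2 h)
  have hηi : IsIntegral ℤ (algebraMap (𝓞 M₁) M₁ η) := RingOfIntegers.isIntegral_coe _
  have hηi' : IsIntegral ℤ (algebraMap (𝓞 M₁) M₁ η)⁻¹ := by
    have : (algebraMap (𝓞 M₁) M₁ η)⁻¹ = algebraMap (𝓞 M₁) M₁ ((η⁻¹ : (𝓞 M₁)ˣ) : 𝓞 M₁) := by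
      symm
      apply eq_inv_of_mul_eq_one_left
      rw [← map_mul, ← Units.val_mul, inv_mul_cancel, Units.val_one, map_one]
    rw [this]
    exact RingOfIntegers.isIntegral_coe _
  have hbn' : ∀ ξ : M₁, ξ ^ Units.torsionOrder M₁ = 1 → res M₁ M b ξ = ξ ^ n := by
    intro ξ hξ
    apply hinj
    rw [res_apply, map_pow]
    exact hbn _ (Units.torsionOrder M₁) (Nat.pos_of_ne_zero (Units.torsionOrder_ne_zero M₁)) (by
      rw [← map_pow, hξ, map_one])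
  obtain ⟨x, h1, h2, h3, h4, h5, h6, a, h7, h8, h9⟩ := branch (K := K) hK hk₁ hc' hf hf4 hpp hram'
    hζp (by rw [RingHom.comp_apply, hζ₁', hιζ]) hz hz1 hfix hbk hbK' hn hbn' κ hκ hη hηi hηi'
  refine ⟨κ, ?_, x, h1, ?_, ?_, h4, h5, h6, algebraMap M₁ M a, ?_, ?_, h9⟩
  · have e1 : κ (-1) ≠ 1 := by
      intro h
      have hck : res M₁ M c ∉ fixG k₁ M₁ := cc_notMem_fixG hc'
      apply hck
      rw [← hκ, chi_cc hζp hc', h]
    have e2 : κ (-1) * κ (-1) = 1 := by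
      rw [← map_mul, neg_one_mul, neg_neg, map_one]
    rcases Int.mul_eq_one_iff_eq_one_or_neg_one.1 e2 with ⟨h3, -⟩ | ⟨h3, -⟩
    · exact absurd h3 e1
    · exact h3
  · rw [← res_apply, h2]
  · rw [← res_apply, ← map_mul, h3, map_one]
  · exact fun h => h7 (hinj (by rw [h, map_zero]))
  · intro g hg
    obtain ⟨r, hr, hr2⟩ := h8 (res M₁ M g) ((mem_fixG_iff_res g).1 hg)
    refine ⟨r, hr, ?_⟩
    rw [RingHom.comp_apply, res_apply, RingHom.comp_apply, res_apply] at hr2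
    exact hr2

end

end Pool.Agent.StarkRQ
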