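import Pool.Agent.StarkRQ.Shintani

/-!
# Complex conjugation multiplies a Stark unit by a root of unity

The proof is the block `hcη` in the proof of `shintani` (`Shintani.lean`).
-/

open NumberField Module

namespace Pool.Agent.StarkRQ

theorem cc_eta {M : Type} [Field M] [NumberField M] [IsGalois ℚ M]
    {K k : Type} [Field K] [NumberField K] [Field k] [NumberField k]
    [Algebra K M] [Algebra k M] [IsTotallyReal K] [IsTotallyComplex k] (hK : finrank ℚ K = 2)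
    (hk : finrank ℚ k = 2) [IsAbelianGalois K M] [IsAbelianGalois k M] {ι : M →+* ℂ}
    {N : ℕ} (hN : N ≠ 0)
    (hram : ∀ p : ℕ, p.Prime → (p : ℤ) ∣ discr M → p ∣ N) {η : M} (hη : IsStarkUnit k ι N η)
    {c : Gal(M/ℚ)} (hc : ∀ x, ι (c x) = starRingEnd ℂ (ι x)) :
    ∃ v : M, v ^ Units.torsionOrder M = 1 ∧ c η = v * η := by
  classical
  have hB : ∀ σ τ : Gal(M/k), σ * τ = τ * σ := fun σ τ => mul_comm' σ τ
  have hcc : c * c = 1 := by
    ext x
    apply ι.injective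
    change ι (c (c x)) = ι x
    rw [hc, hc, Complex.conj_conj]
  have hck : c ∉ fixG k M := cc_notMem_fixG hc
  set w := Units.torsionOrder M with hw
  have : NeZero w := ⟨Units.torsionOrder_ne_zero M⟩
  have hη0 := hη.ne_zero
  have hnor : (fixG k M).Normal := Subgroup.normal_of_index_eq_two (fixG_index (M := M) hk)
  have hnorm : ∀ σ : Gal(M/k), ‖ι (σ (c η))‖ = ‖ι (σ η)‖ := by
    intro σ
    have hmem : c⁻¹ * toG k M σ * c ∈ fixG k M := by
      have := hnor.conj_mem (toG k M σ) ⟨σ, rfl⟩ c⁻¹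
      rwa [inv_inv] at this
    obtain ⟨σ', hσ'⟩ := hmem
    have h1 : ∀ y : M, σ (c y) = c (σ' y) := by
      intro y
      have : toG k M σ * c = c * toG k M σ' := by rw [hσ']; group
      exact DFunLike.congr_fun this y
    obtain ⟨Z₁, hZ₁, hd₁⟩ := hη.deriv_zeta σ
    obtain ⟨Z₂, hZ₂, hd₂⟩ := hη.deriv_zeta σ'
    have hcoef : ∀ n : ℕ, n ≠ 0 → (zcoeff N σ n : ℤ) - zcoeff N σ' n =
        (zcoeff N σ n : ℤ) - zcoeff N σ n := by
      intro n hn
      by_cases hco : n.Coprime N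
      · rw [zcoeff_eq_cnt hB hram hn hco, zcoeff_eq_cnt hB hram hn hco, hσ']
        have := cnt_conj (M := M) hk hB hN hram n hn hco c⁻¹ (toG k M σ)
        rw [inv_inv] at this
        rw [this]
      · simp [zcoeff, hco]
    have h2 := deriv_sub_eq hZ₁ hZ₂ hZ₁ hZ₁ hcoef
    rw [sub_self, sub_eq_zero, hd₁, hd₂] at h2
    have hwc : (w : ℂ) ≠ 0 := by exact_mod_cast NeZero.ne w
    have h3 := mul_left_cancel₀ (neg_ne_zero.2 (one_div_ne_zero hwc)) h2
    have h4 : Real.log (‖ι (σ η)‖ ^ 2) = Real.log (‖ι (σ' η)‖ ^ 2) := by exact_mod_cast h3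
    have hp : ∀ τ : Gal(M/k), 0 < ‖ι (τ η)‖ := by
      intro τ
      rw [norm_pos_iff]
      exact fun h => hη0 (τ.injective (ι.injective (by rw [h, map_zero, map_zero])))
    have h5 := Real.log_injOn_pos (Set.mem_Ioi.2 (pow_pos (hp σ) 2))
      (Set.mem_Ioi.2 (pow_pos (hp σ') 2)) h4
    have h6 : ‖ι (σ η)‖ = ‖ι (σ' η)‖ :=
      (pow_left_inj₀ (hp σ).le (hp σ').le two_ne_zero).1 h5
    rw [h1, hc, RCLike.norm_conj, h6]
  have hvint : IsIntegral ℤ (c η / η) := hη.isIntegral c.toRingEquiv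
  have hcη0 : c η ≠ 0 := fun h => hη0 (c.injective (by rw [h, map_zero]))
  have hvk : ∀ σ : Gal(M/k), ‖ι (σ (c η / η))‖ = 1 := by
    intro σ
    have hp : ‖ι (σ η)‖ ≠ 0 := by
      rw [norm_ne_zero_iff]
      exact fun h => hη0 (σ.injective (ι.injective (by rw [h, map_zero, map_zero])))
    rw [map_div₀, map_div₀, norm_div, hnorm, div_self hp]
  have hall : ∀ f : M →+* ℂ, ‖f (c η / η)‖ = 1 := by
    intro f
    obtain ⟨γ, hγ⟩ := exists_comp ι f
    rw [hγ]
    by_cases hγk : γ ∈ fixG k M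
    · obtain ⟨σ, rfl⟩ := hγk
      exact hvk σ
    · have hmem : c * γ ∈ fixG k M := mul_mem_of_index_two (fixG_index (M := M) hk) hck hγk
      obtain ⟨σ, hσ⟩ := hmem
      have h1 : γ (c η / η) = c (σ (c η / η)) := by
        have : γ = c * toG k M σ := by rw [hσ, ← mul_assoc, hcc, one_mul]
        rw [this]; rfl
      rw [h1, hc, RCLike.norm_conj, hvk]
  obtain ⟨n, hn0, hn⟩ := Embeddings.pow_eq_one_of_norm_eq_one M ℂ hvint hall
  refine ⟨c η / η, ?_, by rw [div_mul_cancel₀ _ hη0]⟩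
  have hfin : IsOfFinOrder (c η / η) := isOfFinOrder_iff_pow_eq_one.2 ⟨n, hn0, hn⟩
  have : NeZero (orderOf (c η / η)) := ⟨(orderOf_pos_iff.2 hfin).ne'⟩
  have hdvd := Units.dvd_torsionOrder_of_isPrimitiveRoot (IsPrimitiveRoot.orderOf (c η / η))
  exact orderOf_dvd_iff_pow_eq_one.1 hdvd

end Pool.Agent.StarkRQ
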