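import Pool.Agent.StarkRQ.Base

/-!
# The order of the commutator subgroup

By `hmax` the fixed field of the commutator subgroup `D` of `Gal(M/ℚ)` is contained in `ℚ(ζ)`
(`x` is fixed by all commutators iff `σ τ x = τ σ x` for all `σ, τ`), and it contains `ζ`, because
automorphisms commute on roots of unity. So `M^D = ℚ(ζ)`, and `|D| = [M : ℚ(ζ)] = m`
(`IntermediateField.finrank_fixedField_eq_card`, `[ℚ(ζ) : ℚ] = φ f`:
`IsCyclotomicExtension.finrank` or the degree of the minimal polynomial of `ζ`,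
`Polynomial.cyclotomic_eq_minpoly_rat`).
-/

open NumberField Module
open scoped commutatorElement

namespace Pool.Agent.StarkRQ

theorem card_commutator {M : Type*} [Field M] [NumberField M] [IsGalois ℚ M] {f : ℕ} [NeZero f]
    {ζ : M} (hζ : IsPrimitiveRoot ζ f)
    (hmax : ∀ x : M, (∀ σ τ : Gal(M/ℚ), σ (τ x) = τ (σ x)) →
      x ∈ IntermediateField.adjoin ℚ {ζ})
    {m : ℕ} (hdeg : finrank ℚ M = m * Nat.totient f) :
    Nat.card (commutator Gal(M/ℚ)) = m := by
  have hF : IntermediateField.fixedField (commutator Gal(M/ℚ)) =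
      IntermediateField.adjoin ℚ {ζ} := by
    apply le_antisymm
    · intro x hx
      apply hmax
      intro σ τ
      have h1 : ⁅σ⁻¹, τ⁻¹⁆ ∈ commutator Gal(M/ℚ) :=
        Subgroup.commutator_mem_commutator (Subgroup.mem_top _) (Subgroup.mem_top _)
      have h2 : ⁅σ⁻¹, τ⁻¹⁆ x = x := hx ⟨_, h1⟩
      have h3 : (τ * σ) * ⁅σ⁻¹, τ⁻¹⁆ = σ * τ := by
        rw [commutatorElement_def]
        group
      have h4 := congrArg (fun g : Gal(M/ℚ) => g x) h3
      simp only [AlgEquiv.mul_apply] at h4
      rw [h2] at h4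
      exact h4.symm
    · rw [IntermediateField.adjoin_simple_le_iff]
      rintro ⟨g, hg⟩
      have h1 : hζ.autToPow ℚ g = 1 :=
        (Abelianization.commutator_subset_ker (hζ.autToPow ℚ)) hg
      have h2 := hζ.autToPow_spec ℚ g
      rw [h1, Units.val_one, ZMod.val_one_eq_one_mod] at h2
      rw [hζ.eq_orderOf, pow_mod_orderOf, pow_one] at h2
      exact h2.symm
  have h1 : finrank ℚ (IntermediateField.adjoin ℚ {ζ}) = Nat.totient f := by
    rw [IntermediateField.adjoin.finrank (hζ.isIntegral (NeZero.pos f)).tower_top,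
      ← Polynomial.cyclotomic_eq_minpoly_rat hζ (NeZero.pos f), Polynomial.natDegree_cyclotomic]
  have h2 := finrank_mul_finrank ℚ (IntermediateField.adjoin ℚ {ζ}) M
  have h3 := IntermediateField.finrank_fixedField_eq_card (commutator Gal(M/ℚ))
  rw [hF] at h3
  rw [h1, h3, hdeg, mul_comm m] at h2
  exact Nat.eq_of_mul_eq_mul_left (Nat.totient_pos.2 (NeZero.pos f)) h2

end Pool.Agent.StarkRQ
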