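import Pool.Agent.StarkRQ.Base

/-!
PACKAGE SRQ1.  Ideals of norm `m * n` with `m, n` coprime are uniquely products of an ideal of norm
`m` and one of norm `n`.

Proof. The map `(b, c) ↦ b * c` is a bijection from `{N b = m} × {N c = n}` onto `{N a = m n}`.
Surjective: `a ∣ span {m * n} = span {m} * span {n}` (`Ideal.absNorm_mem`, `Ideal.dvd_span_singleton`),
so `a = b * c` with `b ∣ span {m}`, `c ∣ span {n}` (`exists_dvd_and_dvd_of_dvd_mul`, ideals of a
Dedekind domain are a `DecompositionMonoid`); `absNorm b ∣ m ^ d`, `absNorm c ∣ n ^ d`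
(`Ideal.absNorm_span_singleton`, `Algebra.norm_algebraMap`/`Ideal.absNorm_span_natCast`),
`absNorm b * absNorm c = m * n`, coprimality gives `absNorm b = m`, `absNorm c = n`.
Injective: `b * c = b' * c'` with `N b = N b' = m`, `N c = N c' = n`: `b` and `c'` are coprime
(`m ∈ b`, `n ∈ c'`), so `b ∣ b'` and `b' ∣ b`.
All sets `{a // absNorm a = k}`, `k ≠ 0`, are finite (`Ideal.finite_setOfPred_absNorm_eq` or similar).
Then use `Nat.card_congr` with a sigma type over `h : G`.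
-/

open NumberField

namespace Pool.Agent.StarkRQ

private theorem conv_norm_dvd {F : Type*} [Field F] [NumberField F] {b : Ideal (𝓞 F)} {m : ℕ}
    (h : b ∣ Ideal.span {(m : 𝓞 F)}) : ∃ d, Ideal.absNorm b ∣ m ^ d := by
  have h1 : Ideal.absNorm b ∣ Ideal.absNorm (Ideal.span {(m : 𝓞 F)}) := map_dvd Ideal.absNorm h
  rw [Ideal.absNorm_span_singleton] at h1
  have h2 : (Algebra.norm ℤ (m : 𝓞 F)).natAbs = m ^ Module.finrank ℤ (𝓞 F) := by
    have h3 : (m : 𝓞 F) = algebraMap ℤ (𝓞 F) (m : ℤ) := by simp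
    rw [h3, Algebra.norm_algebraMap, Int.natAbs_pow, Int.natAbs_natCast]
  rw [h2] at h1
  exact ⟨_, h1⟩

private theorem conv_exists {F : Type*} [Field F] [NumberField F] {a : Ideal (𝓞 F)} {m n : ℕ}
    (hm : m ≠ 0) (hn : n ≠ 0) (hmn : m.Coprime n) (ha : Ideal.absNorm a = m * n) :
    ∃ b c : Ideal (𝓞 F), Ideal.absNorm b = m ∧ Ideal.absNorm c = n ∧ b * c = a := by
  have h1 : a ∣ Ideal.span {(m : 𝓞 F)} * Ideal.span {(n : 𝓞 F)} := by
    rw [Ideal.span_singleton_mul_span_singleton, Ideal.dvd_span_singleton]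
    have h2 := Ideal.absNorm_mem a
    rw [ha] at h2
    exact_mod_cast h2
  obtain ⟨b, c, hb, hc, habc⟩ := exists_dvd_and_dvd_of_dvd_mul h1
  have hbc : Ideal.absNorm b * Ideal.absNorm c = m * n := by
    rw [← map_mul, ← habc, ha]
  obtain ⟨d, hd⟩ := conv_norm_dvd hb
  obtain ⟨e, he⟩ := conv_norm_dvd hc
  have hbm : Ideal.absNorm b ∣ m := by
    refine Nat.Coprime.dvd_of_dvd_mul_right (k := Ideal.absNorm b) (n := n) ?_ ?_
    · exact Nat.Coprime.coprime_dvd_left hd (Nat.Coprime.pow_left d hmn)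
    · exact ⟨_, hbc.symm⟩
  have hcn : Ideal.absNorm c ∣ n := by
    refine Nat.Coprime.dvd_of_dvd_mul_left (k := Ideal.absNorm c) (m := m) ?_ ?_
    · exact Nat.Coprime.coprime_dvd_left he (Nat.Coprime.pow_left e hmn.symm)
    · exact ⟨Ideal.absNorm b, by rw [← hbc, mul_comm]⟩
  have hb' := Nat.le_of_dvd (Nat.pos_of_ne_zero hm) hbm
  have hc' := Nat.le_of_dvd (Nat.pos_of_ne_zero hn) hcn
  refine ⟨b, c, ?_, ?_, habc.symm⟩
  · by_contra hne
    have hlt : Ideal.absNorm b < m := lt_of_le_of_ne hb' hne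
    have : Ideal.absNorm b * Ideal.absNorm c < m * n := by
      calc Ideal.absNorm b * Ideal.absNorm c ≤ Ideal.absNorm b * n := Nat.mul_le_mul_left _ hc'
        _ < m * n := Nat.mul_lt_mul_of_pos_right hlt (Nat.pos_of_ne_zero hn)
    omega
  · by_contra hne
    have hlt : Ideal.absNorm c < n := lt_of_le_of_ne hc' hne
    have : Ideal.absNorm b * Ideal.absNorm c < m * n := by
      calc Ideal.absNorm b * Ideal.absNorm c ≤ m * Ideal.absNorm c := Nat.mul_le_mul_right _ hb'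
        _ < m * n := Nat.mul_lt_mul_of_pos_left hlt (Nat.pos_of_ne_zero hm)
    omega

private theorem conv_dvd {F : Type*} [Field F] [NumberField F] {b b' c c' : Ideal (𝓞 F)}
    {m n : ℕ} (hmn : m.Coprime n) (hb : Ideal.absNorm b = m) (hc' : Ideal.absNorm c' = n)
    (h : b * c = b' * c') : b ∣ b' := by
  have hco : IsCoprime b c' := by
    rw [Ideal.isCoprime_iff_add, Ideal.one_eq_top, Ideal.eq_top_iff_one]
    have h1 : (m : 𝓞 F) ∈ b := by
      rw [← hb]
      exact Ideal.absNorm_mem b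
    have h2 : (n : 𝓞 F) ∈ c' := by
      rw [← hc']
      exact Ideal.absNorm_mem c'
    obtain ⟨u, v, huv⟩ := Nat.isCoprime_iff_coprime.mpr hmn
    have h3 : (1 : 𝓞 F) = (u : 𝓞 F) * m + (v : 𝓞 F) * n := by exact_mod_cast huv.symm
    rw [h3]
    exact Submodule.add_mem_sup (Ideal.mul_mem_left _ _ h1) (Ideal.mul_mem_left _ _ h2)
  exact hco.dvd_of_dvd_mul_right (h ▸ Dvd.intro c rfl)

theorem card_norm_mul {F : Type*} [Field F] [NumberField F] {G : Type*} [Group G] [Fintype G]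
    (N : ℕ) (t : Ideal (𝓞 F) → G)
    (ht : ∀ b c : Ideal (𝓞 F), b ≠ ⊥ → c ≠ ⊥ → (Ideal.absNorm b).Coprime N →
      (Ideal.absNorm c).Coprime N → t (b * c) = t b * t c)
    {m n : ℕ} (hm : m ≠ 0) (hn : n ≠ 0) (hmn : m.Coprime n) (hmN : m.Coprime N)
    (hnN : n.Coprime N) (g : G) :
    Nat.card {a : Ideal (𝓞 F) // Ideal.absNorm a = m * n ∧ t a = g} =
      ∑ h : G, Nat.card {b : Ideal (𝓞 F) // Ideal.absNorm b = m ∧ t b = h} *
        Nat.card {c : Ideal (𝓞 F) // Ideal.absNorm c = n ∧ t c = h⁻¹ * g} := by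
  have hfin : ∀ (k : ℕ) (h : G), Finite {b : Ideal (𝓞 F) // Ideal.absNorm b = k ∧ t b = h} := by
    intro k h
    have h1 : {I : Ideal (𝓞 F) | Ideal.absNorm I = k}.Finite := Ideal.finite_setOfPred_absNorm_eq k
    exact (h1.subset (t := {I : Ideal (𝓞 F) | Ideal.absNorm I = k ∧ t I = h})
      fun I hI => hI.1).to_subtype
  have hmul : ∀ b c : Ideal (𝓞 F), Ideal.absNorm b = m → Ideal.absNorm c = n →
      t (b * c) = t b * t c := by
    intro b c hb hc
    refine ht b c ?_ ?_ (by rw [hb]; exact hmN) (by rw [hc]; exact hnN)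
    · rintro rfl
      exact hm (by rw [← hb, Ideal.absNorm_bot])
    · rintro rfl
      exact hn (by rw [← hc, Ideal.absNorm_bot])
  let f : (Σ h : G, {b : Ideal (𝓞 F) // Ideal.absNorm b = m ∧ t b = h} ×
      {c : Ideal (𝓞 F) // Ideal.absNorm c = n ∧ t c = h⁻¹ * g}) →
      {a : Ideal (𝓞 F) // Ideal.absNorm a = m * n ∧ t a = g} := fun x =>
    ⟨x.2.1.1 * x.2.2.1, by
      rw [map_mul, x.2.1.2.1, x.2.2.2.1, hmul _ _ x.2.1.2.1 x.2.2.2.1, x.2.1.2.2, x.2.2.2.2,
        mul_inv_cancel_left]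
      exact ⟨rfl, rfl⟩⟩
  have hf : Function.Bijective f := by
    constructor
    · rintro ⟨h, ⟨b, hb, hbh⟩, ⟨c, hc, hch⟩⟩ ⟨h', ⟨b', hb', hbh'⟩, ⟨c', hc', hch'⟩⟩ hxy
      have h1 : b * c = b' * c' := congrArg Subtype.val hxy
      have h2 : b = b' := dvd_antisymm (conv_dvd hmn hb hc' h1) (conv_dvd hmn hb' hc h1.symm)
      subst h2
      have h3 : b ≠ 0 := by
        rintro rfl
        exact hm (by rw [← hb]; exact Ideal.absNorm_bot)
      have h4 : c = c' := mul_left_cancel₀ h3 h1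
      subst h4
      subst hbh
      subst hbh'
      rfl
    · rintro ⟨a, ha, hag⟩
      obtain ⟨b, c, hb, hc, habc⟩ := conv_exists hm hn hmn ha
      refine ⟨⟨t b, ⟨b, hb, rfl⟩, ⟨c, hc, ?_⟩⟩, Subtype.ext habc⟩
      rw [eq_inv_mul_iff_mul_eq, ← hmul b c hb hc, habc, hag]
  rw [← Nat.card_congr (Equiv.ofBijective f hf), Nat.card_sigma]
  exact Finset.sum_congr rfl fun h _ => Nat.card_prod _ _

end Pool.Agent.StarkRQ
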