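import Pool.Agent.StarkRQ.ChiFrob
import Pool.Agent.StarkRQ.Sym

/-!
# Ideals of prime power norm in a quadratic field, by their Artin symbol on `ℚ(ζ_f)`

Choose `Q`, `φ` with `Cong φ Q p` (`exists_prime_over`, `exists_cong`); `χ φ = p` by `chi_frob`.
If `φ ∈ fixG k M` (so `κ p = 1`), choose `γ ∉ fixG k M` (`exists_notMem_fixG`); by `cnt_split`,
`cnt k M (p ^ e) g` is the number of `i ≤ e` with `φ ^ i (γ φ γ⁻¹) ^ (e - i) = g`, and `χ` of this
element is `p ^ e`; so the sum is `e + 1` if `u = p ^ e` and `0` otherwise. If `φ ∉ fixG k M`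
(`κ p = -1`, as `κ p` is a unit of `ℤ`), `cnt_inert` gives `1` if `e` is even and `u = p ^ e`.
-/

open NumberField Module

namespace Pool.Agent.StarkRQ

variable {k M : Type*} [Field k] [NumberField k] [Field M] [NumberField M] [Algebra k M]
  [IsGalois ℚ M] [IsGalois k M]

theorem sum_cnt_primePow (hk : finrank ℚ k = 2) (hB : ∀ σ τ : Gal(M/k), σ * τ = τ * σ) {f : ℕ}
    [NeZero f] (hram : ∀ p : ℕ, p.Prime → (p : ℤ) ∣ discr M → p ∣ f) {ζ : M}
    (hζ : IsPrimitiveRoot ζ f) (κ : DirichletCharacter ℤ f)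
    (hκ : ∀ g : Gal(M/ℚ), κ ((hζ.autToPow ℚ g : (ZMod f)ˣ) : ZMod f) = 1 ↔ g ∈ fixG k M)
    {p : ℕ} (hp : p.Prime) (hpf : p.Coprime f) (e : ℕ) (u : (ZMod f)ˣ) :
    (∑ g : Gal(M/ℚ), if hζ.autToPow ℚ g = u then (cnt k M (p ^ e) g : ℤ) else 0) =
      if (u : ZMod f) = ((p ^ e : ℕ) : ZMod f) then
        ∑ i ∈ Finset.range (e + 1), κ ((p ^ i : ℕ) : ZMod f) else 0 := by
  classical
  obtain ⟨Q, hQ, hpQ⟩ := exists_prime_over (M := M) hp
  obtain ⟨φ, hφ⟩ := exists_cong hp hpQ
  have hχ := chi_frob hζ hp hpf hpQ hφ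
  have hκφ := hκ φ
  rw [hχ] at hκφ
  have hiff : hζ.autToPow ℚ φ ^ e = u ↔ (u : ZMod f) = ((p ^ e : ℕ) : ZMod f) := by
    rw [Nat.cast_pow, ← hχ, ← Units.val_pow_eq_pow_val, Units.val_inj, eq_comm]
  have hpow : ∀ i : ℕ, κ ((p ^ i : ℕ) : ZMod f) = κ (p : ZMod f) ^ i := by
    intro i
    rw [Nat.cast_pow, map_pow]
  by_cases hφF : φ ∈ fixG k M
  · obtain ⟨γ, hγ⟩ := exists_notMem_fixG (M := M) hk
    have hP : ∀ i ∈ Finset.range (e + 1),
        hζ.autToPow ℚ (φ ^ i * (γ * φ * γ⁻¹) ^ (e - i)) = hζ.autToPow ℚ φ ^ e := by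
      intro i hi
      have hi' : i ≤ e := by simpa [Nat.lt_succ_iff] using hi
      rw [map_mul, map_pow, map_pow, map_mul, map_mul, map_inv, mul_right_comm, mul_inv_cancel,
        one_mul, ← pow_add, Nat.add_sub_cancel' hi']
    have h1 : ∀ g : Gal(M/ℚ), (if hζ.autToPow ℚ g = u then (cnt k M (p ^ e) g : ℤ) else 0) =
        ∑ i ∈ Finset.range (e + 1), if φ ^ i * (γ * φ * γ⁻¹) ^ (e - i) = g then
          (if hζ.autToPow ℚ φ ^ e = u then (1 : ℤ) else 0) else 0 := by
      intro g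
      rw [cnt_split hk hB hram hp hpf hpQ hφ hφF hγ, Finset.card_filter, Nat.cast_sum]
      by_cases hg : hζ.autToPow ℚ g = u
      · rw [if_pos hg]
        refine Finset.sum_congr rfl fun i hi => ?_
        by_cases h : φ ^ i * (γ * φ * γ⁻¹) ^ (e - i) = g
        · rw [if_pos h, if_pos h, if_pos, Nat.cast_one]
          rw [← hP i hi, h, hg]
        · rw [if_neg h, if_neg h, Nat.cast_zero]
      · rw [if_neg hg]
        symm
        refine Finset.sum_eq_zero fun i hi => ?_
        by_cases h : φ ^ i * (γ * φ * γ⁻¹) ^ (e - i) = g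
        · rw [if_pos h, if_neg]
          intro h2
          apply hg
          rw [← h, hP i hi, h2]
        · rw [if_neg h]
    rw [Finset.sum_congr rfl fun g _ => h1 g, Finset.sum_comm]
    simp only [Finset.sum_ite_eq, Finset.mem_univ, if_true]
    rw [Finset.sum_const, Finset.card_range]
    have hκ1 : κ (p : ZMod f) = 1 := hκφ.2 hφF
    by_cases h : hζ.autToPow ℚ φ ^ e = u
    · rw [if_pos h, if_pos (hiff.1 h)]
      simp only [hpow, hκ1, one_pow, Finset.sum_const, Finset.card_range]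
    · rw [if_neg h, if_neg fun h' => h (hiff.2 h'), smul_zero]
  · have hκ1 : κ (p : ZMod f) ≠ 1 := fun h => hφF (hκφ.1 h)
    have hunit : IsUnit (κ (p : ZMod f)) := by
      refine IsUnit.map κ ?_
      rw [ZMod.isUnit_iff_coprime]
      exact hpf
    have hκ2 : κ (p : ZMod f) = -1 := by
      rcases Int.isUnit_iff.1 hunit with h | h
      · exact absurd h hκ1
      · exact h
    have h1 : ∀ g : Gal(M/ℚ), (if hζ.autToPow ℚ g = u then (cnt k M (p ^ e) g : ℤ) else 0) =
        if φ ^ e = g then (if Even e ∧ hζ.autToPow ℚ φ ^ e = u then (1 : ℤ) else 0) else 0 := by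
      intro g
      rw [cnt_inert hk hB hram hp hpf hpQ hφ hφF (fixG_index hk)]
      by_cases h : φ ^ e = g
      · rw [if_pos h, ← h, map_pow]
        by_cases h2 : hζ.autToPow ℚ φ ^ e = u
        · by_cases h3 : Even e
          · simp [h2, h3]
          · simp [h2, h3]
        · simp [h2]
      · rw [if_neg h]
        simp [h]
    rw [Finset.sum_congr rfl fun g _ => h1 g, Finset.sum_ite_eq, if_pos (Finset.mem_univ _)]
    have hgeom : ∑ i ∈ Finset.range (e + 1), κ ((p ^ i : ℕ) : ZMod f) = if Even e then 1 else 0 := by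
      simp only [hpow, hκ2]
      rw [neg_one_geom_sum]
      by_cases h3 : Even e
      · rw [if_pos h3, if_neg]
        rw [Nat.even_add_one, not_not]
        exact h3
      · rw [if_neg h3, if_pos]
        rw [Nat.even_add_one]
        exact h3
    rw [hgeom]
    by_cases h : hζ.autToPow ℚ φ ^ e = u
    · rw [if_pos (hiff.1 h)]
      by_cases h3 : Even e
      · simp [h, h3]
      · simp [h3]
    · rw [if_neg fun h' => h (hiff.2 h'), if_neg fun h' => h h'.2]

end Pool.Agent.StarkRQ
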