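import Pool.Agent.StarkRQ.CycDefs

/-!
# A totally positive element of `ℚ(ζ_f)`

`e a = (κ₁ a + κ₂ a) / 2 * (hh (n a) - n hh a)` is an integer for every unit `a` modulo `f` (`n` is
odd, and `hh (n a) - n hh a = (1 - n)/2 + ⌊n a.val / f⌋`), and `e (-a) = e a` (`κ₁, κ₂`
and `hh` are odd). Put `v = ∏_a (1 - ζ^{a⁻¹})^{e a}`. For `g ∈ Gal(M/ℚ)`,
`ι (g v) = ∏_a (1 - exp(2πi χ(g) a⁻¹ / f))^{e a}`; the factors for `a` and `-a` are complex conjugate
(and `a ≠ -a` as `f > 2`), so this is a positive real number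
(e.g. `∏_a x a = ∏_{a} ‖x a‖` because both sides are equal to products over pairs; one may use
`Finset.prod_involution`-like arguments or split the units into those with `a.val < f/2` and their
negatives), and its logarithm is `∑_a e a * ell (χ g a⁻¹)`.
-/

open NumberField

namespace Pool.Agent.StarkRQ

/-- `exp (2πi b / f)` -/
private noncomputable def CycPos.ex (f : ℕ) (b : ZMod f) : ℂ :=
  Complex.exp (2 * Real.pi * Complex.I * ((b.val : ℂ) / f))

private lemma CycPos.ex_neg {f : ℕ} [NeZero f] (b : ZMod f) :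
    CycPos.ex f (-b) = starRingEnd ℂ (CycPos.ex f b) := by
  have hf : (f : ℂ) ≠ 0 := by exact_mod_cast NeZero.ne f
  rcases eq_or_ne b 0 with rfl | hb
  · simp [CycPos.ex]
  have : NeZero b := ⟨hb⟩
  unfold CycPos.ex
  rw [← Complex.exp_conj, ZMod.val_neg_of_ne_zero, Nat.cast_sub (ZMod.val_lt b).le]
  have h2 : 2 * Real.pi * Complex.I * (((f : ℂ) - (b.val : ℂ)) / f) =
      -(2 * Real.pi * Complex.I * ((b.val : ℂ) / f)) + 2 * Real.pi * Complex.I := by
    field_simp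
    ring
  rw [h2, Complex.exp_add, Complex.exp_two_pi_mul_I, mul_one]
  congr 1
  simp only [map_mul, map_div₀, Complex.conj_I, Complex.conj_ofReal, map_ofNat, map_natCast]
  ring

private lemma CycPos.pow_eq_ex {f : ℕ} [NeZero f] (m : ℕ) :
    (Complex.exp (2 * Real.pi * Complex.I / f)) ^ m = CycPos.ex f (m : ZMod f) := by
  have hf : (f : ℂ) ≠ 0 := by exact_mod_cast NeZero.ne f
  unfold CycPos.ex
  rw [ZMod.val_natCast]
  have h1 : (m : ℂ) = ((m % f : ℕ) : ℂ) + f * ((m / f : ℕ) : ℂ) := by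
    exact_mod_cast (Nat.mod_add_div m f).symm
  rw [← Complex.exp_nat_mul]
  have h2 : (m : ℂ) * (2 * Real.pi * Complex.I / f) =
      2 * Real.pi * Complex.I * (((m % f : ℕ) : ℂ) / f) +
        ((m / f : ℕ) : ℂ) * (2 * Real.pi * Complex.I) := by
    rw [h1]
    field_simp
  rw [h2, Complex.exp_add, Complex.exp_nat_mul_two_pi_mul_I, mul_one]

private lemma CycPos.ex_ne_one {f : ℕ} [NeZero f] {b : ZMod f} (hb : b ≠ 0) :
    CycPos.ex f b ≠ 1 := by
  intro h
  have hp := Complex.isPrimitiveRoot_exp f (NeZero.ne f)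
  have h1 : (Complex.exp (2 * Real.pi * Complex.I / f)) ^ b.val = 1 := by
    rw [CycPos.pow_eq_ex, ZMod.natCast_zmod_val]
    exact h
  have h2 := (hp.pow_eq_one_iff_dvd _).1 h1
  have h3 := Nat.eq_zero_of_dvd_of_lt h2 (ZMod.val_lt b)
  exact hb ((ZMod.val_eq_zero b).1 h3)

private lemma CycPos.ell_eq {f : ℕ} (b : ZMod f) : ell f b = Real.log ‖1 - CycPos.ex f b‖ := rfl

/-- the values of a character with values in `ℤ` on units are `±1` -/
private lemma CycPos.char_unit {f : ℕ} (κ : DirichletCharacter ℤ f) (a : (ZMod f)ˣ) :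
    κ (a : ZMod f) = 1 ∨ κ (a : ZMod f) = -1 := by
  have h : IsUnit (κ (a : ZMod f)) := a.isUnit.map κ
  exact Int.isUnit_iff.1 h

private lemma CycPos.exists_e {f : ℕ} [NeZero f]
    (κ₁ κ₂ : DirichletCharacter ℤ f) {n : ℕ} (hn : Odd n) (a : (ZMod f)ˣ) :
    ∃ e : ℤ, (e : ℝ) = 1 / 2 * (((κ₁ (a : ZMod f) : ℝ) + κ₂ (a : ZMod f)) *
        (hh f (n * (a : ZMod f)) - n * hh f (a : ZMod f))) := by
  have hf : (f : ℝ) ≠ 0 := by exact_mod_cast NeZero.ne f
  obtain ⟨m, hm⟩ := hn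
  have h1 : hh f (n * (a : ZMod f)) - n * hh f (a : ZMod f) =
      ((-(m : ℤ) + ((n * (a : ZMod f).val / f : ℕ) : ℤ) : ℤ) : ℝ) := by
    have h2 : ((n : ZMod f) * (a : ZMod f)).val = (n * (a : ZMod f).val) % f := by
      conv_lhs => rw [← ZMod.natCast_zmod_val (a : ZMod f), ← Nat.cast_mul]
      exact ZMod.val_natCast _ _
    have h3 : (((n * (a : ZMod f).val) % f : ℕ) : ℝ) +
        (f : ℝ) * ((n * (a : ZMod f).val / f : ℕ) : ℝ) = (n : ℝ) * ((a : ZMod f).val : ℝ) := by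
      exact_mod_cast Nat.mod_add_div (n * (a : ZMod f).val) f
    unfold hh
    rw [h2]
    have h4 : (((n * (a : ZMod f).val) % f : ℕ) : ℝ) = (n : ℝ) * ((a : ZMod f).val : ℝ) -
        (f : ℝ) * ((n * (a : ZMod f).val / f : ℕ) : ℝ) := by linarith
    rw [h4]
    have h5 : (n : ℝ) = 2 * m + 1 := by exact_mod_cast hm
    generalize n * (a : ZMod f).val / f = q
    rw [h5]
    push_cast
    field_simp
    ring
  have h6 : ∃ e : ℤ, ((κ₁ (a : ZMod f) : ℝ) + κ₂ (a : ZMod f)) = 2 * (e : ℝ) := by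
    rcases CycPos.char_unit κ₁ a with h | h <;> rcases CycPos.char_unit κ₂ a with h' | h' <;>
      rw [h, h']
    · exact ⟨1, by norm_num⟩
    · exact ⟨0, by norm_num⟩
    · exact ⟨0, by norm_num⟩
    · exact ⟨-1, by norm_num⟩
  obtain ⟨e, he⟩ := h6
  refine ⟨e * (-(m : ℤ) + ((n * (a : ZMod f).val / f : ℕ) : ℤ)), ?_⟩
  rw [he, h1]
  push_cast
  ring

theorem exists_pos {M : Type*} [Field M] [NumberField M] {f : ℕ} [NeZero f] (hf : 2 < f) {ζ : M}
    (hζ : IsPrimitiveRoot ζ f) {ι : M →+* ℂ}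
    (hιζ : ι ζ = Complex.exp (2 * Real.pi * Complex.I / f))
    (κ₁ κ₂ : DirichletCharacter ℤ f) (h₁ : κ₁ (-1) = -1) (h₂ : κ₂ (-1) = -1) {n : ℕ} (hn : Odd n)
    (hnf : n.Coprime f) :
    ∃ v : M, (∀ g : Gal(M/ℚ), ∃ r : ℝ, 0 < r ∧ ι (g v) = r) ∧
      Real.log ‖ι v‖ = 1 / 2 * ∑ a : (ZMod f)ˣ, ((κ₁ (a : ZMod f) : ℝ) + κ₂ (a : ZMod f)) *
        (hh f (n * (a : ZMod f)) - n * hh f (a : ZMod f)) * ell f ((a⁻¹ : (ZMod f)ˣ) : ZMod f) := by
  classical
  choose e he using CycPos.exists_e κ₁ κ₂ hn (f := f)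
  have hnt : Nontrivial (ZMod f) := ZMod.nontrivial_iff.2 (by omega)
  have hu0 : ∀ a : (ZMod f)ˣ, (a : ZMod f) ≠ 0 := fun a => a.ne_zero
  have hnu : IsUnit (n : ZMod f) := (ZMod.isUnit_iff_coprime n f).2 hnf
  have heven : ∀ a : (ZMod f)ˣ, e (-a) = e a := by
    intro a
    have h3 : (e (-a) : ℝ) = e a := by
      rw [he, he, Units.val_neg]
      have h4 : κ₁ (-(a : ZMod f)) = - κ₁ (a : ZMod f) := by
        rw [← neg_one_mul, map_mul, h₁, neg_one_mul]
      have h5 : κ₂ (-(a : ZMod f)) = - κ₂ (a : ZMod f) := by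
        rw [← neg_one_mul, map_mul, h₂, neg_one_mul]
      have h6 : (n : ZMod f) * (a : ZMod f) ≠ 0 := (hnu.mul a.isUnit).ne_zero
      rw [h4, h5, mul_neg, hh_neg h6, hh_neg (hu0 a)]
      push_cast
      ring
    exact_mod_cast h3
  have hne : ∀ a : (ZMod f)ˣ, -a ≠ a := by
    intro a h
    have h3 : ((-a : (ZMod f)ˣ) : ZMod f) = a := by rw [h]
    rw [Units.val_neg] at h3
    have h4 : (2 : ZMod f) * (a : ZMod f) = 0 := by
      rw [two_mul]
      nth_rewrite 1 [← h3]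
      exact neg_add_cancel _
    have h5 : (2 : ZMod f) = 0 := by
      have := congrArg (· * ((a⁻¹ : (ZMod f)ˣ) : ZMod f)) h4
      simpa [mul_assoc] using this
    have h6 : ((2 : ℕ) : ZMod f) = 0 := by exact_mod_cast h5
    rw [ZMod.natCast_eq_zero_iff] at h6
    exact absurd (Nat.le_of_dvd (by norm_num) h6) (by omega)
  set v : M := ∏ a : (ZMod f)ˣ, (1 - ζ ^ ((a⁻¹ : (ZMod f)ˣ) : ZMod f).val) ^ (e a) with hv
  -- the value of an embedding
  have key : ∀ g : Gal(M/ℚ), ι (g v) = ∏ a : (ZMod f)ˣ,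
      (1 - CycPos.ex f ((hζ.autToPow ℚ g * a⁻¹ : (ZMod f)ˣ) : ZMod f)) ^ (e a) := by
    intro g
    rw [hv, map_prod, map_prod]
    refine Finset.prod_congr rfl fun a _ => ?_
    rw [map_zpow₀, map_zpow₀, map_sub, map_sub, map_one, map_one, map_pow, map_pow,
      ← hζ.autToPow_spec ℚ g, map_pow, hιζ, ← pow_mul, CycPos.pow_eq_ex]
    congr 3
    push_cast
    rw [ZMod.natCast_zmod_val, ZMod.natCast_zmod_val]
  have hpos : ∀ u : (ZMod f)ˣ, (∏ a : (ZMod f)ˣ,
      (1 - CycPos.ex f ((u * a⁻¹ : (ZMod f)ˣ) : ZMod f)) ^ (e a)) =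
      ((∏ a : (ZMod f)ˣ, ‖1 - CycPos.ex f ((u * a⁻¹ : (ZMod f)ˣ) : ZMod f)‖ ^ (e a) : ℝ) : ℂ) := by
    intro u
    set x : (ZMod f)ˣ → ℂ := fun a =>
      (1 - CycPos.ex f ((u * a⁻¹ : (ZMod f)ˣ) : ZMod f)) ^ (e a) with hx
    have hx0 : ∀ a, x a ≠ 0 := fun a =>
      zpow_ne_zero _ (sub_ne_zero.2 (CycPos.ex_ne_one (hu0 _)).symm)
    have hxc : ∀ a, x (-a) = starRingEnd ℂ (x a) := by
      intro a
      simp only [hx]
      rw [heven, map_zpow₀, map_sub, map_one, inv_neg, mul_neg, Units.val_neg, CycPos.ex_neg]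
    have hprod : ∏ a : (ZMod f)ˣ, (x a / (‖x a‖ : ℂ)) = 1 := by
      refine Finset.prod_involution (fun a _ => -a) ?_ ?_ ?_ ?_
      · intro a _
        rw [hxc, RCLike.norm_conj, div_mul_div_comm, Complex.mul_conj, Complex.normSq_eq_norm_sq]
        have : (‖x a‖ : ℂ) ≠ 0 := by
          exact_mod_cast norm_ne_zero_iff.2 (hx0 a)
        push_cast
        field_simp
      · intro a _ _
        exact hne a
      · intro a _
        exact Finset.mem_univ _
      · intro a _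
        exact neg_neg a
    have hn0 : (∏ a : (ZMod f)ˣ, (‖x a‖ : ℂ)) ≠ 0 :=
      Finset.prod_ne_zero_iff.2 fun a _ => by exact_mod_cast norm_ne_zero_iff.2 (hx0 a)
    rw [Finset.prod_div_distrib, div_eq_one_iff_eq hn0] at hprod
    rw [hprod]
    push_cast
    refine Finset.prod_congr rfl fun a _ => ?_
    simp only [hx]
    rw [norm_zpow]
    push_cast
    rfl
  refine ⟨v, fun g => ?_, ?_⟩
  · refine ⟨_, ?_, (key g).trans (hpos _)⟩
    refine Finset.prod_pos fun a _ => zpow_pos ?_ _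
    exact norm_pos_iff.2 (sub_ne_zero.2 (CycPos.ex_ne_one (hu0 _)).symm)
  · have h3 := (key 1).trans (hpos _)
    rw [AlgEquiv.one_apply] at h3
    rw [h3, Complex.norm_real, Real.norm_eq_abs, Real.log_abs, Real.log_prod, Finset.mul_sum]
    · refine Finset.sum_congr rfl fun a _ => ?_
      rw [map_one, one_mul, Real.log_zpow, he, CycPos.ell_eq]
      ring
    · intro a _
      exact zpow_ne_zero _ (norm_ne_zero_iff.2 (sub_ne_zero.2 (CycPos.ex_ne_one (hu0 _)).symm))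

end Pool.Agent.StarkRQ
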