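import Pool.Agent.StarkRQ.Coeff
import Pool.Agent.StarkRQ.Comm

/-!
# Group theory for the Klein four case

Proof sketch. Put `Aᵢ`, `Bᵢ ≤ Gᵢ`, both commutative of index `2` (`Aᵢ` as the image of `A`), `cᵢ = Pᵢ c`,
`cᵢ ∈ Aᵢ`, `cᵢ ∉ Bᵢ`. `exists_z` (`Comm.lean`) gives `zᵢ ∈ Gᵢ` with `ZData Aᵢ Bᵢ zᵢ`.
* `zᵢ ≠ 1`: otherwise `Gᵢ` is commutative (`Aᵢ ⊓ Bᵢ` and `cᵢ` are central by `ZData`, and `Gᵢ` is generated
  by `Aᵢ ⊓ Bᵢ`, `cᵢ` and one element outside `Aᵢ`), so `commutator G ≤ Pᵢ.ker`, but `4 > 2`.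
* for `b ∉ A`: `Pᵢ (b c b⁻¹ c⁻¹) = zᵢ` by `ZData.conjA`; and `z = b c b⁻¹ c⁻¹` does not depend
  on `b ∉ A` as `A` is commutative.
* existence of `b ∉ A` with `P₁ b ∈ B₁`, `P₂ b ∈ B₂`: take `b₁ ∉ A` with `P₁ b₁ ∈ B₁` (`B₁ ≠ A₁`). If
  `P₂ b₁ ∉ B₂`, look for `a ∈ A` with `P₁ a ∈ B₁`, `P₂ a ∉ B₂` and take `b₁ a`. If there is no such
  `a`, then `A ⊓ B₁.comap P₁ = A ⊓ B₂.comap P₂` (same index in `A`), and for such `a` and
  `γ ∉ A` the commutator of `γ` and `a` lies in `P₁.ker ⊓ P₂.ker = 1` (`Pᵢ a` is central in `Gᵢ`). So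
  `A ⊓ B₁.comap P₁` is central in `G`, `A` is generated by it and `c`, and all commutators are
  in `{1, z}`; but the commutator subgroup has `4` elements.
* `Pᵢ.ker = {1, nᵢ}`, `nᵢ` central (a normal subgroup of order `2`), `n₁ ≠ n₂`.
  `nᵢ ∈ commutator G`, because the image of `commutator G` (order `4`) in `Gᵢ` lies in `{1, zᵢ}`.
  So `commutator G = {1, n₁, n₂, n₁ n₂}`, and `z` is in it, with `Pᵢ z = zᵢ ≠ 1`, so `z = n₁ n₂`.
* `z` is central: `z g = g z` up to an element of `P₁.ker ⊓ P₂.ker = 1`, same for `z z = 1`.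
-/

namespace Pool.Agent.StarkRQ

/-- commutators are `1` or `z` -/
private lemma comm_mem {H : Type*} [Group H] {A : Subgroup H} (hA : A.index = 2)
    (hAc : ∀ a ∈ A, ∀ a' ∈ A, a * a' = a' * a) {z : H} (hz : z * z = 1) (hzc : ∀ g, z * g = g * z)
    (h : ∀ a ∈ A, ∀ γ, γ ∉ A → γ * a * γ⁻¹ = a ∨ γ * a * γ⁻¹ = z * a) :
    ∀ x ∈ commutator H, x = 1 ∨ x = z := by
  have hzi : z⁻¹ = z := inv_eq_of_mul_eq_one_left hz
  let S : Subgroup H :=
    { carrier := {x | x = 1 ∨ x = z}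
      one_mem' := Or.inl rfl
      mul_mem' := by
        rintro x y (rfl | rfl) (rfl | rfl)
        · exact Or.inl (mul_one 1)
        · exact Or.inr (one_mul _)
        · exact Or.inr (mul_one _)
        · exact Or.inl hz
      inv_mem' := by
        rintro x (rfl | rfl)
        · exact Or.inl inv_one
        · exact Or.inr hzi }
  have h1 : ∀ a ∈ A, ∀ γ, γ ∉ A → γ * a * γ⁻¹ * a⁻¹ ∈ S := by
    intro a ha γ hγ
    rcases h a ha γ hγ with h' | h'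
    · left
      rw [h', mul_inv_cancel]
    · right
      rw [h', mul_inv_cancel_right]
  have hconj : ∀ s ∈ S, ∀ g : H, g * s * g⁻¹ ∈ S := by
    rintro s (rfl | rfl) g
    · left
      rw [mul_one, mul_inv_cancel]
    · right
      rw [← hzc, mul_inv_cancel_right]
  have h2 : commutator H ≤ S := by
    rw [commutator_def, Subgroup.commutator_le]
    intro g _ k _
    rw [commutatorElement_def]
    by_cases hg : g ∈ A
    · by_cases hk : k ∈ A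
      · left
        rw [hAc g hg k hk]
        group
      · have h3 := S.inv_mem (h1 g hg k hk)
        have h4 : (k * g * k⁻¹ * g⁻¹)⁻¹ = g * k * g⁻¹ * k⁻¹ := by group
        rwa [h4] at h3
    · by_cases hk : k ∈ A
      · exact h1 k hk g hg
      · have ha : g⁻¹ * k ∈ A :=
          mul_mem_of_index_two hA (fun h' => hg ((Subgroup.inv_mem_iff A).1 h')) hk
        have h3 := hconj _ (h1 _ ha g hg) g
        have h4 : g * (g * (g⁻¹ * k) * g⁻¹ * (g⁻¹ * k)⁻¹) * g⁻¹ = g * k * g⁻¹ * k⁻¹ := by group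
        rwa [h4] at h3
  exact fun x hx => h2 hx

/-- one side -/
private lemma one_side {G G₁ : Type*} [Group G] [Finite G] [Group G₁]
    (P₁ : G →* G₁) (hP₁ : Function.Surjective P₁)
    (A : Subgroup G) (hA : A.index = 2) (hAc : ∀ a ∈ A, ∀ a' ∈ A, a * a' = a' * a)
    (A₁ B₁ : Subgroup G₁) (hA₁ : A = A₁.comap P₁) (hB₁ : B₁.index = 2)
    (hB₁c : ∀ a ∈ B₁, ∀ a' ∈ B₁, a * a' = a' * a)
    {c : G} (hcA : c ∈ A) (hcc : c * c = 1) (hc₁ : P₁ c ∉ B₁)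
    (hk₁ : Nat.card P₁.ker = 2) (hD : Nat.card (commutator G) = 4) :
    ∃ (z₁ : G₁) (n : G), ZData A₁ B₁ z₁ ∧ z₁ ≠ 1 ∧ n ≠ 1 ∧ (∀ g, P₁ g = 1 ↔ g = 1 ∨ g = n) ∧
      n ∈ commutator G ∧ (∀ x ∈ commutator G, P₁ x = 1 ∨ P₁ x = z₁) ∧
      (∃ b, b ∉ A ∧ P₁ b ∈ B₁) := by
  have hmemA : ∀ g, g ∈ A ↔ P₁ g ∈ A₁ := fun g => by rw [hA₁, Subgroup.mem_comap]
  have hAi : A₁.index = 2 := by
    rw [← Subgroup.index_comap_of_surjective A₁ hP₁, ← hA₁, hA]
  have hAc₁ : ∀ a ∈ A₁, ∀ a' ∈ A₁, a * a' = a' * a := by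
    intro a ha a' ha'
    obtain ⟨g, rfl⟩ := hP₁ a
    obtain ⟨g', rfl⟩ := hP₁ a'
    rw [← map_mul, hAc g ((hmemA g).2 ha) g' ((hmemA g').2 ha'), map_mul]
  have hcc₁ : P₁ c * P₁ c = 1 := by rw [← map_mul, hcc, map_one]
  obtain ⟨z, hz1, hz2, hz3, hz4, hz5, hz6, hz7, -, -⟩ :=
    exists_z hAi hB₁ hAc₁ hB₁c ((hmemA c).1 hcA) hc₁ hcc₁
  have hZ : ZData A₁ B₁ z := ⟨hz1, hz2, hz3, hz4, hz5, hz6, hz7⟩
  have hzc : ∀ g, z * g = g * z := hz4 z hz1 hz2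
  have hcom : ∀ x ∈ commutator G₁, x = 1 ∨ x = z := by
    refine comm_mem hAi hAc₁ hz3 hzc ?_
    intro a ha γ hγ
    by_cases haB : a ∈ B₁
    · left
      rw [← hz4 a ha haB γ, mul_inv_cancel_right]
    · right
      exact hz5 a ha haB γ hγ
  have hcom' : ∀ x ∈ commutator G, P₁ x = 1 ∨ P₁ x = z := by
    intro x hx
    apply hcom
    have h1 : (commutator G).map P₁ ≤ commutator G₁ := by
      rw [commutator_def, commutator_def, Subgroup.map_commutator]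
      exact Subgroup.commutator_mono le_top le_top
    exact h1 ⟨x, hx, rfl⟩
  -- the kernel
  obtain ⟨n, hn1, hn⟩ : ∃ n : G, n ≠ 1 ∧ ∀ g, P₁ g = 1 ↔ g = 1 ∨ g = n := by
    obtain ⟨x, y, hxy, hun⟩ := Nat.card_eq_two_iff.1 hk₁
    have h1 : (1 : P₁.ker) = x ∨ (1 : P₁.ker) = y := by
      have : (1 : P₁.ker) ∈ ({x, y} : Set P₁.ker) := by rw [hun]; trivial
      simpa using this
    have hall : ∀ g : P₁.ker, g = x ∨ g = y := by
      intro g
      have : g ∈ ({x, y} : Set P₁.ker) := by rw [hun]; trivial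
      simpa using this
    obtain ⟨n, hn, hall'⟩ : ∃ n : P₁.ker, n ≠ 1 ∧ ∀ g : P₁.ker, g = 1 ∨ g = n := by
      rcases h1 with h1 | h1
      · refine ⟨y, ?_, ?_⟩
        · rw [h1]; exact hxy.symm
        · rw [h1]; exact hall
      · refine ⟨x, ?_, ?_⟩
        · rw [h1]; exact hxy
        · rw [h1]; exact fun g => (hall g).symm
    refine ⟨n.1, fun h => hn (Subtype.ext h), fun g => ⟨fun hg => ?_, ?_⟩⟩
    · rcases hall' ⟨g, hg⟩ with h | h
      · left; exact congrArg Subtype.val h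
      · right; exact congrArg Subtype.val h
    · rintro (rfl | rfl)
      · exact map_one P₁
      · exact n.2
  -- `n` is in the commutator subgroup
  have hnD : n ∈ commutator G := by
    by_contra hcon
    have hinj : ∀ x ∈ commutator G, ∀ y ∈ commutator G, P₁ x = P₁ y → x = y := by
      intro x hx y hy hxy
      have h1 : P₁ (x * y⁻¹) = 1 := by rw [map_mul, map_inv, hxy, mul_inv_cancel]
      rcases (hn _).1 h1 with h2 | h2
      · exact mul_inv_eq_one.1 h2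
      · exfalso
        apply hcon
        rw [← h2]
        exact (commutator G).mul_mem hx ((commutator G).inv_mem hy)
    have h2 : Nat.card (commutator G) ≤ Nat.card (Option Unit) := by
      classical
      let φ : commutator G → Option Unit := fun x => if P₁ x.1 = 1 then none else some ()
      apply Nat.card_le_card_of_injective φ
      intro x y hxy
      apply Subtype.ext
      apply hinj x.1 x.2 y.1 y.2
      simp only [φ] at hxy
      rcases hcom' x.1 x.2 with hx | hx <;> rcases hcom' y.1 y.2 with hy | hy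
      · rw [hx, hy]
      · rw [if_pos hx] at hxy
        split_ifs at hxy with h
        rw [hx, h]
      · rw [if_pos hy] at hxy
        split_ifs at hxy with h
        rw [hy, h]
      · rw [hx, hy]
    rw [hD] at h2
    simp at h2
  have hz1' : z ≠ 1 := by
    intro hz
    have h1 : Nat.card (commutator G) ≤ Nat.card P₁.ker := by
      have : Finite P₁.ker := inferInstance
      apply Nat.card_le_card_of_injective
        (fun x : commutator G => (⟨x.1, by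
          rw [MonoidHom.mem_ker]
          rcases hcom' x.1 x.2 with h | h
          · exact h
          · rw [h, hz]⟩ : P₁.ker))
      intro x y hxy
      simp only [Subtype.mk.injEq] at hxy
      exact Subtype.ext hxy
    rw [hD, hk₁] at h1
    omega
  refine ⟨z, n, hZ, hz1', hn1, hn, hnD, hcom', ?_⟩
  by_contra hcon
  push Not at hcon
  have hle : B₁ ≤ A₁ := by
    intro x hx
    obtain ⟨g, rfl⟩ := hP₁ x
    by_contra hg
    exact hcon g (fun h => hg ((hmemA g).1 h)) hx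
  have h1 : B₁.relIndex A₁ * A₁.index = B₁.index := Subgroup.relIndex_mul_index hle
  rw [hAi, hB₁] at h1
  have h2 : B₁.relIndex A₁ = 1 := by omega
  exact hc₁ (Subgroup.relIndex_eq_one.1 h2 ((hmemA c).1 hcA))

theorem klein_group {G G₁ G₂ : Type*} [Group G] [Finite G] [Group G₁] [Group G₂]
    (P₁ : G →* G₁) (P₂ : G →* G₂) (hP₁ : Function.Surjective P₁) (hP₂ : Function.Surjective P₂)
    (A : Subgroup G) (hA : A.index = 2) (hAc : ∀ a ∈ A, ∀ a' ∈ A, a * a' = a' * a)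
    (A₁ B₁ : Subgroup G₁) (A₂ B₂ : Subgroup G₂) (hA₁ : A = A₁.comap P₁) (hA₂ : A = A₂.comap P₂)
    (hB₁ : B₁.index = 2) (hB₂ : B₂.index = 2)
    (hB₁c : ∀ a ∈ B₁, ∀ a' ∈ B₁, a * a' = a' * a) (hB₂c : ∀ a ∈ B₂, ∀ a' ∈ B₂, a * a' = a' * a)
    {c : G} (hcA : c ∈ A) (hcc : c * c = 1) (hc₁ : P₁ c ∉ B₁) (hc₂ : P₂ c ∉ B₂)
    (hk₁ : Nat.card P₁.ker = 2) (hk₂ : Nat.card P₂.ker = 2) (hne : P₁.ker ≠ P₂.ker)
    (hD : Nat.card (commutator G) = 4) :
    ∃ b z n₁ n₂ : G, b ∉ A ∧ P₁ b ∈ B₁ ∧ P₂ b ∈ B₂ ∧ (∀ γ ∉ A, γ * c * γ⁻¹ = z * c) ∧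
      z ∈ A ∧ z * z = 1 ∧ (∀ g, z * g = g * z) ∧
      ZData A₁ B₁ (P₁ z) ∧ ZData A₂ B₂ (P₂ z) ∧ P₁ z ≠ 1 ∧ P₂ z ≠ 1 ∧
      (∀ g, P₁ g = 1 ↔ g = 1 ∨ g = n₁) ∧ (∀ g, P₂ g = 1 ↔ g = 1 ∨ g = n₂) ∧
      n₁ ≠ 1 ∧ n₂ ≠ 1 ∧ n₁ * n₂ = z ∧ ∃ a ∈ A, P₁ a ∈ B₁ ∧ P₂ a ∉ B₂ := by
  obtain ⟨z₁, n₁, hZ₁, hz₁, hn₁, hker₁, hnD₁, hcom₁, b₁, hb₁A, hb₁B⟩ :=
    one_side P₁ hP₁ A hA hAc A₁ B₁ hA₁ hB₁ hB₁c hcA hcc hc₁ hk₁ hD
  obtain ⟨z₂, n₂, hZ₂, hz₂, hn₂, hker₂, hnD₂, hcom₂, -⟩ :=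
    one_side P₂ hP₂ A hA hAc A₂ B₂ hA₂ hB₂ hB₂c hcA hcc hc₂ hk₂ hD
  have hmem₁ : ∀ g, g ∈ A ↔ P₁ g ∈ A₁ := fun g => by rw [hA₁, Subgroup.mem_comap]
  have hmem₂ : ∀ g, g ∈ A ↔ P₂ g ∈ A₂ := fun g => by
    conv_lhs => rw [hA₂]
    rw [Subgroup.mem_comap]
  have hAn : A.Normal := Subgroup.normal_of_index_eq_two hA
  -- the kernels are different
  have hnn : n₁ ≠ n₂ := by
    intro h
    apply hne
    ext g
    rw [MonoidHom.mem_ker, MonoidHom.mem_ker, hker₁, hker₂, h]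
  have hinf : ∀ g, P₁ g = 1 → P₂ g = 1 → g = 1 := by
    intro g h1 h2
    rcases (hker₁ g).1 h1 with h | h
    · exact h
    rcases (hker₂ g).1 h2 with h' | h'
    · exact h'
    · exact absurd (h.symm.trans h') hnn
  have hinf' : ∀ g h, P₁ g = P₁ h → P₂ g = P₂ h → g = h := by
    intro g h h1 h2
    have h3 := hinf (g * h⁻¹) (by rw [map_mul, map_inv, h1, mul_inv_cancel])
      (by rw [map_mul, map_inv, h2, mul_inv_cancel])
    exact mul_inv_eq_one.1 h3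
  obtain ⟨z, hz⟩ : ∃ z, z = b₁ * c * b₁⁻¹ * c⁻¹ := ⟨_, rfl⟩
  have hzA : z ∈ A := by
    rw [hz]
    exact A.mul_mem (hAn.conj_mem c hcA b₁) (A.inv_mem hcA)
  have hPz₁ : P₁ z = z₁ := by
    have h1 := hZ₁.conjA (P₁ c) ((hmem₁ c).1 hcA) hc₁ (P₁ b₁) (fun h => hb₁A ((hmem₁ b₁).2 h))
    rw [hz, map_mul, map_mul, map_mul, map_inv, map_inv, h1, mul_inv_cancel_right]
  have hPz₂ : P₂ z = z₂ := by
    have h1 := hZ₂.conjA (P₂ c) ((hmem₂ c).1 hcA) hc₂ (P₂ b₁) (fun h => hb₁A ((hmem₂ b₁).2 h))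
    rw [hz, map_mul, map_mul, map_mul, map_inv, map_inv, h1, mul_inv_cancel_right]
  have hzz : z * z = 1 := by
    apply hinf
    · rw [map_mul, hPz₁, hZ₁.sq]
    · rw [map_mul, hPz₂, hZ₂.sq]
  have hzc : ∀ g, z * g = g * z := by
    intro g
    apply hinf'
    · rw [map_mul, map_mul, hPz₁, hZ₁.central z₁ hZ₁.mem_A hZ₁.mem_B]
    · rw [map_mul, map_mul, hPz₂, hZ₂.central z₂ hZ₂.mem_A hZ₂.mem_B]
  have hbc : b₁ * c * b₁⁻¹ = z * c := by rw [hz, inv_mul_cancel_right]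
  have hkey : ∀ γ ∉ A, γ * c * γ⁻¹ = z * c := by
    intro γ hγ
    have ha : γ * b₁⁻¹ ∈ A :=
      mul_mem_of_index_two hA hγ (fun h => hb₁A ((Subgroup.inv_mem_iff A).1 h))
    have h1 := hAc _ ha _ (hAn.conj_mem c hcA b₁)
    calc γ * c * γ⁻¹ = (γ * b₁⁻¹) * (b₁ * c * b₁⁻¹) * (γ * b₁⁻¹)⁻¹ := by group
      _ = (b₁ * c * b₁⁻¹) * (γ * b₁⁻¹) * (γ * b₁⁻¹)⁻¹ := by rw [h1]
      _ = b₁ * c * b₁⁻¹ := by group
      _ = z * c := hbc
  -- the element `a`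
  have hexa : ∃ a ∈ A, P₁ a ∈ B₁ ∧ P₂ a ∉ B₂ := by
    by_contra ha
    push Not at ha
    have hcent : ∀ a ∈ A, P₁ a ∈ B₁ → ∀ g, a * g = g * a := by
      intro a haA ha1 g
      apply hinf'
      · rw [map_mul, map_mul, hZ₁.central _ ((hmem₁ a).1 haA) ha1]
      · rw [map_mul, map_mul, hZ₂.central _ ((hmem₂ a).1 haA) (ha a haA ha1)]
    have hall : ∀ x ∈ commutator G, x = 1 ∨ x = z := by
      refine comm_mem hA hAc hzz hzc ?_
      intro a haA γ hγ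
      by_cases ha1 : P₁ a ∈ B₁
      · left
        rw [← hcent a haA ha1 γ, mul_inv_cancel_right]
      · right
        have h1 : P₁ (c * a) ∈ B₁ := by
          rw [map_mul]
          exact mul_mem_of_index_two hB₁ hc₁ ha1
        have h2 := hcent (c * a) (A.mul_mem hcA haA) h1 γ⁻¹
        calc γ * a * γ⁻¹ = γ * (c * c) * a * γ⁻¹ := by rw [hcc, mul_one]
          _ = γ * c * ((c * a) * γ⁻¹) := by group
          _ = γ * c * (γ⁻¹ * (c * a)) := by rw [h2]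
          _ = (γ * c * γ⁻¹) * (c * a) := by group
          _ = z * c * (c * a) := by rw [hkey γ hγ]
          _ = z * (c * c) * a := by group
          _ = z * a := by rw [hcc, mul_one]
    have h2 : Nat.card (commutator G) ≤ Nat.card (Option Unit) := by
      classical
      let φ : commutator G → Option Unit := fun x => if x.1 = 1 then none else some ()
      apply Nat.card_le_card_of_injective φ
      intro x y hxy
      apply Subtype.ext
      simp only [φ] at hxy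
      rcases hall x.1 x.2 with hx | hx <;> rcases hall y.1 y.2 with hy | hy
      · rw [hx, hy]
      · rw [if_pos hx] at hxy
        split_ifs at hxy with h
        rw [hx, h]
      · rw [if_pos hy] at hxy
        split_ifs at hxy with h
        rw [hy, h]
      · rw [hx, hy]
    rw [hD] at h2
    simp at h2
  -- the element `b`
  obtain ⟨b, hbA, hbB₁, hbB₂⟩ : ∃ b, b ∉ A ∧ P₁ b ∈ B₁ ∧ P₂ b ∈ B₂ := by
    by_cases hb : P₂ b₁ ∈ B₂
    · exact ⟨b₁, hb₁A, hb₁B, hb⟩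
    obtain ⟨a, haA, ha1, ha2⟩ := hexa
    refine ⟨b₁ * a, fun h => hb₁A ((A.mul_mem_cancel_right haA).1 h), ?_, ?_⟩
    · rw [map_mul]
      exact B₁.mul_mem hb₁B ha1
    · rw [map_mul]
      exact mul_mem_of_index_two hB₂ hb ha2
  -- `n₁ n₂ = z`
  have hnz : n₁ * n₂ = z := by
    have h11 : P₁ n₁ = 1 := (hker₁ n₁).2 (Or.inr rfl)
    have h22 : P₂ n₂ = 1 := (hker₂ n₂).2 (Or.inr rfl)
    have h12 : P₁ n₂ = z₁ := by
      rcases hcom₁ n₂ hnD₂ with h | h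
      · exact absurd (hinf n₂ h h22) hn₂
      · exact h
    have h21 : P₂ n₁ = z₂ := by
      rcases hcom₂ n₁ hnD₁ with h | h
      · exact absurd (hinf n₁ h11 h) hn₁
      · exact h
    apply hinf'
    · rw [map_mul, h11, one_mul, h12, hPz₁]
    · rw [map_mul, h22, mul_one, h21, hPz₂]
  exact ⟨b, z, n₁, n₂, hbA, hbB₁, hbB₂, hkey, hzA, hzz, hzc, by rw [hPz₁]; exact hZ₁,
    by rw [hPz₂]; exact hZ₂, by rw [hPz₁]; exact hz₁, by rw [hPz₂]; exact hz₂, hker₁, hker₂,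
    hn₁, hn₂, hnz, hexa⟩

end Pool.Agent.StarkRQ
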