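import Mathlib

/-!
# Three independent quadratic characters modulo `f`: `f` is not a prime power

If `ψ : (ZMod f)ˣ →* ℤˣ × ℤˣ × ℤˣ` is surjective, then `f` is not a prime power: the units modulo a
prime power have a cyclic subgroup of index at most `2` (the whole group for odd `p`, and the
powers of `5` for `p = 2`), so the image has at most `4` elements.
-/

namespace Pool.Agent.StarkRQ

private lemma PrimePow.aux {G : Type*} [Group G] [Finite G] (ψ : G →* ℤˣ × ℤˣ × ℤˣ)
    (hψ : Function.Surjective ψ) (u : G) : 2 < (Subgroup.zpowers u).index := by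
  by_contra hlt
  have h1 : ((Subgroup.zpowers u).map ψ).index ∣ (Subgroup.zpowers u).index :=
    Subgroup.index_map_dvd _ hψ
  have h2 : (Subgroup.zpowers u).index ≠ 0 := Subgroup.index_ne_zero_of_finite
  have h3 := Nat.le_of_dvd (Nat.pos_of_ne_zero h2) h1
  have h4 : Nat.card ((Subgroup.zpowers u).map ψ) ≤ 2 := by
    rw [MonoidHom.map_zpowers, Nat.card_zpowers]
    refine orderOf_le_of_pow_eq_one (by norm_num) ?_
    have : ∀ x : ℤˣ × ℤˣ × ℤˣ, x ^ 2 = 1 := by decide
    exact this _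
  have h5 := Subgroup.card_mul_index ((Subgroup.zpowers u).map ψ)
  have h6 : Nat.card (ℤˣ × ℤˣ × ℤˣ) = 8 := by
    rw [Nat.card_eq_fintype_card]
    decide
  rw [h6] at h5
  have h7 : Nat.card ((Subgroup.zpowers u).map ψ) * ((Subgroup.zpowers u).map ψ).index ≤ 2 * 2 :=
    Nat.mul_le_mul h4 (h3.trans (by omega))
  omega

private lemma PrimePow.cyclic {G : Type*} [Group G] [Finite G] (ψ : G →* ℤˣ × ℤˣ × ℤˣ)
    (hψ : Function.Surjective ψ) : ¬ IsCyclic G := by
  rintro ⟨g, hg⟩
  have h := PrimePow.aux ψ hψ g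
  have h1 : Subgroup.zpowers g = ⊤ := Subgroup.eq_top_iff' _ |>.2 hg
  rw [h1, Subgroup.index_top] at h
  omega

theorem not_isPrimePow {f : ℕ} [NeZero f] (ψ : (ZMod f)ˣ →* ℤˣ × ℤˣ × ℤˣ)
    (hψ : Function.Surjective ψ) : ¬ IsPrimePow f := by
  rw [isPrimePow_nat_iff]
  rintro ⟨p, k, hp, hk, rfl⟩
  by_cases hp2 : p = 2
  · subst hp2
    by_cases hk2 : k ≤ 2
    · exact PrimePow.cyclic ψ hψ ((ZMod.isCyclic_units_two_pow_iff k).2 hk2)
    · obtain ⟨n, rfl⟩ : ∃ n, k = n + 2 := ⟨k - 2, by omega⟩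
      have h5 := ZMod.orderOf_five n
      have hu : IsUnit (5 : ZMod (2 ^ (n + 2))) := by
        have := (ZMod.isUnit_iff_coprime 5 (2 ^ (n + 2))).2
          (Nat.Coprime.pow_right _ (by decide))
        exact_mod_cast this
      obtain ⟨u, hu⟩ := hu
      have h6 : orderOf u = 2 ^ n := by
        rw [← orderOf_units, hu, h5]
      have h7 := PrimePow.aux ψ hψ u
      have h8 := Subgroup.card_mul_index (Subgroup.zpowers u)
      rw [Nat.card_zpowers, h6, Nat.card_eq_fintype_card, ZMod.card_units_eq_totient,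
        Nat.totient_prime_pow_succ Nat.prime_two] at h8
      have h9 : 2 ^ n * (Subgroup.zpowers u).index = 2 ^ n * 2 := by
        rw [h8]
        ring
      have h10 := Nat.eq_of_mul_eq_mul_left (by positivity) h9
      omega
  · exact PrimePow.cyclic ψ hψ (ZMod.isCyclic_units_of_prime_pow p hp hp2 k)

end Pool.Agent.StarkRQ
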