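import Pool.Agent.StarkRQ.Chars
import Pool.Agent.StarkRQ.PrimePow

/-!
# In the Klein four case `f` is not a prime power
-/

open NumberField Module

namespace Pool.Agent.StarkRQ

lemma exists_unitHom {G : Type*} [Group G] {f : ℕ} [NeZero f] (χ : G →* (ZMod f)ˣ)
    (hχ : Function.Surjective χ) (B : Subgroup G) (hB : B.index = 2) (hker : χ.ker ≤ B) :
    ∃ ψ : (ZMod f)ˣ →* ℤˣ, ∀ g : G, ψ (χ g) = 1 ↔ g ∈ B := by
  obtain ⟨κ, hκ⟩ := exists_kappa χ hχ B hB hker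
  refine ⟨MulChar.toUnitHom κ, fun g => ?_⟩
  rw [← hκ, ← MulChar.coe_toUnitHom, Units.val_eq_one]

lemma exists_three {G : Type*} [Group G] {f : ℕ} [NeZero f] (χ : G →* (ZMod f)ˣ)
    (hχ : Function.Surjective χ) (A B₁ B₂ : Subgroup G) (hA : A.index = 2) (hB₁ : B₁.index = 2)
    (hB₂ : B₂.index = 2) (hkA : χ.ker ≤ A) (hk₁ : χ.ker ≤ B₁) (hk₂ : χ.ker ≤ B₂) {a b c : G}
    (haA : a ∈ A) (ha₁ : a ∈ B₁) (ha₂ : a ∉ B₂) (hbA : b ∉ A) (hb₁ : b ∈ B₁) (hb₂ : b ∈ B₂)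
    (hcA : c ∈ A) (hc₁ : c ∉ B₁) : ¬ IsPrimePow f := by
  obtain ⟨ψ₀, h₀⟩ := exists_unitHom χ hχ A hA hkA
  obtain ⟨ψ₁, h₁⟩ := exists_unitHom χ hχ B₁ hB₁ hk₁
  obtain ⟨ψ₂, h₂⟩ := exists_unitHom χ hχ B₂ hB₂ hk₂
  have hm : ∀ {ψ : (ZMod f)ˣ →* ℤˣ} {B : Subgroup G}, (∀ g : G, ψ (χ g) = 1 ↔ g ∈ B) →
      ∀ {g : G}, g ∉ B → ψ (χ g) = -1 := by
    intro ψ B h g hg
    rcases Int.units_eq_one_or (ψ (χ g)) with h' | h'
    · exact absurd ((h g).1 h') hg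
    · exact h'
  refine not_isPrimePow (ψ₀.prod (ψ₁.prod ψ₂)) ?_
  set ψ := ψ₀.prod (ψ₁.prod ψ₂) with hψ
  have ea : ψ (χ a) = (1, 1, -1) := by
    rw [hψ, MonoidHom.prod_apply, MonoidHom.prod_apply, (h₀ a).2 haA, (h₁ a).2 ha₁, hm h₂ ha₂]
  have eb : ψ (χ b) = (-1, 1, 1) := by
    rw [hψ, MonoidHom.prod_apply, MonoidHom.prod_apply, hm h₀ hbA, (h₁ b).2 hb₁, (h₂ b).2 hb₂]
  obtain ⟨t, ht⟩ : ∃ t, ψ (χ c) = (1, -1, t) := by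
    refine ⟨ψ₂ (χ c), ?_⟩
    rw [hψ, MonoidHom.prod_apply, MonoidHom.prod_apply, (h₀ c).2 hcA, hm h₁ hc₁]
  have htop : ψ.range = ⊤ := by
    rw [eq_top_iff]
    rintro ⟨x, y, v⟩ -
    have ha : ((1, 1, -1) : ℤˣ × ℤˣ × ℤˣ) ∈ ψ.range := ⟨χ a, ea⟩
    have hb : ((-1, 1, 1) : ℤˣ × ℤˣ × ℤˣ) ∈ ψ.range := ⟨χ b, eb⟩
    have hc : ((1, -1, t) : ℤˣ × ℤˣ × ℤˣ) ∈ ψ.range := ⟨χ c, ht⟩
    have hc' : ((1, -1, 1) : ℤˣ × ℤˣ × ℤˣ) ∈ ψ.range := by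
      rcases Int.units_eq_one_or t with rfl | rfl
      · exact hc
      · have := ψ.range.mul_mem hc ha
        simpa using this
    have hx : ((x, 1, 1) : ℤˣ × ℤˣ × ℤˣ) ∈ ψ.range := by
      rcases Int.units_eq_one_or x with rfl | rfl
      · exact ψ.range.one_mem
      · exact hb
    have hy : ((1, y, 1) : ℤˣ × ℤˣ × ℤˣ) ∈ ψ.range := by
      rcases Int.units_eq_one_or y with rfl | rfl
      · exact ψ.range.one_mem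
      · exact hc'
    have hv : ((1, 1, v) : ℤˣ × ℤˣ × ℤˣ) ∈ ψ.range := by
      rcases Int.units_eq_one_or v with rfl | rfl
      · exact ψ.range.one_mem
      · exact ha
    have := ψ.range.mul_mem (ψ.range.mul_mem hx hy) hv
    simpa using this
  exact MonoidHom.range_eq_top.1 htop

/-- the automorphisms fixing `ℚ(ζ)` -/
lemma eq_one_or_of_fix {M : Type*} [Field M] [NumberField M] [IsGalois ℚ M] {f : ℕ} [NeZero f]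
    {ζ : M} (hζ : IsPrimitiveRoot ζ f) (hdeg : finrank ℚ M = 2 * f.totient) {z : Gal(M/ℚ)}
    (hz1 : z ≠ 1) (hz : z ζ = ζ) {g : Gal(M/ℚ)} (hg : g ζ = ζ) : g = 1 ∨ g = z := by
  have h2 := card_fix hζ hdeg
  obtain ⟨y, -, hy2⟩ := (Nat.card_eq_two_iff' (⟨1, rfl⟩ : {g : Gal(M/ℚ) // g ζ = ζ})).1 h2
  by_cases h1 : g = 1
  · exact Or.inl h1
  · right
    have e1 := hy2 ⟨g, hg⟩ (fun h => h1 (congrArg Subtype.val h))
    have e2 := hy2 ⟨z, hz⟩ (fun h => hz1 (congrArg Subtype.val h))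
    exact congrArg Subtype.val (e1.trans e2.symm)

end Pool.Agent.StarkRQ
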