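import Pool.Agent.StarkRQ.ShintaniLit3
import Pool.Agent.CMR.RMain

/-!
# The case of a commutator subgroup of order two, without hypotheses on the moduli of `M/k`
-/

set_option autoImplicit false

noncomputable section

open NumberField Module

namespace Pool.Agent.StarkRQ

theorem shintani_final {M : Type} [Field M] [NumberField M] [IsGalois ℚ M]
    {K k H : Type} [Field K] [NumberField K] [Field k] [NumberField k] [Field H] [NumberField H]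
    [Algebra K M] [Algebra k M] [Algebra K H] [Algebra H M] [IsScalarTower K H M]
    [IsTotallyReal K] [IsTotallyComplex k] (hK : finrank ℚ K = 2) (hk : finrank ℚ k = 2)
    [IsAbelianGalois K M] [IsAbelianGalois k M] (ι : M →+* ℂ)
    (hH : ∀ y : H, (ι (algebraMap H M y)).im = 0)
    {N : ℕ} (hN : 2 ≤ N) (hram : ∀ p : ℕ, p.Prime → (p : ℤ) ∣ discr M → p ∣ N)
    (ι₂ : K →+* ℝ) (hι₂ : ∃ x : K, ((ι₂ x : ℝ) : ℂ) ≠ ι (algebraMap K M x))
    (hmodH : ∀ a : 𝓞 K, (N : 𝓞 K) ∣ a - 1 → 0 < ι₂ (a : K) →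
      HasArtinSymbol (Ideal.span {a}) (1 : Gal(H/K))) :
    ∃ (Z : Gal(H/K) → ℂ → ℂ) (ε : Gal(H/K) → (𝓞 H)ˣ),
      (∀ σ, IsPartialZeta N σ (Z σ) ∧
        ι (algebraMap H M (ε σ : 𝓞 H)) = Complex.exp (-2 * deriv (Z σ) 0)) ∧
      (∀ ρ σ, ρ ((ε σ : 𝓞 H) : H) = ((ε (ρ * σ) : 𝓞 H) : H)) ∧
      (∃ (E : Type) (_ : Field E) (_ : Algebra K E) (_ : Algebra H E) (_ : IsScalarTower K H E),
        IsAbelianGalois K E ∧ ∀ σ, ∃ y : E, y ^ 2 = algebraMap H E ((ε σ : 𝓞 H) : H)) ∧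
      ∀ g : H →+* ℂ, (∃ x : K, g (algebraMap K H x) ≠ ι (algebraMap K M x)) →
        ∀ σ, ‖g ((ε σ : 𝓞 H) : H)‖ = 1 := by
  obtain ⟨a, ha, hm⟩ := CMR.exists_mod (M := M) (k := k) ⟨hk, inferInstance⟩ hN hram
  have hp : ∀ p : ℕ, p.Prime → (p ∣ N ^ a ↔ p ∣ N) := fun p hp =>
    ⟨fun h => hp.dvd_of_dvd_pow h, fun h => h.trans (dvd_pow_self N (by omega))⟩
  have hNa : N ∣ N ^ a := dvd_pow_self N (by omega)
  obtain ⟨Z, ε, h1, h2, h3, h4⟩ := shintani_nomax (k := k) hK hk ι hH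
    (hN.trans (Nat.le_self_pow (by omega) N)) (fun p hp' h => (hram p hp' h).trans hNa) hm.artin
    ι₂ hι₂ (fun α h5 h6 => hmodH α ((Nat.cast_dvd_cast hNa).trans h5) h6)
  exact ⟨Z, ε, fun σ => ⟨CMR.isPartialZeta_congr hp (h1 σ).1, (h1 σ).2⟩, h2, h3, h4⟩

end Pool.Agent.StarkRQ
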