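import Pool.Agent.StarkRQ.Analytic

/-!
# Linear relations between coefficients give linear relations between derivatives at `0`

Proof: as for `deriv_sum_eq` in `Lift2.lean` (identity theorem on `ℂ ∖ {1}`).
-/

open Filter Topology

namespace Pool.Agent.StarkRQ

theorem deriv_lin {J : Type*} (S : Finset J) (q : J → ℂ) (a : J → ℕ → ℂ) (Z : J → ℂ → ℂ)
    (hd : ∀ j ∈ S, DifferentiableOn ℂ (Z j) {1}ᶜ)
    (hs : ∀ j ∈ S, ∀ s : ℂ, 1 < s.re → Z j s = LSeries (a j) s)
    (hsum : ∀ j ∈ S, ∀ s : ℂ, 1 < s.re → LSeriesSummable (a j) s)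
    (h0 : ∀ n : ℕ, n ≠ 0 → ∑ j ∈ S, q j * a j n = 0) :
    ∑ j ∈ S, q j * deriv (Z j) 0 = 0 := by
  have hopen : IsOpen ({1}ᶜ : Set ℂ) := isOpen_compl_singleton
  have hmem : (0 : ℂ) ∈ ({1}ᶜ : Set ℂ) := by simp
  have hWd : DifferentiableOn ℂ (fun s => ∑ j ∈ S, q j * Z j s) {1}ᶜ :=
    DifferentiableOn.fun_sum fun j hj => (hd j hj).const_mul (q j)
  have hW : AnalyticOnNhd ℂ (fun s => ∑ j ∈ S, q j * Z j s) {1}ᶜ :=
    hWd.analyticOnNhd hopen
  have hconn : IsPreconnected ({1}ᶜ : Set ℂ) :=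
    (isConnected_compl_singleton_of_one_lt_rank (by simp) 1).isPreconnected
  have heq : ∀ s : ℂ, 1 < s.re → ∑ j ∈ S, q j * Z j s = 0 := by
    intro s hs1
    have e1 : ∀ j ∈ S, q j * Z j s = ∑' n, q j * LSeries.term (a j) s n := by
      intro j hj
      rw [hs j hj s hs1, LSeries, tsum_mul_left]
    have e2 : ∀ j ∈ S, Summable fun n => q j * LSeries.term (a j) s n := fun j hj =>
      (hsum j hj s hs1).mul_left (q j)
    rw [Finset.sum_congr rfl e1, ← Summable.tsum_finsetSum e2]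
    have e3 : ∀ n, ∑ j ∈ S, q j * LSeries.term (a j) s n = 0 := by
      intro n
      rcases eq_or_ne n 0 with rfl | hn
      · simp
      · simp only [LSeries.term_of_ne_zero hn, mul_div_assoc']
        rw [← Finset.sum_div, h0 n hn, zero_div]
    simp only [e3, tsum_zero]
  have hev : (fun s => ∑ j ∈ S, q j * Z j s) =ᶠ[𝓝 (2 : ℂ)] fun _ => 0 := by
    have ho : IsOpen {s : ℂ | 1 < s.re} := isOpen_lt continuous_const Complex.continuous_re
    filter_upwards [ho.mem_nhds (show (2 : ℂ) ∈ {s : ℂ | 1 < s.re} by simp)] with s hs1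
    exact heq s hs1
  have hall := hW.eqOn_of_preconnected_of_eventuallyEq
    (fun x _ => analyticAt_const) hconn
    (show (2 : ℂ) ∈ ({1}ᶜ : Set ℂ) by simp) hev
  have h0' : (fun s => ∑ j ∈ S, q j * Z j s) =ᶠ[𝓝 (0 : ℂ)] fun _ => 0 := by
    filter_upwards [hopen.mem_nhds hmem] with s hs1
    exact hall hs1
  have hdv := h0'.deriv_eq
  rw [deriv_const] at hdv
  have e2 : deriv (fun s => ∑ j ∈ S, q j * Z j s) 0 = ∑ j ∈ S, q j * deriv (Z j) 0 := by
    refine (HasDerivAt.fun_sum fun j hj => ?_).deriv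
    exact ((hd j hj).differentiableAt (hopen.mem_nhds hmem)).hasDerivAt.const_mul (q j)
  rw [← e2, hdv]

end Pool.Agent.StarkRQ
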