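import Mathlib
import Pool.Agent.StarkRQ.ShintaniLit2

/-!
# Stark's conjecture for real quadratic fields: the case of Shintani
-/

open NumberField Module Pool.Agent.StarkRQ

namespace Pool.Agent.StarkRQ.ShintaniCaseOld

/-- Let `M/ℚ` be Galois, `K` a real and `k` an imaginary quadratic field with `M` abelian over `K`
and over `k`, and let all primes ramified in `M` divide `N ≥ 2`.
Let `K ⊆ H ⊆ M` with `H` real under the embedding `ι` of `M`, let `ι₂` be the other embedding of `K`,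
and let `H` be contained in the ray class field of `K` of modulus `(N)∞₂`. Then the zeta functions
`Z σ` of the classes `σ ∈ Gal(H/K)` for `S = {∞₁, ∞₂, primes dividing N}` exist (as differentiable
functions on `ℂ - {1}`), and there are units `ε σ` of `H`, equal to `exp(-2 ζ'(0, σ))` under `ι`,
permuted by `Gal(H/K)`, with all their square roots in one abelian extension of `K`, and of absolute
value `1` at all embeddings of `H` which differ from `ι` on `K`. -/
theorem result {M : Type} [Field M] [NumberField M] [IsGalois ℚ M]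
    {K k H : Type} [Field K] [NumberField K] [Field k] [NumberField k] [Field H] [NumberField H]
    [Algebra K M] [Algebra k M] [Algebra K H] [Algebra H M] [IsScalarTower K H M]
    [IsTotallyReal K] [IsTotallyComplex k] (hK : finrank ℚ K = 2) (hk : finrank ℚ k = 2)
    [IsAbelianGalois K M] [IsAbelianGalois k M] (ι : M →+* ℂ)
    (hH : ∀ y : H, (ι (algebraMap H M y)).im = 0)
    {N : ℕ} (hN : 2 ≤ N) (hram : ∀ p : ℕ, p.Prime → (p : ℤ) ∣ discr M → p ∣ N)
    (ι₂ : K →+* ℝ) (hι₂ : ∃ x : K, ((ι₂ x : ℝ) : ℂ) ≠ ι (algebraMap K M x))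
    (hmodH : ∀ a : 𝓞 K, (N : 𝓞 K) ∣ a - 1 → 0 < ι₂ (a : K) →
      HasArtinSymbol (Ideal.span {a}) (1 : Gal(H/K))) :
    ∃ (Z : Gal(H/K) → ℂ → ℂ) (ε : Gal(H/K) → (𝓞 H)ˣ),
      (∀ σ, IsPartialZeta N σ (Z σ) ∧
        ι (algebraMap H M (ε σ : 𝓞 H)) = Complex.exp (-2 * deriv (Z σ) 0)) ∧
      (∀ ρ σ, ρ ((ε σ : 𝓞 H) : H) = ((ε (ρ * σ) : 𝓞 H) : H)) ∧
      (∃ (E : Type) (_ : Field E) (_ : Algebra K E) (_ : Algebra H E) (_ : IsScalarTower K H E),
        IsAbelianGalois K E ∧ ∀ σ, ∃ y : E, y ^ 2 = algebraMap H E ((ε σ : 𝓞 H) : H)) ∧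
      ∀ g : H →+* ℂ, (∃ x : K, g (algebraMap K H x) ≠ ι (algebraMap K M x)) →
        ∀ σ, ‖g ((ε σ : 𝓞 H) : H)‖ = 1 :=
  shintani_final hK hk ι hH hN hram ι₂ hι₂ hmodH

end Pool.Agent.StarkRQ.ShintaniCaseOld
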