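import Pool.Agent.StarkRQ.Shintani
import Pool.Agent.CMR.FMain
import Pool.Agent.CMR.Mod
import Pool.Agent.HeckeRQ.Literal
import Pool.Agent.HeckeRQ.ConjS

/-!
# The case of a commutator subgroup of order two, without hypotheses on the abelian subfields
-/

set_option autoImplicit false

noncomputable section

open NumberField Module

namespace Pool.Agent.StarkRQ

theorem shintani_nomax {M : Type} [Field M] [NumberField M] [IsGalois ℚ M]
    {K k H : Type} [Field K] [NumberField K] [Field k] [NumberField k] [Field H] [NumberField H]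
    [Algebra K M] [Algebra k M] [Algebra K H] [Algebra H M] [IsScalarTower K H M]
    [IsTotallyReal K] [IsTotallyComplex k] (hK : finrank ℚ K = 2) (hk : finrank ℚ k = 2)
    [IsAbelianGalois K M] [IsAbelianGalois k M] (ι : M →+* ℂ)
    (hH : ∀ y : H, (ι (algebraMap H M y)).im = 0)
    {N : ℕ} (hN : 2 ≤ N) (hram : ∀ p : ℕ, p.Prime → (p : ℤ) ∣ discr M → p ∣ N)
    (hmod : ∀ a : 𝓞 k, a ≠ 0 → (N : 𝓞 k) ∣ a - 1 →
      HasArtinSymbol (Ideal.span {a}) (1 : Gal(M/k)))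
    (ι₂ : K →+* ℝ) (hι₂ : ∃ x : K, ((ι₂ x : ℝ) : ℂ) ≠ ι (algebraMap K M x))
    (hmodH : ∀ a : 𝓞 K, (N : 𝓞 K) ∣ a - 1 → 0 < ι₂ (a : K) →
      HasArtinSymbol (Ideal.span {a}) (1 : Gal(H/K))) :
    ∃ (Z : Gal(H/K) → ℂ → ℂ) (ε : Gal(H/K) → (𝓞 H)ˣ),
      (∀ σ, IsPartialZeta N σ (Z σ) ∧
        ι (algebraMap H M (ε σ : 𝓞 H)) = Complex.exp (-2 * deriv (Z σ) 0)) ∧
      (∀ ρ σ, ρ ((ε σ : 𝓞 H) : H) = ((ε (ρ * σ) : 𝓞 H) : H)) ∧
      (∃ (E : Type) (_ : Field E) (_ : Algebra K E) (_ : Algebra H E) (_ : IsScalarTower K H E),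
        IsAbelianGalois K E ∧ ∀ σ, ∃ y : E, y ^ 2 = algebraMap H E ((ε σ : 𝓞 H) : H)) ∧
      ∀ g : H →+* ℂ, (∃ x : K, g (algebraMap K H x) ≠ ι (algebraMap K M x)) →
        ∀ σ, ‖g ((ε σ : 𝓞 H) : H)‖ = 1 := by
  have habH : IsAbelianGalois K H := IsAbelianGalois.tower_bot K H M
  have hN0 : N ≠ 0 := by omega
  -- the level `N ^ 2`
  obtain ⟨N', hN'⟩ : ∃ N', N' = N * N := ⟨_, rfl⟩
  have hN'3 : 3 ≤ N' := by nlinarith
  have hN'0 : N' ≠ 0 := by omega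
  have hNN' : N ∣ N' := hN' ▸ Dvd.intro N rfl
  have hcast : ∀ {F : Type} [Field F] [NumberField F] (a : 𝓞 F), (N' : 𝓞 F) ∣ a - 1 →
      (N : 𝓞 F) ∣ a - 1 := fun a h => (Nat.cast_dvd_cast hNN').trans h
  have hp : ∀ p : ℕ, p.Prime → (p ∣ N' ↔ p ∣ N) := by
    intro p hp
    rw [hN', hp.dvd_mul, or_self]
  have hKM : ∀ x : K, ι (algebraMap H M (algebraMap K H x)) = ι (algebraMap K M x) := fun x => by
    rw [← IsScalarTower.algebraMap_apply K H M]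
  have hramH : ∀ p : ℕ, p.Prime → (p : ℤ) ∣ discr H → p ∣ N' := fun p hp' h =>
    (hram p hp' (h.trans (discr_dvd_discr H M))).trans hNN'
  obtain ⟨G, hG, hG'⟩ := HeckeRQ.literal (K := K) (H := H) hK (ι.comp (algebraMap H M)) hH
    (ι₂ := ι₂) (by
      obtain ⟨x, hx⟩ := hι₂
      exact ⟨x, by rw [RingHom.comp_apply, hKM]; exact hx⟩) hN'3 hramH
    (fun α h1 h2 => hmodH α (hcast α h1) h2)
    (fun R' hR' g hg y => HeckeRQ.artin_conj_s (M := M) (k := k) hK hk ι hH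
      (fun p hp' h => (hram p hp' h).trans hNN') hN'0
      (fun a ha h => hmod a ha (hcast a h)) ι₂ hι₂ hR' (by
      obtain ⟨x, hx⟩ := hg
      exact ⟨x, by rw [RingHom.comp_apply, hKM] at hx; exact hx⟩) y)
  obtain ⟨η, hη, -⟩ := CMR.exists_stark_iq (k := k) (M := M) ⟨hk, inferInstance⟩ hN ι
    ⟨hram, hmod⟩
  have hGN : ∀ σ, IsPartialZeta N σ (G σ) := fun σ => CMR.isPartialZeta_congr hp (hG σ)
  obtain ⟨R, ε, h1, h2, h3, h4⟩ := shintani (k := k) hK hk ι hH N hN0 hram η hη G hGN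
  refine ⟨G, ε, fun σ => ⟨hGN σ, ?_⟩, h2, h3, fun g hg => (h4 g hg).2⟩
  have h5 := (hG' R (fun g hg => (h4 g (by
    obtain ⟨x, hx⟩ := hg
    exact ⟨x, by rw [RingHom.comp_apply, hKM] at hx; exact hx⟩)).1) σ).2
  rw [h1]
  congr 1
  linear_combination h5

end Pool.Agent.StarkRQ
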